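import Pool.Agent.Helper54.KA.LiteS
import Pool.Agent.Helper66.KD.A1_d1
import Pool.Agent.Helper66.KD.A1_d2
import Pool.Agent.Helper66.KD.A1_d3
import Pool.Agent.Helper66.KD.A1_d4
import Pool.Agent.Helper66.KD.A1_d5
import Pool.Agent.Helper66.KD.A1_d6

set_option autoImplicit false
set_option maxRecDepth 1000000

/-! # Assembly `A1` -/

namespace Pool.Agent.Helper66.KD

open Pool.Agent.Helper54 Pool.Agent.Helper54.KA

variable {H P : (ℕ → ℝ) → (ℕ → ℝ) → Prop}

/-- boxes from number 0 -/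
def cA1_1_1_0 : List Nat := bA1_1_1_0

lemma aA1_1_1_0 (hC : ∀ z φ, H z φ → Cf z φ) (hd : ∀ L D r, Pool.Agent.Helper66.Kiss.DlG.dlG L 0 D r = true → Good H P L 0) : AGX H P cA1_1_1_0 :=
  (soundL0 ctB_OKL hC tA1_1_1_0)

theorem topA1_1_1 : KL.runX KL.ctB (KL.dlX cA1_1_1_0) (KL.dec 0 0x60 List.nil) 0x3000200000000000000000000000000000000000000000000000000000000000000001800078018000780180007801800078018000780180007801800078018000780180007801800180080488024864a291d [] 0 = true := by decide +kernel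

/-- the root box -/
theorem rootA1_1_1 (hC : ∀ z φ, H z φ → Cf z φ) (hd : ∀ L D r, Pool.Agent.Helper66.Kiss.DlG.dlG L 0 D r = true → Good H P L 0) :
    GoodX H P 0x3000200000000000000000000000000000000000000000000000000000000000000001800078018000780180007801800078018000780180007801800078018000780180007801800180080488024864a291d :=
  soundLT ctB_OKL hC (aA1_1_1_0 hC hd) topA1_1_1

/-- boxes from number 0 -/
def cA1_1_2_0 : List Nat := bA1_1_2_0

lemma aA1_1_2_0 (hC : ∀ z φ, H z φ → Cf z φ) (hd : ∀ L D r, Pool.Agent.Helper66.Kiss.DlG.dlG L 0 D r = true → Good H P L 0) : AGX H P cA1_1_2_0 :=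
  (soundL0 ctB_OKL hC tA1_1_2_0)

theorem topA1_1_2 : KL.runX KL.ctB (KL.dlX cA1_1_2_0) (KL.dec 0 0x60 List.nil) 0x10004000200000000000000000000000000000000000000000000000000000000000000001800078018000780180007801800078018000780180007801800078018000780180018001800180080488024e429c35f [] 0 = true := by decide +kernel

/-- the root box -/
theorem rootA1_1_2 (hC : ∀ z φ, H z φ → Cf z φ) (hd : ∀ L D r, Pool.Agent.Helper66.Kiss.DlG.dlG L 0 D r = true → Good H P L 0) :
    GoodX H P 0x10004000200000000000000000000000000000000000000000000000000000000000000001800078018000780180007801800078018000780180007801800078018000780180018001800180080488024e429c35f :=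
  soundLT ctB_OKL hC (aA1_1_2_0 hC hd) topA1_1_2

/-- boxes from number 0 -/
def cA1_1_3_0 : List Nat := bA1_1_3_0

lemma aA1_1_3_0 (hC : ∀ z φ, H z φ → Cf z φ) (hd : ∀ L D r, Pool.Agent.Helper66.Kiss.DlG.dlG L 0 D r = true → Good H P L 0) : AGX H P cA1_1_3_0 :=
  (soundL0 ctB_OKL hC tA1_1_3_0)

theorem topA1_1_3 : KL.runX KL.ctB (KL.dlX cA1_1_3_0) (KL.dec 0 0x60 List.nil) 0x1000000080002000000000000000000000000000000000000000000000000000000000000000018000780180007801800078018000780180007801800078018000780180018001800078018001800804880249610d28a [] 0 = true := by decide +kernel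

/-- the root box -/
theorem rootA1_1_3 (hC : ∀ z φ, H z φ → Cf z φ) (hd : ∀ L D r, Pool.Agent.Helper66.Kiss.DlG.dlG L 0 D r = true → Good H P L 0) :
    GoodX H P 0x1000000080002000000000000000000000000000000000000000000000000000000000000000018000780180007801800078018000780180007801800078018000780180018001800078018001800804880249610d28a :=
  soundLT ctB_OKL hC (aA1_1_3_0 hC hd) topA1_1_3

/-- boxes from number 0 -/
def cA1_1_4_0 : List Nat := bA1_1_4_0

lemma aA1_1_4_0 (hC : ∀ z φ, H z φ → Cf z φ) (hd : ∀ L D r, Pool.Agent.Helper66.Kiss.DlG.dlG L 0 D r = true → Good H P L 0) : AGX H P cA1_1_4_0 :=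
  (soundL0 ctB_OKL hC tA1_1_4_0)

theorem topA1_1_4 : KL.runX KL.ctB (KL.dlX cA1_1_4_0) (KL.dec 0 0xe00006055900 List.nil) 0x10000000000100002000000000000000000000000000000000000000000000000000000000000000018000780180007801800078018000780180007801800078018001800180007801800078018001800804880249b941594 [] 0 = true := by decide +kernel

/-- the root box -/
theorem rootA1_1_4 (hC : ∀ z φ, H z φ → Cf z φ) (hd : ∀ L D r, Pool.Agent.Helper66.Kiss.DlG.dlG L 0 D r = true → Good H P L 0) :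
    GoodX H P 0x10000000000100002000000000000000000000000000000000000000000000000000000000000000018000780180007801800078018000780180007801800078018001800180007801800078018001800804880249b941594 :=
  soundLT ctB_OKL hC (aA1_1_4_0 hC hd) topA1_1_4

/-- boxes from number 5 -/
def cA1_1_5_5 : List Nat := bA1_1_5_5

lemma aA1_1_5_5 (hC : ∀ z φ, H z φ → Cf z φ) (hd : ∀ L D r, Pool.Agent.Helper66.Kiss.DlG.dlG L 0 D r = true → Good H P L 0) : AGX H P cA1_1_5_5 :=
  (soundL0 ctB_OKL hC tA1_1_5_5)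

/-- boxes from number 4 -/
def cA1_1_5_4 : List Nat := bA1_1_5_4 ++ cA1_1_5_5

lemma aA1_1_5_4 (hC : ∀ z φ, H z φ → Cf z φ) (hd : ∀ L D r, Pool.Agent.Helper66.Kiss.DlG.dlG L 0 D r = true → Good H P L 0) : AGX H P cA1_1_5_4 :=
  AGX_append (soundLP ctB_OKL hC hd tA1_1_5_4) (aA1_1_5_5 hC hd)

/-- boxes from number 3 -/
def cA1_1_5_3 : List Nat := bA1_1_5_3 ++ cA1_1_5_4

lemma aA1_1_5_3 (hC : ∀ z φ, H z φ → Cf z φ) (hd : ∀ L D r, Pool.Agent.Helper66.Kiss.DlG.dlG L 0 D r = true → Good H P L 0) : AGX H P cA1_1_5_3 :=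
  AGX_append (soundLP ctB_OKL hC hd tA1_1_5_3) (aA1_1_5_4 hC hd)

/-- boxes from number 2 -/
def cA1_1_5_2 : List Nat := bA1_1_5_2 ++ cA1_1_5_3

lemma aA1_1_5_2 (hC : ∀ z φ, H z φ → Cf z φ) (hd : ∀ L D r, Pool.Agent.Helper66.Kiss.DlG.dlG L 0 D r = true → Good H P L 0) : AGX H P cA1_1_5_2 :=
  AGX_append (soundLP ctB_OKL hC hd tA1_1_5_2) (aA1_1_5_3 hC hd)

/-- boxes from number 1 -/
def cA1_1_5_1 : List Nat := bA1_1_5_1 ++ cA1_1_5_2

lemma aA1_1_5_1 (hC : ∀ z φ, H z φ → Cf z φ) (hd : ∀ L D r, Pool.Agent.Helper66.Kiss.DlG.dlG L 0 D r = true → Good H P L 0) : AGX H P cA1_1_5_1 :=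
  AGX_append (soundLP ctB_OKL hC hd tA1_1_5_1) (aA1_1_5_2 hC hd)

/-- boxes from number 0 -/
def cA1_1_5_0 : List Nat := bA1_1_5_0 ++ cA1_1_5_1

lemma aA1_1_5_0 (hC : ∀ z φ, H z φ → Cf z φ) (hd : ∀ L D r, Pool.Agent.Helper66.Kiss.DlG.dlG L 0 D r = true → Good H P L 0) : AGX H P cA1_1_5_0 :=
  AGX_append (soundLP ctB_OKL hC hd tA1_1_5_0) (aA1_1_5_1 hC hd)

theorem topA1_1_5 : KL.runX KL.ctB (KL.dlX cA1_1_5_0) (KL.dec 3 0x10e00106000fe000f6000ee000e6000de000d6000ce000c6000be000b6000ae07848000a60783802930029400009e06b980339004030033c0000960008e000860007e00076078480006e07838029400006606b980005e00056023c00004e000460003e02390023c0028d000036078480002e07838000260781803390033c0033b0033a003ed006cd00001e055c8055c000016055b8055b0055a00000e00006055a005598055900 List.nil) 0x1000000000000002000020000000000000000000000000000000000000000000000000000000000000000180007801800078018000780180007801800078018001800180007801800078018000780180018008048802475b271d2 [] 0 = true := by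 decide +kernel

/-- the root box -/
theorem rootA1_1_5 (hC : ∀ z φ, H z φ → Cf z φ) (hd : ∀ L D r, Pool.Agent.Helper66.Kiss.DlG.dlG L 0 D r = true → Good H P L 0) :
    GoodX H P 0x1000000000000002000020000000000000000000000000000000000000000000000000000000000000000180007801800078018000780180007801800078018001800180007801800078018000780180018008048802475b271d2 :=
  soundLT ctB_OKL hC (aA1_1_5_0 hC hd) topA1_1_5

/-- boxes from number 2 -/
def cA1_1_6_2 : List Nat := bA1_1_6_2

lemma aA1_1_6_2 (hC : ∀ z φ, H z φ → Cf z φ) (hd : ∀ L D r, Pool.Agent.Helper66.Kiss.DlG.dlG L 0 D r = true → Good H P L 0) : AGX H P cA1_1_6_2 :=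
  (soundL0 ctB_OKL hC tA1_1_6_2)

/-- boxes from number 1 -/
def cA1_1_6_1 : List Nat := bA1_1_6_1 ++ cA1_1_6_2

lemma aA1_1_6_1 (hC : ∀ z φ, H z φ → Cf z φ) (hd : ∀ L D r, Pool.Agent.Helper66.Kiss.DlG.dlG L 0 D r = true → Good H P L 0) : AGX H P cA1_1_6_1 :=
  AGX_append (soundLP ctB_OKL hC hd tA1_1_6_1) (aA1_1_6_2 hC hd)

/-- boxes from number 0 -/
def cA1_1_6_0 : List Nat := bA1_1_6_0 ++ cA1_1_6_1

lemma aA1_1_6_0 (hC : ∀ z φ, H z φ → Cf z φ) (hd : ∀ L D r, Pool.Agent.Helper66.Kiss.DlG.dlG L 0 D r = true → Good H P L 0) : AGX H P cA1_1_6_0 :=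
  AGX_append (soundL0 ctB_OKL hC tA1_1_6_0) (aA1_1_6_1 hC hd)

theorem topA1_1_6 : KL.runX KL.ctB (KL.dlX cA1_1_6_0) (KL.dec 1 0x560004e000460003e000360002e055a8023a0033a0055a0000260001e000160000e033980339000006055a0055a805598055900 List.nil) 0x10000000000000000004000020000000000000000000000000000000000000000000000000000000000000000180007801800078018000780180007801800180018000780180007801800078018000780180018008048802453fb99e1 [] 0 = true := by decide +kernel

/-- the root box -/
theorem rootA1_1_6 (hC : ∀ z φ, H z φ → Cf z φ) (hd : ∀ L D r, Pool.Agent.Helper66.Kiss.DlG.dlG L 0 D r = true → Good H P L 0) :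
    GoodX H P 0x10000000000000000004000020000000000000000000000000000000000000000000000000000000000000000180007801800078018000780180007801800180018000780180007801800078018000780180018008048802453fb99e1 :=
  soundLT ctB_OKL hC (aA1_1_6_0 hC hd) topA1_1_6

/-- boxes from number 0 -/
def cA1_1_7_0 : List Nat := bA1_1_7_0

lemma aA1_1_7_0 (hC : ∀ z φ, H z φ → Cf z φ) (hd : ∀ L D r, Pool.Agent.Helper66.Kiss.DlG.dlG L 0 D r = true → Good H P L 0) : AGX H P cA1_1_7_0 :=
  (soundL0 ctB_OKL hC tA1_1_7_0)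

theorem topA1_1_7 : KL.runX KL.ctB (KL.dlX cA1_1_7_0) (KL.dec 0 0x160000e0000605598055900 List.nil) 0x10000000000000000000000800002000000000000000000000000000000000000000000000000000000000000000018000780180007801800078018001800180007801800078018000780180007801800078018001800804880242392b0cc [] 0 = true := by decide +kernel

/-- the root box -/
theorem rootA1_1_7 (hC : ∀ z φ, H z φ → Cf z φ) (hd : ∀ L D r, Pool.Agent.Helper66.Kiss.DlG.dlG L 0 D r = true → Good H P L 0) :
    GoodX H P 0x10000000000000000000000800002000000000000000000000000000000000000000000000000000000000000000018000780180007801800078018001800180007801800078018000780180007801800078018001800804880242392b0cc :=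
  soundLT ctB_OKL hC (aA1_1_7_0 hC hd) topA1_1_7

/-- boxes from number 0 -/
def cA1_1_8_0 : List Nat := bA1_1_8_0

lemma aA1_1_8_0 (hC : ∀ z φ, H z φ → Cf z φ) (hd : ∀ L D r, Pool.Agent.Helper66.Kiss.DlG.dlG L 0 D r = true → Good H P L 0) : AGX H P cA1_1_8_0 :=
  (soundL0 ctB_OKL hC tA1_1_8_0)

theorem topA1_1_8 : KL.runX KL.ctB (KL.dlX cA1_1_8_0) (KL.dec 0 0x60 List.nil) 0x10000000000000000000000000100000200000000000000000000000000000000000000000000000000000000000000001800078018000780180018001800078018000780180007801800078018000780180007801800180080488024bac30481 [] 0 = true := by decide +kernel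

/-- the root box -/
theorem rootA1_1_8 (hC : ∀ z φ, H z φ → Cf z φ) (hd : ∀ L D r, Pool.Agent.Helper66.Kiss.DlG.dlG L 0 D r = true → Good H P L 0) :
    GoodX H P 0x10000000000000000000000000100000200000000000000000000000000000000000000000000000000000000000000001800078018000780180018001800078018000780180007801800078018000780180007801800180080488024bac30481 :=
  soundLT ctB_OKL hC (aA1_1_8_0 hC hd) topA1_1_8

/-- boxes from number 0 -/
def cA1_1_9_0 : List Nat := bA1_1_9_0

lemma aA1_1_9_0 (hC : ∀ z φ, H z φ → Cf z φ) (hd : ∀ L D r, Pool.Agent.Helper66.Kiss.DlG.dlG L 0 D r = true → Good H P L 0) : AGX H P cA1_1_9_0 :=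
  (soundL0 ctB_OKL hC tA1_1_9_0)

theorem topA1_1_9 : KL.runX KL.ctB (KL.dlX cA1_1_9_0) (KL.dec 0 0x60 List.nil) 0x100000000000000000000000000000200000200000000000000000000000000000000000000000000000000000000000000001800078018001800180007801800078018000780180007801800078018000780180007801800180080488024050f65fb [] 0 = true := by decide +kernel

/-- the root box -/
theorem rootA1_1_9 (hC : ∀ z φ, H z φ → Cf z φ) (hd : ∀ L D r, Pool.Agent.Helper66.Kiss.DlG.dlG L 0 D r = true → Good H P L 0) :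
    GoodX H P 0x100000000000000000000000000000200000200000000000000000000000000000000000000000000000000000000000000001800078018001800180007801800078018000780180007801800078018000780180007801800180080488024050f65fb :=
  soundLT ctB_OKL hC (aA1_1_9_0 hC hd) topA1_1_9

/-- boxes from number 0 -/
def cA1_1_10_0 : List Nat := bA1_1_10_0

lemma aA1_1_10_0 (hC : ∀ z φ, H z φ → Cf z φ) (hd : ∀ L D r, Pool.Agent.Helper66.Kiss.DlG.dlG L 0 D r = true → Good H P L 0) : AGX H P cA1_1_10_0 :=
  (soundL0 ctB_OKL hC tA1_1_10_0)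

theorem topA1_1_10 : KL.runX KL.ctB (KL.dlX cA1_1_10_0) (KL.dec 0 0x60 List.nil) 0x100000000000000000000000000000000040000020000000000000000000000000000000000000000000000000000000000000000180018001800078018000780180007801800078018000780180007801800078018000780180018008048802421d61e6d [] 0 = true := by decide +kernel

/-- the root box -/
theorem rootA1_1_10 (hC : ∀ z φ, H z φ → Cf z φ) (hd : ∀ L D r, Pool.Agent.Helper66.Kiss.DlG.dlG L 0 D r = true → Good H P L 0) :
    GoodX H P 0x100000000000000000000000000000000040000020000000000000000000000000000000000000000000000000000000000000000180018001800078018000780180007801800078018000780180007801800078018000780180018008048802421d61e6d :=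
  soundLT ctB_OKL hC (aA1_1_10_0 hC hd) topA1_1_10

/-- boxes from number 0 -/
def cA1_2_2_0 : List Nat := bA1_2_2_0

lemma aA1_2_2_0 (hC : ∀ z φ, H z φ → Cf z φ) (hd : ∀ L D r, Pool.Agent.Helper66.Kiss.DlG.dlG L 0 D r = true → Good H P L 0) : AGX H P cA1_2_2_0 :=
  (soundL0 ctB_OKL hC tA1_2_2_0)

theorem topA1_2_2 : KL.runX KL.ctB (KL.dlX cA1_2_2_0) (KL.dec 0 0x60 List.nil) 0x50000000400000000000000000000000000000000000000000000000000000000000000001800078018000780180007801800078018000780180007801800078018000780180018001800078080488024e49788bd [] 0 = true := by decide +kernel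

/-- the root box -/
theorem rootA1_2_2 (hC : ∀ z φ, H z φ → Cf z φ) (hd : ∀ L D r, Pool.Agent.Helper66.Kiss.DlG.dlG L 0 D r = true → Good H P L 0) :
    GoodX H P 0x50000000400000000000000000000000000000000000000000000000000000000000000001800078018000780180007801800078018000780180007801800078018000780180018001800078080488024e49788bd :=
  soundLT ctB_OKL hC (aA1_2_2_0 hC hd) topA1_2_2

/-- boxes from number 0 -/
def cA1_2_3_0 : List Nat := bA1_2_3_0

lemma aA1_2_3_0 (hC : ∀ z φ, H z φ → Cf z φ) (hd : ∀ L D r, Pool.Agent.Helper66.Kiss.DlG.dlG L 0 D r = true → Good H P L 0) : AGX H P cA1_2_3_0 :=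
  (soundL0 ctB_OKL hC tA1_2_3_0)

theorem topA1_2_3 : KL.runX KL.ctB (KL.dlX cA1_2_3_0) (KL.dec 0 0x60 List.nil) 0x100080000000400000000000000000000000000000000000000000000000000000000000000001800078018000780180007801800078018000780180007801800078018001800180018001800078080488024ce2c7c52 [] 0 = true := by decide +kernel

/-- the root box -/
theorem rootA1_2_3 (hC : ∀ z φ, H z φ → Cf z φ) (hd : ∀ L D r, Pool.Agent.Helper66.Kiss.DlG.dlG L 0 D r = true → Good H P L 0) :
    GoodX H P 0x100080000000400000000000000000000000000000000000000000000000000000000000000001800078018000780180007801800078018000780180007801800078018001800180018001800078080488024ce2c7c52 :=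
  soundLT ctB_OKL hC (aA1_2_3_0 hC hd) topA1_2_3

/-- boxes from number 0 -/
def cA1_2_4_0 : List Nat := bA1_2_4_0

lemma aA1_2_4_0 (hC : ∀ z φ, H z φ → Cf z φ) (hd : ∀ L D r, Pool.Agent.Helper66.Kiss.DlG.dlG L 0 D r = true → Good H P L 0) : AGX H P cA1_2_4_0 :=
  (soundL0 ctB_OKL hC tA1_2_4_0)

theorem topA1_2_4 : KL.runX KL.ctB (KL.dlX cA1_2_4_0) (KL.dec 0 0xe00006055880 List.nil) 0x100000010000000040000000000000000000000000000000000000000000000000000000000000000180007801800078018000780180007801800078018000780180018001800078018001800180007808048802443084f35 [] 0 = true := by decide +kernel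

/-- the root box -/
theorem rootA1_2_4 (hC : ∀ z φ, H z φ → Cf z φ) (hd : ∀ L D r, Pool.Agent.Helper66.Kiss.DlG.dlG L 0 D r = true → Good H P L 0) :
    GoodX H P 0x100000010000000040000000000000000000000000000000000000000000000000000000000000000180007801800078018000780180007801800078018000780180018001800078018001800180007808048802443084f35 :=
  soundLT ctB_OKL hC (aA1_2_4_0 hC hd) topA1_2_4

/-- boxes from number 2 -/
def cA1_2_5_2 : List Nat := bA1_2_5_2

lemma aA1_2_5_2 (hC : ∀ z φ, H z φ → Cf z φ) (hd : ∀ L D r, Pool.Agent.Helper66.Kiss.DlG.dlG L 0 D r = true → Good H P L 0) : AGX H P cA1_2_5_2 :=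
  (soundL0 ctB_OKL hC tA1_2_5_2)

/-- boxes from number 1 -/
def cA1_2_5_1 : List Nat := bA1_2_5_1 ++ cA1_2_5_2

lemma aA1_2_5_1 (hC : ∀ z φ, H z φ → Cf z φ) (hd : ∀ L D r, Pool.Agent.Helper66.Kiss.DlG.dlG L 0 D r = true → Good H P L 0) : AGX H P cA1_2_5_1 :=
  AGX_append (soundL0 ctB_OKL hC tA1_2_5_1) (aA1_2_5_2 hC hd)

/-- boxes from number 0 -/
def cA1_2_5_0 : List Nat := bA1_2_5_0 ++ cA1_2_5_1

lemma aA1_2_5_0 (hC : ∀ z φ, H z φ → Cf z φ) (hd : ∀ L D r, Pool.Agent.Helper66.Kiss.DlG.dlG L 0 D r = true → Good H P L 0) : AGX H P cA1_2_5_0 :=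
  AGX_append (soundLP ctB_OKL hC hd tA1_2_5_0) (aA1_2_5_1 hC hd)

theorem topA1_2_5 : KL.runX KL.ctB (KL.dlX cA1_2_5_0) (KL.dec 1 0x4e000460003e055a005598000360002e00026055b0055a00001e000160000e055b8055b000006055a005598055880 List.nil) 0x10000000000200000000400000000000000000000000000000000000000000000000000000000000000001800078018000780180007801800078018000780180018001800078018000780180018001800078080488024fbd7cb1b [] 0 = true := by decide +kernel

/-- the root box -/
theorem rootA1_2_5 (hC : ∀ z φ, H z φ → Cf z φ) (hd : ∀ L D r, Pool.Agent.Helper66.Kiss.DlG.dlG L 0 D r = true → Good H P L 0) :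
    GoodX H P 0x10000000000200000000400000000000000000000000000000000000000000000000000000000000000001800078018000780180007801800078018000780180018001800078018000780180018001800078080488024fbd7cb1b :=
  soundLT ctB_OKL hC (aA1_2_5_0 hC hd) topA1_2_5

/-- boxes from number 8 -/
def cA1_2_6_8 : List Nat := bA1_2_6_8

lemma aA1_2_6_8 (hC : ∀ z φ, H z φ → Cf z φ) (hd : ∀ L D r, Pool.Agent.Helper66.Kiss.DlG.dlG L 0 D r = true → Good H P L 0) : AGX H P cA1_2_6_8 :=
  (soundL0 ctB_OKL hC tA1_2_6_8)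

/-- boxes from number 7 -/
def cA1_2_6_7 : List Nat := bA1_2_6_7 ++ cA1_2_6_8

lemma aA1_2_6_7 (hC : ∀ z φ, H z φ → Cf z φ) (hd : ∀ L D r, Pool.Agent.Helper66.Kiss.DlG.dlG L 0 D r = true → Good H P L 0) : AGX H P cA1_2_6_7 :=
  AGX_append (soundLP ctB_OKL hC hd tA1_2_6_7) (aA1_2_6_8 hC hd)

/-- boxes from number 6 -/
def cA1_2_6_6 : List Nat := bA1_2_6_6 ++ cA1_2_6_7

lemma aA1_2_6_6 (hC : ∀ z φ, H z φ → Cf z φ) (hd : ∀ L D r, Pool.Agent.Helper66.Kiss.DlG.dlG L 0 D r = true → Good H P L 0) : AGX H P cA1_2_6_6 :=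
  AGX_append (soundL0 ctB_OKL hC tA1_2_6_6) (aA1_2_6_7 hC hd)

/-- boxes from number 5 -/
def cA1_2_6_5 : List Nat := bA1_2_6_5 ++ cA1_2_6_6

lemma aA1_2_6_5 (hC : ∀ z φ, H z φ → Cf z φ) (hd : ∀ L D r, Pool.Agent.Helper66.Kiss.DlG.dlG L 0 D r = true → Good H P L 0) : AGX H P cA1_2_6_5 :=
  AGX_append (soundLP ctB_OKL hC hd tA1_2_6_5) (aA1_2_6_6 hC hd)

/-- boxes from number 4 -/
def cA1_2_6_4 : List Nat := bA1_2_6_4 ++ cA1_2_6_5

lemma aA1_2_6_4 (hC : ∀ z φ, H z φ → Cf z φ) (hd : ∀ L D r, Pool.Agent.Helper66.Kiss.DlG.dlG L 0 D r = true → Good H P L 0) : AGX H P cA1_2_6_4 :=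
  AGX_append (soundLP ctB_OKL hC hd tA1_2_6_4) (aA1_2_6_5 hC hd)

/-- boxes from number 3 -/
def cA1_2_6_3 : List Nat := bA1_2_6_3 ++ cA1_2_6_4

lemma aA1_2_6_3 (hC : ∀ z φ, H z φ → Cf z φ) (hd : ∀ L D r, Pool.Agent.Helper66.Kiss.DlG.dlG L 0 D r = true → Good H P L 0) : AGX H P cA1_2_6_3 :=
  AGX_append (soundLP ctB_OKL hC hd tA1_2_6_3) (aA1_2_6_4 hC hd)

/-- boxes from number 2 -/
def cA1_2_6_2 : List Nat := bA1_2_6_2 ++ cA1_2_6_3

lemma aA1_2_6_2 (hC : ∀ z φ, H z φ → Cf z φ) (hd : ∀ L D r, Pool.Agent.Helper66.Kiss.DlG.dlG L 0 D r = true → Good H P L 0) : AGX H P cA1_2_6_2 :=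
  AGX_append (soundLP ctB_OKL hC hd tA1_2_6_2) (aA1_2_6_3 hC hd)

/-- boxes from number 1 -/
def cA1_2_6_1 : List Nat := bA1_2_6_1 ++ cA1_2_6_2

lemma aA1_2_6_1 (hC : ∀ z φ, H z φ → Cf z φ) (hd : ∀ L D r, Pool.Agent.Helper66.Kiss.DlG.dlG L 0 D r = true → Good H P L 0) : AGX H P cA1_2_6_1 :=
  AGX_append (soundLP ctB_OKL hC hd tA1_2_6_1) (aA1_2_6_2 hC hd)

/-- boxes from number 0 -/
def cA1_2_6_0 : List Nat := bA1_2_6_0 ++ cA1_2_6_1

lemma aA1_2_6_0 (hC : ∀ z φ, H z φ → Cf z φ) (hd : ∀ L D r, Pool.Agent.Helper66.Kiss.DlG.dlG L 0 D r = true → Good H P L 0) : AGX H P cA1_2_6_0 :=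
  AGX_append (soundL0 ctB_OKL hC tA1_2_6_0) (aA1_2_6_1 hC hd)

theorem topA1_2_6 : KL.runX KL.ctB (KL.dlX cA1_2_6_0) (KL.dec 3 0x1b6001ae001a6055a0055980019e001960018e001860017e055a8023a0033a0055a0001760016e001660015e001560014e001460013e001360012e001260011e078400294802918029380011606bd004038033a804048040180010e00106000fe000f6000ee000e6000de078500293802948000d606ba0033a804038033c8000ce000c6000be000b6000ae000a6078500009e0784002938029480009606ba004038033c80008e000860007e00076023980006e078200006607850029480005e06bc004048000560004e000460003e02388023b800036078400002e078500002607820033c8033b8033a803398033880001e055d0055c800016055c0055b8055a80000e00006055a8055a005598055880 List.nil) 0x10000000000000040000000040000000000000000000000000000000000000000000000000000000000000000180007801800078018000780180007801800180018000780180007801800078018001800180007808048802497833284 [] 0 = true := by decide +kernel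

/-- the root box -/
theorem rootA1_2_6 (hC : ∀ z φ, H z φ → Cf z φ) (hd : ∀ L D r, Pool.Agent.Helper66.Kiss.DlG.dlG L 0 D r = true → Good H P L 0) :
    GoodX H P 0x10000000000000040000000040000000000000000000000000000000000000000000000000000000000000000180007801800078018000780180007801800180018000780180007801800078018001800180007808048802497833284 :=
  soundLT ctB_OKL hC (aA1_2_6_0 hC hd) topA1_2_6

/-- boxes from number 2 -/
def cA1_2_7_2 : List Nat := bA1_2_7_2

lemma aA1_2_7_2 (hC : ∀ z φ, H z φ → Cf z φ) (hd : ∀ L D r, Pool.Agent.Helper66.Kiss.DlG.dlG L 0 D r = true → Good H P L 0) : AGX H P cA1_2_7_2 :=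
  (soundLP ctB_OKL hC hd tA1_2_7_2)

/-- boxes from number 1 -/
def cA1_2_7_1 : List Nat := bA1_2_7_1 ++ cA1_2_7_2

lemma aA1_2_7_1 (hC : ∀ z φ, H z φ → Cf z φ) (hd : ∀ L D r, Pool.Agent.Helper66.Kiss.DlG.dlG L 0 D r = true → Good H P L 0) : AGX H P cA1_2_7_1 :=
  AGX_append (soundL0 ctB_OKL hC tA1_2_7_1) (aA1_2_7_2 hC hd)

/-- boxes from number 0 -/
def cA1_2_7_0 : List Nat := bA1_2_7_0 ++ cA1_2_7_1

lemma aA1_2_7_0 (hC : ∀ z φ, H z φ → Cf z φ) (hd : ∀ L D r, Pool.Agent.Helper66.Kiss.DlG.dlG L 0 D r = true → Good H P L 0) : AGX H P cA1_2_7_0 :=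
  AGX_append (soundLP ctB_OKL hC hd tA1_2_7_0) (aA1_2_7_1 hC hd)

theorem topA1_2_7 : KL.runX KL.ctB (KL.dlX cA1_2_7_0) (KL.dec 1 0x460003e00036055a0055980002e00026055a00001e000160000e033a8055a800006055a005598055880 List.nil) 0x1000000000000000000800000000400000000000000000000000000000000000000000000000000000000000000001800078018000780180007801800180018000780180007801800078018000780180018001800078080488024e1dec81e [] 0 = true := by decide +kernel

/-- the root box -/
theorem rootA1_2_7 (hC : ∀ z φ, H z φ → Cf z φ) (hd : ∀ L D r, Pool.Agent.Helper66.Kiss.DlG.dlG L 0 D r = true → Good H P L 0) :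
    GoodX H P 0x1000000000000000000800000000400000000000000000000000000000000000000000000000000000000000000001800078018000780180007801800180018000780180007801800078018000780180018001800078080488024e1dec81e :=
  soundLT ctB_OKL hC (aA1_2_7_0 hC hd) topA1_2_7

/-- boxes from number 0 -/
def cA1_2_8_0 : List Nat := bA1_2_8_0

lemma aA1_2_8_0 (hC : ∀ z φ, H z φ → Cf z φ) (hd : ∀ L D r, Pool.Agent.Helper66.Kiss.DlG.dlG L 0 D r = true → Good H P L 0) : AGX H P cA1_2_8_0 :=
  (soundL0 ctB_OKL hC tA1_2_8_0)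

theorem topA1_2_8 : KL.runX KL.ctB (KL.dlX cA1_2_8_0) (KL.dec 0 0x60 List.nil) 0x100000000000000000000010000000004000000000000000000000000000000000000000000000000000000000000000018000780180007801800180018000780180007801800078018000780180007801800180018000780804880246e98193b [] 0 = true := by decide +kernel

/-- the root box -/
theorem rootA1_2_8 (hC : ∀ z φ, H z φ → Cf z φ) (hd : ∀ L D r, Pool.Agent.Helper66.Kiss.DlG.dlG L 0 D r = true → Good H P L 0) :
    GoodX H P 0x100000000000000000000010000000004000000000000000000000000000000000000000000000000000000000000000018000780180007801800180018000780180007801800078018000780180007801800180018000780804880246e98193b :=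
  soundLT ctB_OKL hC (aA1_2_8_0 hC hd) topA1_2_8

/-- boxes from number 0 -/
def cA1_2_9_0 : List Nat := bA1_2_9_0

lemma aA1_2_9_0 (hC : ∀ z φ, H z φ → Cf z φ) (hd : ∀ L D r, Pool.Agent.Helper66.Kiss.DlG.dlG L 0 D r = true → Good H P L 0) : AGX H P cA1_2_9_0 :=
  (soundL0 ctB_OKL hC tA1_2_9_0)

theorem topA1_2_9 : KL.runX KL.ctB (KL.dlX cA1_2_9_0) (KL.dec 0 0x60 List.nil) 0x100000000000000000000000002000000000400000000000000000000000000000000000000000000000000000000000000001800078018001800180007801800078018000780180007801800078018000780180018001800078080488024a3f67576 [] 0 = true := by decide +kernel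

/-- the root box -/
theorem rootA1_2_9 (hC : ∀ z φ, H z φ → Cf z φ) (hd : ∀ L D r, Pool.Agent.Helper66.Kiss.DlG.dlG L 0 D r = true → Good H P L 0) :
    GoodX H P 0x100000000000000000000000002000000000400000000000000000000000000000000000000000000000000000000000000001800078018001800180007801800078018000780180007801800078018000780180018001800078080488024a3f67576 :=
  soundLT ctB_OKL hC (aA1_2_9_0 hC hd) topA1_2_9

/-- boxes from number 0 -/
def cA1_3_3_0 : List Nat := bA1_3_3_0

lemma aA1_3_3_0 (hC : ∀ z φ, H z φ → Cf z φ) (hd : ∀ L D r, Pool.Agent.Helper66.Kiss.DlG.dlG L 0 D r = true → Good H P L 0) : AGX H P cA1_3_3_0 :=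
  (soundL0 ctB_OKL hC tA1_3_3_0)

theorem topA1_3_3 : KL.runX KL.ctB (KL.dlX cA1_3_3_0) (KL.dec 0 0x60 List.nil) 0x900000000000800000000000000000000000000000000000000000000000000000000000000001800078018000780180007801800078018000780180007801800078018001800180007801800078080488024ef84ac72 [] 0 = true := by decide +kernel

/-- the root box -/
theorem rootA1_3_3 (hC : ∀ z φ, H z φ → Cf z φ) (hd : ∀ L D r, Pool.Agent.Helper66.Kiss.DlG.dlG L 0 D r = true → Good H P L 0) :
    GoodX H P 0x900000000000800000000000000000000000000000000000000000000000000000000000000001800078018000780180007801800078018000780180007801800078018001800180007801800078080488024ef84ac72 :=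
  soundLT ctB_OKL hC (aA1_3_3_0 hC hd) topA1_3_3

/-- boxes from number 0 -/
def cA1_3_4_0 : List Nat := bA1_3_4_0

lemma aA1_3_4_0 (hC : ∀ z φ, H z φ → Cf z φ) (hd : ∀ L D r, Pool.Agent.Helper66.Kiss.DlG.dlG L 0 D r = true → Good H P L 0) : AGX H P cA1_3_4_0 :=
  (soundL0 ctB_OKL hC tA1_3_4_0)

theorem topA1_3_4 : KL.runX KL.ctB (KL.dlX cA1_3_4_0) (KL.dec 0 0x60 List.nil) 0x1001000000000000800000000000000000000000000000000000000000000000000000000000000001800078018000780180007801800078018000780180007801800180018001800180007801800078080488024f43eba8d [] 0 = true := by decide +kernel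

/-- the root box -/
theorem rootA1_3_4 (hC : ∀ z φ, H z φ → Cf z φ) (hd : ∀ L D r, Pool.Agent.Helper66.Kiss.DlG.dlG L 0 D r = true → Good H P L 0) :
    GoodX H P 0x1001000000000000800000000000000000000000000000000000000000000000000000000000000001800078018000780180007801800078018000780180007801800180018001800180007801800078080488024f43eba8d :=
  soundLT ctB_OKL hC (aA1_3_4_0 hC hd) topA1_3_4

/-- boxes from number 5 -/
def cA1_3_5_5 : List Nat := bA1_3_5_5

lemma aA1_3_5_5 (hC : ∀ z φ, H z φ → Cf z φ) (hd : ∀ L D r, Pool.Agent.Helper66.Kiss.DlG.dlG L 0 D r = true → Good H P L 0) : AGX H P cA1_3_5_5 :=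
  (soundL0 ctB_OKL hC tA1_3_5_5)

/-- boxes from number 4 -/
def cA1_3_5_4 : List Nat := bA1_3_5_4 ++ cA1_3_5_5

lemma aA1_3_5_4 (hC : ∀ z φ, H z φ → Cf z φ) (hd : ∀ L D r, Pool.Agent.Helper66.Kiss.DlG.dlG L 0 D r = true → Good H P L 0) : AGX H P cA1_3_5_4 :=
  AGX_append (soundLP ctB_OKL hC hd tA1_3_5_4) (aA1_3_5_5 hC hd)

/-- boxes from number 3 -/
def cA1_3_5_3 : List Nat := bA1_3_5_3 ++ cA1_3_5_4

lemma aA1_3_5_3 (hC : ∀ z φ, H z φ → Cf z φ) (hd : ∀ L D r, Pool.Agent.Helper66.Kiss.DlG.dlG L 0 D r = true → Good H P L 0) : AGX H P cA1_3_5_3 :=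
  AGX_append (soundLP ctB_OKL hC hd tA1_3_5_3) (aA1_3_5_4 hC hd)

/-- boxes from number 2 -/
def cA1_3_5_2 : List Nat := bA1_3_5_2 ++ cA1_3_5_3

lemma aA1_3_5_2 (hC : ∀ z φ, H z φ → Cf z φ) (hd : ∀ L D r, Pool.Agent.Helper66.Kiss.DlG.dlG L 0 D r = true → Good H P L 0) : AGX H P cA1_3_5_2 :=
  AGX_append (soundLP ctB_OKL hC hd tA1_3_5_2) (aA1_3_5_3 hC hd)

/-- boxes from number 1 -/
def cA1_3_5_1 : List Nat := bA1_3_5_1 ++ cA1_3_5_2

lemma aA1_3_5_1 (hC : ∀ z φ, H z φ → Cf z φ) (hd : ∀ L D r, Pool.Agent.Helper66.Kiss.DlG.dlG L 0 D r = true → Good H P L 0) : AGX H P cA1_3_5_1 :=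
  AGX_append (soundL0 ctB_OKL hC tA1_3_5_1) (aA1_3_5_2 hC hd)

/-- boxes from number 0 -/
def cA1_3_5_0 : List Nat := bA1_3_5_0 ++ cA1_3_5_1

lemma aA1_3_5_0 (hC : ∀ z φ, H z φ → Cf z φ) (hd : ∀ L D r, Pool.Agent.Helper66.Kiss.DlG.dlG L 0 D r = true → Good H P L 0) : AGX H P cA1_3_5_0 :=
  AGX_append (soundL0 ctB_OKL hC tA1_3_5_0) (aA1_3_5_1 hC hd)

theorem topA1_3_5 : KL.runX KL.ctB (KL.dlX cA1_3_5_0) (KL.dec 2 0xe6000de000d6000ce000c6000be000b6000ae000a60009e000960008e023b0030d000086078080007e078480007607838033b003390033c00006e000660005e000560004e00046023a0028d00003e0784800036078080002e0783803390033c0033b0033a003ed006cd000026055c8055c00001e055b8055b0055a005590000160000e00006055a005590055880 List.nil) 0x10000002000000000000800000000000000000000000000000000000000000000000000000000000000001800078018000780180007801800078018000780180018001800078018001800180007801800078080488024ccba8fed [] 0 = true := by decide +kernel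

/-- the root box -/
theorem rootA1_3_5 (hC : ∀ z φ, H z φ → Cf z φ) (hd : ∀ L D r, Pool.Agent.Helper66.Kiss.DlG.dlG L 0 D r = true → Good H P L 0) :
    GoodX H P 0x10000002000000000000800000000000000000000000000000000000000000000000000000000000000001800078018000780180007801800078018000780180018001800078018001800180007801800078080488024ccba8fed :=
  soundLT ctB_OKL hC (aA1_3_5_0 hC hd) topA1_3_5

/-- boxes from number 4 -/
def cA1_3_6_4 : List Nat := bA1_3_6_4

lemma aA1_3_6_4 (hC : ∀ z φ, H z φ → Cf z φ) (hd : ∀ L D r, Pool.Agent.Helper66.Kiss.DlG.dlG L 0 D r = true → Good H P L 0) : AGX H P cA1_3_6_4 :=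
  (soundL0 ctB_OKL hC tA1_3_6_4)

/-- boxes from number 3 -/
def cA1_3_6_3 : List Nat := bA1_3_6_3 ++ cA1_3_6_4

lemma aA1_3_6_3 (hC : ∀ z φ, H z φ → Cf z φ) (hd : ∀ L D r, Pool.Agent.Helper66.Kiss.DlG.dlG L 0 D r = true → Good H P L 0) : AGX H P cA1_3_6_3 :=
  AGX_append (soundLP ctB_OKL hC hd tA1_3_6_3) (aA1_3_6_4 hC hd)

/-- boxes from number 2 -/
def cA1_3_6_2 : List Nat := bA1_3_6_2 ++ cA1_3_6_3

lemma aA1_3_6_2 (hC : ∀ z φ, H z φ → Cf z φ) (hd : ∀ L D r, Pool.Agent.Helper66.Kiss.DlG.dlG L 0 D r = true → Good H P L 0) : AGX H P cA1_3_6_2 :=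
  AGX_append (soundLP ctB_OKL hC hd tA1_3_6_2) (aA1_3_6_3 hC hd)

/-- boxes from number 1 -/
def cA1_3_6_1 : List Nat := bA1_3_6_1 ++ cA1_3_6_2

lemma aA1_3_6_1 (hC : ∀ z φ, H z φ → Cf z φ) (hd : ∀ L D r, Pool.Agent.Helper66.Kiss.DlG.dlG L 0 D r = true → Good H P L 0) : AGX H P cA1_3_6_1 :=
  AGX_append (soundLP ctB_OKL hC hd tA1_3_6_1) (aA1_3_6_2 hC hd)

/-- boxes from number 0 -/
def cA1_3_6_0 : List Nat := bA1_3_6_0 ++ cA1_3_6_1

lemma aA1_3_6_0 (hC : ∀ z φ, H z φ → Cf z φ) (hd : ∀ L D r, Pool.Agent.Helper66.Kiss.DlG.dlG L 0 D r = true → Good H P L 0) : AGX H P cA1_3_6_0 :=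
  AGX_append (soundLP ctB_OKL hC hd tA1_3_6_0) (aA1_3_6_1 hC hd)

theorem topA1_3_6 : KL.runX KL.ctB (KL.dlX cA1_3_6_0) (KL.dec 1 0x560004e000460003e00036055b8055a8055a0055900002e000260001e00016055b8055a8055a00000e00006055a005590055880 List.nil) 0x100000000004000000000000800000000000000000000000000000000000000000000000000000000000000001800078018000780180007801800078018001800180007801800078018001800180007801800078080488024a7beaa40 [] 0 = true := by decide +kernel

/-- the root box -/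
theorem rootA1_3_6 (hC : ∀ z φ, H z φ → Cf z φ) (hd : ∀ L D r, Pool.Agent.Helper66.Kiss.DlG.dlG L 0 D r = true → Good H P L 0) :
    GoodX H P 0x100000000004000000000000800000000000000000000000000000000000000000000000000000000000000001800078018000780180007801800078018001800180007801800078018001800180007801800078080488024a7beaa40 :=
  soundLT ctB_OKL hC (aA1_3_6_0 hC hd) topA1_3_6

/-- boxes from number 9 -/
def cA1_3_7_9 : List Nat := bA1_3_7_9

lemma aA1_3_7_9 (hC : ∀ z φ, H z φ → Cf z φ) (hd : ∀ L D r, Pool.Agent.Helper66.Kiss.DlG.dlG L 0 D r = true → Good H P L 0) : AGX H P cA1_3_7_9 :=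
  (soundL0 ctB_OKL hC tA1_3_7_9)

/-- boxes from number 8 -/
def cA1_3_7_8 : List Nat := bA1_3_7_8 ++ cA1_3_7_9

lemma aA1_3_7_8 (hC : ∀ z φ, H z φ → Cf z φ) (hd : ∀ L D r, Pool.Agent.Helper66.Kiss.DlG.dlG L 0 D r = true → Good H P L 0) : AGX H P cA1_3_7_8 :=
  AGX_append (soundLP ctB_OKL hC hd tA1_3_7_8) (aA1_3_7_9 hC hd)

/-- boxes from number 7 -/
def cA1_3_7_7 : List Nat := bA1_3_7_7 ++ cA1_3_7_8

lemma aA1_3_7_7 (hC : ∀ z φ, H z φ → Cf z φ) (hd : ∀ L D r, Pool.Agent.Helper66.Kiss.DlG.dlG L 0 D r = true → Good H P L 0) : AGX H P cA1_3_7_7 :=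
  AGX_append (soundLP ctB_OKL hC hd tA1_3_7_7) (aA1_3_7_8 hC hd)

/-- boxes from number 6 -/
def cA1_3_7_6 : List Nat := bA1_3_7_6 ++ cA1_3_7_7

lemma aA1_3_7_6 (hC : ∀ z φ, H z φ → Cf z φ) (hd : ∀ L D r, Pool.Agent.Helper66.Kiss.DlG.dlG L 0 D r = true → Good H P L 0) : AGX H P cA1_3_7_6 :=
  AGX_append (soundLP ctB_OKL hC hd tA1_3_7_6) (aA1_3_7_7 hC hd)

/-- boxes from number 5 -/
def cA1_3_7_5 : List Nat := bA1_3_7_5 ++ cA1_3_7_6

lemma aA1_3_7_5 (hC : ∀ z φ, H z φ → Cf z φ) (hd : ∀ L D r, Pool.Agent.Helper66.Kiss.DlG.dlG L 0 D r = true → Good H P L 0) : AGX H P cA1_3_7_5 :=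
  AGX_append (soundLP ctB_OKL hC hd tA1_3_7_5) (aA1_3_7_6 hC hd)

/-- boxes from number 4 -/
def cA1_3_7_4 : List Nat := bA1_3_7_4 ++ cA1_3_7_5

lemma aA1_3_7_4 (hC : ∀ z φ, H z φ → Cf z φ) (hd : ∀ L D r, Pool.Agent.Helper66.Kiss.DlG.dlG L 0 D r = true → Good H P L 0) : AGX H P cA1_3_7_4 :=
  AGX_append (soundLP ctB_OKL hC hd tA1_3_7_4) (aA1_3_7_5 hC hd)

/-- boxes from number 3 -/
def cA1_3_7_3 : List Nat := bA1_3_7_3 ++ cA1_3_7_4

lemma aA1_3_7_3 (hC : ∀ z φ, H z φ → Cf z φ) (hd : ∀ L D r, Pool.Agent.Helper66.Kiss.DlG.dlG L 0 D r = true → Good H P L 0) : AGX H P cA1_3_7_3 :=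
  AGX_append (soundLP ctB_OKL hC hd tA1_3_7_3) (aA1_3_7_4 hC hd)

/-- boxes from number 2 -/
def cA1_3_7_2 : List Nat := bA1_3_7_2 ++ cA1_3_7_3

lemma aA1_3_7_2 (hC : ∀ z φ, H z φ → Cf z φ) (hd : ∀ L D r, Pool.Agent.Helper66.Kiss.DlG.dlG L 0 D r = true → Good H P L 0) : AGX H P cA1_3_7_2 :=
  AGX_append (soundLP ctB_OKL hC hd tA1_3_7_2) (aA1_3_7_3 hC hd)

/-- boxes from number 1 -/
def cA1_3_7_1 : List Nat := bA1_3_7_1 ++ cA1_3_7_2

lemma aA1_3_7_1 (hC : ∀ z φ, H z φ → Cf z φ) (hd : ∀ L D r, Pool.Agent.Helper66.Kiss.DlG.dlG L 0 D r = true → Good H P L 0) : AGX H P cA1_3_7_1 :=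
  AGX_append (soundLP ctB_OKL hC hd tA1_3_7_1) (aA1_3_7_2 hC hd)

/-- boxes from number 0 -/
def cA1_3_7_0 : List Nat := bA1_3_7_0 ++ cA1_3_7_1

lemma aA1_3_7_0 (hC : ∀ z φ, H z φ → Cf z φ) (hd : ∀ L D r, Pool.Agent.Helper66.Kiss.DlG.dlG L 0 D r = true → Good H P L 0) : AGX H P cA1_3_7_0 :=
  AGX_append (soundL0 ctB_OKL hC tA1_3_7_0) (aA1_3_7_1 hC hd)

theorem topA1_3_7 : KL.runX KL.ctB (KL.dlX cA1_3_7_0) (KL.dec 3 0x1ce001c6001be001b6001ae001a60019e001960018e001860017e001760016e023c0028d000166078280015e07848029200015606b88033b0033c0040200014e001460013e001360012e0012602390028d00011e078080011607828029300010e06bc8033a00403000106000fe000f6000ee000e6000de023900275004ab0000d607808000ce07848033a0000c606ba8030d0000be000b6000ae000a60009e023900275004aa000096078080008e078480008606ba8030d00007e00076023900006e000660005e023b0023c0028d000056078480004e078080004607828033a0033b0033c00339003ed006cd00003e055c8055c0055b000036055a8055a0055900002e000260001e055a8055a0000160000e00006055a8055a005590055880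 List.nil) 0x100000000000000800000000000080000000000000000000000000000000000000000000000000000000000000000180007801800078018000780180018001800078018000780180007801800180018000780180007808048802470cba5b3 [] 0 = true := by decide +kernel

/-- the root box -/
theorem rootA1_3_7 (hC : ∀ z φ, H z φ → Cf z φ) (hd : ∀ L D r, Pool.Agent.Helper66.Kiss.DlG.dlG L 0 D r = true → Good H P L 0) :
    GoodX H P 0x100000000000000800000000000080000000000000000000000000000000000000000000000000000000000000000180007801800078018000780180018001800078018000780180007801800180018000780180007808048802470cba5b3 :=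
  soundLT ctB_OKL hC (aA1_3_7_0 hC hd) topA1_3_7

/-- boxes from number 2 -/
def cA1_3_8_2 : List Nat := bA1_3_8_2

lemma aA1_3_8_2 (hC : ∀ z φ, H z φ → Cf z φ) (hd : ∀ L D r, Pool.Agent.Helper66.Kiss.DlG.dlG L 0 D r = true → Good H P L 0) : AGX H P cA1_3_8_2 :=
  (soundLP ctB_OKL hC hd tA1_3_8_2)

/-- boxes from number 1 -/
def cA1_3_8_1 : List Nat := bA1_3_8_1 ++ cA1_3_8_2

lemma aA1_3_8_1 (hC : ∀ z φ, H z φ → Cf z φ) (hd : ∀ L D r, Pool.Agent.Helper66.Kiss.DlG.dlG L 0 D r = true → Good H P L 0) : AGX H P cA1_3_8_1 :=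
  AGX_append (soundLP ctB_OKL hC hd tA1_3_8_1) (aA1_3_8_2 hC hd)

/-- boxes from number 0 -/
def cA1_3_8_0 : List Nat := bA1_3_8_0 ++ cA1_3_8_1

lemma aA1_3_8_0 (hC : ∀ z φ, H z φ → Cf z φ) (hd : ∀ L D r, Pool.Agent.Helper66.Kiss.DlG.dlG L 0 D r = true → Good H P L 0) : AGX H P cA1_3_8_0 :=
  AGX_append (soundLP ctB_OKL hC hd tA1_3_8_0) (aA1_3_8_1 hC hd)

theorem topA1_3_8 : KL.runX KL.ctB (KL.dlX cA1_3_8_0) (KL.dec 1 0x4e000460003e00036055b00002e055a8055a005590000260001e00016055a8055a00000e00006055a005590055880 List.nil) 0x10000000000000000010000000000000800000000000000000000000000000000000000000000000000000000000000001800078018000780180018001800078018000780180007801800078018001800180007801800078080488024fae7c278 [] 0 = true := by decide +kernel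

/-- the root box -/
theorem rootA1_3_8 (hC : ∀ z φ, H z φ → Cf z φ) (hd : ∀ L D r, Pool.Agent.Helper66.Kiss.DlG.dlG L 0 D r = true → Good H P L 0) :
    GoodX H P 0x10000000000000000010000000000000800000000000000000000000000000000000000000000000000000000000000001800078018000780180018001800078018000780180007801800078018001800180007801800078080488024fae7c278 :=
  soundLT ctB_OKL hC (aA1_3_8_0 hC hd) topA1_3_8

/-- boxes from number 1 -/
def cA1_4_4_1 : List Nat := bA1_4_4_1

lemma aA1_4_4_1 (hC : ∀ z φ, H z φ → Cf z φ) (hd : ∀ L D r, Pool.Agent.Helper66.Kiss.DlG.dlG L 0 D r = true → Good H P L 0) : AGX H P cA1_4_4_1 :=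
  (soundL0 ctB_OKL hC tA1_4_4_1)

/-- boxes from number 0 -/
def cA1_4_4_0 : List Nat := bA1_4_4_0 ++ cA1_4_4_1

lemma aA1_4_4_0 (hC : ∀ z φ, H z φ → Cf z φ) (hd : ∀ L D r, Pool.Agent.Helper66.Kiss.DlG.dlG L 0 D r = true → Good H P L 0) : AGX H P cA1_4_4_0 :=
  AGX_append (soundL0 ctB_OKL hC tA1_4_4_0) (aA1_4_4_1 hC hd)

theorem topA1_4_4 : KL.runX KL.ctB (KL.dlX cA1_4_4_0) (KL.dec 0 0x1e00016055900000e0000605590055880 List.nil) 0x1100000000000000100000000000000000000000000000000000000000000000000000000000000000180007801800078018000780180007801800078018000780180018001800078018000780180007808048802470b38a39 [] 0 = true := by decide +kernel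

/-- the root box -/
theorem rootA1_4_4 (hC : ∀ z φ, H z φ → Cf z φ) (hd : ∀ L D r, Pool.Agent.Helper66.Kiss.DlG.dlG L 0 D r = true → Good H P L 0) :
    GoodX H P 0x1100000000000000100000000000000000000000000000000000000000000000000000000000000000180007801800078018000780180007801800078018000780180018001800078018000780180007808048802470b38a39 :=
  soundLT ctB_OKL hC (aA1_4_4_0 hC hd) topA1_4_4

/-- boxes from number 1 -/
def cA1_4_5_1 : List Nat := bA1_4_5_1

lemma aA1_4_5_1 (hC : ∀ z φ, H z φ → Cf z φ) (hd : ∀ L D r, Pool.Agent.Helper66.Kiss.DlG.dlG L 0 D r = true → Good H P L 0) : AGX H P cA1_4_5_1 :=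
  (soundLP ctB_OKL hC hd tA1_4_5_1)

/-- boxes from number 0 -/
def cA1_4_5_0 : List Nat := bA1_4_5_0 ++ cA1_4_5_1

lemma aA1_4_5_0 (hC : ∀ z φ, H z φ → Cf z φ) (hd : ∀ L D r, Pool.Agent.Helper66.Kiss.DlG.dlG L 0 D r = true → Good H P L 0) : AGX H P cA1_4_5_0 :=
  AGX_append (soundL0 ctB_OKL hC tA1_4_5_0) (aA1_4_5_1 hC hd)

theorem topA1_4_5 : KL.runX KL.ctB (KL.dlX cA1_4_5_0) (KL.dec 0 0x1e00016055900000e0000605590055880 List.nil) 0x10020000000000000001000000000000000000000000000000000000000000000000000000000000000001800078018000780180007801800078018000780180018001800180018000780180007801800078080488024a2cd4675 [] 0 = true := by decide +kernel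

/-- the root box -/
theorem rootA1_4_5 (hC : ∀ z φ, H z φ → Cf z φ) (hd : ∀ L D r, Pool.Agent.Helper66.Kiss.DlG.dlG L 0 D r = true → Good H P L 0) :
    GoodX H P 0x10020000000000000001000000000000000000000000000000000000000000000000000000000000000001800078018000780180007801800078018000780180018001800180018000780180007801800078080488024a2cd4675 :=
  soundLT ctB_OKL hC (aA1_4_5_0 hC hd) topA1_4_5

/-- boxes from number 6 -/
def cA1_4_6_6 : List Nat := bA1_4_6_6

lemma aA1_4_6_6 (hC : ∀ z φ, H z φ → Cf z φ) (hd : ∀ L D r, Pool.Agent.Helper66.Kiss.DlG.dlG L 0 D r = true → Good H P L 0) : AGX H P cA1_4_6_6 :=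
  (soundL0 ctB_OKL hC tA1_4_6_6)

/-- boxes from number 5 -/
def cA1_4_6_5 : List Nat := bA1_4_6_5 ++ cA1_4_6_6

lemma aA1_4_6_5 (hC : ∀ z φ, H z φ → Cf z φ) (hd : ∀ L D r, Pool.Agent.Helper66.Kiss.DlG.dlG L 0 D r = true → Good H P L 0) : AGX H P cA1_4_6_5 :=
  AGX_append (soundL0 ctB_OKL hC tA1_4_6_5) (aA1_4_6_6 hC hd)

/-- boxes from number 4 -/
def cA1_4_6_4 : List Nat := bA1_4_6_4 ++ cA1_4_6_5

lemma aA1_4_6_4 (hC : ∀ z φ, H z φ → Cf z φ) (hd : ∀ L D r, Pool.Agent.Helper66.Kiss.DlG.dlG L 0 D r = true → Good H P L 0) : AGX H P cA1_4_6_4 :=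
  AGX_append (soundLP ctB_OKL hC hd tA1_4_6_4) (aA1_4_6_5 hC hd)

/-- boxes from number 3 -/
def cA1_4_6_3 : List Nat := bA1_4_6_3 ++ cA1_4_6_4

lemma aA1_4_6_3 (hC : ∀ z φ, H z φ → Cf z φ) (hd : ∀ L D r, Pool.Agent.Helper66.Kiss.DlG.dlG L 0 D r = true → Good H P L 0) : AGX H P cA1_4_6_3 :=
  AGX_append (soundLP ctB_OKL hC hd tA1_4_6_3) (aA1_4_6_4 hC hd)

/-- boxes from number 2 -/
def cA1_4_6_2 : List Nat := bA1_4_6_2 ++ cA1_4_6_3

lemma aA1_4_6_2 (hC : ∀ z φ, H z φ → Cf z φ) (hd : ∀ L D r, Pool.Agent.Helper66.Kiss.DlG.dlG L 0 D r = true → Good H P L 0) : AGX H P cA1_4_6_2 :=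
  AGX_append (soundLP ctB_OKL hC hd tA1_4_6_2) (aA1_4_6_3 hC hd)

/-- boxes from number 1 -/
def cA1_4_6_1 : List Nat := bA1_4_6_1 ++ cA1_4_6_2

lemma aA1_4_6_1 (hC : ∀ z φ, H z φ → Cf z φ) (hd : ∀ L D r, Pool.Agent.Helper66.Kiss.DlG.dlG L 0 D r = true → Good H P L 0) : AGX H P cA1_4_6_1 :=
  AGX_append (soundLP ctB_OKL hC hd tA1_4_6_1) (aA1_4_6_2 hC hd)

/-- boxes from number 0 -/
def cA1_4_6_0 : List Nat := bA1_4_6_0 ++ cA1_4_6_1

lemma aA1_4_6_0 (hC : ∀ z φ, H z φ → Cf z φ) (hd : ∀ L D r, Pool.Agent.Helper66.Kiss.DlG.dlG L 0 D r = true → Good H P L 0) : AGX H P cA1_4_6_0 :=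
  AGX_append (soundLP ctB_OKL hC hd tA1_4_6_0) (aA1_4_6_1 hC hd)

theorem topA1_4_6 : KL.runX KL.ctB (KL.dlX cA1_4_6_0) (KL.dec 3 0x13e001360012e001260011e055b8055a80559805590001160010e00106000fe000f6000ee000e6000de000d6000ce000c602388023c8000be07810000b607840000ae07850033b80339803388033c8000a60009e000960008e000860007e078500294803398040480007606bc0033880006e000660005e00056078500004e06b90000460003e00036023b8023880002e0781000026078500001e078400339803388033c8033b8033a800016055d0055c80000e055c0055b8055a8055980000605590055880 List.nil) 0x10000004000000000000000100000000000000000000000000000000000000000000000000000000000000000180007801800078018000780180007801800180018000780180018001800078018000780180007808048802430bc9d85 [] 0 = true := by decide +kernel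

/-- the root box -/
theorem rootA1_4_6 (hC : ∀ z φ, H z φ → Cf z φ) (hd : ∀ L D r, Pool.Agent.Helper66.Kiss.DlG.dlG L 0 D r = true → Good H P L 0) :
    GoodX H P 0x10000004000000000000000100000000000000000000000000000000000000000000000000000000000000000180007801800078018000780180007801800180018000780180018001800078018000780180007808048802430bc9d85 :=
  soundLT ctB_OKL hC (aA1_4_6_0 hC hd) topA1_4_6

/-- boxes from number 4 -/
def cA1_4_7_4 : List Nat := bA1_4_7_4

lemma aA1_4_7_4 (hC : ∀ z φ, H z φ → Cf z φ) (hd : ∀ L D r, Pool.Agent.Helper66.Kiss.DlG.dlG L 0 D r = true → Good H P L 0) : AGX H P cA1_4_7_4 :=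
  (soundL0 ctB_OKL hC tA1_4_7_4)

/-- boxes from number 3 -/
def cA1_4_7_3 : List Nat := bA1_4_7_3 ++ cA1_4_7_4

lemma aA1_4_7_3 (hC : ∀ z φ, H z φ → Cf z φ) (hd : ∀ L D r, Pool.Agent.Helper66.Kiss.DlG.dlG L 0 D r = true → Good H P L 0) : AGX H P cA1_4_7_3 :=
  AGX_append (soundLP ctB_OKL hC hd tA1_4_7_3) (aA1_4_7_4 hC hd)

/-- boxes from number 2 -/
def cA1_4_7_2 : List Nat := bA1_4_7_2 ++ cA1_4_7_3

lemma aA1_4_7_2 (hC : ∀ z φ, H z φ → Cf z φ) (hd : ∀ L D r, Pool.Agent.Helper66.Kiss.DlG.dlG L 0 D r = true → Good H P L 0) : AGX H P cA1_4_7_2 :=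
  AGX_append (soundLP ctB_OKL hC hd tA1_4_7_2) (aA1_4_7_3 hC hd)

/-- boxes from number 1 -/
def cA1_4_7_1 : List Nat := bA1_4_7_1 ++ cA1_4_7_2

lemma aA1_4_7_1 (hC : ∀ z φ, H z φ → Cf z φ) (hd : ∀ L D r, Pool.Agent.Helper66.Kiss.DlG.dlG L 0 D r = true → Good H P L 0) : AGX H P cA1_4_7_1 :=
  AGX_append (soundLP ctB_OKL hC hd tA1_4_7_1) (aA1_4_7_2 hC hd)

/-- boxes from number 0 -/
def cA1_4_7_0 : List Nat := bA1_4_7_0 ++ cA1_4_7_1

lemma aA1_4_7_0 (hC : ∀ z φ, H z φ → Cf z φ) (hd : ∀ L D r, Pool.Agent.Helper66.Kiss.DlG.dlG L 0 D r = true → Good H P L 0) : AGX H P cA1_4_7_0 :=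
  AGX_append (soundLP ctB_OKL hC hd tA1_4_7_0) (aA1_4_7_1 hC hd)

theorem topA1_4_7 : KL.runX KL.ctB (KL.dlX cA1_4_7_0) (KL.dec 1 0x5e000560004e00046055b0055a80003e00036055a805598055900002e000260001e000160000e055c0055b0055a8055980000605590055880 List.nil) 0x10000000000800000000000000010000000000000000000000000000000000000000000000000000000000000000018000780180007801800078018001800180007801800078018001800180007801800078018000780804880245fa0126d [] 0 = true := by decide +kernel

/-- the root box -/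
theorem rootA1_4_7 (hC : ∀ z φ, H z φ → Cf z φ) (hd : ∀ L D r, Pool.Agent.Helper66.Kiss.DlG.dlG L 0 D r = true → Good H P L 0) :
    GoodX H P 0x10000000000800000000000000010000000000000000000000000000000000000000000000000000000000000000018000780180007801800078018001800180007801800078018001800180007801800078018000780804880245fa0126d :=
  soundLT ctB_OKL hC (aA1_4_7_0 hC hd) topA1_4_7

/-- boxes from number 15 -/
def cA1_5_5_15 : List Nat := bA1_5_5_15

lemma aA1_5_5_15 (hC : ∀ z φ, H z φ → Cf z φ) (hd : ∀ L D r, Pool.Agent.Helper66.Kiss.DlG.dlG L 0 D r = true → Good H P L 0) : AGX H P cA1_5_5_15 :=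
  (soundL0 ctB_OKL hC tA1_5_5_15)

/-- boxes from number 14 -/
def cA1_5_5_14 : List Nat := bA1_5_5_14 ++ cA1_5_5_15

lemma aA1_5_5_14 (hC : ∀ z φ, H z φ → Cf z φ) (hd : ∀ L D r, Pool.Agent.Helper66.Kiss.DlG.dlG L 0 D r = true → Good H P L 0) : AGX H P cA1_5_5_14 :=
  AGX_append (soundL0 ctB_OKL hC tA1_5_5_14) (aA1_5_5_15 hC hd)

/-- boxes from number 13 -/
def cA1_5_5_13 : List Nat := bA1_5_5_13 ++ cA1_5_5_14

lemma aA1_5_5_13 (hC : ∀ z φ, H z φ → Cf z φ) (hd : ∀ L D r, Pool.Agent.Helper66.Kiss.DlG.dlG L 0 D r = true → Good H P L 0) : AGX H P cA1_5_5_13 :=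
  AGX_append (soundLP ctB_OKL hC hd tA1_5_5_13) (aA1_5_5_14 hC hd)

/-- boxes from number 12 -/
def cA1_5_5_12 : List Nat := bA1_5_5_12 ++ cA1_5_5_13

lemma aA1_5_5_12 (hC : ∀ z φ, H z φ → Cf z φ) (hd : ∀ L D r, Pool.Agent.Helper66.Kiss.DlG.dlG L 0 D r = true → Good H P L 0) : AGX H P cA1_5_5_12 :=
  AGX_append (soundLP ctB_OKL hC hd tA1_5_5_12) (aA1_5_5_13 hC hd)

/-- boxes from number 11 -/
def cA1_5_5_11 : List Nat := bA1_5_5_11 ++ cA1_5_5_12

lemma aA1_5_5_11 (hC : ∀ z φ, H z φ → Cf z φ) (hd : ∀ L D r, Pool.Agent.Helper66.Kiss.DlG.dlG L 0 D r = true → Good H P L 0) : AGX H P cA1_5_5_11 :=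
  AGX_append (soundLP ctB_OKL hC hd tA1_5_5_11) (aA1_5_5_12 hC hd)

/-- boxes from number 10 -/
def cA1_5_5_10 : List Nat := bA1_5_5_10 ++ cA1_5_5_11

lemma aA1_5_5_10 (hC : ∀ z φ, H z φ → Cf z φ) (hd : ∀ L D r, Pool.Agent.Helper66.Kiss.DlG.dlG L 0 D r = true → Good H P L 0) : AGX H P cA1_5_5_10 :=
  AGX_append (soundLP ctB_OKL hC hd tA1_5_5_10) (aA1_5_5_11 hC hd)

/-- boxes from number 9 -/
def cA1_5_5_9 : List Nat := bA1_5_5_9 ++ cA1_5_5_10

lemma aA1_5_5_9 (hC : ∀ z φ, H z φ → Cf z φ) (hd : ∀ L D r, Pool.Agent.Helper66.Kiss.DlG.dlG L 0 D r = true → Good H P L 0) : AGX H P cA1_5_5_9 :=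
  AGX_append (soundLP ctB_OKL hC hd tA1_5_5_9) (aA1_5_5_10 hC hd)

/-- boxes from number 8 -/
def cA1_5_5_8 : List Nat := bA1_5_5_8 ++ cA1_5_5_9

lemma aA1_5_5_8 (hC : ∀ z φ, H z φ → Cf z φ) (hd : ∀ L D r, Pool.Agent.Helper66.Kiss.DlG.dlG L 0 D r = true → Good H P L 0) : AGX H P cA1_5_5_8 :=
  AGX_append (soundLP ctB_OKL hC hd tA1_5_5_8) (aA1_5_5_9 hC hd)

/-- boxes from number 7 -/
def cA1_5_5_7 : List Nat := bA1_5_5_7 ++ cA1_5_5_8

lemma aA1_5_5_7 (hC : ∀ z φ, H z φ → Cf z φ) (hd : ∀ L D r, Pool.Agent.Helper66.Kiss.DlG.dlG L 0 D r = true → Good H P L 0) : AGX H P cA1_5_5_7 :=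
  AGX_append (soundLP ctB_OKL hC hd tA1_5_5_7) (aA1_5_5_8 hC hd)

/-- boxes from number 6 -/
def cA1_5_5_6 : List Nat := bA1_5_5_6 ++ cA1_5_5_7

lemma aA1_5_5_6 (hC : ∀ z φ, H z φ → Cf z φ) (hd : ∀ L D r, Pool.Agent.Helper66.Kiss.DlG.dlG L 0 D r = true → Good H P L 0) : AGX H P cA1_5_5_6 :=
  AGX_append (soundLP ctB_OKL hC hd tA1_5_5_6) (aA1_5_5_7 hC hd)

/-- boxes from number 5 -/
def cA1_5_5_5 : List Nat := bA1_5_5_5 ++ cA1_5_5_6

lemma aA1_5_5_5 (hC : ∀ z φ, H z φ → Cf z φ) (hd : ∀ L D r, Pool.Agent.Helper66.Kiss.DlG.dlG L 0 D r = true → Good H P L 0) : AGX H P cA1_5_5_5 :=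
  AGX_append (soundLP ctB_OKL hC hd tA1_5_5_5) (aA1_5_5_6 hC hd)

/-- boxes from number 4 -/
def cA1_5_5_4 : List Nat := bA1_5_5_4 ++ cA1_5_5_5

lemma aA1_5_5_4 (hC : ∀ z φ, H z φ → Cf z φ) (hd : ∀ L D r, Pool.Agent.Helper66.Kiss.DlG.dlG L 0 D r = true → Good H P L 0) : AGX H P cA1_5_5_4 :=
  AGX_append (soundL0 ctB_OKL hC tA1_5_5_4) (aA1_5_5_5 hC hd)

/-- boxes from number 3 -/
def cA1_5_5_3 : List Nat := bA1_5_5_3 ++ cA1_5_5_4

lemma aA1_5_5_3 (hC : ∀ z φ, H z φ → Cf z φ) (hd : ∀ L D r, Pool.Agent.Helper66.Kiss.DlG.dlG L 0 D r = true → Good H P L 0) : AGX H P cA1_5_5_3 :=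
  AGX_append (soundL0 ctB_OKL hC tA1_5_5_3) (aA1_5_5_4 hC hd)

/-- boxes from number 2 -/
def cA1_5_5_2 : List Nat := bA1_5_5_2 ++ cA1_5_5_3

lemma aA1_5_5_2 (hC : ∀ z φ, H z φ → Cf z φ) (hd : ∀ L D r, Pool.Agent.Helper66.Kiss.DlG.dlG L 0 D r = true → Good H P L 0) : AGX H P cA1_5_5_2 :=
  AGX_append (soundL0 ctB_OKL hC tA1_5_5_2) (aA1_5_5_3 hC hd)

/-- boxes from number 1 -/
def cA1_5_5_1 : List Nat := bA1_5_5_1 ++ cA1_5_5_2

lemma aA1_5_5_1 (hC : ∀ z φ, H z φ → Cf z φ) (hd : ∀ L D r, Pool.Agent.Helper66.Kiss.DlG.dlG L 0 D r = true → Good H P L 0) : AGX H P cA1_5_5_1 :=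
  AGX_append (soundLP ctB_OKL hC hd tA1_5_5_1) (aA1_5_5_2 hC hd)

/-- boxes from number 0 -/
def cA1_5_5_0 : List Nat := bA1_5_5_0 ++ cA1_5_5_1

lemma aA1_5_5_0 (hC : ∀ z φ, H z φ → Cf z φ) (hd : ∀ L D r, Pool.Agent.Helper66.Kiss.DlG.dlG L 0 D r = true → Good H P L 0) : AGX H P cA1_5_5_0 :=
  AGX_append (soundL0 ctB_OKL hC tA1_5_5_0) (aA1_5_5_1 hC hd)

theorem topA1_5_5 : KL.runX KL.ctB (KL.dlX cA1_5_5_0) (KL.dec 4 0x33e003360032e003260031e033a0055a00339805598003160030e00306002fe002f6002ee002e6002de002d6002ce002c6002be002b6023b0002ae01950023d002390002a6078080029e078480029607838029400028e06b9803390033d0033b004040002860027e002760026e002660025e002560024e07818031900294000246088b802950040100023e078480023607838033c0033d00022e002260021e002160020e002060781802910001fe07808001f606bb8001ee088c802950001e60784803390033d0001de001d6001ce001c6001be001b6023b00294004a90001ae07838001a607848029500019e06b98040500019606b880018e001860017e001760016e02390001660844808db80015e06b980293000156078380014e07a48029400014606b880013e06bc8001360012e00126023d0023a00011e00116023900010e00106000fe023c002390000f601950023d0023b0000ee000e6000de02390023a0000d60611807818000ce000c6023c0000be08298000b606108000ae06b9807808000a6078380009e07848033d003390033c0033b0033a0055d000096055c8055c00008e055b8055b0055a0000860007e0339000076055a005598055900006e000660005e00056055b8055b0055a00004e000460003e00036055b8055b00002e0781003398000260001e055b0055a005598000160000e055a0000060559805590055880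 List.nil) 0x210000000000000000002000000000000000000000000000000000000000000000000000000000000000001800078018000780180007801800078018000780180018001800078018000780180007801800078080488024256efc27 [] 0 = true := by decide +kernel

/-- the root box -/
theorem rootA1_5_5 (hC : ∀ z φ, H z φ → Cf z φ) (hd : ∀ L D r, Pool.Agent.Helper66.Kiss.DlG.dlG L 0 D r = true → Good H P L 0) :
    GoodX H P 0x210000000000000000002000000000000000000000000000000000000000000000000000000000000000001800078018000780180007801800078018000780180018001800078018000780180007801800078080488024256efc27 :=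
  soundLT ctB_OKL hC (aA1_5_5_0 hC hd) topA1_5_5

/-- boxes from number 1 -/
def cA1_5_6_1 : List Nat := bA1_5_6_1

lemma aA1_5_6_1 (hC : ∀ z φ, H z φ → Cf z φ) (hd : ∀ L D r, Pool.Agent.Helper66.Kiss.DlG.dlG L 0 D r = true → Good H P L 0) : AGX H P cA1_5_6_1 :=
  (soundL0 ctB_OKL hC tA1_5_6_1)

/-- boxes from number 0 -/
def cA1_5_6_0 : List Nat := bA1_5_6_0 ++ cA1_5_6_1

lemma aA1_5_6_0 (hC : ∀ z φ, H z φ → Cf z φ) (hd : ∀ L D r, Pool.Agent.Helper66.Kiss.DlG.dlG L 0 D r = true → Good H P L 0) : AGX H P cA1_5_6_0 :=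
  AGX_append (soundL0 ctB_OKL hC tA1_5_6_0) (aA1_5_6_1 hC hd)

theorem topA1_5_6 : KL.runX KL.ctB (KL.dlX cA1_5_6_0) (KL.dec 0 0x1e00016055900000e0000605590055880 List.nil) 0x100400000000000000000002000000000000000000000000000000000000000000000000000000000000000001800078018000780180007801800078018001800180018001800078018000780180007801800078080488024f0e33c49 [] 0 = true := by decide +kernel

/-- the root box -/
theorem rootA1_5_6 (hC : ∀ z φ, H z φ → Cf z φ) (hd : ∀ L D r, Pool.Agent.Helper66.Kiss.DlG.dlG L 0 D r = true → Good H P L 0) :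
    GoodX H P 0x100400000000000000000002000000000000000000000000000000000000000000000000000000000000000001800078018000780180007801800078018001800180018001800078018000780180007801800078080488024f0e33c49 :=
  soundLT ctB_OKL hC (aA1_5_6_0 hC hd) topA1_5_6

end Pool.Agent.Helper66.KD
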