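import Pool.Agent.Helper54.KA.LiteS
import Pool.Agent.Helper66.KD.A2_d1
import Pool.Agent.Helper66.KD.A2_d2
import Pool.Agent.Helper66.KD.A2_d3
import Pool.Agent.Helper66.KD.A2_d4
import Pool.Agent.Helper66.KD.A2_d5
import Pool.Agent.Helper66.KD.A2_d6
import Pool.Agent.Helper66.KD.A2_d7
import Pool.Agent.Helper66.KD.A2_d8
import Pool.Agent.Helper66.KD.A2_d9

set_option autoImplicit false
set_option maxRecDepth 1000000

/-! # Assembly `A2` -/

namespace Pool.Agent.Helper66.KD

open Pool.Agent.Helper54 Pool.Agent.Helper54.KA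

variable {H P : (ℕ → ℝ) → (ℕ → ℝ) → Prop}

/-- boxes from number 0 -/
def cA2_1_1_0 : List Nat := bA2_1_1_0

lemma aA2_1_1_0 (hC : ∀ z φ, H z φ → Cf z φ) (hd : ∀ L D r, Pool.Agent.Helper66.Kiss.DlG.dlG L 0 D r = true → Good H P L 0) : AGX H P cA2_1_1_0 :=
  (soundL0 ctB_OKL hC tA2_1_1_0)

theorem topA2_1_1 : KL.runX KL.ctB (KL.dlX cA2_1_1_0) (KL.dec 0 0x60 List.nil) 0x30002000000000000000000000000000000000000000000000000000000000000000018000700180007001800070018000700180007001800070018000700180007001800070018001800808f8048296f50c1 [] 0 = true := by decide +kernel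

/-- the root box -/
theorem rootA2_1_1 (hC : ∀ z φ, H z φ → Cf z φ) (hd : ∀ L D r, Pool.Agent.Helper66.Kiss.DlG.dlG L 0 D r = true → Good H P L 0) :
    GoodX H P 0x30002000000000000000000000000000000000000000000000000000000000000000018000700180007001800070018000700180007001800070018000700180007001800070018001800808f8048296f50c1 :=
  soundLT ctB_OKL hC (aA2_1_1_0 hC hd) topA2_1_1

/-- boxes from number 0 -/
def cA2_1_2_0 : List Nat := bA2_1_2_0

lemma aA2_1_2_0 (hC : ∀ z φ, H z φ → Cf z φ) (hd : ∀ L D r, Pool.Agent.Helper66.Kiss.DlG.dlG L 0 D r = true → Good H P L 0) : AGX H P cA2_1_2_0 :=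
  (soundL0 ctB_OKL hC tA2_1_2_0)

theorem topA2_1_2 : KL.runX KL.ctB (KL.dlX cA2_1_2_0) (KL.dec 0 0x60 List.nil) 0x100040002000000000000000000000000000000000000000000000000000000000000000018000700180007001800070018000700180007001800070018000700180007001800180018001800808f8048874ef783 [] 0 = true := by decide +kernel

/-- the root box -/
theorem rootA2_1_2 (hC : ∀ z φ, H z φ → Cf z φ) (hd : ∀ L D r, Pool.Agent.Helper66.Kiss.DlG.dlG L 0 D r = true → Good H P L 0) :
    GoodX H P 0x100040002000000000000000000000000000000000000000000000000000000000000000018000700180007001800070018000700180007001800070018000700180007001800180018001800808f8048874ef783 :=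
  soundLT ctB_OKL hC (aA2_1_2_0 hC hd) topA2_1_2

/-- boxes from number 0 -/
def cA2_1_3_0 : List Nat := bA2_1_3_0

lemma aA2_1_3_0 (hC : ∀ z φ, H z φ → Cf z φ) (hd : ∀ L D r, Pool.Agent.Helper66.Kiss.DlG.dlG L 0 D r = true → Good H P L 0) : AGX H P cA2_1_3_0 :=
  (soundL0 ctB_OKL hC tA2_1_3_0)

theorem topA2_1_3 : KL.runX KL.ctB (KL.dlX cA2_1_3_0) (KL.dec 0 0x60 List.nil) 0x1000000080002000000000000000000000000000000000000000000000000000000000000000018000700180007001800070018000700180007001800070018000700180018001800070018001800808f8048393638ae [] 0 = true := by decide +kernel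

/-- the root box -/
theorem rootA2_1_3 (hC : ∀ z φ, H z φ → Cf z φ) (hd : ∀ L D r, Pool.Agent.Helper66.Kiss.DlG.dlG L 0 D r = true → Good H P L 0) :
    GoodX H P 0x1000000080002000000000000000000000000000000000000000000000000000000000000000018000700180007001800070018000700180007001800070018000700180018001800070018001800808f8048393638ae :=
  soundLT ctB_OKL hC (aA2_1_3_0 hC hd) topA2_1_3

/-- boxes from number 0 -/
def cA2_1_4_0 : List Nat := bA2_1_4_0

lemma aA2_1_4_0 (hC : ∀ z φ, H z φ → Cf z φ) (hd : ∀ L D r, Pool.Agent.Helper66.Kiss.DlG.dlG L 0 D r = true → Good H P L 0) : AGX H P cA2_1_4_0 :=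
  (soundL0 ctB_OKL hC tA2_1_4_0)

theorem topA2_1_4 : KL.runX KL.ctB (KL.dlX cA2_1_4_0) (KL.dec 0 0xe00006053900 List.nil) 0x10000000000100002000000000000000000000000000000000000000000000000000000000000000018000700180007001800070018000700180007001800070018001800180007001800070018001800808f80483eba75b8 [] 0 = true := by decide +kernel

/-- the root box -/
theorem rootA2_1_4 (hC : ∀ z φ, H z φ → Cf z φ) (hd : ∀ L D r, Pool.Agent.Helper66.Kiss.DlG.dlG L 0 D r = true → Good H P L 0) :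
    GoodX H P 0x10000000000100002000000000000000000000000000000000000000000000000000000000000000018000700180007001800070018000700180007001800070018001800180007001800070018001800808f80483eba75b8 :=
  soundLT ctB_OKL hC (aA2_1_4_0 hC hd) topA2_1_4

/-- boxes from number 7 -/
def cA2_1_5_7 : List Nat := bA2_1_5_7

lemma aA2_1_5_7 (hC : ∀ z φ, H z φ → Cf z φ) (hd : ∀ L D r, Pool.Agent.Helper66.Kiss.DlG.dlG L 0 D r = true → Good H P L 0) : AGX H P cA2_1_5_7 :=
  (soundL0 ctB_OKL hC tA2_1_5_7)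

/-- boxes from number 6 -/
def cA2_1_5_6 : List Nat := bA2_1_5_6 ++ cA2_1_5_7

lemma aA2_1_5_6 (hC : ∀ z φ, H z φ → Cf z φ) (hd : ∀ L D r, Pool.Agent.Helper66.Kiss.DlG.dlG L 0 D r = true → Good H P L 0) : AGX H P cA2_1_5_6 :=
  AGX_append (soundLP ctB_OKL hC hd tA2_1_5_6) (aA2_1_5_7 hC hd)

/-- boxes from number 5 -/
def cA2_1_5_5 : List Nat := bA2_1_5_5 ++ cA2_1_5_6

lemma aA2_1_5_5 (hC : ∀ z φ, H z φ → Cf z φ) (hd : ∀ L D r, Pool.Agent.Helper66.Kiss.DlG.dlG L 0 D r = true → Good H P L 0) : AGX H P cA2_1_5_5 :=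
  AGX_append (soundLP ctB_OKL hC hd tA2_1_5_5) (aA2_1_5_6 hC hd)

/-- boxes from number 4 -/
def cA2_1_5_4 : List Nat := bA2_1_5_4 ++ cA2_1_5_5

lemma aA2_1_5_4 (hC : ∀ z φ, H z φ → Cf z φ) (hd : ∀ L D r, Pool.Agent.Helper66.Kiss.DlG.dlG L 0 D r = true → Good H P L 0) : AGX H P cA2_1_5_4 :=
  AGX_append (soundLP ctB_OKL hC hd tA2_1_5_4) (aA2_1_5_5 hC hd)

/-- boxes from number 3 -/
def cA2_1_5_3 : List Nat := bA2_1_5_3 ++ cA2_1_5_4

lemma aA2_1_5_3 (hC : ∀ z φ, H z φ → Cf z φ) (hd : ∀ L D r, Pool.Agent.Helper66.Kiss.DlG.dlG L 0 D r = true → Good H P L 0) : AGX H P cA2_1_5_3 :=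
  AGX_append (soundLP ctB_OKL hC hd tA2_1_5_3) (aA2_1_5_4 hC hd)

/-- boxes from number 2 -/
def cA2_1_5_2 : List Nat := bA2_1_5_2 ++ cA2_1_5_3

lemma aA2_1_5_2 (hC : ∀ z φ, H z φ → Cf z φ) (hd : ∀ L D r, Pool.Agent.Helper66.Kiss.DlG.dlG L 0 D r = true → Good H P L 0) : AGX H P cA2_1_5_2 :=
  AGX_append (soundLP ctB_OKL hC hd tA2_1_5_2) (aA2_1_5_3 hC hd)

/-- boxes from number 1 -/
def cA2_1_5_1 : List Nat := bA2_1_5_1 ++ cA2_1_5_2

lemma aA2_1_5_1 (hC : ∀ z φ, H z φ → Cf z φ) (hd : ∀ L D r, Pool.Agent.Helper66.Kiss.DlG.dlG L 0 D r = true → Good H P L 0) : AGX H P cA2_1_5_1 :=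
  AGX_append (soundLP ctB_OKL hC hd tA2_1_5_1) (aA2_1_5_2 hC hd)

/-- boxes from number 0 -/
def cA2_1_5_0 : List Nat := bA2_1_5_0 ++ cA2_1_5_1

lemma aA2_1_5_0 (hC : ∀ z φ, H z φ → Cf z φ) (hd : ∀ L D r, Pool.Agent.Helper66.Kiss.DlG.dlG L 0 D r = true → Good H P L 0) : AGX H P cA2_1_5_0 :=
  AGX_append (soundL0 ctB_OKL hC tA2_1_5_0) (aA2_1_5_1 hC hd)

theorem topA2_1_5 : KL.runX KL.ctB (KL.dlX cA2_1_5_0) (KL.dec 3 0x15e00156053980014e001460013e001360012e001260011e001160010e00106000fe025c008d38000f607948000ee07738000e6077180302003010000de06a480303003040000d6000ce000c6000be000b6000ae01fc0025b0000a6077480009e077380009606a180302003d300008e000860007e01f9000076077480006e077380006606a180005e000560004e01f90000460154001fc00003e0773800036077180002e06a48030200303003010030400002601ad003050053d00001e053c8053c000016053b8053b0053a00000e00006053a005398053900 List.nil) 0x100000000000000200002000000000000000000000000000000000000000000000000000000000000000018000700180007001800070018000700180007001800180018000700180007001800070018001800808f804818ddb3f6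 [] 0 = true := by decide +kernel

/-- the root box -/
theorem rootA2_1_5 (hC : ∀ z φ, H z φ → Cf z φ) (hd : ∀ L D r, Pool.Agent.Helper66.Kiss.DlG.dlG L 0 D r = true → Good H P L 0) :
    GoodX H P 0x100000000000000200002000000000000000000000000000000000000000000000000000000000000000018000700180007001800070018000700180007001800180018000700180007001800070018001800808f804818ddb3f6 :=
  soundLT ctB_OKL hC (aA2_1_5_0 hC hd) topA2_1_5

/-- boxes from number 2 -/
def cA2_1_6_2 : List Nat := bA2_1_6_2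

lemma aA2_1_6_2 (hC : ∀ z φ, H z φ → Cf z φ) (hd : ∀ L D r, Pool.Agent.Helper66.Kiss.DlG.dlG L 0 D r = true → Good H P L 0) : AGX H P cA2_1_6_2 :=
  (soundL0 ctB_OKL hC tA2_1_6_2)

/-- boxes from number 1 -/
def cA2_1_6_1 : List Nat := bA2_1_6_1 ++ cA2_1_6_2

lemma aA2_1_6_1 (hC : ∀ z φ, H z φ → Cf z φ) (hd : ∀ L D r, Pool.Agent.Helper66.Kiss.DlG.dlG L 0 D r = true → Good H P L 0) : AGX H P cA2_1_6_1 :=
  AGX_append (soundL0 ctB_OKL hC tA2_1_6_1) (aA2_1_6_2 hC hd)

/-- boxes from number 0 -/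
def cA2_1_6_0 : List Nat := bA2_1_6_0 ++ cA2_1_6_1

lemma aA2_1_6_0 (hC : ∀ z φ, H z φ → Cf z φ) (hd : ∀ L D r, Pool.Agent.Helper66.Kiss.DlG.dlG L 0 D r = true → Good H P L 0) : AGX H P cA2_1_6_0 :=
  AGX_append (soundL0 ctB_OKL hC tA2_1_6_0) (aA2_1_6_1 hC hd)

theorem topA2_1_6 : KL.runX KL.ctB (KL.dlX cA2_1_6_0) (KL.dec 1 0x4e000460003e000360002e053a803020053a0000260001e000160000e0302803010053a800006053a005398053900 List.nil) 0x1000000000000000000400002000000000000000000000000000000000000000000000000000000000000000018000700180007001800070018000700180018001800070018000700180007001800070018001800808f8048f73f4600 [] 0 = true := by decide +kernel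

/-- the root box -/
theorem rootA2_1_6 (hC : ∀ z φ, H z φ → Cf z φ) (hd : ∀ L D r, Pool.Agent.Helper66.Kiss.DlG.dlG L 0 D r = true → Good H P L 0) :
    GoodX H P 0x1000000000000000000400002000000000000000000000000000000000000000000000000000000000000000018000700180007001800070018000700180018001800070018000700180007001800070018001800808f8048f73f4600 :=
  soundLT ctB_OKL hC (aA2_1_6_0 hC hd) topA2_1_6

/-- boxes from number 0 -/
def cA2_1_7_0 : List Nat := bA2_1_7_0

lemma aA2_1_7_0 (hC : ∀ z φ, H z φ → Cf z φ) (hd : ∀ L D r, Pool.Agent.Helper66.Kiss.DlG.dlG L 0 D r = true → Good H P L 0) : AGX H P cA2_1_7_0 :=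
  (soundL0 ctB_OKL hC tA2_1_7_0)

theorem topA2_1_7 : KL.runX KL.ctB (KL.dlX cA2_1_7_0) (KL.dec 0 0x60 List.nil) 0x10000000000000000000000800002000000000000000000000000000000000000000000000000000000000000000018000700180007001800070018001800180007001800070018000700180007001800070018001800808f8048c7506eeb [] 0 = true := by decide +kernel

/-- the root box -/
theorem rootA2_1_7 (hC : ∀ z φ, H z φ → Cf z φ) (hd : ∀ L D r, Pool.Agent.Helper66.Kiss.DlG.dlG L 0 D r = true → Good H P L 0) :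
    GoodX H P 0x10000000000000000000000800002000000000000000000000000000000000000000000000000000000000000000018000700180007001800070018001800180007001800070018000700180007001800070018001800808f8048c7506eeb :=
  soundLT ctB_OKL hC (aA2_1_7_0 hC hd) topA2_1_7

/-- boxes from number 0 -/
def cA2_1_8_0 : List Nat := bA2_1_8_0

lemma aA2_1_8_0 (hC : ∀ z φ, H z φ → Cf z φ) (hd : ∀ L D r, Pool.Agent.Helper66.Kiss.DlG.dlG L 0 D r = true → Good H P L 0) : AGX H P cA2_1_8_0 :=
  (soundL0 ctB_OKL hC tA2_1_8_0)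

theorem topA2_1_8 : KL.runX KL.ctB (KL.dlX cA2_1_8_0) (KL.dec 0 0x60 List.nil) 0x100000000000000000000000001000002000000000000000000000000000000000000000000000000000000000000000018000700180007001800180018000700180007001800070018000700180007001800070018001800808f804860e31ca5 [] 0 = true := by decide +kernel

/-- the root box -/
theorem rootA2_1_8 (hC : ∀ z φ, H z φ → Cf z φ) (hd : ∀ L D r, Pool.Agent.Helper66.Kiss.DlG.dlG L 0 D r = true → Good H P L 0) :
    GoodX H P 0x100000000000000000000000001000002000000000000000000000000000000000000000000000000000000000000000018000700180007001800180018000700180007001800070018000700180007001800070018001800808f804860e31ca5 :=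
  soundLT ctB_OKL hC (aA2_1_8_0 hC hd) topA2_1_8

/-- boxes from number 0 -/
def cA2_1_9_0 : List Nat := bA2_1_9_0

lemma aA2_1_9_0 (hC : ∀ z φ, H z φ → Cf z φ) (hd : ∀ L D r, Pool.Agent.Helper66.Kiss.DlG.dlG L 0 D r = true → Good H P L 0) : AGX H P cA2_1_9_0 :=
  (soundL0 ctB_OKL hC tA2_1_9_0)

theorem topA2_1_9 : KL.runX KL.ctB (KL.dlX cA2_1_9_0) (KL.dec 0 0x60 List.nil) 0x1000000000000000000000000000002000002000000000000000000000000000000000000000000000000000000000000000018000700180018001800070018000700180007001800070018000700180007001800070018001800808f8048b71b401a [] 0 = true := by decide +kernel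

/-- the root box -/
theorem rootA2_1_9 (hC : ∀ z φ, H z φ → Cf z φ) (hd : ∀ L D r, Pool.Agent.Helper66.Kiss.DlG.dlG L 0 D r = true → Good H P L 0) :
    GoodX H P 0x1000000000000000000000000000002000002000000000000000000000000000000000000000000000000000000000000000018000700180018001800070018000700180007001800070018000700180007001800070018001800808f8048b71b401a :=
  soundLT ctB_OKL hC (aA2_1_9_0 hC hd) topA2_1_9

/-- boxes from number 0 -/
def cA2_1_10_0 : List Nat := bA2_1_10_0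

lemma aA2_1_10_0 (hC : ∀ z φ, H z φ → Cf z φ) (hd : ∀ L D r, Pool.Agent.Helper66.Kiss.DlG.dlG L 0 D r = true → Good H P L 0) : AGX H P cA2_1_10_0 :=
  (soundL0 ctB_OKL hC tA2_1_10_0)

theorem topA2_1_10 : KL.runX KL.ctB (KL.dlX cA2_1_10_0) (KL.dec 0 0x60 List.nil) 0x10000000000000000000000000000000004000002000000000000000000000000000000000000000000000000000000000000000018001800180007001800070018000700180007001800070018000700180007001800070018001800808f80480f7cc291 [] 0 = true := by decide +kernel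

/-- the root box -/
theorem rootA2_1_10 (hC : ∀ z φ, H z φ → Cf z φ) (hd : ∀ L D r, Pool.Agent.Helper66.Kiss.DlG.dlG L 0 D r = true → Good H P L 0) :
    GoodX H P 0x10000000000000000000000000000000004000002000000000000000000000000000000000000000000000000000000000000000018001800180007001800070018000700180007001800070018000700180007001800070018001800808f80480f7cc291 :=
  soundLT ctB_OKL hC (aA2_1_10_0 hC hd) topA2_1_10

/-- boxes from number 0 -/
def cA2_2_2_0 : List Nat := bA2_2_2_0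

lemma aA2_2_2_0 (hC : ∀ z φ, H z φ → Cf z φ) (hd : ∀ L D r, Pool.Agent.Helper66.Kiss.DlG.dlG L 0 D r = true → Good H P L 0) : AGX H P cA2_2_2_0 :=
  (soundL0 ctB_OKL hC tA2_2_2_0)

theorem topA2_2_2 : KL.runX KL.ctB (KL.dlX cA2_2_2_0) (KL.dec 0 0x60 List.nil) 0x500000004000000000000000000000000000000000000000000000000000000000000000018000700180007001800070018000700180007001800070018000700180007001800180018000700808f804887bcba61 [] 0 = true := by decide +kernel

/-- the root box -/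
theorem rootA2_2_2 (hC : ∀ z φ, H z φ → Cf z φ) (hd : ∀ L D r, Pool.Agent.Helper66.Kiss.DlG.dlG L 0 D r = true → Good H P L 0) :
    GoodX H P 0x500000004000000000000000000000000000000000000000000000000000000000000000018000700180007001800070018000700180007001800070018000700180007001800180018000700808f804887bcba61 :=
  soundLT ctB_OKL hC (aA2_2_2_0 hC hd) topA2_2_2

/-- boxes from number 0 -/
def cA2_2_3_0 : List Nat := bA2_2_3_0

lemma aA2_2_3_0 (hC : ∀ z φ, H z φ → Cf z φ) (hd : ∀ L D r, Pool.Agent.Helper66.Kiss.DlG.dlG L 0 D r = true → Good H P L 0) : AGX H P cA2_2_3_0 :=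
  (soundL0 ctB_OKL hC tA2_2_3_0)

theorem topA2_2_3 : KL.runX KL.ctB (KL.dlX cA2_2_3_0) (KL.dec 0 0x60 List.nil) 0x1000800000004000000000000000000000000000000000000000000000000000000000000000018000700180007001800070018000700180007001800070018000700180018001800180018000700808f80487151ec76 [] 0 = true := by decide +kernel

/-- the root box -/
theorem rootA2_2_3 (hC : ∀ z φ, H z φ → Cf z φ) (hd : ∀ L D r, Pool.Agent.Helper66.Kiss.DlG.dlG L 0 D r = true → Good H P L 0) :
    GoodX H P 0x1000800000004000000000000000000000000000000000000000000000000000000000000000018000700180007001800070018000700180007001800070018000700180018001800180018000700808f80487151ec76 :=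
  soundLT ctB_OKL hC (aA2_2_3_0 hC hd) topA2_2_3

/-- boxes from number 0 -/
def cA2_2_4_0 : List Nat := bA2_2_4_0

lemma aA2_2_4_0 (hC : ∀ z φ, H z φ → Cf z φ) (hd : ∀ L D r, Pool.Agent.Helper66.Kiss.DlG.dlG L 0 D r = true → Good H P L 0) : AGX H P cA2_2_4_0 :=
  (soundL0 ctB_OKL hC tA2_2_4_0)

theorem topA2_2_4 : KL.runX KL.ctB (KL.dlX cA2_2_4_0) (KL.dec 0 0xe00006053880 List.nil) 0x10000001000000004000000000000000000000000000000000000000000000000000000000000000018000700180007001800070018000700180007001800070018001800180007001800180018000700808f8048e62eb954 [] 0 = true := by decide +kernel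

/-- the root box -/
theorem rootA2_2_4 (hC : ∀ z φ, H z φ → Cf z φ) (hd : ∀ L D r, Pool.Agent.Helper66.Kiss.DlG.dlG L 0 D r = true → Good H P L 0) :
    GoodX H P 0x10000001000000004000000000000000000000000000000000000000000000000000000000000000018000700180007001800070018000700180007001800070018001800180007001800180018000700808f8048e62eb954 :=
  soundLT ctB_OKL hC (aA2_2_4_0 hC hd) topA2_2_4

/-- boxes from number 2 -/
def cA2_2_5_2 : List Nat := bA2_2_5_2

lemma aA2_2_5_2 (hC : ∀ z φ, H z φ → Cf z φ) (hd : ∀ L D r, Pool.Agent.Helper66.Kiss.DlG.dlG L 0 D r = true → Good H P L 0) : AGX H P cA2_2_5_2 :=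
  (soundL0 ctB_OKL hC tA2_2_5_2)

/-- boxes from number 1 -/
def cA2_2_5_1 : List Nat := bA2_2_5_1 ++ cA2_2_5_2

lemma aA2_2_5_1 (hC : ∀ z φ, H z φ → Cf z φ) (hd : ∀ L D r, Pool.Agent.Helper66.Kiss.DlG.dlG L 0 D r = true → Good H P L 0) : AGX H P cA2_2_5_1 :=
  AGX_append (soundL0 ctB_OKL hC tA2_2_5_1) (aA2_2_5_2 hC hd)

/-- boxes from number 0 -/
def cA2_2_5_0 : List Nat := bA2_2_5_0 ++ cA2_2_5_1

lemma aA2_2_5_0 (hC : ∀ z φ, H z φ → Cf z φ) (hd : ∀ L D r, Pool.Agent.Helper66.Kiss.DlG.dlG L 0 D r = true → Good H P L 0) : AGX H P cA2_2_5_0 :=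
  AGX_append (soundLP ctB_OKL hC hd tA2_2_5_0) (aA2_2_5_1 hC hd)

theorem topA2_2_5 : KL.runX KL.ctB (KL.dlX cA2_2_5_0) (KL.dec 0 0x3e00036053980002e00026053a00001e000160000e053b8053b000006053a005398053880 List.nil) 0x100000000002000000004000000000000000000000000000000000000000000000000000000000000000018000700180007001800070018000700180007001800180018000700180007001800180018000700808f80489f03173f [] 0 = true := by decide +kernel

/-- the root box -/
theorem rootA2_2_5 (hC : ∀ z φ, H z φ → Cf z φ) (hd : ∀ L D r, Pool.Agent.Helper66.Kiss.DlG.dlG L 0 D r = true → Good H P L 0) :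
    GoodX H P 0x100000000002000000004000000000000000000000000000000000000000000000000000000000000000018000700180007001800070018000700180007001800180018000700180007001800180018000700808f80489f03173f :=
  soundLT ctB_OKL hC (aA2_2_5_0 hC hd) topA2_2_5

/-- boxes from number 12 -/
def cA2_2_6_12 : List Nat := bA2_2_6_12

lemma aA2_2_6_12 (hC : ∀ z φ, H z φ → Cf z φ) (hd : ∀ L D r, Pool.Agent.Helper66.Kiss.DlG.dlG L 0 D r = true → Good H P L 0) : AGX H P cA2_2_6_12 :=
  (soundL0 ctB_OKL hC tA2_2_6_12)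

/-- boxes from number 11 -/
def cA2_2_6_11 : List Nat := bA2_2_6_11 ++ cA2_2_6_12

lemma aA2_2_6_11 (hC : ∀ z φ, H z φ → Cf z φ) (hd : ∀ L D r, Pool.Agent.Helper66.Kiss.DlG.dlG L 0 D r = true → Good H P L 0) : AGX H P cA2_2_6_11 :=
  AGX_append (soundL0 ctB_OKL hC tA2_2_6_11) (aA2_2_6_12 hC hd)

/-- boxes from number 10 -/
def cA2_2_6_10 : List Nat := bA2_2_6_10 ++ cA2_2_6_11

lemma aA2_2_6_10 (hC : ∀ z φ, H z φ → Cf z φ) (hd : ∀ L D r, Pool.Agent.Helper66.Kiss.DlG.dlG L 0 D r = true → Good H P L 0) : AGX H P cA2_2_6_10 :=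
  AGX_append (soundLP ctB_OKL hC hd tA2_2_6_10) (aA2_2_6_11 hC hd)

/-- boxes from number 9 -/
def cA2_2_6_9 : List Nat := bA2_2_6_9 ++ cA2_2_6_10

lemma aA2_2_6_9 (hC : ∀ z φ, H z φ → Cf z φ) (hd : ∀ L D r, Pool.Agent.Helper66.Kiss.DlG.dlG L 0 D r = true → Good H P L 0) : AGX H P cA2_2_6_9 :=
  AGX_append (soundLP ctB_OKL hC hd tA2_2_6_9) (aA2_2_6_10 hC hd)

/-- boxes from number 8 -/
def cA2_2_6_8 : List Nat := bA2_2_6_8 ++ cA2_2_6_9

lemma aA2_2_6_8 (hC : ∀ z φ, H z φ → Cf z φ) (hd : ∀ L D r, Pool.Agent.Helper66.Kiss.DlG.dlG L 0 D r = true → Good H P L 0) : AGX H P cA2_2_6_8 :=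
  AGX_append (soundLP ctB_OKL hC hd tA2_2_6_8) (aA2_2_6_9 hC hd)

/-- boxes from number 7 -/
def cA2_2_6_7 : List Nat := bA2_2_6_7 ++ cA2_2_6_8

lemma aA2_2_6_7 (hC : ∀ z φ, H z φ → Cf z φ) (hd : ∀ L D r, Pool.Agent.Helper66.Kiss.DlG.dlG L 0 D r = true → Good H P L 0) : AGX H P cA2_2_6_7 :=
  AGX_append (soundLP ctB_OKL hC hd tA2_2_6_7) (aA2_2_6_8 hC hd)

/-- boxes from number 6 -/
def cA2_2_6_6 : List Nat := bA2_2_6_6 ++ cA2_2_6_7

lemma aA2_2_6_6 (hC : ∀ z φ, H z φ → Cf z φ) (hd : ∀ L D r, Pool.Agent.Helper66.Kiss.DlG.dlG L 0 D r = true → Good H P L 0) : AGX H P cA2_2_6_6 :=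
  AGX_append (soundLP ctB_OKL hC hd tA2_2_6_6) (aA2_2_6_7 hC hd)

/-- boxes from number 5 -/
def cA2_2_6_5 : List Nat := bA2_2_6_5 ++ cA2_2_6_6

lemma aA2_2_6_5 (hC : ∀ z φ, H z φ → Cf z φ) (hd : ∀ L D r, Pool.Agent.Helper66.Kiss.DlG.dlG L 0 D r = true → Good H P L 0) : AGX H P cA2_2_6_5 :=
  AGX_append (soundLP ctB_OKL hC hd tA2_2_6_5) (aA2_2_6_6 hC hd)

/-- boxes from number 4 -/
def cA2_2_6_4 : List Nat := bA2_2_6_4 ++ cA2_2_6_5

lemma aA2_2_6_4 (hC : ∀ z φ, H z φ → Cf z φ) (hd : ∀ L D r, Pool.Agent.Helper66.Kiss.DlG.dlG L 0 D r = true → Good H P L 0) : AGX H P cA2_2_6_4 :=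
  AGX_append (soundLP ctB_OKL hC hd tA2_2_6_4) (aA2_2_6_5 hC hd)

/-- boxes from number 3 -/
def cA2_2_6_3 : List Nat := bA2_2_6_3 ++ cA2_2_6_4

lemma aA2_2_6_3 (hC : ∀ z φ, H z φ → Cf z φ) (hd : ∀ L D r, Pool.Agent.Helper66.Kiss.DlG.dlG L 0 D r = true → Good H P L 0) : AGX H P cA2_2_6_3 :=
  AGX_append (soundLP ctB_OKL hC hd tA2_2_6_3) (aA2_2_6_4 hC hd)

/-- boxes from number 2 -/
def cA2_2_6_2 : List Nat := bA2_2_6_2 ++ cA2_2_6_3

lemma aA2_2_6_2 (hC : ∀ z φ, H z φ → Cf z φ) (hd : ∀ L D r, Pool.Agent.Helper66.Kiss.DlG.dlG L 0 D r = true → Good H P L 0) : AGX H P cA2_2_6_2 :=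
  AGX_append (soundLP ctB_OKL hC hd tA2_2_6_2) (aA2_2_6_3 hC hd)

/-- boxes from number 1 -/
def cA2_2_6_1 : List Nat := bA2_2_6_1 ++ cA2_2_6_2

lemma aA2_2_6_1 (hC : ∀ z φ, H z φ → Cf z φ) (hd : ∀ L D r, Pool.Agent.Helper66.Kiss.DlG.dlG L 0 D r = true → Good H P L 0) : AGX H P cA2_2_6_1 :=
  AGX_append (soundLP ctB_OKL hC hd tA2_2_6_1) (aA2_2_6_2 hC hd)

/-- boxes from number 0 -/
def cA2_2_6_0 : List Nat := bA2_2_6_0 ++ cA2_2_6_1

lemma aA2_2_6_0 (hC : ∀ z φ, H z φ → Cf z φ) (hd : ∀ L D r, Pool.Agent.Helper66.Kiss.DlG.dlG L 0 D r = true → Good H P L 0) : AGX H P cA2_2_6_0 :=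
  AGX_append (soundLP ctB_OKL hC hd tA2_2_6_0) (aA2_2_6_1 hC hd)

theorem topA2_2_6 : KL.runX KL.ctB (KL.dlX cA2_2_6_0) (KL.dec 4 0x2560024e00246053a0053980023e002360022e00226053a803020053a00021e002160020e00206001fe001f6001ee001e6001de001d6001ce0772003008001c606a5003038001be06a4002e1802e2803d1803d28001b6001ae001a60019e0019601fb80018e07950001860017e01fb8001760154801fc80016e0774000166077200015e06a50030380302803018001560014e001460013e01fc80013601f880012e0775000126077400011e06a200303803028001160010e0010601f98000fe000f601fc8000ee0178801f88000e607750000de07740000d606a2003038000ce000c6000be01f88000b6017c801fc8000ae07750000a6077200009e06a40000960008e0008601fc801f980007e0007601f980006e0178801f8800066077500005e00056082500004e05f400004606a50077400003e00036082500002e05f200002606a500001e06a4007720030380302803018030080304800016053d0053c80000e053c0053b8053a800006053a005398053880 List.nil) 0x1000000000000004000000004000000000000000000000000000000000000000000000000000000000000000018000700180007001800070018000700180018001800070018000700180007001800180018000700808f80483ac6e8a8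 [] 0 = true := by decide +kernel

/-- the root box -/
theorem rootA2_2_6 (hC : ∀ z φ, H z φ → Cf z φ) (hd : ∀ L D r, Pool.Agent.Helper66.Kiss.DlG.dlG L 0 D r = true → Good H P L 0) :
    GoodX H P 0x1000000000000004000000004000000000000000000000000000000000000000000000000000000000000000018000700180007001800070018000700180018001800070018000700180007001800180018000700808f80483ac6e8a8 :=
  soundLT ctB_OKL hC (aA2_2_6_0 hC hd) topA2_2_6

/-- boxes from number 2 -/
def cA2_2_7_2 : List Nat := bA2_2_7_2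

lemma aA2_2_7_2 (hC : ∀ z φ, H z φ → Cf z φ) (hd : ∀ L D r, Pool.Agent.Helper66.Kiss.DlG.dlG L 0 D r = true → Good H P L 0) : AGX H P cA2_2_7_2 :=
  (soundL0 ctB_OKL hC tA2_2_7_2)

/-- boxes from number 1 -/
def cA2_2_7_1 : List Nat := bA2_2_7_1 ++ cA2_2_7_2

lemma aA2_2_7_1 (hC : ∀ z φ, H z φ → Cf z φ) (hd : ∀ L D r, Pool.Agent.Helper66.Kiss.DlG.dlG L 0 D r = true → Good H P L 0) : AGX H P cA2_2_7_1 :=
  AGX_append (soundL0 ctB_OKL hC tA2_2_7_1) (aA2_2_7_2 hC hd)

/-- boxes from number 0 -/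
def cA2_2_7_0 : List Nat := bA2_2_7_0 ++ cA2_2_7_1

lemma aA2_2_7_0 (hC : ∀ z φ, H z φ → Cf z φ) (hd : ∀ L D r, Pool.Agent.Helper66.Kiss.DlG.dlG L 0 D r = true → Good H P L 0) : AGX H P cA2_2_7_0 :=
  AGX_append (soundL0 ctB_OKL hC tA2_2_7_0) (aA2_2_7_1 hC hd)

theorem topA2_2_7 : KL.runX KL.ctB (KL.dlX cA2_2_7_0) (KL.dec 0 0x3e000360002e053a005398000260001e000160000e03028053a800006053a005398053880 List.nil) 0x10000000000000000008000000004000000000000000000000000000000000000000000000000000000000000000018000700180007001800070018001800180007001800070018000700180007001800180018000700808f8048859c9042 [] 0 = true := by decide +kernel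

/-- the root box -/
theorem rootA2_2_7 (hC : ∀ z φ, H z φ → Cf z φ) (hd : ∀ L D r, Pool.Agent.Helper66.Kiss.DlG.dlG L 0 D r = true → Good H P L 0) :
    GoodX H P 0x10000000000000000008000000004000000000000000000000000000000000000000000000000000000000000000018000700180007001800070018001800180007001800070018000700180007001800180018000700808f8048859c9042 :=
  soundLT ctB_OKL hC (aA2_2_7_0 hC hd) topA2_2_7

/-- boxes from number 0 -/
def cA2_2_8_0 : List Nat := bA2_2_8_0

lemma aA2_2_8_0 (hC : ∀ z φ, H z φ → Cf z φ) (hd : ∀ L D r, Pool.Agent.Helper66.Kiss.DlG.dlG L 0 D r = true → Good H P L 0) : AGX H P cA2_2_8_0 :=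
  (soundL0 ctB_OKL hC tA2_2_8_0)

theorem topA2_2_8 : KL.runX KL.ctB (KL.dlX cA2_2_8_0) (KL.dec 0 0x60 List.nil) 0x100000000000000000000010000000004000000000000000000000000000000000000000000000000000000000000000018000700180007001800180018000700180007001800070018000700180007001800180018000700808f804814b83b5f [] 0 = true := by decide +kernel

/-- the root box -/
theorem rootA2_2_8 (hC : ∀ z φ, H z φ → Cf z φ) (hd : ∀ L D r, Pool.Agent.Helper66.Kiss.DlG.dlG L 0 D r = true → Good H P L 0) :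
    GoodX H P 0x100000000000000000000010000000004000000000000000000000000000000000000000000000000000000000000000018000700180007001800180018000700180007001800070018000700180007001800180018000700808f804814b83b5f :=
  soundLT ctB_OKL hC (aA2_2_8_0 hC hd) topA2_2_8

/-- boxes from number 0 -/
def cA2_2_9_0 : List Nat := bA2_2_9_0

lemma aA2_2_9_0 (hC : ∀ z φ, H z φ → Cf z φ) (hd : ∀ L D r, Pool.Agent.Helper66.Kiss.DlG.dlG L 0 D r = true → Good H P L 0) : AGX H P cA2_2_9_0 :=
  (soundL0 ctB_OKL hC tA2_2_9_0)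

theorem topA2_2_9 : KL.runX KL.ctB (KL.dlX cA2_2_9_0) (KL.dec 0 0x60 List.nil) 0x1000000000000000000000000020000000004000000000000000000000000000000000000000000000000000000000000000018000700180018001800070018000700180007001800070018000700180007001800180018000700808f80485602599a [] 0 = true := by decide +kernel

/-- the root box -/
theorem rootA2_2_9 (hC : ∀ z φ, H z φ → Cf z φ) (hd : ∀ L D r, Pool.Agent.Helper66.Kiss.DlG.dlG L 0 D r = true → Good H P L 0) :
    GoodX H P 0x1000000000000000000000000020000000004000000000000000000000000000000000000000000000000000000000000000018000700180018001800070018000700180007001800070018000700180007001800180018000700808f80485602599a :=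
  soundLT ctB_OKL hC (aA2_2_9_0 hC hd) topA2_2_9

/-- boxes from number 0 -/
def cA2_3_3_0 : List Nat := bA2_3_3_0

lemma aA2_3_3_0 (hC : ∀ z φ, H z φ → Cf z φ) (hd : ∀ L D r, Pool.Agent.Helper66.Kiss.DlG.dlG L 0 D r = true → Good H P L 0) : AGX H P cA2_3_3_0 :=
  (soundL0 ctB_OKL hC tA2_3_3_0)

theorem topA2_3_3 : KL.runX KL.ctB (KL.dlX cA2_3_3_0) (KL.dec 0 0x60 List.nil) 0x9000000000008000000000000000000000000000000000000000000000000000000000000000018000700180007001800070018000700180007001800070018000700180018001800070018000700808f804892aa1016 [] 0 = true := by decide +kernel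

/-- the root box -/
theorem rootA2_3_3 (hC : ∀ z φ, H z φ → Cf z φ) (hd : ∀ L D r, Pool.Agent.Helper66.Kiss.DlG.dlG L 0 D r = true → Good H P L 0) :
    GoodX H P 0x9000000000008000000000000000000000000000000000000000000000000000000000000000018000700180007001800070018000700180007001800070018000700180018001800070018000700808f804892aa1016 :=
  soundLT ctB_OKL hC (aA2_3_3_0 hC hd) topA2_3_3

/-- boxes from number 0 -/
def cA2_3_4_0 : List Nat := bA2_3_4_0

lemma aA2_3_4_0 (hC : ∀ z φ, H z φ → Cf z φ) (hd : ∀ L D r, Pool.Agent.Helper66.Kiss.DlG.dlG L 0 D r = true → Good H P L 0) : AGX H P cA2_3_4_0 :=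
  (soundL0 ctB_OKL hC tA2_3_4_0)

theorem topA2_3_4 : KL.runX KL.ctB (KL.dlX cA2_3_4_0) (KL.dec 0 0x60 List.nil) 0x10010000000000008000000000000000000000000000000000000000000000000000000000000000018000700180007001800070018000700180007001800070018001800180018001800070018000700808f8048976556b1 [] 0 = true := by decide +kernel

/-- the root box -/
theorem rootA2_3_4 (hC : ∀ z φ, H z φ → Cf z φ) (hd : ∀ L D r, Pool.Agent.Helper66.Kiss.DlG.dlG L 0 D r = true → Good H P L 0) :
    GoodX H P 0x10010000000000008000000000000000000000000000000000000000000000000000000000000000018000700180007001800070018000700180007001800070018001800180018001800070018000700808f8048976556b1 :=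
  soundLT ctB_OKL hC (aA2_3_4_0 hC hd) topA2_3_4

/-- boxes from number 5 -/
def cA2_3_5_5 : List Nat := bA2_3_5_5

lemma aA2_3_5_5 (hC : ∀ z φ, H z φ → Cf z φ) (hd : ∀ L D r, Pool.Agent.Helper66.Kiss.DlG.dlG L 0 D r = true → Good H P L 0) : AGX H P cA2_3_5_5 :=
  (soundL0 ctB_OKL hC tA2_3_5_5)

/-- boxes from number 4 -/
def cA2_3_5_4 : List Nat := bA2_3_5_4 ++ cA2_3_5_5

lemma aA2_3_5_4 (hC : ∀ z φ, H z φ → Cf z φ) (hd : ∀ L D r, Pool.Agent.Helper66.Kiss.DlG.dlG L 0 D r = true → Good H P L 0) : AGX H P cA2_3_5_4 :=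
  AGX_append (soundLP ctB_OKL hC hd tA2_3_5_4) (aA2_3_5_5 hC hd)

/-- boxes from number 3 -/
def cA2_3_5_3 : List Nat := bA2_3_5_3 ++ cA2_3_5_4

lemma aA2_3_5_3 (hC : ∀ z φ, H z φ → Cf z φ) (hd : ∀ L D r, Pool.Agent.Helper66.Kiss.DlG.dlG L 0 D r = true → Good H P L 0) : AGX H P cA2_3_5_3 :=
  AGX_append (soundLP ctB_OKL hC hd tA2_3_5_3) (aA2_3_5_4 hC hd)

/-- boxes from number 2 -/
def cA2_3_5_2 : List Nat := bA2_3_5_2 ++ cA2_3_5_3

lemma aA2_3_5_2 (hC : ∀ z φ, H z φ → Cf z φ) (hd : ∀ L D r, Pool.Agent.Helper66.Kiss.DlG.dlG L 0 D r = true → Good H P L 0) : AGX H P cA2_3_5_2 :=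
  AGX_append (soundLP ctB_OKL hC hd tA2_3_5_2) (aA2_3_5_3 hC hd)

/-- boxes from number 1 -/
def cA2_3_5_1 : List Nat := bA2_3_5_1 ++ cA2_3_5_2

lemma aA2_3_5_1 (hC : ∀ z φ, H z φ → Cf z φ) (hd : ∀ L D r, Pool.Agent.Helper66.Kiss.DlG.dlG L 0 D r = true → Good H P L 0) : AGX H P cA2_3_5_1 :=
  AGX_append (soundLP ctB_OKL hC hd tA2_3_5_1) (aA2_3_5_2 hC hd)

/-- boxes from number 0 -/
def cA2_3_5_0 : List Nat := bA2_3_5_0 ++ cA2_3_5_1

lemma aA2_3_5_0 (hC : ∀ z φ, H z φ → Cf z φ) (hd : ∀ L D r, Pool.Agent.Helper66.Kiss.DlG.dlG L 0 D r = true → Good H P L 0) : AGX H P cA2_3_5_0 :=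
  AGX_append (soundL0 ctB_OKL hC tA2_3_5_0) (aA2_3_5_1 hC hd)

theorem topA2_3_5 : KL.runX KL.ctB (KL.dlX cA2_3_5_0) (KL.dec 3 0x1260011e001160010e00106000fe000f6000ee000e6000de000d6000ce01f90000c601a5002550000be07748000b607708000ae07738030300304003010000a60009e000960008e02e4000086077480007e077380007606a080303003d400006e000660005e0005601f900004e0004601f900003e01a500255000036077080002e077380002606a480304003030030100302003bd006b500001e053c8053c000016053b8053b0053a0053900000e0000605390053880 List.nil) 0x100000020000000000008000000000000000000000000000000000000000000000000000000000000000018000700180007001800070018000700180007001800180018000700180018001800070018000700808f80486fe60e11 [] 0 = true := by decide +kernel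

/-- the root box -/
theorem rootA2_3_5 (hC : ∀ z φ, H z φ → Cf z φ) (hd : ∀ L D r, Pool.Agent.Helper66.Kiss.DlG.dlG L 0 D r = true → Good H P L 0) :
    GoodX H P 0x100000020000000000008000000000000000000000000000000000000000000000000000000000000000018000700180007001800070018000700180007001800180018000700180018001800070018000700808f80486fe60e11 :=
  soundLT ctB_OKL hC (aA2_3_5_0 hC hd) topA2_3_5

/-- boxes from number 3 -/
def cA2_3_6_3 : List Nat := bA2_3_6_3

lemma aA2_3_6_3 (hC : ∀ z φ, H z φ → Cf z φ) (hd : ∀ L D r, Pool.Agent.Helper66.Kiss.DlG.dlG L 0 D r = true → Good H P L 0) : AGX H P cA2_3_6_3 :=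
  (soundL0 ctB_OKL hC tA2_3_6_3)

/-- boxes from number 2 -/
def cA2_3_6_2 : List Nat := bA2_3_6_2 ++ cA2_3_6_3

lemma aA2_3_6_2 (hC : ∀ z φ, H z φ → Cf z φ) (hd : ∀ L D r, Pool.Agent.Helper66.Kiss.DlG.dlG L 0 D r = true → Good H P L 0) : AGX H P cA2_3_6_2 :=
  AGX_append (soundLP ctB_OKL hC hd tA2_3_6_2) (aA2_3_6_3 hC hd)

/-- boxes from number 1 -/
def cA2_3_6_1 : List Nat := bA2_3_6_1 ++ cA2_3_6_2

lemma aA2_3_6_1 (hC : ∀ z φ, H z φ → Cf z φ) (hd : ∀ L D r, Pool.Agent.Helper66.Kiss.DlG.dlG L 0 D r = true → Good H P L 0) : AGX H P cA2_3_6_1 :=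
  AGX_append (soundL0 ctB_OKL hC tA2_3_6_1) (aA2_3_6_2 hC hd)

/-- boxes from number 0 -/
def cA2_3_6_0 : List Nat := bA2_3_6_0 ++ cA2_3_6_1

lemma aA2_3_6_0 (hC : ∀ z φ, H z φ → Cf z φ) (hd : ∀ L D r, Pool.Agent.Helper66.Kiss.DlG.dlG L 0 D r = true → Good H P L 0) : AGX H P cA2_3_6_0 :=
  AGX_append (soundL0 ctB_OKL hC tA2_3_6_0) (aA2_3_6_1 hC hd)

theorem topA2_3_6 : KL.runX KL.ctB (KL.dlX cA2_3_6_0) (KL.dec 1 0x560004e000460003e00036053b8053a8053a0053900002e000260001e00016053b8053a8053a00000e00006053a005390053880 List.nil) 0x1000000000040000000000008000000000000000000000000000000000000000000000000000000000000000018000700180007001800070018000700180018001800070018000700180018001800070018000700808f80484b029264 [] 0 = true := by decide +kernel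

/-- the root box -/
theorem rootA2_3_6 (hC : ∀ z φ, H z φ → Cf z φ) (hd : ∀ L D r, Pool.Agent.Helper66.Kiss.DlG.dlG L 0 D r = true → Good H P L 0) :
    GoodX H P 0x1000000000040000000000008000000000000000000000000000000000000000000000000000000000000000018000700180007001800070018000700180018001800070018000700180018001800070018000700808f80484b029264 :=
  soundLT ctB_OKL hC (aA2_3_6_0 hC hd) topA2_3_6

/-- boxes from number 12 -/
def cA2_3_7_12 : List Nat := bA2_3_7_12

lemma aA2_3_7_12 (hC : ∀ z φ, H z φ → Cf z φ) (hd : ∀ L D r, Pool.Agent.Helper66.Kiss.DlG.dlG L 0 D r = true → Good H P L 0) : AGX H P cA2_3_7_12 :=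
  (soundL0 ctB_OKL hC tA2_3_7_12)

/-- boxes from number 11 -/
def cA2_3_7_11 : List Nat := bA2_3_7_11 ++ cA2_3_7_12

lemma aA2_3_7_11 (hC : ∀ z φ, H z φ → Cf z φ) (hd : ∀ L D r, Pool.Agent.Helper66.Kiss.DlG.dlG L 0 D r = true → Good H P L 0) : AGX H P cA2_3_7_11 :=
  AGX_append (soundLP ctB_OKL hC hd tA2_3_7_11) (aA2_3_7_12 hC hd)

/-- boxes from number 10 -/
def cA2_3_7_10 : List Nat := bA2_3_7_10 ++ cA2_3_7_11

lemma aA2_3_7_10 (hC : ∀ z φ, H z φ → Cf z φ) (hd : ∀ L D r, Pool.Agent.Helper66.Kiss.DlG.dlG L 0 D r = true → Good H P L 0) : AGX H P cA2_3_7_10 :=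
  AGX_append (soundLP ctB_OKL hC hd tA2_3_7_10) (aA2_3_7_11 hC hd)

/-- boxes from number 9 -/
def cA2_3_7_9 : List Nat := bA2_3_7_9 ++ cA2_3_7_10

lemma aA2_3_7_9 (hC : ∀ z φ, H z φ → Cf z φ) (hd : ∀ L D r, Pool.Agent.Helper66.Kiss.DlG.dlG L 0 D r = true → Good H P L 0) : AGX H P cA2_3_7_9 :=
  AGX_append (soundLP ctB_OKL hC hd tA2_3_7_9) (aA2_3_7_10 hC hd)

/-- boxes from number 8 -/
def cA2_3_7_8 : List Nat := bA2_3_7_8 ++ cA2_3_7_9

lemma aA2_3_7_8 (hC : ∀ z φ, H z φ → Cf z φ) (hd : ∀ L D r, Pool.Agent.Helper66.Kiss.DlG.dlG L 0 D r = true → Good H P L 0) : AGX H P cA2_3_7_8 :=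
  AGX_append (soundLP ctB_OKL hC hd tA2_3_7_8) (aA2_3_7_9 hC hd)

/-- boxes from number 7 -/
def cA2_3_7_7 : List Nat := bA2_3_7_7 ++ cA2_3_7_8

lemma aA2_3_7_7 (hC : ∀ z φ, H z φ → Cf z φ) (hd : ∀ L D r, Pool.Agent.Helper66.Kiss.DlG.dlG L 0 D r = true → Good H P L 0) : AGX H P cA2_3_7_7 :=
  AGX_append (soundLP ctB_OKL hC hd tA2_3_7_7) (aA2_3_7_8 hC hd)

/-- boxes from number 6 -/
def cA2_3_7_6 : List Nat := bA2_3_7_6 ++ cA2_3_7_7

lemma aA2_3_7_6 (hC : ∀ z φ, H z φ → Cf z φ) (hd : ∀ L D r, Pool.Agent.Helper66.Kiss.DlG.dlG L 0 D r = true → Good H P L 0) : AGX H P cA2_3_7_6 :=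
  AGX_append (soundLP ctB_OKL hC hd tA2_3_7_6) (aA2_3_7_7 hC hd)

/-- boxes from number 5 -/
def cA2_3_7_5 : List Nat := bA2_3_7_5 ++ cA2_3_7_6

lemma aA2_3_7_5 (hC : ∀ z φ, H z φ → Cf z φ) (hd : ∀ L D r, Pool.Agent.Helper66.Kiss.DlG.dlG L 0 D r = true → Good H P L 0) : AGX H P cA2_3_7_5 :=
  AGX_append (soundLP ctB_OKL hC hd tA2_3_7_5) (aA2_3_7_6 hC hd)

/-- boxes from number 4 -/
def cA2_3_7_4 : List Nat := bA2_3_7_4 ++ cA2_3_7_5

lemma aA2_3_7_4 (hC : ∀ z φ, H z φ → Cf z φ) (hd : ∀ L D r, Pool.Agent.Helper66.Kiss.DlG.dlG L 0 D r = true → Good H P L 0) : AGX H P cA2_3_7_4 :=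
  AGX_append (soundLP ctB_OKL hC hd tA2_3_7_4) (aA2_3_7_5 hC hd)

/-- boxes from number 3 -/
def cA2_3_7_3 : List Nat := bA2_3_7_3 ++ cA2_3_7_4

lemma aA2_3_7_3 (hC : ∀ z φ, H z φ → Cf z φ) (hd : ∀ L D r, Pool.Agent.Helper66.Kiss.DlG.dlG L 0 D r = true → Good H P L 0) : AGX H P cA2_3_7_3 :=
  AGX_append (soundLP ctB_OKL hC hd tA2_3_7_3) (aA2_3_7_4 hC hd)

/-- boxes from number 2 -/
def cA2_3_7_2 : List Nat := bA2_3_7_2 ++ cA2_3_7_3

lemma aA2_3_7_2 (hC : ∀ z φ, H z φ → Cf z φ) (hd : ∀ L D r, Pool.Agent.Helper66.Kiss.DlG.dlG L 0 D r = true → Good H P L 0) : AGX H P cA2_3_7_2 :=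
  AGX_append (soundLP ctB_OKL hC hd tA2_3_7_2) (aA2_3_7_3 hC hd)

/-- boxes from number 1 -/
def cA2_3_7_1 : List Nat := bA2_3_7_1 ++ cA2_3_7_2

lemma aA2_3_7_1 (hC : ∀ z φ, H z φ → Cf z φ) (hd : ∀ L D r, Pool.Agent.Helper66.Kiss.DlG.dlG L 0 D r = true → Good H P L 0) : AGX H P cA2_3_7_1 :=
  AGX_append (soundLP ctB_OKL hC hd tA2_3_7_1) (aA2_3_7_2 hC hd)

/-- boxes from number 0 -/
def cA2_3_7_0 : List Nat := bA2_3_7_0 ++ cA2_3_7_1

lemma aA2_3_7_0 (hC : ∀ z φ, H z φ → Cf z φ) (hd : ∀ L D r, Pool.Agent.Helper66.Kiss.DlG.dlG L 0 D r = true → Good H P L 0) : AGX H P cA2_3_7_0 :=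
  AGX_append (soundL0 ctB_OKL hC tA2_3_7_0) (aA2_3_7_1 hC hd)

theorem topA2_3_7 : KL.runX KL.ctB (KL.dlX cA2_3_7_0) (KL.dec 4 0x2860027e002760026e002660025e002560024e002460023e002360022e002260021e01fc000216079480020e07908041d0002060772803010001fe06a0803040001f606a4802e3002e2003d2003d30001ee001e6001de001d6001ce01fc0001c607908001be001b601fc0001ae017d001fd0001a6077480019e077280019606a080303003040030200018e001860017e0017601f900016e07948001660015e01f9000156017d001fd00014e0770800146077280013e06a480302003030001360012e001260011e0011601fc0048300010e017d001fd00010607708000fe0774803020000f606a28000ee000e6000de01fd0000d60151001f90000ce07708000c607748000be06a28000b6000ae000a601fd001fa00009e000960008e01fd001fa0000860151001f900007e0770800076077480006e0006601fd00005e0824800056082080004e05f280004606a080003e06a48077280302003030030400301003050053d000036053c8053c0053b00002e053a8053a005390000260001e00016053a8053a00000e00006053a005390053880 List.nil) 0x10000000000000080000000000008000000000000000000000000000000000000000000000000000000000000000018000700180007001800070018001800180007001800070018000700180018001800070018000700808f804814899fd7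 [] 0 = true := by decide +kernel

/-- the root box -/
theorem rootA2_3_7 (hC : ∀ z φ, H z φ → Cf z φ) (hd : ∀ L D r, Pool.Agent.Helper66.Kiss.DlG.dlG L 0 D r = true → Good H P L 0) :
    GoodX H P 0x10000000000000080000000000008000000000000000000000000000000000000000000000000000000000000000018000700180007001800070018001800180007001800070018000700180018001800070018000700808f804814899fd7 :=
  soundLT ctB_OKL hC (aA2_3_7_0 hC hd) topA2_3_7

/-- boxes from number 2 -/
def cA2_3_8_2 : List Nat := bA2_3_8_2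

lemma aA2_3_8_2 (hC : ∀ z φ, H z φ → Cf z φ) (hd : ∀ L D r, Pool.Agent.Helper66.Kiss.DlG.dlG L 0 D r = true → Good H P L 0) : AGX H P cA2_3_8_2 :=
  (soundL0 ctB_OKL hC tA2_3_8_2)

/-- boxes from number 1 -/
def cA2_3_8_1 : List Nat := bA2_3_8_1 ++ cA2_3_8_2

lemma aA2_3_8_1 (hC : ∀ z φ, H z φ → Cf z φ) (hd : ∀ L D r, Pool.Agent.Helper66.Kiss.DlG.dlG L 0 D r = true → Good H P L 0) : AGX H P cA2_3_8_1 :=
  AGX_append (soundL0 ctB_OKL hC tA2_3_8_1) (aA2_3_8_2 hC hd)

/-- boxes from number 0 -/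
def cA2_3_8_0 : List Nat := bA2_3_8_0 ++ cA2_3_8_1

lemma aA2_3_8_0 (hC : ∀ z φ, H z φ → Cf z φ) (hd : ∀ L D r, Pool.Agent.Helper66.Kiss.DlG.dlG L 0 D r = true → Good H P L 0) : AGX H P cA2_3_8_0 :=
  AGX_append (soundL0 ctB_OKL hC tA2_3_8_0) (aA2_3_8_1 hC hd)

theorem topA2_3_8 : KL.runX KL.ctB (KL.dlX cA2_3_8_0) (KL.dec 1 0x4e000460003e00036053b00002e053a8053a005390000260001e00016053a8053a00000e00006053a005390053880 List.nil) 0x100000000000000000100000000000008000000000000000000000000000000000000000000000000000000000000000018000700180007001800180018000700180007001800070018000700180018001800070018000700808f8048a108169c [] 0 = true := by decide +kernel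

/-- the root box -/
theorem rootA2_3_8 (hC : ∀ z φ, H z φ → Cf z φ) (hd : ∀ L D r, Pool.Agent.Helper66.Kiss.DlG.dlG L 0 D r = true → Good H P L 0) :
    GoodX H P 0x100000000000000000100000000000008000000000000000000000000000000000000000000000000000000000000000018000700180007001800180018000700180007001800070018000700180018001800070018000700808f8048a108169c :=
  soundLT ctB_OKL hC (aA2_3_8_0 hC hd) topA2_3_8

/-- boxes from number 1 -/
def cA2_4_4_1 : List Nat := bA2_4_4_1

lemma aA2_4_4_1 (hC : ∀ z φ, H z φ → Cf z φ) (hd : ∀ L D r, Pool.Agent.Helper66.Kiss.DlG.dlG L 0 D r = true → Good H P L 0) : AGX H P cA2_4_4_1 :=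
  (soundL0 ctB_OKL hC tA2_4_4_1)

/-- boxes from number 0 -/
def cA2_4_4_0 : List Nat := bA2_4_4_0 ++ cA2_4_4_1

lemma aA2_4_4_0 (hC : ∀ z φ, H z φ → Cf z φ) (hd : ∀ L D r, Pool.Agent.Helper66.Kiss.DlG.dlG L 0 D r = true → Good H P L 0) : AGX H P cA2_4_4_0 :=
  AGX_append (soundL0 ctB_OKL hC tA2_4_4_0) (aA2_4_4_1 hC hd)

theorem topA2_4_4 : KL.runX KL.ctB (KL.dlX cA2_4_4_0) (KL.dec 0 0x1e00016053900000e0000605390053880 List.nil) 0x110000000000000010000000000000000000000000000000000000000000000000000000000000000018000700180007001800070018000700180007001800070018001800180007001800070018000700808f804813d9e7dd [] 0 = true := by decide +kernel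

/-- the root box -/
theorem rootA2_4_4 (hC : ∀ z φ, H z φ → Cf z φ) (hd : ∀ L D r, Pool.Agent.Helper66.Kiss.DlG.dlG L 0 D r = true → Good H P L 0) :
    GoodX H P 0x110000000000000010000000000000000000000000000000000000000000000000000000000000000018000700180007001800070018000700180007001800070018001800180007001800070018000700808f804813d9e7dd :=
  soundLT ctB_OKL hC (aA2_4_4_0 hC hd) topA2_4_4

/-- boxes from number 1 -/
def cA2_4_5_1 : List Nat := bA2_4_5_1

lemma aA2_4_5_1 (hC : ∀ z φ, H z φ → Cf z φ) (hd : ∀ L D r, Pool.Agent.Helper66.Kiss.DlG.dlG L 0 D r = true → Good H P L 0) : AGX H P cA2_4_5_1 :=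
  (soundL0 ctB_OKL hC tA2_4_5_1)

/-- boxes from number 0 -/
def cA2_4_5_0 : List Nat := bA2_4_5_0 ++ cA2_4_5_1

lemma aA2_4_5_0 (hC : ∀ z φ, H z φ → Cf z φ) (hd : ∀ L D r, Pool.Agent.Helper66.Kiss.DlG.dlG L 0 D r = true → Good H P L 0) : AGX H P cA2_4_5_0 :=
  AGX_append (soundL0 ctB_OKL hC tA2_4_5_0) (aA2_4_5_1 hC hd)

theorem topA2_4_5 : KL.runX KL.ctB (KL.dlX cA2_4_5_0) (KL.dec 0 0x1e00016053900000e0000605390053880 List.nil) 0x100200000000000000010000000000000000000000000000000000000000000000000000000000000000018000700180007001800070018000700180007001800180018001800180007001800070018000700808f804845f9be99 [] 0 = true := by decide +kernel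

/-- the root box -/
theorem rootA2_4_5 (hC : ∀ z φ, H z φ → Cf z φ) (hd : ∀ L D r, Pool.Agent.Helper66.Kiss.DlG.dlG L 0 D r = true → Good H P L 0) :
    GoodX H P 0x100200000000000000010000000000000000000000000000000000000000000000000000000000000000018000700180007001800070018000700180007001800180018001800180007001800070018000700808f804845f9be99 :=
  soundLT ctB_OKL hC (aA2_4_5_0 hC hd) topA2_4_5

/-- boxes from number 9 -/
def cA2_4_6_9 : List Nat := bA2_4_6_9

lemma aA2_4_6_9 (hC : ∀ z φ, H z φ → Cf z φ) (hd : ∀ L D r, Pool.Agent.Helper66.Kiss.DlG.dlG L 0 D r = true → Good H P L 0) : AGX H P cA2_4_6_9 :=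
  (soundL0 ctB_OKL hC tA2_4_6_9)

/-- boxes from number 8 -/
def cA2_4_6_8 : List Nat := bA2_4_6_8 ++ cA2_4_6_9

lemma aA2_4_6_8 (hC : ∀ z φ, H z φ → Cf z φ) (hd : ∀ L D r, Pool.Agent.Helper66.Kiss.DlG.dlG L 0 D r = true → Good H P L 0) : AGX H P cA2_4_6_8 :=
  AGX_append (soundL0 ctB_OKL hC tA2_4_6_8) (aA2_4_6_9 hC hd)

/-- boxes from number 7 -/
def cA2_4_6_7 : List Nat := bA2_4_6_7 ++ cA2_4_6_8

lemma aA2_4_6_7 (hC : ∀ z φ, H z φ → Cf z φ) (hd : ∀ L D r, Pool.Agent.Helper66.Kiss.DlG.dlG L 0 D r = true → Good H P L 0) : AGX H P cA2_4_6_7 :=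
  AGX_append (soundLP ctB_OKL hC hd tA2_4_6_7) (aA2_4_6_8 hC hd)

/-- boxes from number 6 -/
def cA2_4_6_6 : List Nat := bA2_4_6_6 ++ cA2_4_6_7

lemma aA2_4_6_6 (hC : ∀ z φ, H z φ → Cf z φ) (hd : ∀ L D r, Pool.Agent.Helper66.Kiss.DlG.dlG L 0 D r = true → Good H P L 0) : AGX H P cA2_4_6_6 :=
  AGX_append (soundLP ctB_OKL hC hd tA2_4_6_6) (aA2_4_6_7 hC hd)

/-- boxes from number 5 -/
def cA2_4_6_5 : List Nat := bA2_4_6_5 ++ cA2_4_6_6

lemma aA2_4_6_5 (hC : ∀ z φ, H z φ → Cf z φ) (hd : ∀ L D r, Pool.Agent.Helper66.Kiss.DlG.dlG L 0 D r = true → Good H P L 0) : AGX H P cA2_4_6_5 :=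
  AGX_append (soundLP ctB_OKL hC hd tA2_4_6_5) (aA2_4_6_6 hC hd)

/-- boxes from number 4 -/
def cA2_4_6_4 : List Nat := bA2_4_6_4 ++ cA2_4_6_5

lemma aA2_4_6_4 (hC : ∀ z φ, H z φ → Cf z φ) (hd : ∀ L D r, Pool.Agent.Helper66.Kiss.DlG.dlG L 0 D r = true → Good H P L 0) : AGX H P cA2_4_6_4 :=
  AGX_append (soundLP ctB_OKL hC hd tA2_4_6_4) (aA2_4_6_5 hC hd)

/-- boxes from number 3 -/
def cA2_4_6_3 : List Nat := bA2_4_6_3 ++ cA2_4_6_4

lemma aA2_4_6_3 (hC : ∀ z φ, H z φ → Cf z φ) (hd : ∀ L D r, Pool.Agent.Helper66.Kiss.DlG.dlG L 0 D r = true → Good H P L 0) : AGX H P cA2_4_6_3 :=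
  AGX_append (soundLP ctB_OKL hC hd tA2_4_6_3) (aA2_4_6_4 hC hd)

/-- boxes from number 2 -/
def cA2_4_6_2 : List Nat := bA2_4_6_2 ++ cA2_4_6_3

lemma aA2_4_6_2 (hC : ∀ z φ, H z φ → Cf z φ) (hd : ∀ L D r, Pool.Agent.Helper66.Kiss.DlG.dlG L 0 D r = true → Good H P L 0) : AGX H P cA2_4_6_2 :=
  AGX_append (soundLP ctB_OKL hC hd tA2_4_6_2) (aA2_4_6_3 hC hd)

/-- boxes from number 1 -/
def cA2_4_6_1 : List Nat := bA2_4_6_1 ++ cA2_4_6_2

lemma aA2_4_6_1 (hC : ∀ z φ, H z φ → Cf z φ) (hd : ∀ L D r, Pool.Agent.Helper66.Kiss.DlG.dlG L 0 D r = true → Good H P L 0) : AGX H P cA2_4_6_1 :=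
  AGX_append (soundLP ctB_OKL hC hd tA2_4_6_1) (aA2_4_6_2 hC hd)

/-- boxes from number 0 -/
def cA2_4_6_0 : List Nat := bA2_4_6_0 ++ cA2_4_6_1

lemma aA2_4_6_0 (hC : ∀ z φ, H z φ → Cf z φ) (hd : ∀ L D r, Pool.Agent.Helper66.Kiss.DlG.dlG L 0 D r = true → Good H P L 0) : AGX H P cA2_4_6_0 :=
  AGX_append (soundLP ctB_OKL hC hd tA2_4_6_0) (aA2_4_6_1 hC hd)

theorem topA2_4_6 : KL.runX KL.ctB (KL.dlX cA2_4_6_0) (KL.dec 3 0x1a60019e001960018e00186053b8053a805398053900017e001760016e001660015e001560014e001460013e0013601fb80012e0012601f880011e0154801fc800116077500010e07740001060771003038030180300803048000fe000f6000ee000e6000de000d6000ce0774003018000c606a1002e38000be06a5002e4803d3803d48000b6000ae000a60009e01f8800096077500008e077400008606a10030380007e0007601fc80006e0775000066077100005e06a40000560004e01fc8000460003e01fc8000360178801f880002e0775000026077100001e07740030380301803048030080302800016053d0053c80000e053c0053b8053a8053980000605390053880 List.nil) 0x1000000400000000000000010000000000000000000000000000000000000000000000000000000000000000018000700180007001800070018000700180018001800070018001800180007001800070018000700808f8048d4017fa4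 [] 0 = true := by decide +kernel

/-- the root box -/
theorem rootA2_4_6 (hC : ∀ z φ, H z φ → Cf z φ) (hd : ∀ L D r, Pool.Agent.Helper66.Kiss.DlG.dlG L 0 D r = true → Good H P L 0) :
    GoodX H P 0x1000000400000000000000010000000000000000000000000000000000000000000000000000000000000000018000700180007001800070018000700180018001800070018001800180007001800070018000700808f8048d4017fa4 :=
  soundLT ctB_OKL hC (aA2_4_6_0 hC hd) topA2_4_6

/-- boxes from number 3 -/
def cA2_4_7_3 : List Nat := bA2_4_7_3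

lemma aA2_4_7_3 (hC : ∀ z φ, H z φ → Cf z φ) (hd : ∀ L D r, Pool.Agent.Helper66.Kiss.DlG.dlG L 0 D r = true → Good H P L 0) : AGX H P cA2_4_7_3 :=
  (soundL0 ctB_OKL hC tA2_4_7_3)

/-- boxes from number 2 -/
def cA2_4_7_2 : List Nat := bA2_4_7_2 ++ cA2_4_7_3

lemma aA2_4_7_2 (hC : ∀ z φ, H z φ → Cf z φ) (hd : ∀ L D r, Pool.Agent.Helper66.Kiss.DlG.dlG L 0 D r = true → Good H P L 0) : AGX H P cA2_4_7_2 :=
  AGX_append (soundLP ctB_OKL hC hd tA2_4_7_2) (aA2_4_7_3 hC hd)

/-- boxes from number 1 -/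
def cA2_4_7_1 : List Nat := bA2_4_7_1 ++ cA2_4_7_2

lemma aA2_4_7_1 (hC : ∀ z φ, H z φ → Cf z φ) (hd : ∀ L D r, Pool.Agent.Helper66.Kiss.DlG.dlG L 0 D r = true → Good H P L 0) : AGX H P cA2_4_7_1 :=
  AGX_append (soundLP ctB_OKL hC hd tA2_4_7_1) (aA2_4_7_2 hC hd)

/-- boxes from number 0 -/
def cA2_4_7_0 : List Nat := bA2_4_7_0 ++ cA2_4_7_1

lemma aA2_4_7_0 (hC : ∀ z φ, H z φ → Cf z φ) (hd : ∀ L D r, Pool.Agent.Helper66.Kiss.DlG.dlG L 0 D r = true → Good H P L 0) : AGX H P cA2_4_7_0 :=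
  AGX_append (soundL0 ctB_OKL hC tA2_4_7_0) (aA2_4_7_1 hC hd)

theorem topA2_4_7 : KL.runX KL.ctB (KL.dlX cA2_4_7_0) (KL.dec 1 0x5e000560004e00046053b0053a80003e00036053a805398053900002e000260001e000160000e053c0053b0053a8053980000605390053880 List.nil) 0x10000000000800000000000000010000000000000000000000000000000000000000000000000000000000000000018000700180007001800070018001800180007001800070018001800180007001800070018000700808f8048035f0691 [] 0 = true := by decide +kernel

/-- the root box -/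
theorem rootA2_4_7 (hC : ∀ z φ, H z φ → Cf z φ) (hd : ∀ L D r, Pool.Agent.Helper66.Kiss.DlG.dlG L 0 D r = true → Good H P L 0) :
    GoodX H P 0x10000000000800000000000000010000000000000000000000000000000000000000000000000000000000000000018000700180007001800070018001800180007001800070018001800180007001800070018000700808f8048035f0691 :=
  soundLT ctB_OKL hC (aA2_4_7_0 hC hd) topA2_4_7

/-- boxes from number 15 -/
def cA2_5_5_15 : List Nat := bA2_5_5_15

lemma aA2_5_5_15 (hC : ∀ z φ, H z φ → Cf z φ) (hd : ∀ L D r, Pool.Agent.Helper66.Kiss.DlG.dlG L 0 D r = true → Good H P L 0) : AGX H P cA2_5_5_15 :=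
  (soundL0 ctB_OKL hC tA2_5_5_15)

/-- boxes from number 14 -/
def cA2_5_5_14 : List Nat := bA2_5_5_14 ++ cA2_5_5_15

lemma aA2_5_5_14 (hC : ∀ z φ, H z φ → Cf z φ) (hd : ∀ L D r, Pool.Agent.Helper66.Kiss.DlG.dlG L 0 D r = true → Good H P L 0) : AGX H P cA2_5_5_14 :=
  AGX_append (soundLP ctB_OKL hC hd tA2_5_5_14) (aA2_5_5_15 hC hd)

/-- boxes from number 13 -/
def cA2_5_5_13 : List Nat := bA2_5_5_13 ++ cA2_5_5_14

lemma aA2_5_5_13 (hC : ∀ z φ, H z φ → Cf z φ) (hd : ∀ L D r, Pool.Agent.Helper66.Kiss.DlG.dlG L 0 D r = true → Good H P L 0) : AGX H P cA2_5_5_13 :=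
  AGX_append (soundLP ctB_OKL hC hd tA2_5_5_13) (aA2_5_5_14 hC hd)

/-- boxes from number 12 -/
def cA2_5_5_12 : List Nat := bA2_5_5_12 ++ cA2_5_5_13

lemma aA2_5_5_12 (hC : ∀ z φ, H z φ → Cf z φ) (hd : ∀ L D r, Pool.Agent.Helper66.Kiss.DlG.dlG L 0 D r = true → Good H P L 0) : AGX H P cA2_5_5_12 :=
  AGX_append (soundLP ctB_OKL hC hd tA2_5_5_12) (aA2_5_5_13 hC hd)

/-- boxes from number 11 -/
def cA2_5_5_11 : List Nat := bA2_5_5_11 ++ cA2_5_5_12

lemma aA2_5_5_11 (hC : ∀ z φ, H z φ → Cf z φ) (hd : ∀ L D r, Pool.Agent.Helper66.Kiss.DlG.dlG L 0 D r = true → Good H P L 0) : AGX H P cA2_5_5_11 :=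
  AGX_append (soundLP ctB_OKL hC hd tA2_5_5_11) (aA2_5_5_12 hC hd)

/-- boxes from number 10 -/
def cA2_5_5_10 : List Nat := bA2_5_5_10 ++ cA2_5_5_11

lemma aA2_5_5_10 (hC : ∀ z φ, H z φ → Cf z φ) (hd : ∀ L D r, Pool.Agent.Helper66.Kiss.DlG.dlG L 0 D r = true → Good H P L 0) : AGX H P cA2_5_5_10 :=
  AGX_append (soundLP ctB_OKL hC hd tA2_5_5_10) (aA2_5_5_11 hC hd)

/-- boxes from number 9 -/
def cA2_5_5_9 : List Nat := bA2_5_5_9 ++ cA2_5_5_10

lemma aA2_5_5_9 (hC : ∀ z φ, H z φ → Cf z φ) (hd : ∀ L D r, Pool.Agent.Helper66.Kiss.DlG.dlG L 0 D r = true → Good H P L 0) : AGX H P cA2_5_5_9 :=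
  AGX_append (soundLP ctB_OKL hC hd tA2_5_5_9) (aA2_5_5_10 hC hd)

/-- boxes from number 8 -/
def cA2_5_5_8 : List Nat := bA2_5_5_8 ++ cA2_5_5_9

lemma aA2_5_5_8 (hC : ∀ z φ, H z φ → Cf z φ) (hd : ∀ L D r, Pool.Agent.Helper66.Kiss.DlG.dlG L 0 D r = true → Good H P L 0) : AGX H P cA2_5_5_8 :=
  AGX_append (soundLP ctB_OKL hC hd tA2_5_5_8) (aA2_5_5_9 hC hd)

/-- boxes from number 7 -/
def cA2_5_5_7 : List Nat := bA2_5_5_7 ++ cA2_5_5_8

lemma aA2_5_5_7 (hC : ∀ z φ, H z φ → Cf z φ) (hd : ∀ L D r, Pool.Agent.Helper66.Kiss.DlG.dlG L 0 D r = true → Good H P L 0) : AGX H P cA2_5_5_7 :=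
  AGX_append (soundLP ctB_OKL hC hd tA2_5_5_7) (aA2_5_5_8 hC hd)

/-- boxes from number 6 -/
def cA2_5_5_6 : List Nat := bA2_5_5_6 ++ cA2_5_5_7

lemma aA2_5_5_6 (hC : ∀ z φ, H z φ → Cf z φ) (hd : ∀ L D r, Pool.Agent.Helper66.Kiss.DlG.dlG L 0 D r = true → Good H P L 0) : AGX H P cA2_5_5_6 :=
  AGX_append (soundLP ctB_OKL hC hd tA2_5_5_6) (aA2_5_5_7 hC hd)

/-- boxes from number 5 -/
def cA2_5_5_5 : List Nat := bA2_5_5_5 ++ cA2_5_5_6

lemma aA2_5_5_5 (hC : ∀ z φ, H z φ → Cf z φ) (hd : ∀ L D r, Pool.Agent.Helper66.Kiss.DlG.dlG L 0 D r = true → Good H P L 0) : AGX H P cA2_5_5_5 :=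
  AGX_append (soundLP ctB_OKL hC hd tA2_5_5_5) (aA2_5_5_6 hC hd)

/-- boxes from number 4 -/
def cA2_5_5_4 : List Nat := bA2_5_5_4 ++ cA2_5_5_5

lemma aA2_5_5_4 (hC : ∀ z φ, H z φ → Cf z φ) (hd : ∀ L D r, Pool.Agent.Helper66.Kiss.DlG.dlG L 0 D r = true → Good H P L 0) : AGX H P cA2_5_5_4 :=
  AGX_append (soundLP ctB_OKL hC hd tA2_5_5_4) (aA2_5_5_5 hC hd)

/-- boxes from number 3 -/
def cA2_5_5_3 : List Nat := bA2_5_5_3 ++ cA2_5_5_4

lemma aA2_5_5_3 (hC : ∀ z φ, H z φ → Cf z φ) (hd : ∀ L D r, Pool.Agent.Helper66.Kiss.DlG.dlG L 0 D r = true → Good H P L 0) : AGX H P cA2_5_5_3 :=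
  AGX_append (soundLP ctB_OKL hC hd tA2_5_5_3) (aA2_5_5_4 hC hd)

/-- boxes from number 2 -/
def cA2_5_5_2 : List Nat := bA2_5_5_2 ++ cA2_5_5_3

lemma aA2_5_5_2 (hC : ∀ z φ, H z φ → Cf z φ) (hd : ∀ L D r, Pool.Agent.Helper66.Kiss.DlG.dlG L 0 D r = true → Good H P L 0) : AGX H P cA2_5_5_2 :=
  AGX_append (soundL0 ctB_OKL hC tA2_5_5_2) (aA2_5_5_3 hC hd)

/-- boxes from number 1 -/
def cA2_5_5_1 : List Nat := bA2_5_5_1 ++ cA2_5_5_2

lemma aA2_5_5_1 (hC : ∀ z φ, H z φ → Cf z φ) (hd : ∀ L D r, Pool.Agent.Helper66.Kiss.DlG.dlG L 0 D r = true → Good H P L 0) : AGX H P cA2_5_5_1 :=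
  AGX_append (soundL0 ctB_OKL hC tA2_5_5_1) (aA2_5_5_2 hC hd)

/-- boxes from number 0 -/
def cA2_5_5_0 : List Nat := bA2_5_5_0 ++ cA2_5_5_1

lemma aA2_5_5_0 (hC : ∀ z φ, H z φ → Cf z φ) (hd : ∀ L D r, Pool.Agent.Helper66.Kiss.DlG.dlG L 0 D r = true → Good H P L 0) : AGX H P cA2_5_5_0 :=
  AGX_append (soundL0 ctB_OKL hC tA2_5_5_0) (aA2_5_5_1 hC hd)

theorem topA2_5_5 : KL.runX KL.ctB (KL.dlX cA2_5_5_0) (KL.dec 4 0x3c6003be003b6053a005398003ae003a60039e003960038e003860037e003760036e003660035e01fb0041d000356083480034e003460033e0033601f90025b00032e083480032601740025c008d380031e0794800316077380030e077180030606a080302003010002fe06a480304003030002f6002ee002e6002de002d6002ce002c6002be002b6002ae08218002a6082380029e08dc802950025a002e1000296077080028e06a18025b0048400028606a3803d200027e08848002760774803d1003d300026e002660025e002560024e0024601fa00023e0154001fc000236077380022e06a480022607908025b0030200021e06a180021606a0803d300020e00206001fe001f601fc0001ee0791800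1e6001de001d601ab0001ce07918001c60154001fc0001be0179001f90001b607708001ae07738001a606a48025b00019e06a1803d30001960018e00186077180017e077080017608248048300016e0823800166077480015e07738001560014e01fb000146079480013e001360012e01fb001fa0001260154001fc00011e0011601fa0082080010e00106000fe01fa001fb0000f607948000ee000e601fa0000de000d601fa001fb0000ce0154001fc0000c60151001f90000be07738000b6000ae01fc0000a6082380009e079480009605f180008e06a38077180008606a080007e06a48030300302003010030400007601ad003050053d00006e053c8053c000066053b8053b0053a00005e00056053a005398053900004e000460003e00036053b8053b0053a00002e000260001e053b8053b000016053a0053980000e000060539805390053880 List.nil) 0x2100000000000000000020000000000000000000000000000000000000000000000000000000000000000018000700180007001800070018000700180007001800180018000700180007001800070018000700808f8048c89a3bc6 [] 0 = true := by decide +kernel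

/-- the root box -/
theorem rootA2_5_5 (hC : ∀ z φ, H z φ → Cf z φ) (hd : ∀ L D r, Pool.Agent.Helper66.Kiss.DlG.dlG L 0 D r = true → Good H P L 0) :
    GoodX H P 0x2100000000000000000020000000000000000000000000000000000000000000000000000000000000000018000700180007001800070018000700180007001800180018000700180007001800070018000700808f8048c89a3bc6 :=
  soundLT ctB_OKL hC (aA2_5_5_0 hC hd) topA2_5_5

/-- boxes from number 1 -/
def cA2_5_6_1 : List Nat := bA2_5_6_1

lemma aA2_5_6_1 (hC : ∀ z φ, H z φ → Cf z φ) (hd : ∀ L D r, Pool.Agent.Helper66.Kiss.DlG.dlG L 0 D r = true → Good H P L 0) : AGX H P cA2_5_6_1 :=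
  (soundL0 ctB_OKL hC tA2_5_6_1)

/-- boxes from number 0 -/
def cA2_5_6_0 : List Nat := bA2_5_6_0 ++ cA2_5_6_1

lemma aA2_5_6_0 (hC : ∀ z φ, H z φ → Cf z φ) (hd : ∀ L D r, Pool.Agent.Helper66.Kiss.DlG.dlG L 0 D r = true → Good H P L 0) : AGX H P cA2_5_6_0 :=
  AGX_append (soundL0 ctB_OKL hC tA2_5_6_0) (aA2_5_6_1 hC hd)

theorem topA2_5_6 : KL.runX KL.ctB (KL.dlX cA2_5_6_0) (KL.dec 0 0x1e00016053900000e0000605390053880 List.nil) 0x1004000000000000000000020000000000000000000000000000000000000000000000000000000000000000018000700180007001800070018000700180018001800180018000700180007001800070018000700808f8048942d006d [] 0 = true := by decide +kernel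

/-- the root box -/
theorem rootA2_5_6 (hC : ∀ z φ, H z φ → Cf z φ) (hd : ∀ L D r, Pool.Agent.Helper66.Kiss.DlG.dlG L 0 D r = true → Good H P L 0) :
    GoodX H P 0x1004000000000000000000020000000000000000000000000000000000000000000000000000000000000000018000700180007001800070018000700180018001800180018000700180007001800070018000700808f8048942d006d :=
  soundLT ctB_OKL hC (aA2_5_6_0 hC hd) topA2_5_6

end Pool.Agent.Helper66.KD
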