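import Pool.Agent.Helper54.KA.LiteS
import Pool.Agent.Helper66.KD.A3_d1
import Pool.Agent.Helper66.KD.A3_d2
import Pool.Agent.Helper66.KD.A3_d3
import Pool.Agent.Helper66.KD.A3_d4
import Pool.Agent.Helper66.KD.A3_d5
import Pool.Agent.Helper66.KD.A3_d6
import Pool.Agent.Helper66.KD.A3_d7
import Pool.Agent.Helper66.KD.A3_d8
import Pool.Agent.Helper66.KD.A3_d9
import Pool.Agent.Helper66.KD.A3_d10
import Pool.Agent.Helper66.KD.A3_d11
import Pool.Agent.Helper66.KD.A3_d12

set_option autoImplicit false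
set_option maxRecDepth 1000000

/-! # Assembly `A3` -/

namespace Pool.Agent.Helper66.KD

open Pool.Agent.Helper54 Pool.Agent.Helper54.KA

variable {H P : (ℕ → ℝ) → (ℕ → ℝ) → Prop}

/-- boxes from number 0 -/
def cA3_1_1_0 : List Nat := bA3_1_1_0

lemma aA3_1_1_0 (hC : ∀ z φ, H z φ → Cf z φ) (hd : ∀ L D r, Pool.Agent.Helper66.Kiss.DlG.dlG L 0 D r = true → Good H P L 0) : AGX H P cA3_1_1_0 :=
  (soundL0 ctB_OKL hC tA3_1_1_0)

theorem topA3_1_1 : KL.runX KL.ctB (KL.dlX cA3_1_1_0) (KL.dec 0 0x60 List.nil) 0x30002000000000000000000000000000000000000000000000000000000000000000018000620180006201800062018000620180006201800062018000620180006201800062018001800811e808f87031623 [] 0 = true := by decide +kernel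

/-- the root box -/
theorem rootA3_1_1 (hC : ∀ z φ, H z φ → Cf z φ) (hd : ∀ L D r, Pool.Agent.Helper66.Kiss.DlG.dlG L 0 D r = true → Good H P L 0) :
    GoodX H P 0x30002000000000000000000000000000000000000000000000000000000000000000018000620180006201800062018000620180006201800062018000620180006201800062018001800811e808f87031623 :=
  soundLT ctB_OKL hC (aA3_1_1_0 hC hd) topA3_1_1

/-- boxes from number 0 -/
def cA3_1_2_0 : List Nat := bA3_1_2_0

lemma aA3_1_2_0 (hC : ∀ z φ, H z φ → Cf z φ) (hd : ∀ L D r, Pool.Agent.Helper66.Kiss.DlG.dlG L 0 D r = true → Good H P L 0) : AGX H P cA3_1_2_0 :=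
  (soundL0 ctB_OKL hC tA3_1_2_0)

theorem topA3_1_2 : KL.runX KL.ctB (KL.dlX cA3_1_2_0) (KL.dec 0 0x60 List.nil) 0x100040002000000000000000000000000000000000000000000000000000000000000000018000620180006201800062018000620180006201800062018000620180006201800180018001800811e808fe4e2d2c5 [] 0 = true := by decide +kernel

/-- the root box -/
theorem rootA3_1_2 (hC : ∀ z φ, H z φ → Cf z φ) (hd : ∀ L D r, Pool.Agent.Helper66.Kiss.DlG.dlG L 0 D r = true → Good H P L 0) :
    GoodX H P 0x100040002000000000000000000000000000000000000000000000000000000000000000018000620180006201800062018000620180006201800062018000620180006201800180018001800811e808fe4e2d2c5 :=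
  soundLT ctB_OKL hC (aA3_1_2_0 hC hd) topA3_1_2

/-- boxes from number 0 -/
def cA3_1_3_0 : List Nat := bA3_1_3_0

lemma aA3_1_3_0 (hC : ∀ z φ, H z φ → Cf z φ) (hd : ∀ L D r, Pool.Agent.Helper66.Kiss.DlG.dlG L 0 D r = true → Good H P L 0) : AGX H P cA3_1_3_0 :=
  (soundL0 ctB_OKL hC tA3_1_3_0)

theorem topA3_1_3 : KL.runX KL.ctB (KL.dlX cA3_1_3_0) (KL.dec 0 0x60 List.nil) 0x1000000080002000000000000000000000000000000000000000000000000000000000000000018000620180006201800062018000620180006201800062018000620180018001800062018001800811e808f96ca6b70 [] 0 = true := by decide +kernel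

/-- the root box -/
theorem rootA3_1_3 (hC : ∀ z φ, H z φ → Cf z φ) (hd : ∀ L D r, Pool.Agent.Helper66.Kiss.DlG.dlG L 0 D r = true → Good H P L 0) :
    GoodX H P 0x1000000080002000000000000000000000000000000000000000000000000000000000000000018000620180006201800062018000620180006201800062018000620180018001800062018001800811e808f96ca6b70 :=
  soundLT ctB_OKL hC (aA3_1_3_0 hC hd) topA3_1_3

/-- boxes from number 0 -/
def cA3_1_4_0 : List Nat := bA3_1_4_0

lemma aA3_1_4_0 (hC : ∀ z φ, H z φ → Cf z φ) (hd : ∀ L D r, Pool.Agent.Helper66.Kiss.DlG.dlG L 0 D r = true → Good H P L 0) : AGX H P cA3_1_4_0 :=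
  (soundL0 ctB_OKL hC tA3_1_4_0)

theorem topA3_1_4 : KL.runX KL.ctB (KL.dlX cA3_1_4_0) (KL.dec 0 0xe0000604f100 List.nil) 0x10000000000100002000000000000000000000000000000000000000000000000000000000000000018000620180006201800062018000620180006201800062018001800180006201800062018001800811e808f9c505dfa [] 0 = true := by decide +kernel

/-- the root box -/
theorem rootA3_1_4 (hC : ∀ z φ, H z φ → Cf z φ) (hd : ∀ L D r, Pool.Agent.Helper66.Kiss.DlG.dlG L 0 D r = true → Good H P L 0) :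
    GoodX H P 0x10000000000100002000000000000000000000000000000000000000000000000000000000000000018000620180006201800062018000620180006201800062018001800180006201800062018001800811e808f9c505dfa :=
  soundLT ctB_OKL hC (aA3_1_4_0 hC hd) topA3_1_4

/-- boxes from number 8 -/
def cA3_1_5_8 : List Nat := bA3_1_5_8

lemma aA3_1_5_8 (hC : ∀ z φ, H z φ → Cf z φ) (hd : ∀ L D r, Pool.Agent.Helper66.Kiss.DlG.dlG L 0 D r = true → Good H P L 0) : AGX H P cA3_1_5_8 :=
  (soundL0 ctB_OKL hC tA3_1_5_8)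

/-- boxes from number 7 -/
def cA3_1_5_7 : List Nat := bA3_1_5_7 ++ cA3_1_5_8

lemma aA3_1_5_7 (hC : ∀ z φ, H z φ → Cf z φ) (hd : ∀ L D r, Pool.Agent.Helper66.Kiss.DlG.dlG L 0 D r = true → Good H P L 0) : AGX H P cA3_1_5_7 :=
  AGX_append (soundLP ctB_OKL hC hd tA3_1_5_7) (aA3_1_5_8 hC hd)

/-- boxes from number 6 -/
def cA3_1_5_6 : List Nat := bA3_1_5_6 ++ cA3_1_5_7

lemma aA3_1_5_6 (hC : ∀ z φ, H z φ → Cf z φ) (hd : ∀ L D r, Pool.Agent.Helper66.Kiss.DlG.dlG L 0 D r = true → Good H P L 0) : AGX H P cA3_1_5_6 :=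
  AGX_append (soundLP ctB_OKL hC hd tA3_1_5_6) (aA3_1_5_7 hC hd)

/-- boxes from number 5 -/
def cA3_1_5_5 : List Nat := bA3_1_5_5 ++ cA3_1_5_6

lemma aA3_1_5_5 (hC : ∀ z φ, H z φ → Cf z φ) (hd : ∀ L D r, Pool.Agent.Helper66.Kiss.DlG.dlG L 0 D r = true → Good H P L 0) : AGX H P cA3_1_5_5 :=
  AGX_append (soundLP ctB_OKL hC hd tA3_1_5_5) (aA3_1_5_6 hC hd)

/-- boxes from number 4 -/
def cA3_1_5_4 : List Nat := bA3_1_5_4 ++ cA3_1_5_5

lemma aA3_1_5_4 (hC : ∀ z φ, H z φ → Cf z φ) (hd : ∀ L D r, Pool.Agent.Helper66.Kiss.DlG.dlG L 0 D r = true → Good H P L 0) : AGX H P cA3_1_5_4 :=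
  AGX_append (soundLP ctB_OKL hC hd tA3_1_5_4) (aA3_1_5_5 hC hd)

/-- boxes from number 3 -/
def cA3_1_5_3 : List Nat := bA3_1_5_3 ++ cA3_1_5_4

lemma aA3_1_5_3 (hC : ∀ z φ, H z φ → Cf z φ) (hd : ∀ L D r, Pool.Agent.Helper66.Kiss.DlG.dlG L 0 D r = true → Good H P L 0) : AGX H P cA3_1_5_3 :=
  AGX_append (soundLP ctB_OKL hC hd tA3_1_5_3) (aA3_1_5_4 hC hd)

/-- boxes from number 2 -/
def cA3_1_5_2 : List Nat := bA3_1_5_2 ++ cA3_1_5_3

lemma aA3_1_5_2 (hC : ∀ z φ, H z φ → Cf z φ) (hd : ∀ L D r, Pool.Agent.Helper66.Kiss.DlG.dlG L 0 D r = true → Good H P L 0) : AGX H P cA3_1_5_2 :=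
  AGX_append (soundLP ctB_OKL hC hd tA3_1_5_2) (aA3_1_5_3 hC hd)

/-- boxes from number 1 -/
def cA3_1_5_1 : List Nat := bA3_1_5_1 ++ cA3_1_5_2

lemma aA3_1_5_1 (hC : ∀ z φ, H z φ → Cf z φ) (hd : ∀ L D r, Pool.Agent.Helper66.Kiss.DlG.dlG L 0 D r = true → Good H P L 0) : AGX H P cA3_1_5_1 :=
  AGX_append (soundLP ctB_OKL hC hd tA3_1_5_1) (aA3_1_5_2 hC hd)

/-- boxes from number 0 -/
def cA3_1_5_0 : List Nat := bA3_1_5_0 ++ cA3_1_5_1

lemma aA3_1_5_0 (hC : ∀ z φ, H z φ → Cf z φ) (hd : ∀ L D r, Pool.Agent.Helper66.Kiss.DlG.dlG L 0 D r = true → Good H P L 0) : AGX H P cA3_1_5_0 :=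
  AGX_append (soundLP ctB_OKL hC hd tA3_1_5_0) (aA3_1_5_1 hC hd)

theorem topA3_1_5 : KL.runX KL.ctB (KL.dlX cA3_1_5_0) (KL.dec 4 0x25e0025604f180024e002460023e002360022e002260021e002160020e00206001fe001f601fa0001ee0671801fb0001e60753804340001de0874803830001d601fd003850001ce075480381003820001c6001be001b6001ae001a60019e019400192000196075480018e067380018601ed00017e06718001760195002a5002a3002a200016e001660015e0015601e300014e07748028b000146014400013e0671800136014100012e0673800126067480011e0011601fb00010e00106000fe000f60809804350000ee0144001fb001920000e608248000de06718000d607748000ce07538000c601410000be0674802a2003830000b6000ae000a6019400009e0141000096075380008e067480008601ed00007e0671802a30000760006e000660005e077480193000056019400004e01ed000046067380003e06718000360141002a300002e0674802a20000260195002a5002a1002a4004f500001e04f4804f400001604f3804f3004f200000e0000604f2004f1804f100 List.nil) 0x100000000000000200002000000000000000000000000000000000000000000000000000000000000000018000620180006201800062018000620180006201800180018000620180006201800062018001800811e808f767c27b8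 [] 0 = true := by decide +kernel

/-- the root box -/
theorem rootA3_1_5 (hC : ∀ z φ, H z φ → Cf z φ) (hd : ∀ L D r, Pool.Agent.Helper66.Kiss.DlG.dlG L 0 D r = true → Good H P L 0) :
    GoodX H P 0x100000000000000200002000000000000000000000000000000000000000000000000000000000000000018000620180006201800062018000620180006201800180018000620180006201800062018001800811e808f767c27b8 :=
  soundLT ctB_OKL hC (aA3_1_5_0 hC hd) topA3_1_5

/-- boxes from number 1 -/
def cA3_1_6_1 : List Nat := bA3_1_6_1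

lemma aA3_1_6_1 (hC : ∀ z φ, H z φ → Cf z φ) (hd : ∀ L D r, Pool.Agent.Helper66.Kiss.DlG.dlG L 0 D r = true → Good H P L 0) : AGX H P cA3_1_6_1 :=
  (soundL0 ctB_OKL hC tA3_1_6_1)

/-- boxes from number 0 -/
def cA3_1_6_0 : List Nat := bA3_1_6_0 ++ cA3_1_6_1

lemma aA3_1_6_0 (hC : ∀ z φ, H z φ → Cf z φ) (hd : ∀ L D r, Pool.Agent.Helper66.Kiss.DlG.dlG L 0 D r = true → Good H P L 0) : AGX H P cA3_1_6_0 :=
  AGX_append (soundL0 ctB_OKL hC tA3_1_6_0) (aA3_1_6_1 hC hd)

theorem topA3_1_6 : KL.runX KL.ctB (KL.dlX cA3_1_6_0) (KL.dec 0 0x2e000260001e0001604f2804f200000e0000604f2004f1804f100 List.nil) 0x1000000000000000000400002000000000000000000000000000000000000000000000000000000000000000018000620180006201800062018000620180018001800062018000620180006201800062018001800811e808f55087347 [] 0 = true := by decide +kernel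

/-- the root box -/
theorem rootA3_1_6 (hC : ∀ z φ, H z φ → Cf z φ) (hd : ∀ L D r, Pool.Agent.Helper66.Kiss.DlG.dlG L 0 D r = true → Good H P L 0) :
    GoodX H P 0x1000000000000000000400002000000000000000000000000000000000000000000000000000000000000000018000620180006201800062018000620180018001800062018000620180006201800062018001800811e808f55087347 :=
  soundLT ctB_OKL hC (aA3_1_6_0 hC hd) topA3_1_6

/-- boxes from number 0 -/
def cA3_1_7_0 : List Nat := bA3_1_7_0

lemma aA3_1_7_0 (hC : ∀ z φ, H z φ → Cf z φ) (hd : ∀ L D r, Pool.Agent.Helper66.Kiss.DlG.dlG L 0 D r = true → Good H P L 0) : AGX H P cA3_1_7_0 :=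
  (soundL0 ctB_OKL hC tA3_1_7_0)

theorem topA3_1_7 : KL.runX KL.ctB (KL.dlX cA3_1_7_0) (KL.dec 0 0x60 List.nil) 0x10000000000000000000000800002000000000000000000000000000000000000000000000000000000000000000018000620180006201800062018001800180006201800062018000620180006201800062018001800811e808f25ef3bb2 [] 0 = true := by decide +kernel

/-- the root box -/
theorem rootA3_1_7 (hC : ∀ z φ, H z φ → Cf z φ) (hd : ∀ L D r, Pool.Agent.Helper66.Kiss.DlG.dlG L 0 D r = true → Good H P L 0) :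
    GoodX H P 0x10000000000000000000000800002000000000000000000000000000000000000000000000000000000000000000018000620180006201800062018001800180006201800062018000620180006201800062018001800811e808f25ef3bb2 :=
  soundLT ctB_OKL hC (aA3_1_7_0 hC hd) topA3_1_7

/-- boxes from number 0 -/
def cA3_1_8_0 : List Nat := bA3_1_8_0

lemma aA3_1_8_0 (hC : ∀ z φ, H z φ → Cf z φ) (hd : ∀ L D r, Pool.Agent.Helper66.Kiss.DlG.dlG L 0 D r = true → Good H P L 0) : AGX H P cA3_1_8_0 :=
  (soundL0 ctB_OKL hC tA3_1_8_0)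

theorem topA3_1_8 : KL.runX KL.ctB (KL.dlX cA3_1_8_0) (KL.dec 0 0x60 List.nil) 0x100000000000000000000000001000002000000000000000000000000000000000000000000000000000000000000000018000620180006201800180018000620180006201800062018000620180006201800062018001800811e808fc3ae06e7 [] 0 = true := by decide +kernel

/-- the root box -/
theorem rootA3_1_8 (hC : ∀ z φ, H z φ → Cf z φ) (hd : ∀ L D r, Pool.Agent.Helper66.Kiss.DlG.dlG L 0 D r = true → Good H P L 0) :
    GoodX H P 0x100000000000000000000000001000002000000000000000000000000000000000000000000000000000000000000000018000620180006201800180018000620180006201800062018000620180006201800062018001800811e808fc3ae06e7 :=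
  soundLT ctB_OKL hC (aA3_1_8_0 hC hd) topA3_1_8

/-- boxes from number 0 -/
def cA3_1_9_0 : List Nat := bA3_1_9_0

lemma aA3_1_9_0 (hC : ∀ z φ, H z φ → Cf z φ) (hd : ∀ L D r, Pool.Agent.Helper66.Kiss.DlG.dlG L 0 D r = true → Good H P L 0) : AGX H P cA3_1_9_0 :=
  (soundL0 ctB_OKL hC tA3_1_9_0)

theorem topA3_1_9 : KL.runX KL.ctB (KL.dlX cA3_1_9_0) (KL.dec 0 0x60 List.nil) 0x1000000000000000000000000000002000002000000000000000000000000000000000000000000000000000000000000000018000620180018001800062018000620180006201800062018000620180006201800062018001800811e808f2ec2bde1 [] 0 = true := by decide +kernel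

/-- the root box -/
theorem rootA3_1_9 (hC : ∀ z φ, H z φ → Cf z φ) (hd : ∀ L D r, Pool.Agent.Helper66.Kiss.DlG.dlG L 0 D r = true → Good H P L 0) :
    GoodX H P 0x1000000000000000000000000000002000002000000000000000000000000000000000000000000000000000000000000000018000620180018001800062018000620180006201800062018000620180006201800062018001800811e808f2ec2bde1 :=
  soundLT ctB_OKL hC (aA3_1_9_0 hC hd) topA3_1_9

/-- boxes from number 0 -/
def cA3_1_10_0 : List Nat := bA3_1_10_0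

lemma aA3_1_10_0 (hC : ∀ z φ, H z φ → Cf z φ) (hd : ∀ L D r, Pool.Agent.Helper66.Kiss.DlG.dlG L 0 D r = true → Good H P L 0) : AGX H P cA3_1_10_0 :=
  (soundL0 ctB_OKL hC tA3_1_10_0)

theorem topA3_1_10 : KL.runX KL.ctB (KL.dlX cA3_1_10_0) (KL.dec 0 0x60 List.nil) 0x10000000000000000000000000000000004000002000000000000000000000000000000000000000000000000000000000000000018001800180006201800062018000620180006201800062018000620180006201800062018001800811e808fef7321d3 [] 0 = true := by decide +kernel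

/-- the root box -/
theorem rootA3_1_10 (hC : ∀ z φ, H z φ → Cf z φ) (hd : ∀ L D r, Pool.Agent.Helper66.Kiss.DlG.dlG L 0 D r = true → Good H P L 0) :
    GoodX H P 0x10000000000000000000000000000000004000002000000000000000000000000000000000000000000000000000000000000000018001800180006201800062018000620180006201800062018000620180006201800062018001800811e808fef7321d3 :=
  soundLT ctB_OKL hC (aA3_1_10_0 hC hd) topA3_1_10

/-- boxes from number 0 -/
def cA3_2_2_0 : List Nat := bA3_2_2_0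

lemma aA3_2_2_0 (hC : ∀ z φ, H z φ → Cf z φ) (hd : ∀ L D r, Pool.Agent.Helper66.Kiss.DlG.dlG L 0 D r = true → Good H P L 0) : AGX H P cA3_2_2_0 :=
  (soundL0 ctB_OKL hC tA3_2_2_0)

theorem topA3_2_2 : KL.runX KL.ctB (KL.dlX cA3_2_2_0) (KL.dec 0 0x60 List.nil) 0x500000004000000000000000000000000000000000000000000000000000000000000000018000620180006201800062018000620180006201800062018000620180006201800180018000620811e808fe5509143 [] 0 = true := by decide +kernel

/-- the root box -/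
theorem rootA3_2_2 (hC : ∀ z φ, H z φ → Cf z φ) (hd : ∀ L D r, Pool.Agent.Helper66.Kiss.DlG.dlG L 0 D r = true → Good H P L 0) :
    GoodX H P 0x500000004000000000000000000000000000000000000000000000000000000000000000018000620180006201800062018000620180006201800062018000620180006201800180018000620811e808fe5509143 :=
  soundLT ctB_OKL hC (aA3_2_2_0 hC hd) topA3_2_2

/-- boxes from number 0 -/
def cA3_2_3_0 : List Nat := bA3_2_3_0

lemma aA3_2_3_0 (hC : ∀ z φ, H z φ → Cf z φ) (hd : ∀ L D r, Pool.Agent.Helper66.Kiss.DlG.dlG L 0 D r = true → Good H P L 0) : AGX H P cA3_2_3_0 :=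
  (soundL0 ctB_OKL hC tA3_2_3_0)

theorem topA3_2_3 : KL.runX KL.ctB (KL.dlX cA3_2_3_0) (KL.dec 0 0x60 List.nil) 0x1000800000004000000000000000000000000000000000000000000000000000000000000000018000620180006201800062018000620180006201800062018000620180018001800180018000620811e808fcee630b8 [] 0 = true := by decide +kernel

/-- the root box -/
theorem rootA3_2_3 (hC : ∀ z φ, H z φ → Cf z φ) (hd : ∀ L D r, Pool.Agent.Helper66.Kiss.DlG.dlG L 0 D r = true → Good H P L 0) :
    GoodX H P 0x1000800000004000000000000000000000000000000000000000000000000000000000000000018000620180006201800062018000620180006201800062018000620180018001800180018000620811e808fcee630b8 :=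
  soundLT ctB_OKL hC (aA3_2_3_0 hC hd) topA3_2_3

/-- boxes from number 0 -/
def cA3_2_4_0 : List Nat := bA3_2_4_0

lemma aA3_2_4_0 (hC : ∀ z φ, H z φ → Cf z φ) (hd : ∀ L D r, Pool.Agent.Helper66.Kiss.DlG.dlG L 0 D r = true → Good H P L 0) : AGX H P cA3_2_4_0 :=
  (soundL0 ctB_OKL hC tA3_2_4_0)

theorem topA3_2_4 : KL.runX KL.ctB (KL.dlX cA3_2_4_0) (KL.dec 0 0x60 List.nil) 0x10000001000000004000000000000000000000000000000000000000000000000000000000000000018000620180006201800062018000620180006201800062018001800180006201800180018000620811e808f43c4b31b [] 0 = true := by decide +kernel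

/-- the root box -/
theorem rootA3_2_4 (hC : ∀ z φ, H z φ → Cf z φ) (hd : ∀ L D r, Pool.Agent.Helper66.Kiss.DlG.dlG L 0 D r = true → Good H P L 0) :
    GoodX H P 0x10000001000000004000000000000000000000000000000000000000000000000000000000000000018000620180006201800062018000620180006201800062018001800180006201800180018000620811e808f43c4b31b :=
  soundLT ctB_OKL hC (aA3_2_4_0 hC hd) topA3_2_4

/-- boxes from number 2 -/
def cA3_2_5_2 : List Nat := bA3_2_5_2

lemma aA3_2_5_2 (hC : ∀ z φ, H z φ → Cf z φ) (hd : ∀ L D r, Pool.Agent.Helper66.Kiss.DlG.dlG L 0 D r = true → Good H P L 0) : AGX H P cA3_2_5_2 :=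
  (soundL0 ctB_OKL hC tA3_2_5_2)

/-- boxes from number 1 -/
def cA3_2_5_1 : List Nat := bA3_2_5_1 ++ cA3_2_5_2

lemma aA3_2_5_1 (hC : ∀ z φ, H z φ → Cf z φ) (hd : ∀ L D r, Pool.Agent.Helper66.Kiss.DlG.dlG L 0 D r = true → Good H P L 0) : AGX H P cA3_2_5_1 :=
  AGX_append (soundL0 ctB_OKL hC tA3_2_5_1) (aA3_2_5_2 hC hd)

/-- boxes from number 0 -/
def cA3_2_5_0 : List Nat := bA3_2_5_0 ++ cA3_2_5_1

lemma aA3_2_5_0 (hC : ∀ z φ, H z φ → Cf z φ) (hd : ∀ L D r, Pool.Agent.Helper66.Kiss.DlG.dlG L 0 D r = true → Good H P L 0) : AGX H P cA3_2_5_0 :=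
  AGX_append (soundL0 ctB_OKL hC tA3_2_5_0) (aA3_2_5_1 hC hd)

theorem topA3_2_5 : KL.runX KL.ctB (KL.dlX cA3_2_5_0) (KL.dec 0 0x3e0003604f180002e0002604f200001e000160000e04f3804f300000604f2004f1804f080 List.nil) 0x100000000002000000004000000000000000000000000000000000000000000000000000000000000000018000620180006201800062018000620180006201800180018000620180006201800180018000620811e808ffca19c81 [] 0 = true := by decide +kernel

/-- the root box -/
theorem rootA3_2_5 (hC : ∀ z φ, H z φ → Cf z φ) (hd : ∀ L D r, Pool.Agent.Helper66.Kiss.DlG.dlG L 0 D r = true → Good H P L 0) :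
    GoodX H P 0x100000000002000000004000000000000000000000000000000000000000000000000000000000000000018000620180006201800062018000620180006201800180018000620180006201800180018000620811e808ffca19c81 :=
  soundLT ctB_OKL hC (aA3_2_5_0 hC hd) topA3_2_5

/-- boxes from number 16 -/
def cA3_2_6_16 : List Nat := bA3_2_6_16

lemma aA3_2_6_16 (hC : ∀ z φ, H z φ → Cf z φ) (hd : ∀ L D r, Pool.Agent.Helper66.Kiss.DlG.dlG L 0 D r = true → Good H P L 0) : AGX H P cA3_2_6_16 :=
  (soundLP ctB_OKL hC hd tA3_2_6_16)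

/-- boxes from number 15 -/
def cA3_2_6_15 : List Nat := bA3_2_6_15 ++ cA3_2_6_16

lemma aA3_2_6_15 (hC : ∀ z φ, H z φ → Cf z φ) (hd : ∀ L D r, Pool.Agent.Helper66.Kiss.DlG.dlG L 0 D r = true → Good H P L 0) : AGX H P cA3_2_6_15 :=
  AGX_append (soundL0 ctB_OKL hC tA3_2_6_15) (aA3_2_6_16 hC hd)

/-- boxes from number 14 -/
def cA3_2_6_14 : List Nat := bA3_2_6_14 ++ cA3_2_6_15

lemma aA3_2_6_14 (hC : ∀ z φ, H z φ → Cf z φ) (hd : ∀ L D r, Pool.Agent.Helper66.Kiss.DlG.dlG L 0 D r = true → Good H P L 0) : AGX H P cA3_2_6_14 :=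
  AGX_append (soundLP ctB_OKL hC hd tA3_2_6_14) (aA3_2_6_15 hC hd)

/-- boxes from number 13 -/
def cA3_2_6_13 : List Nat := bA3_2_6_13 ++ cA3_2_6_14

lemma aA3_2_6_13 (hC : ∀ z φ, H z φ → Cf z φ) (hd : ∀ L D r, Pool.Agent.Helper66.Kiss.DlG.dlG L 0 D r = true → Good H P L 0) : AGX H P cA3_2_6_13 :=
  AGX_append (soundLP ctB_OKL hC hd tA3_2_6_13) (aA3_2_6_14 hC hd)

/-- boxes from number 12 -/
def cA3_2_6_12 : List Nat := bA3_2_6_12 ++ cA3_2_6_13

lemma aA3_2_6_12 (hC : ∀ z φ, H z φ → Cf z φ) (hd : ∀ L D r, Pool.Agent.Helper66.Kiss.DlG.dlG L 0 D r = true → Good H P L 0) : AGX H P cA3_2_6_12 :=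
  AGX_append (soundLP ctB_OKL hC hd tA3_2_6_12) (aA3_2_6_13 hC hd)

/-- boxes from number 11 -/
def cA3_2_6_11 : List Nat := bA3_2_6_11 ++ cA3_2_6_12

lemma aA3_2_6_11 (hC : ∀ z φ, H z φ → Cf z φ) (hd : ∀ L D r, Pool.Agent.Helper66.Kiss.DlG.dlG L 0 D r = true → Good H P L 0) : AGX H P cA3_2_6_11 :=
  AGX_append (soundLP ctB_OKL hC hd tA3_2_6_11) (aA3_2_6_12 hC hd)

/-- boxes from number 10 -/
def cA3_2_6_10 : List Nat := bA3_2_6_10 ++ cA3_2_6_11

lemma aA3_2_6_10 (hC : ∀ z φ, H z φ → Cf z φ) (hd : ∀ L D r, Pool.Agent.Helper66.Kiss.DlG.dlG L 0 D r = true → Good H P L 0) : AGX H P cA3_2_6_10 :=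
  AGX_append (soundLP ctB_OKL hC hd tA3_2_6_10) (aA3_2_6_11 hC hd)

/-- boxes from number 9 -/
def cA3_2_6_9 : List Nat := bA3_2_6_9 ++ cA3_2_6_10

lemma aA3_2_6_9 (hC : ∀ z φ, H z φ → Cf z φ) (hd : ∀ L D r, Pool.Agent.Helper66.Kiss.DlG.dlG L 0 D r = true → Good H P L 0) : AGX H P cA3_2_6_9 :=
  AGX_append (soundLP ctB_OKL hC hd tA3_2_6_9) (aA3_2_6_10 hC hd)

/-- boxes from number 8 -/
def cA3_2_6_8 : List Nat := bA3_2_6_8 ++ cA3_2_6_9

lemma aA3_2_6_8 (hC : ∀ z φ, H z φ → Cf z φ) (hd : ∀ L D r, Pool.Agent.Helper66.Kiss.DlG.dlG L 0 D r = true → Good H P L 0) : AGX H P cA3_2_6_8 :=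
  AGX_append (soundLP ctB_OKL hC hd tA3_2_6_8) (aA3_2_6_9 hC hd)

/-- boxes from number 7 -/
def cA3_2_6_7 : List Nat := bA3_2_6_7 ++ cA3_2_6_8

lemma aA3_2_6_7 (hC : ∀ z φ, H z φ → Cf z φ) (hd : ∀ L D r, Pool.Agent.Helper66.Kiss.DlG.dlG L 0 D r = true → Good H P L 0) : AGX H P cA3_2_6_7 :=
  AGX_append (soundLP ctB_OKL hC hd tA3_2_6_7) (aA3_2_6_8 hC hd)

/-- boxes from number 6 -/
def cA3_2_6_6 : List Nat := bA3_2_6_6 ++ cA3_2_6_7

lemma aA3_2_6_6 (hC : ∀ z φ, H z φ → Cf z φ) (hd : ∀ L D r, Pool.Agent.Helper66.Kiss.DlG.dlG L 0 D r = true → Good H P L 0) : AGX H P cA3_2_6_6 :=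
  AGX_append (soundLP ctB_OKL hC hd tA3_2_6_6) (aA3_2_6_7 hC hd)

/-- boxes from number 5 -/
def cA3_2_6_5 : List Nat := bA3_2_6_5 ++ cA3_2_6_6

lemma aA3_2_6_5 (hC : ∀ z φ, H z φ → Cf z φ) (hd : ∀ L D r, Pool.Agent.Helper66.Kiss.DlG.dlG L 0 D r = true → Good H P L 0) : AGX H P cA3_2_6_5 :=
  AGX_append (soundLP ctB_OKL hC hd tA3_2_6_5) (aA3_2_6_6 hC hd)

/-- boxes from number 4 -/
def cA3_2_6_4 : List Nat := bA3_2_6_4 ++ cA3_2_6_5

lemma aA3_2_6_4 (hC : ∀ z φ, H z φ → Cf z φ) (hd : ∀ L D r, Pool.Agent.Helper66.Kiss.DlG.dlG L 0 D r = true → Good H P L 0) : AGX H P cA3_2_6_4 :=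
  AGX_append (soundLP ctB_OKL hC hd tA3_2_6_4) (aA3_2_6_5 hC hd)

/-- boxes from number 3 -/
def cA3_2_6_3 : List Nat := bA3_2_6_3 ++ cA3_2_6_4

lemma aA3_2_6_3 (hC : ∀ z φ, H z φ → Cf z φ) (hd : ∀ L D r, Pool.Agent.Helper66.Kiss.DlG.dlG L 0 D r = true → Good H P L 0) : AGX H P cA3_2_6_3 :=
  AGX_append (soundLP ctB_OKL hC hd tA3_2_6_3) (aA3_2_6_4 hC hd)

/-- boxes from number 2 -/
def cA3_2_6_2 : List Nat := bA3_2_6_2 ++ cA3_2_6_3

lemma aA3_2_6_2 (hC : ∀ z φ, H z φ → Cf z φ) (hd : ∀ L D r, Pool.Agent.Helper66.Kiss.DlG.dlG L 0 D r = true → Good H P L 0) : AGX H P cA3_2_6_2 :=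
  AGX_append (soundLP ctB_OKL hC hd tA3_2_6_2) (aA3_2_6_3 hC hd)

/-- boxes from number 1 -/
def cA3_2_6_1 : List Nat := bA3_2_6_1 ++ cA3_2_6_2

lemma aA3_2_6_1 (hC : ∀ z φ, H z φ → Cf z φ) (hd : ∀ L D r, Pool.Agent.Helper66.Kiss.DlG.dlG L 0 D r = true → Good H P L 0) : AGX H P cA3_2_6_1 :=
  AGX_append (soundLP ctB_OKL hC hd tA3_2_6_1) (aA3_2_6_2 hC hd)

/-- boxes from number 0 -/
def cA3_2_6_0 : List Nat := bA3_2_6_0 ++ cA3_2_6_1

lemma aA3_2_6_0 (hC : ∀ z φ, H z φ → Cf z φ) (hd : ∀ L D r, Pool.Agent.Helper66.Kiss.DlG.dlG L 0 D r = true → Good H P L 0) : AGX H P cA3_2_6_0 :=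
  AGX_append (soundLP ctB_OKL hC hd tA3_2_6_0) (aA3_2_6_1 hC hd)

theorem topA3_2_6 : KL.runX KL.ctB (KL.dlX cA3_2_6_0) (KL.dec 4 0x3c6003be003b604f2004f18003ae003a60039e04f2804f20003960038e003860037e003760036e0036602a080035e06740003560034e01fa800346077500033e0672000336067400032e06750003260031e003160030e01fa801938043480030607520002fe06750002f606740002ee0190802a0802a380382803818002e6002de002d6002ce002c6002be002b6080c0043180433801928002ae06720002a601888038080029e0674000296067500028e01948002860027e002760026e080a00026601938019280025e014480025601b880024e0755000246075400023e06720002360140802a0802a3802a280022e002260021e002160020e019180432801fb80020607750001fe0672003838001f606740001ee06750001e601448001de001d6001ce001c6001be01928001b607740001ae07750019180433804308001a6075200019e0674000196067500018e01948001860017e00176019180016e0775001928001660015e0192800156019180014e077500193800146075400013e00136080c00012e077500012606740075200011e01448001160675002a3802a280010e00106000fe01918000f6000ee000e608740000de01b8804328000d607720000ce0141801938000c607540000be07550000b60144802a38000ae06720000a6014080009e000960008e019180192800086077400007e01b8800076075500006e07520000660005e01928000560004e080c00193800046080d00003e06720000360675002a380002e0674000026014480001e0140802a2802a0802a1802a480001604f5004f480000e04f4004f3804f280000604f2004f1804f080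 List.nil) 0x1000000000000004000000004000000000000000000000000000000000000000000000000000000000000000018000620180006201800062018000620180018001800062018000620180006201800180018000620811e808f9890276a [] 0 = true := by decide +kernel

/-- the root box -/
theorem rootA3_2_6 (hC : ∀ z φ, H z φ → Cf z φ) (hd : ∀ L D r, Pool.Agent.Helper66.Kiss.DlG.dlG L 0 D r = true → Good H P L 0) :
    GoodX H P 0x1000000000000004000000004000000000000000000000000000000000000000000000000000000000000000018000620180006201800062018000620180018001800062018000620180006201800180018000620811e808f9890276a :=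
  soundLT ctB_OKL hC (aA3_2_6_0 hC hd) topA3_2_6

/-- boxes from number 2 -/
def cA3_2_7_2 : List Nat := bA3_2_7_2

lemma aA3_2_7_2 (hC : ∀ z φ, H z φ → Cf z φ) (hd : ∀ L D r, Pool.Agent.Helper66.Kiss.DlG.dlG L 0 D r = true → Good H P L 0) : AGX H P cA3_2_7_2 :=
  (soundL0 ctB_OKL hC tA3_2_7_2)

/-- boxes from number 1 -/
def cA3_2_7_1 : List Nat := bA3_2_7_1 ++ cA3_2_7_2

lemma aA3_2_7_1 (hC : ∀ z φ, H z φ → Cf z φ) (hd : ∀ L D r, Pool.Agent.Helper66.Kiss.DlG.dlG L 0 D r = true → Good H P L 0) : AGX H P cA3_2_7_1 :=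
  AGX_append (soundL0 ctB_OKL hC tA3_2_7_1) (aA3_2_7_2 hC hd)

/-- boxes from number 0 -/
def cA3_2_7_0 : List Nat := bA3_2_7_0 ++ cA3_2_7_1

lemma aA3_2_7_0 (hC : ∀ z φ, H z φ → Cf z φ) (hd : ∀ L D r, Pool.Agent.Helper66.Kiss.DlG.dlG L 0 D r = true → Good H P L 0) : AGX H P cA3_2_7_0 :=
  AGX_append (soundL0 ctB_OKL hC tA3_2_7_0) (aA3_2_7_1 hC hd)

theorem topA3_2_7 : KL.runX KL.ctB (KL.dlX cA3_2_7_0) (KL.dec 0 0x360002e0002604f2004f180001e000160000e04f280000604f2004f1804f080 List.nil) 0x10000000000000000008000000004000000000000000000000000000000000000000000000000000000000000000018000620180006201800062018001800180006201800062018000620180006201800180018000620811e808fe43b6e84 [] 0 = true := by decide +kernel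

/-- the root box -/
theorem rootA3_2_7 (hC : ∀ z φ, H z φ → Cf z φ) (hd : ∀ L D r, Pool.Agent.Helper66.Kiss.DlG.dlG L 0 D r = true → Good H P L 0) :
    GoodX H P 0x10000000000000000008000000004000000000000000000000000000000000000000000000000000000000000000018000620180006201800062018001800180006201800062018000620180006201800180018000620811e808fe43b6e84 :=
  soundLT ctB_OKL hC (aA3_2_7_0 hC hd) topA3_2_7

/-- boxes from number 0 -/
def cA3_2_8_0 : List Nat := bA3_2_8_0

lemma aA3_2_8_0 (hC : ∀ z φ, H z φ → Cf z φ) (hd : ∀ L D r, Pool.Agent.Helper66.Kiss.DlG.dlG L 0 D r = true → Good H P L 0) : AGX H P cA3_2_8_0 :=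
  (soundL0 ctB_OKL hC tA3_2_8_0)

theorem topA3_2_8 : KL.runX KL.ctB (KL.dlX cA3_2_8_0) (KL.dec 0 0x60 List.nil) 0x100000000000000000000010000000004000000000000000000000000000000000000000000000000000000000000000018000620180006201800180018000620180006201800062018000620180006201800180018000620811e808f77833721 [] 0 = true := by decide +kernel

/-- the root box -/
theorem rootA3_2_8 (hC : ∀ z φ, H z φ → Cf z φ) (hd : ∀ L D r, Pool.Agent.Helper66.Kiss.DlG.dlG L 0 D r = true → Good H P L 0) :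
    GoodX H P 0x100000000000000000000010000000004000000000000000000000000000000000000000000000000000000000000000018000620180006201800180018000620180006201800062018000620180006201800180018000620811e808f77833721 :=
  soundLT ctB_OKL hC (aA3_2_8_0 hC hd) topA3_2_8

/-- boxes from number 0 -/
def cA3_2_9_0 : List Nat := bA3_2_9_0

lemma aA3_2_9_0 (hC : ∀ z φ, H z φ → Cf z φ) (hd : ∀ L D r, Pool.Agent.Helper66.Kiss.DlG.dlG L 0 D r = true → Good H P L 0) : AGX H P cA3_2_9_0 :=
  (soundL0 ctB_OKL hC tA3_2_9_0)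

theorem topA3_2_9 : KL.runX KL.ctB (KL.dlX cA3_2_9_0) (KL.dec 0 0x60 List.nil) 0x1000000000000000000000000020000000004000000000000000000000000000000000000000000000000000000000000000018000620180018001800062018000620180006201800062018000620180006201800180018000620811e808fcda9e8dc [] 0 = true := by decide +kernel

/-- the root box -/
theorem rootA3_2_9 (hC : ∀ z φ, H z φ → Cf z φ) (hd : ∀ L D r, Pool.Agent.Helper66.Kiss.DlG.dlG L 0 D r = true → Good H P L 0) :
    GoodX H P 0x1000000000000000000000000020000000004000000000000000000000000000000000000000000000000000000000000000018000620180018001800062018000620180006201800062018000620180006201800180018000620811e808fcda9e8dc :=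
  soundLT ctB_OKL hC (aA3_2_9_0 hC hd) topA3_2_9

/-- boxes from number 0 -/
def cA3_3_3_0 : List Nat := bA3_3_3_0

lemma aA3_3_3_0 (hC : ∀ z φ, H z φ → Cf z φ) (hd : ∀ L D r, Pool.Agent.Helper66.Kiss.DlG.dlG L 0 D r = true → Good H P L 0) : AGX H P cA3_3_3_0 :=
  (soundL0 ctB_OKL hC tA3_3_3_0)

theorem topA3_3_3 : KL.runX KL.ctB (KL.dlX cA3_3_3_0) (KL.dec 0 0x60 List.nil) 0x9000000000008000000000000000000000000000000000000000000000000000000000000000018000620180006201800062018000620180006201800062018000620180018001800062018000620811e808ff03e3e78 [] 0 = true := by decide +kernel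

/-- the root box -/
theorem rootA3_3_3 (hC : ∀ z φ, H z φ → Cf z φ) (hd : ∀ L D r, Pool.Agent.Helper66.Kiss.DlG.dlG L 0 D r = true → Good H P L 0) :
    GoodX H P 0x9000000000008000000000000000000000000000000000000000000000000000000000000000018000620180006201800062018000620180006201800062018000620180018001800062018000620811e808ff03e3e78 :=
  soundLT ctB_OKL hC (aA3_3_3_0 hC hd) topA3_3_3

/-- boxes from number 0 -/
def cA3_3_4_0 : List Nat := bA3_3_4_0

lemma aA3_3_4_0 (hC : ∀ z φ, H z φ → Cf z φ) (hd : ∀ L D r, Pool.Agent.Helper66.Kiss.DlG.dlG L 0 D r = true → Good H P L 0) : AGX H P cA3_3_4_0 :=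
  (soundL0 ctB_OKL hC tA3_3_4_0)

theorem topA3_3_4 : KL.runX KL.ctB (KL.dlX cA3_3_4_0) (KL.dec 0 0x60 List.nil) 0x10010000000000008000000000000000000000000000000000000000000000000000000000000000018000620180006201800062018000620180006201800062018001800180018001800062018000620811e808ff4fba7f3 [] 0 = true := by decide +kernel

/-- the root box -/
theorem rootA3_3_4 (hC : ∀ z φ, H z φ → Cf z φ) (hd : ∀ L D r, Pool.Agent.Helper66.Kiss.DlG.dlG L 0 D r = true → Good H P L 0) :
    GoodX H P 0x10010000000000008000000000000000000000000000000000000000000000000000000000000000018000620180006201800062018000620180006201800062018001800180018001800062018000620811e808ff4fba7f3 :=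
  soundLT ctB_OKL hC (aA3_3_4_0 hC hd) topA3_3_4

/-- boxes from number 5 -/
def cA3_3_5_5 : List Nat := bA3_3_5_5

lemma aA3_3_5_5 (hC : ∀ z φ, H z φ → Cf z φ) (hd : ∀ L D r, Pool.Agent.Helper66.Kiss.DlG.dlG L 0 D r = true → Good H P L 0) : AGX H P cA3_3_5_5 :=
  (soundLP ctB_OKL hC hd tA3_3_5_5)

/-- boxes from number 4 -/
def cA3_3_5_4 : List Nat := bA3_3_5_4 ++ cA3_3_5_5

lemma aA3_3_5_4 (hC : ∀ z φ, H z φ → Cf z φ) (hd : ∀ L D r, Pool.Agent.Helper66.Kiss.DlG.dlG L 0 D r = true → Good H P L 0) : AGX H P cA3_3_5_4 :=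
  AGX_append (soundLP ctB_OKL hC hd tA3_3_5_4) (aA3_3_5_5 hC hd)

/-- boxes from number 3 -/
def cA3_3_5_3 : List Nat := bA3_3_5_3 ++ cA3_3_5_4

lemma aA3_3_5_3 (hC : ∀ z φ, H z φ → Cf z φ) (hd : ∀ L D r, Pool.Agent.Helper66.Kiss.DlG.dlG L 0 D r = true → Good H P L 0) : AGX H P cA3_3_5_3 :=
  AGX_append (soundLP ctB_OKL hC hd tA3_3_5_3) (aA3_3_5_4 hC hd)

/-- boxes from number 2 -/
def cA3_3_5_2 : List Nat := bA3_3_5_2 ++ cA3_3_5_3

lemma aA3_3_5_2 (hC : ∀ z φ, H z φ → Cf z φ) (hd : ∀ L D r, Pool.Agent.Helper66.Kiss.DlG.dlG L 0 D r = true → Good H P L 0) : AGX H P cA3_3_5_2 :=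
  AGX_append (soundLP ctB_OKL hC hd tA3_3_5_2) (aA3_3_5_3 hC hd)

/-- boxes from number 1 -/
def cA3_3_5_1 : List Nat := bA3_3_5_1 ++ cA3_3_5_2

lemma aA3_3_5_1 (hC : ∀ z φ, H z φ → Cf z φ) (hd : ∀ L D r, Pool.Agent.Helper66.Kiss.DlG.dlG L 0 D r = true → Good H P L 0) : AGX H P cA3_3_5_1 :=
  AGX_append (soundLP ctB_OKL hC hd tA3_3_5_1) (aA3_3_5_2 hC hd)

/-- boxes from number 0 -/
def cA3_3_5_0 : List Nat := bA3_3_5_0 ++ cA3_3_5_1

lemma aA3_3_5_0 (hC : ∀ z φ, H z φ → Cf z φ) (hd : ∀ L D r, Pool.Agent.Helper66.Kiss.DlG.dlG L 0 D r = true → Good H P L 0) : AGX H P cA3_3_5_0 :=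
  AGX_append (soundL0 ctB_OKL hC tA3_3_5_0) (aA3_3_5_1 hC hd)

theorem topA3_3_5 : KL.runX KL.ctB (KL.dlX cA3_3_5_0) (KL.dec 3 0x18e001860017e001760016e001660015e001560014e001460013e02a2002a10028c00384003830001360012e001260011e0011602a20043400010e088c80010601ed0000fe080c8000f6075480383003810000ee000e6000de000d60753802a30000ce0670802a20000c6000be000b6000ae000a6080c8017b001f300009e0194000096067080008e0141000086067380007e067480007601ed002a300006e000660005e0193000056019400004e01ed000046067380003e0674800036067080002e0141002a3002a2002a1002a40000260195002a5004f500001e04f4804f400001604f3804f3004f2004f100000e0000604f1004f080 List.nil) 0x100000020000000000008000000000000000000000000000000000000000000000000000000000000000018000620180006201800062018000620180006201800180018000620180018001800062018000620811e808fcd84ead3 [] 0 = true := by decide +kernel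

/-- the root box -/
theorem rootA3_3_5 (hC : ∀ z φ, H z φ → Cf z φ) (hd : ∀ L D r, Pool.Agent.Helper66.Kiss.DlG.dlG L 0 D r = true → Good H P L 0) :
    GoodX H P 0x100000020000000000008000000000000000000000000000000000000000000000000000000000000000018000620180006201800062018000620180006201800180018000620180018001800062018000620811e808fcd84ead3 :=
  soundLT ctB_OKL hC (aA3_3_5_0 hC hd) topA3_3_5

/-- boxes from number 4 -/
def cA3_3_6_4 : List Nat := bA3_3_6_4

lemma aA3_3_6_4 (hC : ∀ z φ, H z φ → Cf z φ) (hd : ∀ L D r, Pool.Agent.Helper66.Kiss.DlG.dlG L 0 D r = true → Good H P L 0) : AGX H P cA3_3_6_4 :=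
  (soundL0 ctB_OKL hC tA3_3_6_4)

/-- boxes from number 3 -/
def cA3_3_6_3 : List Nat := bA3_3_6_3 ++ cA3_3_6_4

lemma aA3_3_6_3 (hC : ∀ z φ, H z φ → Cf z φ) (hd : ∀ L D r, Pool.Agent.Helper66.Kiss.DlG.dlG L 0 D r = true → Good H P L 0) : AGX H P cA3_3_6_3 :=
  AGX_append (soundLP ctB_OKL hC hd tA3_3_6_3) (aA3_3_6_4 hC hd)

/-- boxes from number 2 -/
def cA3_3_6_2 : List Nat := bA3_3_6_2 ++ cA3_3_6_3

lemma aA3_3_6_2 (hC : ∀ z φ, H z φ → Cf z φ) (hd : ∀ L D r, Pool.Agent.Helper66.Kiss.DlG.dlG L 0 D r = true → Good H P L 0) : AGX H P cA3_3_6_2 :=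
  AGX_append (soundL0 ctB_OKL hC tA3_3_6_2) (aA3_3_6_3 hC hd)

/-- boxes from number 1 -/
def cA3_3_6_1 : List Nat := bA3_3_6_1 ++ cA3_3_6_2

lemma aA3_3_6_1 (hC : ∀ z φ, H z φ → Cf z φ) (hd : ∀ L D r, Pool.Agent.Helper66.Kiss.DlG.dlG L 0 D r = true → Good H P L 0) : AGX H P cA3_3_6_1 :=
  AGX_append (soundL0 ctB_OKL hC tA3_3_6_1) (aA3_3_6_2 hC hd)

/-- boxes from number 0 -/
def cA3_3_6_0 : List Nat := bA3_3_6_0 ++ cA3_3_6_1

lemma aA3_3_6_0 (hC : ∀ z φ, H z φ → Cf z φ) (hd : ∀ L D r, Pool.Agent.Helper66.Kiss.DlG.dlG L 0 D r = true → Good H P L 0) : AGX H P cA3_3_6_0 :=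
  AGX_append (soundL0 ctB_OKL hC tA3_3_6_0) (aA3_3_6_1 hC hd)

theorem topA3_3_6 : KL.runX KL.ctB (KL.dlX cA3_3_6_0) (KL.dec 1 0x5e000560004e0004604f380003e0003604f3804f2804f2004f100002e000260001e04f2804f20000160000e04f280000604f2004f1004f080 List.nil) 0x1000000000040000000000008000000000000000000000000000000000000000000000000000000000000000018000620180006201800062018000620180018001800062018000620180018001800062018000620811e808fa8cc28a6 [] 0 = true := by decide +kernel

/-- the root box -/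
theorem rootA3_3_6 (hC : ∀ z φ, H z φ → Cf z φ) (hd : ∀ L D r, Pool.Agent.Helper66.Kiss.DlG.dlG L 0 D r = true → Good H P L 0) :
    GoodX H P 0x1000000000040000000000008000000000000000000000000000000000000000000000000000000000000000018000620180006201800062018000620180018001800062018000620180018001800062018000620811e808fa8cc28a6 :=
  soundLT ctB_OKL hC (aA3_3_6_0 hC hd) topA3_3_6

/-- boxes from number 16 -/
def cA3_3_7_16 : List Nat := bA3_3_7_16

lemma aA3_3_7_16 (hC : ∀ z φ, H z φ → Cf z φ) (hd : ∀ L D r, Pool.Agent.Helper66.Kiss.DlG.dlG L 0 D r = true → Good H P L 0) : AGX H P cA3_3_7_16 :=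
  (soundL0 ctB_OKL hC tA3_3_7_16)

/-- boxes from number 15 -/
def cA3_3_7_15 : List Nat := bA3_3_7_15 ++ cA3_3_7_16

lemma aA3_3_7_15 (hC : ∀ z φ, H z φ → Cf z φ) (hd : ∀ L D r, Pool.Agent.Helper66.Kiss.DlG.dlG L 0 D r = true → Good H P L 0) : AGX H P cA3_3_7_15 :=
  AGX_append (soundLP ctB_OKL hC hd tA3_3_7_15) (aA3_3_7_16 hC hd)

/-- boxes from number 14 -/
def cA3_3_7_14 : List Nat := bA3_3_7_14 ++ cA3_3_7_15

lemma aA3_3_7_14 (hC : ∀ z φ, H z φ → Cf z φ) (hd : ∀ L D r, Pool.Agent.Helper66.Kiss.DlG.dlG L 0 D r = true → Good H P L 0) : AGX H P cA3_3_7_14 :=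
  AGX_append (soundLP ctB_OKL hC hd tA3_3_7_14) (aA3_3_7_15 hC hd)

/-- boxes from number 13 -/
def cA3_3_7_13 : List Nat := bA3_3_7_13 ++ cA3_3_7_14

lemma aA3_3_7_13 (hC : ∀ z φ, H z φ → Cf z φ) (hd : ∀ L D r, Pool.Agent.Helper66.Kiss.DlG.dlG L 0 D r = true → Good H P L 0) : AGX H P cA3_3_7_13 :=
  AGX_append (soundLP ctB_OKL hC hd tA3_3_7_13) (aA3_3_7_14 hC hd)

/-- boxes from number 12 -/
def cA3_3_7_12 : List Nat := bA3_3_7_12 ++ cA3_3_7_13

lemma aA3_3_7_12 (hC : ∀ z φ, H z φ → Cf z φ) (hd : ∀ L D r, Pool.Agent.Helper66.Kiss.DlG.dlG L 0 D r = true → Good H P L 0) : AGX H P cA3_3_7_12 :=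
  AGX_append (soundLP ctB_OKL hC hd tA3_3_7_12) (aA3_3_7_13 hC hd)

/-- boxes from number 11 -/
def cA3_3_7_11 : List Nat := bA3_3_7_11 ++ cA3_3_7_12

lemma aA3_3_7_11 (hC : ∀ z φ, H z φ → Cf z φ) (hd : ∀ L D r, Pool.Agent.Helper66.Kiss.DlG.dlG L 0 D r = true → Good H P L 0) : AGX H P cA3_3_7_11 :=
  AGX_append (soundLP ctB_OKL hC hd tA3_3_7_11) (aA3_3_7_12 hC hd)

/-- boxes from number 10 -/
def cA3_3_7_10 : List Nat := bA3_3_7_10 ++ cA3_3_7_11

lemma aA3_3_7_10 (hC : ∀ z φ, H z φ → Cf z φ) (hd : ∀ L D r, Pool.Agent.Helper66.Kiss.DlG.dlG L 0 D r = true → Good H P L 0) : AGX H P cA3_3_7_10 :=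
  AGX_append (soundLP ctB_OKL hC hd tA3_3_7_10) (aA3_3_7_11 hC hd)

/-- boxes from number 9 -/
def cA3_3_7_9 : List Nat := bA3_3_7_9 ++ cA3_3_7_10

lemma aA3_3_7_9 (hC : ∀ z φ, H z φ → Cf z φ) (hd : ∀ L D r, Pool.Agent.Helper66.Kiss.DlG.dlG L 0 D r = true → Good H P L 0) : AGX H P cA3_3_7_9 :=
  AGX_append (soundLP ctB_OKL hC hd tA3_3_7_9) (aA3_3_7_10 hC hd)

/-- boxes from number 8 -/
def cA3_3_7_8 : List Nat := bA3_3_7_8 ++ cA3_3_7_9

lemma aA3_3_7_8 (hC : ∀ z φ, H z φ → Cf z φ) (hd : ∀ L D r, Pool.Agent.Helper66.Kiss.DlG.dlG L 0 D r = true → Good H P L 0) : AGX H P cA3_3_7_8 :=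
  AGX_append (soundLP ctB_OKL hC hd tA3_3_7_8) (aA3_3_7_9 hC hd)

/-- boxes from number 7 -/
def cA3_3_7_7 : List Nat := bA3_3_7_7 ++ cA3_3_7_8

lemma aA3_3_7_7 (hC : ∀ z φ, H z φ → Cf z φ) (hd : ∀ L D r, Pool.Agent.Helper66.Kiss.DlG.dlG L 0 D r = true → Good H P L 0) : AGX H P cA3_3_7_7 :=
  AGX_append (soundLP ctB_OKL hC hd tA3_3_7_7) (aA3_3_7_8 hC hd)

/-- boxes from number 6 -/
def cA3_3_7_6 : List Nat := bA3_3_7_6 ++ cA3_3_7_7

lemma aA3_3_7_6 (hC : ∀ z φ, H z φ → Cf z φ) (hd : ∀ L D r, Pool.Agent.Helper66.Kiss.DlG.dlG L 0 D r = true → Good H P L 0) : AGX H P cA3_3_7_6 :=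
  AGX_append (soundLP ctB_OKL hC hd tA3_3_7_6) (aA3_3_7_7 hC hd)

/-- boxes from number 5 -/
def cA3_3_7_5 : List Nat := bA3_3_7_5 ++ cA3_3_7_6

lemma aA3_3_7_5 (hC : ∀ z φ, H z φ → Cf z φ) (hd : ∀ L D r, Pool.Agent.Helper66.Kiss.DlG.dlG L 0 D r = true → Good H P L 0) : AGX H P cA3_3_7_5 :=
  AGX_append (soundLP ctB_OKL hC hd tA3_3_7_5) (aA3_3_7_6 hC hd)

/-- boxes from number 4 -/
def cA3_3_7_4 : List Nat := bA3_3_7_4 ++ cA3_3_7_5

lemma aA3_3_7_4 (hC : ∀ z φ, H z φ → Cf z φ) (hd : ∀ L D r, Pool.Agent.Helper66.Kiss.DlG.dlG L 0 D r = true → Good H P L 0) : AGX H P cA3_3_7_4 :=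
  AGX_append (soundLP ctB_OKL hC hd tA3_3_7_4) (aA3_3_7_5 hC hd)

/-- boxes from number 3 -/
def cA3_3_7_3 : List Nat := bA3_3_7_3 ++ cA3_3_7_4

lemma aA3_3_7_3 (hC : ∀ z φ, H z φ → Cf z φ) (hd : ∀ L D r, Pool.Agent.Helper66.Kiss.DlG.dlG L 0 D r = true → Good H P L 0) : AGX H P cA3_3_7_3 :=
  AGX_append (soundLP ctB_OKL hC hd tA3_3_7_3) (aA3_3_7_4 hC hd)

/-- boxes from number 2 -/
def cA3_3_7_2 : List Nat := bA3_3_7_2 ++ cA3_3_7_3

lemma aA3_3_7_2 (hC : ∀ z φ, H z φ → Cf z φ) (hd : ∀ L D r, Pool.Agent.Helper66.Kiss.DlG.dlG L 0 D r = true → Good H P L 0) : AGX H P cA3_3_7_2 :=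
  AGX_append (soundLP ctB_OKL hC hd tA3_3_7_2) (aA3_3_7_3 hC hd)

/-- boxes from number 1 -/
def cA3_3_7_1 : List Nat := bA3_3_7_1 ++ cA3_3_7_2

lemma aA3_3_7_1 (hC : ∀ z φ, H z φ → Cf z φ) (hd : ∀ L D r, Pool.Agent.Helper66.Kiss.DlG.dlG L 0 D r = true → Good H P L 0) : AGX H P cA3_3_7_1 :=
  AGX_append (soundL0 ctB_OKL hC tA3_3_7_1) (aA3_3_7_2 hC hd)

/-- boxes from number 0 -/
def cA3_3_7_0 : List Nat := bA3_3_7_0 ++ cA3_3_7_1

lemma aA3_3_7_0 (hC : ∀ z φ, H z φ → Cf z φ) (hd : ∀ L D r, Pool.Agent.Helper66.Kiss.DlG.dlG L 0 D r = true → Good H P L 0) : AGX H P cA3_3_7_0 :=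
  AGX_append (soundL0 ctB_OKL hC tA3_3_7_0) (aA3_3_7_1 hC hd)

theorem topA3_3_7 : KL.runX KL.ctB (KL.dlX cA3_3_7_0) (KL.dec 4 0x3a60039e003960038e003860037e003760036e003660035e01fb000356077080034e06728003460674802a400033e06708003360032e003260031e01fa00435000316014100030e0030601fa0002fe0141001fb0002f606728002ee06748002e60670802a4002a100382003830002de002d6002ce002c6002be002b6002ae080a8002a6080c80029e00296088080028e00ec00194001930043200028601bd00027e0141000276067080026e0674802a10002660672802a4002a300025e01450002560024e002460023e002360022e01920043400431001fb00022601bd00021e075280021606708038300020e0674800206001fe001f6001ee019400431004330001e606728001de07708001d606748001ce01bd0001c6001be01930001b607708001ae01bd0001a60019e019200019600ec00018e077080018601bd0019400017e07548001760752802a300016e0670802a4000166014500015e001560014e01940001460013e00136080a8043300012e08088001260011e00116087480010e07728043300010608088000fe00ec00194001920000f607548000ee0670802a40000e601410000de06728000d601950000ce000c6000be000b6087280192001930000ae07748000a601bd00009e0750800096075280008e01410000860007e01930000760006e080c80194000066080880005e0672800056067080004e0141002a4000046067480003e0145002a3002a1002a2002a5004f500003604f4804f4004f300002e04f2804f2004f10000260001e0001604f2804f200000e0000604f2004f1004f080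 List.nil) 0x10000000000000080000000000008000000000000000000000000000000000000000000000000000000000000000018000620180006201800062018001800180006201800062018000620180018001800062018000620811e808f7328d599 [] 0 = true := by decide +kernel

/-- the root box -/
theorem rootA3_3_7 (hC : ∀ z φ, H z φ → Cf z φ) (hd : ∀ L D r, Pool.Agent.Helper66.Kiss.DlG.dlG L 0 D r = true → Good H P L 0) :
    GoodX H P 0x10000000000000080000000000008000000000000000000000000000000000000000000000000000000000000000018000620180006201800062018001800180006201800062018000620180018001800062018000620811e808f7328d599 :=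
  soundLT ctB_OKL hC (aA3_3_7_0 hC hd) topA3_3_7

/-- boxes from number 2 -/
def cA3_3_8_2 : List Nat := bA3_3_8_2

lemma aA3_3_8_2 (hC : ∀ z φ, H z φ → Cf z φ) (hd : ∀ L D r, Pool.Agent.Helper66.Kiss.DlG.dlG L 0 D r = true → Good H P L 0) : AGX H P cA3_3_8_2 :=
  (soundL0 ctB_OKL hC tA3_3_8_2)

/-- boxes from number 1 -/
def cA3_3_8_1 : List Nat := bA3_3_8_1 ++ cA3_3_8_2

lemma aA3_3_8_1 (hC : ∀ z φ, H z φ → Cf z φ) (hd : ∀ L D r, Pool.Agent.Helper66.Kiss.DlG.dlG L 0 D r = true → Good H P L 0) : AGX H P cA3_3_8_1 :=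
  AGX_append (soundL0 ctB_OKL hC tA3_3_8_1) (aA3_3_8_2 hC hd)

/-- boxes from number 0 -/
def cA3_3_8_0 : List Nat := bA3_3_8_0 ++ cA3_3_8_1

lemma aA3_3_8_0 (hC : ∀ z φ, H z φ → Cf z φ) (hd : ∀ L D r, Pool.Agent.Helper66.Kiss.DlG.dlG L 0 D r = true → Good H P L 0) : AGX H P cA3_3_8_0 :=
  AGX_append (soundL0 ctB_OKL hC tA3_3_8_0) (aA3_3_8_1 hC hd)

theorem topA3_3_8 : KL.runX KL.ctB (KL.dlX cA3_3_8_0) (KL.dec 0 0x3e000360002e0002604f2804f2004f100001e000160000e04f2804f200000604f1004f080 List.nil) 0x100000000000000000100000000000008000000000000000000000000000000000000000000000000000000000000000018000620180006201800180018000620180006201800062018000620180018001800062018000620811e808f03d369e3 [] 0 = true := by decide +kernel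

/-- the root box -/
theorem rootA3_3_8 (hC : ∀ z φ, H z φ → Cf z φ) (hd : ∀ L D r, Pool.Agent.Helper66.Kiss.DlG.dlG L 0 D r = true → Good H P L 0) :
    GoodX H P 0x100000000000000000100000000000008000000000000000000000000000000000000000000000000000000000000000018000620180006201800180018000620180006201800062018000620180018001800062018000620811e808f03d369e3 :=
  soundLT ctB_OKL hC (aA3_3_8_0 hC hd) topA3_3_8

/-- boxes from number 0 -/
def cA3_4_4_0 : List Nat := bA3_4_4_0

lemma aA3_4_4_0 (hC : ∀ z φ, H z φ → Cf z φ) (hd : ∀ L D r, Pool.Agent.Helper66.Kiss.DlG.dlG L 0 D r = true → Good H P L 0) : AGX H P cA3_4_4_0 :=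
  (soundL0 ctB_OKL hC tA3_4_4_0)

theorem topA3_4_4 : KL.runX KL.ctB (KL.dlX cA3_4_4_0) (KL.dec 0 0x160000e0000604f1004f080 List.nil) 0x110000000000000010000000000000000000000000000000000000000000000000000000000000000018000620180006201800062018000620180006201800062018001800180006201800062018000620811e808f716fcbbf [] 0 = true := by decide +kernel

/-- the root box -/
theorem rootA3_4_4 (hC : ∀ z φ, H z φ → Cf z φ) (hd : ∀ L D r, Pool.Agent.Helper66.Kiss.DlG.dlG L 0 D r = true → Good H P L 0) :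
    GoodX H P 0x110000000000000010000000000000000000000000000000000000000000000000000000000000000018000620180006201800062018000620180006201800062018001800180006201800062018000620811e808f716fcbbf :=
  soundLT ctB_OKL hC (aA3_4_4_0 hC hd) topA3_4_4

/-- boxes from number 0 -/
def cA3_4_5_0 : List Nat := bA3_4_5_0

lemma aA3_4_5_0 (hC : ∀ z φ, H z φ → Cf z φ) (hd : ∀ L D r, Pool.Agent.Helper66.Kiss.DlG.dlG L 0 D r = true → Good H P L 0) : AGX H P cA3_4_5_0 :=
  (soundL0 ctB_OKL hC tA3_4_5_0)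

theorem topA3_4_5 : KL.runX KL.ctB (KL.dlX cA3_4_5_0) (KL.dec 0 0x160000e04f100000604f080 List.nil) 0x100200000000000000010000000000000000000000000000000000000000000000000000000000000000018000620180006201800062018000620180006201800180018001800180006201800062018000620811e808fa39a50db [] 0 = true := by decide +kernel

/-- the root box -/
theorem rootA3_4_5 (hC : ∀ z φ, H z φ → Cf z φ) (hd : ∀ L D r, Pool.Agent.Helper66.Kiss.DlG.dlG L 0 D r = true → Good H P L 0) :
    GoodX H P 0x100200000000000000010000000000000000000000000000000000000000000000000000000000000000018000620180006201800062018000620180006201800180018001800180006201800062018000620811e808fa39a50db :=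
  soundLT ctB_OKL hC (aA3_4_5_0 hC hd) topA3_4_5

/-- boxes from number 11 -/
def cA3_4_6_11 : List Nat := bA3_4_6_11

lemma aA3_4_6_11 (hC : ∀ z φ, H z φ → Cf z φ) (hd : ∀ L D r, Pool.Agent.Helper66.Kiss.DlG.dlG L 0 D r = true → Good H P L 0) : AGX H P cA3_4_6_11 :=
  (soundL0 ctB_OKL hC tA3_4_6_11)

/-- boxes from number 10 -/
def cA3_4_6_10 : List Nat := bA3_4_6_10 ++ cA3_4_6_11

lemma aA3_4_6_10 (hC : ∀ z φ, H z φ → Cf z φ) (hd : ∀ L D r, Pool.Agent.Helper66.Kiss.DlG.dlG L 0 D r = true → Good H P L 0) : AGX H P cA3_4_6_10 :=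
  AGX_append (soundL0 ctB_OKL hC tA3_4_6_10) (aA3_4_6_11 hC hd)

/-- boxes from number 9 -/
def cA3_4_6_9 : List Nat := bA3_4_6_9 ++ cA3_4_6_10

lemma aA3_4_6_9 (hC : ∀ z φ, H z φ → Cf z φ) (hd : ∀ L D r, Pool.Agent.Helper66.Kiss.DlG.dlG L 0 D r = true → Good H P L 0) : AGX H P cA3_4_6_9 :=
  AGX_append (soundLP ctB_OKL hC hd tA3_4_6_9) (aA3_4_6_10 hC hd)

/-- boxes from number 8 -/
def cA3_4_6_8 : List Nat := bA3_4_6_8 ++ cA3_4_6_9

lemma aA3_4_6_8 (hC : ∀ z φ, H z φ → Cf z φ) (hd : ∀ L D r, Pool.Agent.Helper66.Kiss.DlG.dlG L 0 D r = true → Good H P L 0) : AGX H P cA3_4_6_8 :=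
  AGX_append (soundLP ctB_OKL hC hd tA3_4_6_8) (aA3_4_6_9 hC hd)

/-- boxes from number 7 -/
def cA3_4_6_7 : List Nat := bA3_4_6_7 ++ cA3_4_6_8

lemma aA3_4_6_7 (hC : ∀ z φ, H z φ → Cf z φ) (hd : ∀ L D r, Pool.Agent.Helper66.Kiss.DlG.dlG L 0 D r = true → Good H P L 0) : AGX H P cA3_4_6_7 :=
  AGX_append (soundLP ctB_OKL hC hd tA3_4_6_7) (aA3_4_6_8 hC hd)

/-- boxes from number 6 -/
def cA3_4_6_6 : List Nat := bA3_4_6_6 ++ cA3_4_6_7

lemma aA3_4_6_6 (hC : ∀ z φ, H z φ → Cf z φ) (hd : ∀ L D r, Pool.Agent.Helper66.Kiss.DlG.dlG L 0 D r = true → Good H P L 0) : AGX H P cA3_4_6_6 :=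
  AGX_append (soundLP ctB_OKL hC hd tA3_4_6_6) (aA3_4_6_7 hC hd)

/-- boxes from number 5 -/
def cA3_4_6_5 : List Nat := bA3_4_6_5 ++ cA3_4_6_6

lemma aA3_4_6_5 (hC : ∀ z φ, H z φ → Cf z φ) (hd : ∀ L D r, Pool.Agent.Helper66.Kiss.DlG.dlG L 0 D r = true → Good H P L 0) : AGX H P cA3_4_6_5 :=
  AGX_append (soundLP ctB_OKL hC hd tA3_4_6_5) (aA3_4_6_6 hC hd)

/-- boxes from number 4 -/
def cA3_4_6_4 : List Nat := bA3_4_6_4 ++ cA3_4_6_5

lemma aA3_4_6_4 (hC : ∀ z φ, H z φ → Cf z φ) (hd : ∀ L D r, Pool.Agent.Helper66.Kiss.DlG.dlG L 0 D r = true → Good H P L 0) : AGX H P cA3_4_6_4 :=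
  AGX_append (soundLP ctB_OKL hC hd tA3_4_6_4) (aA3_4_6_5 hC hd)

/-- boxes from number 3 -/
def cA3_4_6_3 : List Nat := bA3_4_6_3 ++ cA3_4_6_4

lemma aA3_4_6_3 (hC : ∀ z φ, H z φ → Cf z φ) (hd : ∀ L D r, Pool.Agent.Helper66.Kiss.DlG.dlG L 0 D r = true → Good H P L 0) : AGX H P cA3_4_6_3 :=
  AGX_append (soundLP ctB_OKL hC hd tA3_4_6_3) (aA3_4_6_4 hC hd)

/-- boxes from number 2 -/
def cA3_4_6_2 : List Nat := bA3_4_6_2 ++ cA3_4_6_3

lemma aA3_4_6_2 (hC : ∀ z φ, H z φ → Cf z φ) (hd : ∀ L D r, Pool.Agent.Helper66.Kiss.DlG.dlG L 0 D r = true → Good H P L 0) : AGX H P cA3_4_6_2 :=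
  AGX_append (soundLP ctB_OKL hC hd tA3_4_6_2) (aA3_4_6_3 hC hd)

/-- boxes from number 1 -/
def cA3_4_6_1 : List Nat := bA3_4_6_1 ++ cA3_4_6_2

lemma aA3_4_6_1 (hC : ∀ z φ, H z φ → Cf z φ) (hd : ∀ L D r, Pool.Agent.Helper66.Kiss.DlG.dlG L 0 D r = true → Good H P L 0) : AGX H P cA3_4_6_1 :=
  AGX_append (soundLP ctB_OKL hC hd tA3_4_6_1) (aA3_4_6_2 hC hd)

/-- boxes from number 0 -/
def cA3_4_6_0 : List Nat := bA3_4_6_0 ++ cA3_4_6_1

lemma aA3_4_6_0 (hC : ∀ z φ, H z φ → Cf z φ) (hd : ∀ L D r, Pool.Agent.Helper66.Kiss.DlG.dlG L 0 D r = true → Good H P L 0) : AGX H P cA3_4_6_0 :=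
  AGX_append (soundLP ctB_OKL hC hd tA3_4_6_0) (aA3_4_6_1 hC hd)

theorem topA3_4_6 : KL.runX KL.ctB (KL.dlX cA3_4_6_0) (KL.dec 4 0x2f6002ee002e6002de002d604f3804f2804f1804f10002ce002c6002be002b6002ae002a60029e002960028e0028601f98043280027e0775000276067400026e06710002660025e002560751001f980024e0674002a2802a3800246067500023e018880380803818002360022e002260021e002160020e0191801fb8043280020607750001fe06710001f606750001ee06740001e601448001de001d6001ce01fb8001c601448001be0775004308001b607540001ae06750001a60671002a2802a18038380019e001960018e001860017e019280017607710019380016e0754000166067500015e0144802a38001560671002a280014e01908001460013e001360012e0809000126080c00011e01b8801918001160010e080c00010608090000fe000f6000ee01ec804328000e608090000de00e98000d6080c0000ce080d0000c601b880191801938000be06740000b606710000ae06750000a60144802a380009e01408000960008e0191800086077400007e067100007601b880006e0755000066067400005e000560004e019180193800046080d00003e0674000036067500002e0671002a3800026014480001e0140802a2802a1802a0802a480001604f5004f480000e04f4004f3804f2804f180000604f1004f080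 List.nil) 0x1000000400000000000000010000000000000000000000000000000000000000000000000000000000000000018000620180006201800062018000620180018001800062018001800180006201800062018000620811e808f31cccb6b [] 0 = true := by decide +kernel

/-- the root box -/
theorem rootA3_4_6 (hC : ∀ z φ, H z φ → Cf z φ) (hd : ∀ L D r, Pool.Agent.Helper66.Kiss.DlG.dlG L 0 D r = true → Good H P L 0) :
    GoodX H P 0x1000000400000000000000010000000000000000000000000000000000000000000000000000000000000000018000620180006201800062018000620180018001800062018001800180006201800062018000620811e808f31cccb6b :=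
  soundLT ctB_OKL hC (aA3_4_6_0 hC hd) topA3_4_6

/-- boxes from number 3 -/
def cA3_4_7_3 : List Nat := bA3_4_7_3

lemma aA3_4_7_3 (hC : ∀ z φ, H z φ → Cf z φ) (hd : ∀ L D r, Pool.Agent.Helper66.Kiss.DlG.dlG L 0 D r = true → Good H P L 0) : AGX H P cA3_4_7_3 :=
  (soundL0 ctB_OKL hC tA3_4_7_3)

/-- boxes from number 2 -/
def cA3_4_7_2 : List Nat := bA3_4_7_2 ++ cA3_4_7_3

lemma aA3_4_7_2 (hC : ∀ z φ, H z φ → Cf z φ) (hd : ∀ L D r, Pool.Agent.Helper66.Kiss.DlG.dlG L 0 D r = true → Good H P L 0) : AGX H P cA3_4_7_2 :=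
  AGX_append (soundLP ctB_OKL hC hd tA3_4_7_2) (aA3_4_7_3 hC hd)

/-- boxes from number 1 -/
def cA3_4_7_1 : List Nat := bA3_4_7_1 ++ cA3_4_7_2

lemma aA3_4_7_1 (hC : ∀ z φ, H z φ → Cf z φ) (hd : ∀ L D r, Pool.Agent.Helper66.Kiss.DlG.dlG L 0 D r = true → Good H P L 0) : AGX H P cA3_4_7_1 :=
  AGX_append (soundLP ctB_OKL hC hd tA3_4_7_1) (aA3_4_7_2 hC hd)

/-- boxes from number 0 -/
def cA3_4_7_0 : List Nat := bA3_4_7_0 ++ cA3_4_7_1

lemma aA3_4_7_0 (hC : ∀ z φ, H z φ → Cf z φ) (hd : ∀ L D r, Pool.Agent.Helper66.Kiss.DlG.dlG L 0 D r = true → Good H P L 0) : AGX H P cA3_4_7_0 :=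
  AGX_append (soundL0 ctB_OKL hC tA3_4_7_0) (aA3_4_7_1 hC hd)

theorem topA3_4_7 : KL.runX KL.ctB (KL.dlX cA3_4_7_0) (KL.dec 1 0x560004e000460003e0003604f4004f300002e04f2804f1804f10000260001e000160000e04f3004f2804f180000604f1004f080 List.nil) 0x10000000000800000000000000010000000000000000000000000000000000000000000000000000000000000000018000620180006201800062018001800180006201800062018001800180006201800062018000620811e808f61fff1d3 [] 0 = true := by decide +kernel

/-- the root box -/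
theorem rootA3_4_7 (hC : ∀ z φ, H z φ → Cf z φ) (hd : ∀ L D r, Pool.Agent.Helper66.Kiss.DlG.dlG L 0 D r = true → Good H P L 0) :
    GoodX H P 0x10000000000800000000000000010000000000000000000000000000000000000000000000000000000000000000018000620180006201800062018001800180006201800062018001800180006201800062018000620811e808f61fff1d3 :=
  soundLT ctB_OKL hC (aA3_4_7_0 hC hd) topA3_4_7

/-- boxes from number 21 -/
def cA3_5_5_21 : List Nat := bA3_5_5_21

lemma aA3_5_5_21 (hC : ∀ z φ, H z φ → Cf z φ) (hd : ∀ L D r, Pool.Agent.Helper66.Kiss.DlG.dlG L 0 D r = true → Good H P L 0) : AGX H P cA3_5_5_21 :=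
  (soundL0 ctB_OKL hC tA3_5_5_21)

/-- boxes from number 20 -/
def cA3_5_5_20 : List Nat := bA3_5_5_20 ++ cA3_5_5_21

lemma aA3_5_5_20 (hC : ∀ z φ, H z φ → Cf z φ) (hd : ∀ L D r, Pool.Agent.Helper66.Kiss.DlG.dlG L 0 D r = true → Good H P L 0) : AGX H P cA3_5_5_20 :=
  AGX_append (soundL0 ctB_OKL hC tA3_5_5_20) (aA3_5_5_21 hC hd)

/-- boxes from number 19 -/
def cA3_5_5_19 : List Nat := bA3_5_5_19 ++ cA3_5_5_20

lemma aA3_5_5_19 (hC : ∀ z φ, H z φ → Cf z φ) (hd : ∀ L D r, Pool.Agent.Helper66.Kiss.DlG.dlG L 0 D r = true → Good H P L 0) : AGX H P cA3_5_5_19 :=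
  AGX_append (soundLP ctB_OKL hC hd tA3_5_5_19) (aA3_5_5_20 hC hd)

/-- boxes from number 18 -/
def cA3_5_5_18 : List Nat := bA3_5_5_18 ++ cA3_5_5_19

lemma aA3_5_5_18 (hC : ∀ z φ, H z φ → Cf z φ) (hd : ∀ L D r, Pool.Agent.Helper66.Kiss.DlG.dlG L 0 D r = true → Good H P L 0) : AGX H P cA3_5_5_18 :=
  AGX_append (soundLP ctB_OKL hC hd tA3_5_5_18) (aA3_5_5_19 hC hd)

/-- boxes from number 17 -/
def cA3_5_5_17 : List Nat := bA3_5_5_17 ++ cA3_5_5_18

lemma aA3_5_5_17 (hC : ∀ z φ, H z φ → Cf z φ) (hd : ∀ L D r, Pool.Agent.Helper66.Kiss.DlG.dlG L 0 D r = true → Good H P L 0) : AGX H P cA3_5_5_17 :=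
  AGX_append (soundLP ctB_OKL hC hd tA3_5_5_17) (aA3_5_5_18 hC hd)

/-- boxes from number 16 -/
def cA3_5_5_16 : List Nat := bA3_5_5_16 ++ cA3_5_5_17

lemma aA3_5_5_16 (hC : ∀ z φ, H z φ → Cf z φ) (hd : ∀ L D r, Pool.Agent.Helper66.Kiss.DlG.dlG L 0 D r = true → Good H P L 0) : AGX H P cA3_5_5_16 :=
  AGX_append (soundLP ctB_OKL hC hd tA3_5_5_16) (aA3_5_5_17 hC hd)

/-- boxes from number 15 -/
def cA3_5_5_15 : List Nat := bA3_5_5_15 ++ cA3_5_5_16

lemma aA3_5_5_15 (hC : ∀ z φ, H z φ → Cf z φ) (hd : ∀ L D r, Pool.Agent.Helper66.Kiss.DlG.dlG L 0 D r = true → Good H P L 0) : AGX H P cA3_5_5_15 :=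
  AGX_append (soundLP ctB_OKL hC hd tA3_5_5_15) (aA3_5_5_16 hC hd)

/-- boxes from number 14 -/
def cA3_5_5_14 : List Nat := bA3_5_5_14 ++ cA3_5_5_15

lemma aA3_5_5_14 (hC : ∀ z φ, H z φ → Cf z φ) (hd : ∀ L D r, Pool.Agent.Helper66.Kiss.DlG.dlG L 0 D r = true → Good H P L 0) : AGX H P cA3_5_5_14 :=
  AGX_append (soundLP ctB_OKL hC hd tA3_5_5_14) (aA3_5_5_15 hC hd)

/-- boxes from number 13 -/
def cA3_5_5_13 : List Nat := bA3_5_5_13 ++ cA3_5_5_14

lemma aA3_5_5_13 (hC : ∀ z φ, H z φ → Cf z φ) (hd : ∀ L D r, Pool.Agent.Helper66.Kiss.DlG.dlG L 0 D r = true → Good H P L 0) : AGX H P cA3_5_5_13 :=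
  AGX_append (soundLP ctB_OKL hC hd tA3_5_5_13) (aA3_5_5_14 hC hd)

/-- boxes from number 12 -/
def cA3_5_5_12 : List Nat := bA3_5_5_12 ++ cA3_5_5_13

lemma aA3_5_5_12 (hC : ∀ z φ, H z φ → Cf z φ) (hd : ∀ L D r, Pool.Agent.Helper66.Kiss.DlG.dlG L 0 D r = true → Good H P L 0) : AGX H P cA3_5_5_12 :=
  AGX_append (soundLP ctB_OKL hC hd tA3_5_5_12) (aA3_5_5_13 hC hd)

/-- boxes from number 11 -/
def cA3_5_5_11 : List Nat := bA3_5_5_11 ++ cA3_5_5_12

lemma aA3_5_5_11 (hC : ∀ z φ, H z φ → Cf z φ) (hd : ∀ L D r, Pool.Agent.Helper66.Kiss.DlG.dlG L 0 D r = true → Good H P L 0) : AGX H P cA3_5_5_11 :=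
  AGX_append (soundLP ctB_OKL hC hd tA3_5_5_11) (aA3_5_5_12 hC hd)

/-- boxes from number 10 -/
def cA3_5_5_10 : List Nat := bA3_5_5_10 ++ cA3_5_5_11

lemma aA3_5_5_10 (hC : ∀ z φ, H z φ → Cf z φ) (hd : ∀ L D r, Pool.Agent.Helper66.Kiss.DlG.dlG L 0 D r = true → Good H P L 0) : AGX H P cA3_5_5_10 :=
  AGX_append (soundLP ctB_OKL hC hd tA3_5_5_10) (aA3_5_5_11 hC hd)

/-- boxes from number 9 -/
def cA3_5_5_9 : List Nat := bA3_5_5_9 ++ cA3_5_5_10

lemma aA3_5_5_9 (hC : ∀ z φ, H z φ → Cf z φ) (hd : ∀ L D r, Pool.Agent.Helper66.Kiss.DlG.dlG L 0 D r = true → Good H P L 0) : AGX H P cA3_5_5_9 :=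
  AGX_append (soundLP ctB_OKL hC hd tA3_5_5_9) (aA3_5_5_10 hC hd)

/-- boxes from number 8 -/
def cA3_5_5_8 : List Nat := bA3_5_5_8 ++ cA3_5_5_9

lemma aA3_5_5_8 (hC : ∀ z φ, H z φ → Cf z φ) (hd : ∀ L D r, Pool.Agent.Helper66.Kiss.DlG.dlG L 0 D r = true → Good H P L 0) : AGX H P cA3_5_5_8 :=
  AGX_append (soundLP ctB_OKL hC hd tA3_5_5_8) (aA3_5_5_9 hC hd)

/-- boxes from number 7 -/
def cA3_5_5_7 : List Nat := bA3_5_5_7 ++ cA3_5_5_8

lemma aA3_5_5_7 (hC : ∀ z φ, H z φ → Cf z φ) (hd : ∀ L D r, Pool.Agent.Helper66.Kiss.DlG.dlG L 0 D r = true → Good H P L 0) : AGX H P cA3_5_5_7 :=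
  AGX_append (soundLP ctB_OKL hC hd tA3_5_5_7) (aA3_5_5_8 hC hd)

/-- boxes from number 6 -/
def cA3_5_5_6 : List Nat := bA3_5_5_6 ++ cA3_5_5_7

lemma aA3_5_5_6 (hC : ∀ z φ, H z φ → Cf z φ) (hd : ∀ L D r, Pool.Agent.Helper66.Kiss.DlG.dlG L 0 D r = true → Good H P L 0) : AGX H P cA3_5_5_6 :=
  AGX_append (soundLP ctB_OKL hC hd tA3_5_5_6) (aA3_5_5_7 hC hd)

/-- boxes from number 5 -/
def cA3_5_5_5 : List Nat := bA3_5_5_5 ++ cA3_5_5_6

lemma aA3_5_5_5 (hC : ∀ z φ, H z φ → Cf z φ) (hd : ∀ L D r, Pool.Agent.Helper66.Kiss.DlG.dlG L 0 D r = true → Good H P L 0) : AGX H P cA3_5_5_5 :=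
  AGX_append (soundLP ctB_OKL hC hd tA3_5_5_5) (aA3_5_5_6 hC hd)

/-- boxes from number 4 -/
def cA3_5_5_4 : List Nat := bA3_5_5_4 ++ cA3_5_5_5

lemma aA3_5_5_4 (hC : ∀ z φ, H z φ → Cf z φ) (hd : ∀ L D r, Pool.Agent.Helper66.Kiss.DlG.dlG L 0 D r = true → Good H P L 0) : AGX H P cA3_5_5_4 :=
  AGX_append (soundLP ctB_OKL hC hd tA3_5_5_4) (aA3_5_5_5 hC hd)

/-- boxes from number 3 -/
def cA3_5_5_3 : List Nat := bA3_5_5_3 ++ cA3_5_5_4

lemma aA3_5_5_3 (hC : ∀ z φ, H z φ → Cf z φ) (hd : ∀ L D r, Pool.Agent.Helper66.Kiss.DlG.dlG L 0 D r = true → Good H P L 0) : AGX H P cA3_5_5_3 :=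
  AGX_append (soundLP ctB_OKL hC hd tA3_5_5_3) (aA3_5_5_4 hC hd)

/-- boxes from number 2 -/
def cA3_5_5_2 : List Nat := bA3_5_5_2 ++ cA3_5_5_3

lemma aA3_5_5_2 (hC : ∀ z φ, H z φ → Cf z φ) (hd : ∀ L D r, Pool.Agent.Helper66.Kiss.DlG.dlG L 0 D r = true → Good H P L 0) : AGX H P cA3_5_5_2 :=
  AGX_append (soundL0 ctB_OKL hC tA3_5_5_2) (aA3_5_5_3 hC hd)

/-- boxes from number 1 -/
def cA3_5_5_1 : List Nat := bA3_5_5_1 ++ cA3_5_5_2

lemma aA3_5_5_1 (hC : ∀ z φ, H z φ → Cf z φ) (hd : ∀ L D r, Pool.Agent.Helper66.Kiss.DlG.dlG L 0 D r = true → Good H P L 0) : AGX H P cA3_5_5_1 :=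
  AGX_append (soundL0 ctB_OKL hC tA3_5_5_1) (aA3_5_5_2 hC hd)

/-- boxes from number 0 -/
def cA3_5_5_0 : List Nat := bA3_5_5_0 ++ cA3_5_5_1

lemma aA3_5_5_0 (hC : ∀ z φ, H z φ → Cf z φ) (hd : ∀ L D r, Pool.Agent.Helper66.Kiss.DlG.dlG L 0 D r = true → Good H P L 0) : AGX H P cA3_5_5_0 :=
  AGX_append (soundL0 ctB_OKL hC tA3_5_5_0) (aA3_5_5_1 hC hd)

theorem topA3_5_5 : KL.runX KL.ctB (KL.dlX cA3_5_5_0) (KL.dec 5 0x54e005460053e04f2004f18005360052e005260051e005160050e00506004fe004f601fc0004ee07708004e60673802a20004de06718004d606748004ce0670803830004c6004be004b6004ae004a60049e01930019200049607708043100048e07748004860047e0047601930019200046e0770800466010c001fc00045e0753800456067480044e01ed000446067180043e0670802a3002a20004360195002a50038400042e004260041e004160040e0040601fb004320003fe06708003f607518003ee01910003e6003de01920003d606718003ce003c6003be003b60809801430003ae003a60039e0809803050019200039608cc803b400038e0671801fb000386067080037e0141002a20003760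7538043400036e08748038300036601fd0038500035e07548003560034e003460033e003360032e080b8003260771801830043200031e0770800316077480030e06738003060144001fb0002fe06718002f606708002ee06748002e601910002de002d6002ce002c6017a003030002be0770801f20002b601440002ae002a60029e01430002960028e0143001920002860144008cb80027e0770801fb000276082480026e0751800266077480025e0753800256067480024e01410002460670802a20038300023e002360022e002260021e00216080980020e08088018200020606718001fe0670801fa003820001f60141004330001ee080b8001e601940001de07548001d607538001ce001c6001be001b6001ae08cb8001a608848043200019e07748017b0001960771801f300018e00186019300017e0771800176080b80016e011400194000166075380015e07508001560014e001460013e080b800136077080012e07718017b0001260774801f300011e01940001160010e080980010607738000fe000f601e90000ee080b8000e60809801930000de07748000d6000ce08098000c608238000be07738000b60114001940000ae0770801920000a6067380009e0670802a2000096067480008e06718000860141002a300007e01ed0000760195002a5002a4002a1004f500006e04f4804f400006604f3804f3004f200005e0005604f300004e04f2004f1804f10000460003e0003604f3004f200002e000260001e04f3804f300001604f2004f180000e0000604f1804f1004f080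 List.nil) 0x2100000000000000000020000000000000000000000000000000000000000000000000000000000000000018000620180006201800062018000620180006201800180018000620180006201800062018000620811e808f2638ab2d [] 0 = true := by decide +kernel

/-- the root box -/
theorem rootA3_5_5 (hC : ∀ z φ, H z φ → Cf z φ) (hd : ∀ L D r, Pool.Agent.Helper66.Kiss.DlG.dlG L 0 D r = true → Good H P L 0) :
    GoodX H P 0x2100000000000000000020000000000000000000000000000000000000000000000000000000000000000018000620180006201800062018000620180006201800180018000620180006201800062018000620811e808f2638ab2d :=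
  soundLT ctB_OKL hC (aA3_5_5_0 hC hd) topA3_5_5

/-- boxes from number 1 -/
def cA3_5_6_1 : List Nat := bA3_5_6_1

lemma aA3_5_6_1 (hC : ∀ z φ, H z φ → Cf z φ) (hd : ∀ L D r, Pool.Agent.Helper66.Kiss.DlG.dlG L 0 D r = true → Good H P L 0) : AGX H P cA3_5_6_1 :=
  (soundL0 ctB_OKL hC tA3_5_6_1)

/-- boxes from number 0 -/
def cA3_5_6_0 : List Nat := bA3_5_6_0 ++ cA3_5_6_1

lemma aA3_5_6_0 (hC : ∀ z φ, H z φ → Cf z φ) (hd : ∀ L D r, Pool.Agent.Helper66.Kiss.DlG.dlG L 0 D r = true → Good H P L 0) : AGX H P cA3_5_6_0 :=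
  AGX_append (soundL0 ctB_OKL hC tA3_5_6_0) (aA3_5_6_1 hC hd)

theorem topA3_5_6 : KL.runX KL.ctB (KL.dlX cA3_5_6_0) (KL.dec 0 0x1e0001604f100000e0000604f1004f080 List.nil) 0x1004000000000000000000020000000000000000000000000000000000000000000000000000000000000000018000620180006201800062018000620180018001800180018000620180006201800062018000620811e808ff200d7af [] 0 = true := by decide +kernel

/-- the root box -/
theorem rootA3_5_6 (hC : ∀ z φ, H z φ → Cf z φ) (hd : ∀ L D r, Pool.Agent.Helper66.Kiss.DlG.dlG L 0 D r = true → Good H P L 0) :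
    GoodX H P 0x1004000000000000000000020000000000000000000000000000000000000000000000000000000000000000018000620180006201800062018000620180018001800180018000620180006201800062018000620811e808ff200d7af :=
  soundLT ctB_OKL hC (aA3_5_6_0 hC hd) topA3_5_6

end Pool.Agent.Helper66.KD
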