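import Pool.Agent.Helper54.KA.LiteS
import Pool.Agent.Helper66.KD.A4_d1
import Pool.Agent.Helper66.KD.A4_d2
import Pool.Agent.Helper66.KD.A4_d3
import Pool.Agent.Helper66.KD.A4_d4
import Pool.Agent.Helper66.KD.A4_d5
import Pool.Agent.Helper66.KD.A4_d6
import Pool.Agent.Helper66.KD.A4_d7

set_option autoImplicit false
set_option maxRecDepth 1000000

/-! # Assembly `A4` -/

namespace Pool.Agent.Helper66.KD

open Pool.Agent.Helper54 Pool.Agent.Helper54.KA

variable {H P : (ℕ → ℝ) → (ℕ → ℝ) → Prop}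

/-- boxes from number 0 -/
def cA4_1_1_0 : List Nat := bA4_1_1_0

lemma aA4_1_1_0 (hC : ∀ z φ, H z φ → Cf z φ) (hd : ∀ L D r, Pool.Agent.Helper66.Kiss.DlG.dlG L 0 D r = true → Good H P L 0) : AGX H P cA4_1_1_0 :=
  (soundL0 ctB_OKL hC tA4_1_1_0)

theorem topA4_1_1 : KL.runX KL.ctB (KL.dlX cA4_1_1_0) (KL.dec 0 0x60 List.nil) 0x300020000000000000000000000000000000000000000000000000000000000000000180005b0180005b0180005b0180005b0180005b0180005b0180005b0180005b0180005b0180018008166811e35cd7942 [] 0 = true := by decide +kernel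

/-- the root box -/
theorem rootA4_1_1 (hC : ∀ z φ, H z φ → Cf z φ) (hd : ∀ L D r, Pool.Agent.Helper66.Kiss.DlG.dlG L 0 D r = true → Good H P L 0) :
    GoodX H P 0x300020000000000000000000000000000000000000000000000000000000000000000180005b0180005b0180005b0180005b0180005b0180005b0180005b0180005b0180005b0180018008166811e35cd7942 :=
  soundLT ctB_OKL hC (aA4_1_1_0 hC hd) topA4_1_1

/-- boxes from number 0 -/
def cA4_1_2_0 : List Nat := bA4_1_2_0

lemma aA4_1_2_0 (hC : ∀ z φ, H z φ → Cf z φ) (hd : ∀ L D r, Pool.Agent.Helper66.Kiss.DlG.dlG L 0 D r = true → Good H P L 0) : AGX H P cA4_1_2_0 :=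
  (soundL0 ctB_OKL hC tA4_1_2_0)

theorem topA4_1_2 : KL.runX KL.ctB (KL.dlX cA4_1_2_0) (KL.dec 0 0x60 List.nil) 0x1000400020000000000000000000000000000000000000000000000000000000000000000180005b0180005b0180005b0180005b0180005b0180005b0180005b0180005b018001800180018008166811e93ad40d4 [] 0 = true := by decide +kernel

/-- the root box -/
theorem rootA4_1_2 (hC : ∀ z φ, H z φ → Cf z φ) (hd : ∀ L D r, Pool.Agent.Helper66.Kiss.DlG.dlG L 0 D r = true → Good H P L 0) :
    GoodX H P 0x1000400020000000000000000000000000000000000000000000000000000000000000000180005b0180005b0180005b0180005b0180005b0180005b0180005b0180005b018001800180018008166811e93ad40d4 :=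
  soundLT ctB_OKL hC (aA4_1_2_0 hC hd) topA4_1_2

/-- boxes from number 0 -/
def cA4_1_3_0 : List Nat := bA4_1_3_0

lemma aA4_1_3_0 (hC : ∀ z φ, H z φ → Cf z φ) (hd : ∀ L D r, Pool.Agent.Helper66.Kiss.DlG.dlG L 0 D r = true → Good H P L 0) : AGX H P cA4_1_3_0 :=
  (soundL0 ctB_OKL hC tA4_1_3_0)

theorem topA4_1_3 : KL.runX KL.ctB (KL.dlX cA4_1_3_0) (KL.dec 0 0x60 List.nil) 0x10000000800020000000000000000000000000000000000000000000000000000000000000000180005b0180005b0180005b0180005b0180005b0180005b0180005b018001800180005b0180018008166811e4595053f [] 0 = true := by decide +kernel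

/-- the root box -/
theorem rootA4_1_3 (hC : ∀ z φ, H z φ → Cf z φ) (hd : ∀ L D r, Pool.Agent.Helper66.Kiss.DlG.dlG L 0 D r = true → Good H P L 0) :
    GoodX H P 0x10000000800020000000000000000000000000000000000000000000000000000000000000000180005b0180005b0180005b0180005b0180005b0180005b0180005b018001800180005b0180018008166811e4595053f :=
  soundLT ctB_OKL hC (aA4_1_3_0 hC hd) topA4_1_3

/-- boxes from number 0 -/
def cA4_1_4_0 : List Nat := bA4_1_4_0

lemma aA4_1_4_0 (hC : ∀ z φ, H z φ → Cf z φ) (hd : ∀ L D r, Pool.Agent.Helper66.Kiss.DlG.dlG L 0 D r = true → Good H P L 0) : AGX H P cA4_1_4_0 :=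
  (soundL0 ctB_OKL hC tA4_1_4_0)

theorem topA4_1_4 : KL.runX KL.ctB (KL.dlX cA4_1_4_0) (KL.dec 0 0x60 List.nil) 0x100000000001000020000000000000000000000000000000000000000000000000000000000000000180005b0180005b0180005b0180005b0180005b0180005b018001800180005b0180005b0180018008166811e4b1bd289 [] 0 = true := by decide +kernel

/-- the root box -/
theorem rootA4_1_4 (hC : ∀ z φ, H z φ → Cf z φ) (hd : ∀ L D r, Pool.Agent.Helper66.Kiss.DlG.dlG L 0 D r = true → Good H P L 0) :
    GoodX H P 0x100000000001000020000000000000000000000000000000000000000000000000000000000000000180005b0180005b0180005b0180005b0180005b0180005b018001800180005b0180005b0180018008166811e4b1bd289 :=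
  soundLT ctB_OKL hC (aA4_1_4_0 hC hd) topA4_1_4

/-- boxes from number 5 -/
def cA4_1_5_5 : List Nat := bA4_1_5_5

lemma aA4_1_5_5 (hC : ∀ z φ, H z φ → Cf z φ) (hd : ∀ L D r, Pool.Agent.Helper66.Kiss.DlG.dlG L 0 D r = true → Good H P L 0) : AGX H P cA4_1_5_5 :=
  (soundL0 ctB_OKL hC tA4_1_5_5)

/-- boxes from number 4 -/
def cA4_1_5_4 : List Nat := bA4_1_5_4 ++ cA4_1_5_5

lemma aA4_1_5_4 (hC : ∀ z φ, H z φ → Cf z φ) (hd : ∀ L D r, Pool.Agent.Helper66.Kiss.DlG.dlG L 0 D r = true → Good H P L 0) : AGX H P cA4_1_5_4 :=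
  AGX_append (soundLP ctB_OKL hC hd tA4_1_5_4) (aA4_1_5_5 hC hd)

/-- boxes from number 3 -/
def cA4_1_5_3 : List Nat := bA4_1_5_3 ++ cA4_1_5_4

lemma aA4_1_5_3 (hC : ∀ z φ, H z φ → Cf z φ) (hd : ∀ L D r, Pool.Agent.Helper66.Kiss.DlG.dlG L 0 D r = true → Good H P L 0) : AGX H P cA4_1_5_3 :=
  AGX_append (soundLP ctB_OKL hC hd tA4_1_5_3) (aA4_1_5_4 hC hd)

/-- boxes from number 2 -/
def cA4_1_5_2 : List Nat := bA4_1_5_2 ++ cA4_1_5_3

lemma aA4_1_5_2 (hC : ∀ z φ, H z φ → Cf z φ) (hd : ∀ L D r, Pool.Agent.Helper66.Kiss.DlG.dlG L 0 D r = true → Good H P L 0) : AGX H P cA4_1_5_2 :=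
  AGX_append (soundLP ctB_OKL hC hd tA4_1_5_2) (aA4_1_5_3 hC hd)

/-- boxes from number 1 -/
def cA4_1_5_1 : List Nat := bA4_1_5_1 ++ cA4_1_5_2

lemma aA4_1_5_1 (hC : ∀ z φ, H z φ → Cf z φ) (hd : ∀ L D r, Pool.Agent.Helper66.Kiss.DlG.dlG L 0 D r = true → Good H P L 0) : AGX H P cA4_1_5_1 :=
  AGX_append (soundLP ctB_OKL hC hd tA4_1_5_1) (aA4_1_5_2 hC hd)

/-- boxes from number 0 -/
def cA4_1_5_0 : List Nat := bA4_1_5_0 ++ cA4_1_5_1

lemma aA4_1_5_0 (hC : ∀ z φ, H z φ → Cf z φ) (hd : ∀ L D r, Pool.Agent.Helper66.Kiss.DlG.dlG L 0 D r = true → Good H P L 0) : AGX H P cA4_1_5_0 :=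
  AGX_append (soundLP ctB_OKL hC hd tA4_1_5_0) (aA4_1_5_1 hC hd)

theorem topA4_1_5 : KL.runX KL.ctB (KL.dlX cA4_1_5_0) (KL.dec 3 0x1860017e04c98001760016e001660015e001560014e00146026b00013e001360012e0012601530025b00011e065980011601c400010e073b803530001060109002690000fe065c8000f6000ee000e6000de000d6000ce01ba0000c606598000be0151003510000b607fc8037b0000ae027d003d5004030000a6073c80009e073b800096015400008e00086015200007e01c4000076073b80006e065c800066065980005e00056015200004e076480004601c400003e073b800036065980002e0109000026065c802690026b0026a0035400001e01d5004cd00001604cc804cc00000e04cb804cb004ca00000604c9804c900 List.nil) 0x1000000000000002000020000000000000000000000000000000000000000000000000000000000000000180005b0180005b0180005b0180005b0180005b018001800180005b0180005b0180005b0180018008166811e254be207 [] 0 = true := by decide +kernel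

/-- the root box -/
theorem rootA4_1_5 (hC : ∀ z φ, H z φ → Cf z φ) (hd : ∀ L D r, Pool.Agent.Helper66.Kiss.DlG.dlG L 0 D r = true → Good H P L 0) :
    GoodX H P 0x1000000000000002000020000000000000000000000000000000000000000000000000000000000000000180005b0180005b0180005b0180005b0180005b018001800180005b0180005b0180005b0180018008166811e254be207 :=
  soundLT ctB_OKL hC (aA4_1_5_0 hC hd) topA4_1_5

/-- boxes from number 1 -/
def cA4_1_6_1 : List Nat := bA4_1_6_1

lemma aA4_1_6_1 (hC : ∀ z φ, H z φ → Cf z φ) (hd : ∀ L D r, Pool.Agent.Helper66.Kiss.DlG.dlG L 0 D r = true → Good H P L 0) : AGX H P cA4_1_6_1 :=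
  (soundL0 ctB_OKL hC tA4_1_6_1)

/-- boxes from number 0 -/
def cA4_1_6_0 : List Nat := bA4_1_6_0 ++ cA4_1_6_1

lemma aA4_1_6_0 (hC : ∀ z φ, H z φ → Cf z φ) (hd : ∀ L D r, Pool.Agent.Helper66.Kiss.DlG.dlG L 0 D r = true → Good H P L 0) : AGX H P cA4_1_6_0 :=
  AGX_append (soundL0 ctB_OKL hC tA4_1_6_0) (aA4_1_6_1 hC hd)

theorem topA4_1_6 : KL.runX KL.ctB (KL.dlX cA4_1_6_0) (KL.dec 0 0x1e000160000e04ca00000604c9804c900 List.nil) 0x10000000000000000004000020000000000000000000000000000000000000000000000000000000000000000180005b0180005b0180005b0180005b018001800180005b0180005b0180005b0180005b0180018008166811e03ed8a56 [] 0 = true := by decide +kernel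

/-- the root box -/
theorem rootA4_1_6 (hC : ∀ z φ, H z φ → Cf z φ) (hd : ∀ L D r, Pool.Agent.Helper66.Kiss.DlG.dlG L 0 D r = true → Good H P L 0) :
    GoodX H P 0x10000000000000000004000020000000000000000000000000000000000000000000000000000000000000000180005b0180005b0180005b0180005b018001800180005b0180005b0180005b0180005b0180018008166811e03ed8a56 :=
  soundLT ctB_OKL hC (aA4_1_6_0 hC hd) topA4_1_6

/-- boxes from number 0 -/
def cA4_1_7_0 : List Nat := bA4_1_7_0

lemma aA4_1_7_0 (hC : ∀ z φ, H z φ → Cf z φ) (hd : ∀ L D r, Pool.Agent.Helper66.Kiss.DlG.dlG L 0 D r = true → Good H P L 0) : AGX H P cA4_1_7_0 :=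
  (soundL0 ctB_OKL hC tA4_1_7_0)

theorem topA4_1_7 : KL.runX KL.ctB (KL.dlX cA4_1_7_0) (KL.dec 0 0x60 List.nil) 0x100000000000000000000008000020000000000000000000000000000000000000000000000000000000000000000180005b0180005b0180005b018001800180005b0180005b0180005b0180005b0180005b0180018008166811ed53f227c [] 0 = true := by decide +kernel

/-- the root box -/
theorem rootA4_1_7 (hC : ∀ z φ, H z φ → Cf z φ) (hd : ∀ L D r, Pool.Agent.Helper66.Kiss.DlG.dlG L 0 D r = true → Good H P L 0) :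
    GoodX H P 0x100000000000000000000008000020000000000000000000000000000000000000000000000000000000000000000180005b0180005b0180005b018001800180005b0180005b0180005b0180005b0180005b0180018008166811ed53f227c :=
  soundLT ctB_OKL hC (aA4_1_7_0 hC hd) topA4_1_7

/-- boxes from number 0 -/
def cA4_1_8_0 : List Nat := bA4_1_8_0

lemma aA4_1_8_0 (hC : ∀ z φ, H z φ → Cf z φ) (hd : ∀ L D r, Pool.Agent.Helper66.Kiss.DlG.dlG L 0 D r = true → Good H P L 0) : AGX H P cA4_1_8_0 :=
  (soundL0 ctB_OKL hC tA4_1_8_0)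

theorem topA4_1_8 : KL.runX KL.ctB (KL.dlX cA4_1_8_0) (KL.dec 0 0x60 List.nil) 0x1000000000000000000000000010000020000000000000000000000000000000000000000000000000000000000000000180005b0180005b018001800180005b0180005b0180005b0180005b0180005b0180005b0180018008166811e7513fc76 [] 0 = true := by decide +kernel

/-- the root box -/
theorem rootA4_1_8 (hC : ∀ z φ, H z φ → Cf z φ) (hd : ∀ L D r, Pool.Agent.Helper66.Kiss.DlG.dlG L 0 D r = true → Good H P L 0) :
    GoodX H P 0x1000000000000000000000000010000020000000000000000000000000000000000000000000000000000000000000000180005b0180005b018001800180005b0180005b0180005b0180005b0180005b0180005b0180018008166811e7513fc76 :=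
  soundLT ctB_OKL hC (aA4_1_8_0 hC hd) topA4_1_8

/-- boxes from number 0 -/
def cA4_1_9_0 : List Nat := bA4_1_9_0

lemma aA4_1_9_0 (hC : ∀ z φ, H z φ → Cf z φ) (hd : ∀ L D r, Pool.Agent.Helper66.Kiss.DlG.dlG L 0 D r = true → Good H P L 0) : AGX H P cA4_1_9_0 :=
  (soundL0 ctB_OKL hC tA4_1_9_0)

theorem topA4_1_9 : KL.runX KL.ctB (KL.dlX cA4_1_9_0) (KL.dec 0 0x60 List.nil) 0x10000000000000000000000000000020000020000000000000000000000000000000000000000000000000000000000000000180005b018001800180005b0180005b0180005b0180005b0180005b0180005b0180005b0180018008166811eea96fd2b [] 0 = true := by decide +kernel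

/-- the root box -/
theorem rootA4_1_9 (hC : ∀ z φ, H z φ → Cf z φ) (hd : ∀ L D r, Pool.Agent.Helper66.Kiss.DlG.dlG L 0 D r = true → Good H P L 0) :
    GoodX H P 0x10000000000000000000000000000020000020000000000000000000000000000000000000000000000000000000000000000180005b018001800180005b0180005b0180005b0180005b0180005b0180005b0180005b0180018008166811eea96fd2b :=
  soundLT ctB_OKL hC (aA4_1_9_0 hC hd) topA4_1_9

/-- boxes from number 0 -/
def cA4_1_10_0 : List Nat := bA4_1_10_0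

lemma aA4_1_10_0 (hC : ∀ z φ, H z φ → Cf z φ) (hd : ∀ L D r, Pool.Agent.Helper66.Kiss.DlG.dlG L 0 D r = true → Good H P L 0) : AGX H P cA4_1_10_0 :=
  (soundL0 ctB_OKL hC tA4_1_10_0)

theorem topA4_1_10 : KL.runX KL.ctB (KL.dlX cA4_1_10_0) (KL.dec 0 0x60 List.nil) 0x10000000000000000000000000000000004000002000000000000000000000000000000000000000000000000000000000000000018001800180005b0180005b0180005b0180005b0180005b0180005b0180005b0180005b0180018008166811edf6ed1e2 [] 0 = true := by decide +kernel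

/-- the root box -/
theorem rootA4_1_10 (hC : ∀ z φ, H z φ → Cf z φ) (hd : ∀ L D r, Pool.Agent.Helper66.Kiss.DlG.dlG L 0 D r = true → Good H P L 0) :
    GoodX H P 0x10000000000000000000000000000000004000002000000000000000000000000000000000000000000000000000000000000000018001800180005b0180005b0180005b0180005b0180005b0180005b0180005b0180005b0180018008166811edf6ed1e2 :=
  soundLT ctB_OKL hC (aA4_1_10_0 hC hd) topA4_1_10

/-- boxes from number 0 -/
def cA4_2_2_0 : List Nat := bA4_2_2_0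

lemma aA4_2_2_0 (hC : ∀ z φ, H z φ → Cf z φ) (hd : ∀ L D r, Pool.Agent.Helper66.Kiss.DlG.dlG L 0 D r = true → Good H P L 0) : AGX H P cA4_2_2_0 :=
  (soundL0 ctB_OKL hC tA4_2_2_0)

theorem topA4_2_2 : KL.runX KL.ctB (KL.dlX cA4_2_2_0) (KL.dec 0 0x60 List.nil) 0x5000000040000000000000000000000000000000000000000000000000000000000000000180005b0180005b0180005b0180005b0180005b0180005b0180005b0180005b018001800180005b08166811e941afd22 [] 0 = true := by decide +kernel

/-- the root box -/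
theorem rootA4_2_2 (hC : ∀ z φ, H z φ → Cf z φ) (hd : ∀ L D r, Pool.Agent.Helper66.Kiss.DlG.dlG L 0 D r = true → Good H P L 0) :
    GoodX H P 0x5000000040000000000000000000000000000000000000000000000000000000000000000180005b0180005b0180005b0180005b0180005b0180005b0180005b0180005b018001800180005b08166811e941afd22 :=
  soundLT ctB_OKL hC (aA4_2_2_0 hC hd) topA4_2_2

/-- boxes from number 0 -/
def cA4_2_3_0 : List Nat := bA4_2_3_0

lemma aA4_2_3_0 (hC : ∀ z φ, H z φ → Cf z φ) (hd : ∀ L D r, Pool.Agent.Helper66.Kiss.DlG.dlG L 0 D r = true → Good H P L 0) : AGX H P cA4_2_3_0 :=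
  (soundL0 ctB_OKL hC tA4_2_3_0)

theorem topA4_2_3 : KL.runX KL.ctB (KL.dlX cA4_2_3_0) (KL.dec 0 0x60 List.nil) 0x10008000000040000000000000000000000000000000000000000000000000000000000000000180005b0180005b0180005b0180005b0180005b0180005b0180005b01800180018001800180005b08166811e7db0d347 [] 0 = true := by decide +kernel

/-- the root box -/
theorem rootA4_2_3 (hC : ∀ z φ, H z φ → Cf z φ) (hd : ∀ L D r, Pool.Agent.Helper66.Kiss.DlG.dlG L 0 D r = true → Good H P L 0) :
    GoodX H P 0x10008000000040000000000000000000000000000000000000000000000000000000000000000180005b0180005b0180005b0180005b0180005b0180005b0180005b01800180018001800180005b08166811e7db0d347 :=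
  soundLT ctB_OKL hC (aA4_2_3_0 hC hd) topA4_2_3

/-- boxes from number 0 -/
def cA4_2_4_0 : List Nat := bA4_2_4_0

lemma aA4_2_4_0 (hC : ∀ z φ, H z φ → Cf z φ) (hd : ∀ L D r, Pool.Agent.Helper66.Kiss.DlG.dlG L 0 D r = true → Good H P L 0) : AGX H P cA4_2_4_0 :=
  (soundL0 ctB_OKL hC tA4_2_4_0)

theorem topA4_2_4 : KL.runX KL.ctB (KL.dlX cA4_2_4_0) (KL.dec 0 0x60 List.nil) 0x100000010000000040000000000000000000000000000000000000000000000000000000000000000180005b0180005b0180005b0180005b0180005b0180005b018001800180005b018001800180005b08166811ef2903065 [] 0 = true := by decide +kernel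

/-- the root box -/
theorem rootA4_2_4 (hC : ∀ z φ, H z φ → Cf z φ) (hd : ∀ L D r, Pool.Agent.Helper66.Kiss.DlG.dlG L 0 D r = true → Good H P L 0) :
    GoodX H P 0x100000010000000040000000000000000000000000000000000000000000000000000000000000000180005b0180005b0180005b0180005b0180005b0180005b018001800180005b018001800180005b08166811ef2903065 :=
  soundLT ctB_OKL hC (aA4_2_4_0 hC hd) topA4_2_4

/-- boxes from number 1 -/
def cA4_2_5_1 : List Nat := bA4_2_5_1

lemma aA4_2_5_1 (hC : ∀ z φ, H z φ → Cf z φ) (hd : ∀ L D r, Pool.Agent.Helper66.Kiss.DlG.dlG L 0 D r = true → Good H P L 0) : AGX H P cA4_2_5_1 :=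
  (soundL0 ctB_OKL hC tA4_2_5_1)

/-- boxes from number 0 -/
def cA4_2_5_0 : List Nat := bA4_2_5_0 ++ cA4_2_5_1

lemma aA4_2_5_0 (hC : ∀ z φ, H z φ → Cf z φ) (hd : ∀ L D r, Pool.Agent.Helper66.Kiss.DlG.dlG L 0 D r = true → Good H P L 0) : AGX H P cA4_2_5_0 :=
  AGX_append (soundL0 ctB_OKL hC tA4_2_5_0) (aA4_2_5_1 hC hd)

theorem topA4_2_5 : KL.runX KL.ctB (KL.dlX cA4_2_5_0) (KL.dec 0 0x1e000160000e0000604ca004c9804c880 List.nil) 0x1000000000020000000040000000000000000000000000000000000000000000000000000000000000000180005b0180005b0180005b0180005b0180005b018001800180005b0180005b018001800180005b08166811eab715f90 [] 0 = true := by decide +kernel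

/-- the root box -/
theorem rootA4_2_5 (hC : ∀ z φ, H z φ → Cf z φ) (hd : ∀ L D r, Pool.Agent.Helper66.Kiss.DlG.dlG L 0 D r = true → Good H P L 0) :
    GoodX H P 0x1000000000020000000040000000000000000000000000000000000000000000000000000000000000000180005b0180005b0180005b0180005b0180005b018001800180005b0180005b018001800180005b08166811eab715f90 :=
  soundLT ctB_OKL hC (aA4_2_5_0 hC hd) topA4_2_5

/-- boxes from number 12 -/
def cA4_2_6_12 : List Nat := bA4_2_6_12

lemma aA4_2_6_12 (hC : ∀ z φ, H z φ → Cf z φ) (hd : ∀ L D r, Pool.Agent.Helper66.Kiss.DlG.dlG L 0 D r = true → Good H P L 0) : AGX H P cA4_2_6_12 :=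
  (soundLP ctB_OKL hC hd tA4_2_6_12)

/-- boxes from number 11 -/
def cA4_2_6_11 : List Nat := bA4_2_6_11 ++ cA4_2_6_12

lemma aA4_2_6_11 (hC : ∀ z φ, H z φ → Cf z φ) (hd : ∀ L D r, Pool.Agent.Helper66.Kiss.DlG.dlG L 0 D r = true → Good H P L 0) : AGX H P cA4_2_6_11 :=
  AGX_append (soundL0 ctB_OKL hC tA4_2_6_11) (aA4_2_6_12 hC hd)

/-- boxes from number 10 -/
def cA4_2_6_10 : List Nat := bA4_2_6_10 ++ cA4_2_6_11

lemma aA4_2_6_10 (hC : ∀ z φ, H z φ → Cf z φ) (hd : ∀ L D r, Pool.Agent.Helper66.Kiss.DlG.dlG L 0 D r = true → Good H P L 0) : AGX H P cA4_2_6_10 :=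
  AGX_append (soundLP ctB_OKL hC hd tA4_2_6_10) (aA4_2_6_11 hC hd)

/-- boxes from number 9 -/
def cA4_2_6_9 : List Nat := bA4_2_6_9 ++ cA4_2_6_10

lemma aA4_2_6_9 (hC : ∀ z φ, H z φ → Cf z φ) (hd : ∀ L D r, Pool.Agent.Helper66.Kiss.DlG.dlG L 0 D r = true → Good H P L 0) : AGX H P cA4_2_6_9 :=
  AGX_append (soundLP ctB_OKL hC hd tA4_2_6_9) (aA4_2_6_10 hC hd)

/-- boxes from number 8 -/
def cA4_2_6_8 : List Nat := bA4_2_6_8 ++ cA4_2_6_9

lemma aA4_2_6_8 (hC : ∀ z φ, H z φ → Cf z φ) (hd : ∀ L D r, Pool.Agent.Helper66.Kiss.DlG.dlG L 0 D r = true → Good H P L 0) : AGX H P cA4_2_6_8 :=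
  AGX_append (soundLP ctB_OKL hC hd tA4_2_6_8) (aA4_2_6_9 hC hd)

/-- boxes from number 7 -/
def cA4_2_6_7 : List Nat := bA4_2_6_7 ++ cA4_2_6_8

lemma aA4_2_6_7 (hC : ∀ z φ, H z φ → Cf z φ) (hd : ∀ L D r, Pool.Agent.Helper66.Kiss.DlG.dlG L 0 D r = true → Good H P L 0) : AGX H P cA4_2_6_7 :=
  AGX_append (soundLP ctB_OKL hC hd tA4_2_6_7) (aA4_2_6_8 hC hd)

/-- boxes from number 6 -/
def cA4_2_6_6 : List Nat := bA4_2_6_6 ++ cA4_2_6_7

lemma aA4_2_6_6 (hC : ∀ z φ, H z φ → Cf z φ) (hd : ∀ L D r, Pool.Agent.Helper66.Kiss.DlG.dlG L 0 D r = true → Good H P L 0) : AGX H P cA4_2_6_6 :=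
  AGX_append (soundLP ctB_OKL hC hd tA4_2_6_6) (aA4_2_6_7 hC hd)

/-- boxes from number 5 -/
def cA4_2_6_5 : List Nat := bA4_2_6_5 ++ cA4_2_6_6

lemma aA4_2_6_5 (hC : ∀ z φ, H z φ → Cf z φ) (hd : ∀ L D r, Pool.Agent.Helper66.Kiss.DlG.dlG L 0 D r = true → Good H P L 0) : AGX H P cA4_2_6_5 :=
  AGX_append (soundLP ctB_OKL hC hd tA4_2_6_5) (aA4_2_6_6 hC hd)

/-- boxes from number 4 -/
def cA4_2_6_4 : List Nat := bA4_2_6_4 ++ cA4_2_6_5

lemma aA4_2_6_4 (hC : ∀ z φ, H z φ → Cf z φ) (hd : ∀ L D r, Pool.Agent.Helper66.Kiss.DlG.dlG L 0 D r = true → Good H P L 0) : AGX H P cA4_2_6_4 :=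
  AGX_append (soundLP ctB_OKL hC hd tA4_2_6_4) (aA4_2_6_5 hC hd)

/-- boxes from number 3 -/
def cA4_2_6_3 : List Nat := bA4_2_6_3 ++ cA4_2_6_4

lemma aA4_2_6_3 (hC : ∀ z φ, H z φ → Cf z φ) (hd : ∀ L D r, Pool.Agent.Helper66.Kiss.DlG.dlG L 0 D r = true → Good H P L 0) : AGX H P cA4_2_6_3 :=
  AGX_append (soundLP ctB_OKL hC hd tA4_2_6_3) (aA4_2_6_4 hC hd)

/-- boxes from number 2 -/
def cA4_2_6_2 : List Nat := bA4_2_6_2 ++ cA4_2_6_3

lemma aA4_2_6_2 (hC : ∀ z φ, H z φ → Cf z φ) (hd : ∀ L D r, Pool.Agent.Helper66.Kiss.DlG.dlG L 0 D r = true → Good H P L 0) : AGX H P cA4_2_6_2 :=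
  AGX_append (soundLP ctB_OKL hC hd tA4_2_6_2) (aA4_2_6_3 hC hd)

/-- boxes from number 1 -/
def cA4_2_6_1 : List Nat := bA4_2_6_1 ++ cA4_2_6_2

lemma aA4_2_6_1 (hC : ∀ z φ, H z φ → Cf z φ) (hd : ∀ L D r, Pool.Agent.Helper66.Kiss.DlG.dlG L 0 D r = true → Good H P L 0) : AGX H P cA4_2_6_1 :=
  AGX_append (soundLP ctB_OKL hC hd tA4_2_6_1) (aA4_2_6_2 hC hd)

/-- boxes from number 0 -/
def cA4_2_6_0 : List Nat := bA4_2_6_0 ++ cA4_2_6_1

lemma aA4_2_6_0 (hC : ∀ z φ, H z φ → Cf z φ) (hd : ∀ L D r, Pool.Agent.Helper66.Kiss.DlG.dlG L 0 D r = true → Good H P L 0) : AGX H P cA4_2_6_0 :=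
  AGX_append (soundLP ctB_OKL hC hd tA4_2_6_0) (aA4_2_6_1 hC hd)

theorem topA4_2_6 : KL.runX KL.ctB (KL.dlX cA4_2_6_0) (KL.dec 4 0x3160030e0030604ca004c98002fe002f6002ee04ca804ca0002e6002de002d6002ce002c6002be002b6002ae01c1801c28002a6073a00029e065c0002960028e0028601c28040480027e0027601c280026e00266015280153801c180025e073c000256076500024e073a0026b800246065d00023e002360022e01c2800226073c00021e073a000216065d00020e01b08026b800206001fe001f6001ee001e601c18001de02408001d60220803348001ce073c0001c608cd0001be01d8803948001b6086d0001ae073d0035380030a001a6015080268803528035180019e00196026b80018e010c8001860017e00176015280016e073c000166065a00015e065d000156026880014e010c8026b8026a8001460013e001360012e00126087a0040280011e015180153800116018480010e065a00010607650000fe065d0026b8000f6065c0000ee010c8000e6000de000d6000ce086a0000c60764004038000be0765001528000b601518000ae073a0000a6065c00009e065d000096015480008e00086015280007e0151800076015380006e065c000066065a00005e010c800056065d0026b8026a80004e000460003e026a800036065a00002e01848026b800026010c80001e015080268802698026c80001604cd004cc80000e04cc004cb804ca80000604ca004c9804c880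 List.nil) 0x10000000000000040000000040000000000000000000000000000000000000000000000000000000000000000180005b0180005b0180005b0180005b018001800180005b0180005b0180005b018001800180005b08166811e47754739 [] 0 = true := by decide +kernel

/-- the root box -/
theorem rootA4_2_6 (hC : ∀ z φ, H z φ → Cf z φ) (hd : ∀ L D r, Pool.Agent.Helper66.Kiss.DlG.dlG L 0 D r = true → Good H P L 0) :
    GoodX H P 0x10000000000000040000000040000000000000000000000000000000000000000000000000000000000000000180005b0180005b0180005b0180005b018001800180005b0180005b0180005b018001800180005b08166811e47754739 :=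
  soundLT ctB_OKL hC (aA4_2_6_0 hC hd) topA4_2_6

/-- boxes from number 1 -/
def cA4_2_7_1 : List Nat := bA4_2_7_1

lemma aA4_2_7_1 (hC : ∀ z φ, H z φ → Cf z φ) (hd : ∀ L D r, Pool.Agent.Helper66.Kiss.DlG.dlG L 0 D r = true → Good H P L 0) : AGX H P cA4_2_7_1 :=
  (soundL0 ctB_OKL hC tA4_2_7_1)

/-- boxes from number 0 -/
def cA4_2_7_0 : List Nat := bA4_2_7_0 ++ cA4_2_7_1

lemma aA4_2_7_0 (hC : ∀ z φ, H z φ → Cf z φ) (hd : ∀ L D r, Pool.Agent.Helper66.Kiss.DlG.dlG L 0 D r = true → Good H P L 0) : AGX H P cA4_2_7_0 :=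
  AGX_append (soundL0 ctB_OKL hC tA4_2_7_0) (aA4_2_7_1 hC hd)

theorem topA4_2_7 : KL.runX KL.ctB (KL.dlX cA4_2_7_0) (KL.dec 0 0x260001e000160000e04ca80000604ca004c9804c880 List.nil) 0x100000000000000000080000000040000000000000000000000000000000000000000000000000000000000000000180005b0180005b0180005b018001800180005b0180005b0180005b0180005b018001800180005b08166811e938b5e13 [] 0 = true := by decide +kernel

/-- the root box -/
theorem rootA4_2_7 (hC : ∀ z φ, H z φ → Cf z φ) (hd : ∀ L D r, Pool.Agent.Helper66.Kiss.DlG.dlG L 0 D r = true → Good H P L 0) :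
    GoodX H P 0x100000000000000000080000000040000000000000000000000000000000000000000000000000000000000000000180005b0180005b0180005b018001800180005b0180005b0180005b0180005b018001800180005b08166811e938b5e13 :=
  soundLT ctB_OKL hC (aA4_2_7_0 hC hd) topA4_2_7

/-- boxes from number 0 -/
def cA4_2_8_0 : List Nat := bA4_2_8_0

lemma aA4_2_8_0 (hC : ∀ z φ, H z φ → Cf z φ) (hd : ∀ L D r, Pool.Agent.Helper66.Kiss.DlG.dlG L 0 D r = true → Good H P L 0) : AGX H P cA4_2_8_0 :=
  (soundL0 ctB_OKL hC tA4_2_8_0)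

theorem topA4_2_8 : KL.runX KL.ctB (KL.dlX cA4_2_8_0) (KL.dec 0 0x60 List.nil) 0x1000000000000000000000100000000040000000000000000000000000000000000000000000000000000000000000000180005b0180005b018001800180005b0180005b0180005b0180005b0180005b018001800180005b08166811e28e93570 [] 0 = true := by decide +kernel

/-- the root box -/
theorem rootA4_2_8 (hC : ∀ z φ, H z φ → Cf z φ) (hd : ∀ L D r, Pool.Agent.Helper66.Kiss.DlG.dlG L 0 D r = true → Good H P L 0) :
    GoodX H P 0x1000000000000000000000100000000040000000000000000000000000000000000000000000000000000000000000000180005b0180005b018001800180005b0180005b0180005b0180005b0180005b018001800180005b08166811e28e93570 :=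
  soundLT ctB_OKL hC (aA4_2_8_0 hC hd) topA4_2_8

/-- boxes from number 0 -/
def cA4_2_9_0 : List Nat := bA4_2_9_0

lemma aA4_2_9_0 (hC : ∀ z φ, H z φ → Cf z φ) (hd : ∀ L D r, Pool.Agent.Helper66.Kiss.DlG.dlG L 0 D r = true → Good H P L 0) : AGX H P cA4_2_9_0 :=
  (soundL0 ctB_OKL hC tA4_2_9_0)

theorem topA4_2_9 : KL.runX KL.ctB (KL.dlX cA4_2_9_0) (KL.dec 0 0x60 List.nil) 0x10000000000000000000000000200000000040000000000000000000000000000000000000000000000000000000000000000180005b018001800180005b0180005b0180005b0180005b0180005b0180005b018001800180005b08166811e897e30eb [] 0 = true := by decide +kernel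

/-- the root box -/
theorem rootA4_2_9 (hC : ∀ z φ, H z φ → Cf z φ) (hd : ∀ L D r, Pool.Agent.Helper66.Kiss.DlG.dlG L 0 D r = true → Good H P L 0) :
    GoodX H P 0x10000000000000000000000000200000000040000000000000000000000000000000000000000000000000000000000000000180005b018001800180005b0180005b0180005b0180005b0180005b0180005b018001800180005b08166811e897e30eb :=
  soundLT ctB_OKL hC (aA4_2_9_0 hC hd) topA4_2_9

/-- boxes from number 0 -/
def cA4_3_3_0 : List Nat := bA4_3_3_0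

lemma aA4_3_3_0 (hC : ∀ z φ, H z φ → Cf z φ) (hd : ∀ L D r, Pool.Agent.Helper66.Kiss.DlG.dlG L 0 D r = true → Good H P L 0) : AGX H P cA4_3_3_0 :=
  (soundL0 ctB_OKL hC tA4_3_3_0)

theorem topA4_3_3 : KL.runX KL.ctB (KL.dlX cA4_3_3_0) (KL.dec 0 0x60 List.nil) 0x90000000000080000000000000000000000000000000000000000000000000000000000000000180005b0180005b0180005b0180005b0180005b0180005b0180005b018001800180005b0180005b08166811e9f08d617 [] 0 = true := by decide +kernel

/-- the root box -/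
theorem rootA4_3_3 (hC : ∀ z φ, H z φ → Cf z φ) (hd : ∀ L D r, Pool.Agent.Helper66.Kiss.DlG.dlG L 0 D r = true → Good H P L 0) :
    GoodX H P 0x90000000000080000000000000000000000000000000000000000000000000000000000000000180005b0180005b0180005b0180005b0180005b0180005b0180005b018001800180005b0180005b08166811e9f08d617 :=
  soundLT ctB_OKL hC (aA4_3_3_0 hC hd) topA4_3_3

/-- boxes from number 0 -/
def cA4_3_4_0 : List Nat := bA4_3_4_0

lemma aA4_3_4_0 (hC : ∀ z φ, H z φ → Cf z φ) (hd : ∀ L D r, Pool.Agent.Helper66.Kiss.DlG.dlG L 0 D r = true → Good H P L 0) : AGX H P cA4_3_4_0 :=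
  (soundL0 ctB_OKL hC tA4_3_4_0)

theorem topA4_3_4 : KL.runX KL.ctB (KL.dlX cA4_3_4_0) (KL.dec 0 0x60 List.nil) 0x100100000000000080000000000000000000000000000000000000000000000000000000000000000180005b0180005b0180005b0180005b0180005b0180005b01800180018001800180005b0180005b08166811ea3c75102 [] 0 = true := by decide +kernel

/-- the root box -/
theorem rootA4_3_4 (hC : ∀ z φ, H z φ → Cf z φ) (hd : ∀ L D r, Pool.Agent.Helper66.Kiss.DlG.dlG L 0 D r = true → Good H P L 0) :
    GoodX H P 0x100100000000000080000000000000000000000000000000000000000000000000000000000000000180005b0180005b0180005b0180005b0180005b0180005b01800180018001800180005b0180005b08166811ea3c75102 :=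
  soundLT ctB_OKL hC (aA4_3_4_0 hC hd) topA4_3_4

/-- boxes from number 3 -/
def cA4_3_5_3 : List Nat := bA4_3_5_3

lemma aA4_3_5_3 (hC : ∀ z φ, H z φ → Cf z φ) (hd : ∀ L D r, Pool.Agent.Helper66.Kiss.DlG.dlG L 0 D r = true → Good H P L 0) : AGX H P cA4_3_5_3 :=
  (soundL0 ctB_OKL hC tA4_3_5_3)

/-- boxes from number 2 -/
def cA4_3_5_2 : List Nat := bA4_3_5_2 ++ cA4_3_5_3

lemma aA4_3_5_2 (hC : ∀ z φ, H z φ → Cf z φ) (hd : ∀ L D r, Pool.Agent.Helper66.Kiss.DlG.dlG L 0 D r = true → Good H P L 0) : AGX H P cA4_3_5_2 :=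
  AGX_append (soundLP ctB_OKL hC hd tA4_3_5_2) (aA4_3_5_3 hC hd)

/-- boxes from number 1 -/
def cA4_3_5_1 : List Nat := bA4_3_5_1 ++ cA4_3_5_2

lemma aA4_3_5_1 (hC : ∀ z φ, H z φ → Cf z φ) (hd : ∀ L D r, Pool.Agent.Helper66.Kiss.DlG.dlG L 0 D r = true → Good H P L 0) : AGX H P cA4_3_5_1 :=
  AGX_append (soundLP ctB_OKL hC hd tA4_3_5_1) (aA4_3_5_2 hC hd)

/-- boxes from number 0 -/
def cA4_3_5_0 : List Nat := bA4_3_5_0 ++ cA4_3_5_1

lemma aA4_3_5_0 (hC : ∀ z φ, H z φ → Cf z φ) (hd : ∀ L D r, Pool.Agent.Helper66.Kiss.DlG.dlG L 0 D r = true → Good H P L 0) : AGX H P cA4_3_5_0 :=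
  AGX_append (soundL0 ctB_OKL hC tA4_3_5_0) (aA4_3_5_1 hC hd)

theorem topA4_3_5 : KL.runX KL.ctB (KL.dlX cA4_3_5_0) (KL.dec 2 0xce000c6000be000b6000ae000a60009e000960008e0008601c40035300007e06588026a0000760006e000660005e01b30025b000056065b80004e065880004601c40035300003e0109000036065c80002e026a002690035400002601d5004cd00001e04cc804cc00001604cb804cb004ca004c900000e0000604c9004c880 List.nil) 0x1000000200000000000080000000000000000000000000000000000000000000000000000000000000000180005b0180005b0180005b0180005b0180005b018001800180005b018001800180005b0180005b08166811e7c54d9a2 [] 0 = true := by decide +kernel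

/-- the root box -/
theorem rootA4_3_5 (hC : ∀ z φ, H z φ → Cf z φ) (hd : ∀ L D r, Pool.Agent.Helper66.Kiss.DlG.dlG L 0 D r = true → Good H P L 0) :
    GoodX H P 0x1000000200000000000080000000000000000000000000000000000000000000000000000000000000000180005b0180005b0180005b0180005b0180005b018001800180005b018001800180005b0180005b08166811e7c54d9a2 :=
  soundLT ctB_OKL hC (aA4_3_5_0 hC hd) topA4_3_5

/-- boxes from number 2 -/
def cA4_3_6_2 : List Nat := bA4_3_6_2

lemma aA4_3_6_2 (hC : ∀ z φ, H z φ → Cf z φ) (hd : ∀ L D r, Pool.Agent.Helper66.Kiss.DlG.dlG L 0 D r = true → Good H P L 0) : AGX H P cA4_3_6_2 :=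
  (soundLP ctB_OKL hC hd tA4_3_6_2)

/-- boxes from number 1 -/
def cA4_3_6_1 : List Nat := bA4_3_6_1 ++ cA4_3_6_2

lemma aA4_3_6_1 (hC : ∀ z φ, H z φ → Cf z φ) (hd : ∀ L D r, Pool.Agent.Helper66.Kiss.DlG.dlG L 0 D r = true → Good H P L 0) : AGX H P cA4_3_6_1 :=
  AGX_append (soundL0 ctB_OKL hC tA4_3_6_1) (aA4_3_6_2 hC hd)

/-- boxes from number 0 -/
def cA4_3_6_0 : List Nat := bA4_3_6_0 ++ cA4_3_6_1

lemma aA4_3_6_0 (hC : ∀ z φ, H z φ → Cf z φ) (hd : ∀ L D r, Pool.Agent.Helper66.Kiss.DlG.dlG L 0 D r = true → Good H P L 0) : AGX H P cA4_3_6_0 :=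
  AGX_append (soundL0 ctB_OKL hC tA4_3_6_0) (aA4_3_6_1 hC hd)

theorem topA4_3_6 : KL.runX KL.ctB (KL.dlX cA4_3_6_0) (KL.dec 0 0x3e000360002e0002604ca804ca004c900001e0001604ca00000e0000604ca004c9004c880 List.nil) 0x10000000000400000000000080000000000000000000000000000000000000000000000000000000000000000180005b0180005b0180005b0180005b018001800180005b0180005b018001800180005b0180005b08166811e57b17435 [] 0 = true := by decide +kernel

/-- the root box -/
theorem rootA4_3_6 (hC : ∀ z φ, H z φ → Cf z φ) (hd : ∀ L D r, Pool.Agent.Helper66.Kiss.DlG.dlG L 0 D r = true → Good H P L 0) :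
    GoodX H P 0x10000000000400000000000080000000000000000000000000000000000000000000000000000000000000000180005b0180005b0180005b0180005b018001800180005b0180005b018001800180005b0180005b08166811e57b17435 :=
  soundLT ctB_OKL hC (aA4_3_6_0 hC hd) topA4_3_6

/-- boxes from number 11 -/
def cA4_3_7_11 : List Nat := bA4_3_7_11

lemma aA4_3_7_11 (hC : ∀ z φ, H z φ → Cf z φ) (hd : ∀ L D r, Pool.Agent.Helper66.Kiss.DlG.dlG L 0 D r = true → Good H P L 0) : AGX H P cA4_3_7_11 :=
  (soundL0 ctB_OKL hC tA4_3_7_11)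

/-- boxes from number 10 -/
def cA4_3_7_10 : List Nat := bA4_3_7_10 ++ cA4_3_7_11

lemma aA4_3_7_10 (hC : ∀ z φ, H z φ → Cf z φ) (hd : ∀ L D r, Pool.Agent.Helper66.Kiss.DlG.dlG L 0 D r = true → Good H P L 0) : AGX H P cA4_3_7_10 :=
  AGX_append (soundLP ctB_OKL hC hd tA4_3_7_10) (aA4_3_7_11 hC hd)

/-- boxes from number 9 -/
def cA4_3_7_9 : List Nat := bA4_3_7_9 ++ cA4_3_7_10

lemma aA4_3_7_9 (hC : ∀ z φ, H z φ → Cf z φ) (hd : ∀ L D r, Pool.Agent.Helper66.Kiss.DlG.dlG L 0 D r = true → Good H P L 0) : AGX H P cA4_3_7_9 :=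
  AGX_append (soundLP ctB_OKL hC hd tA4_3_7_9) (aA4_3_7_10 hC hd)

/-- boxes from number 8 -/
def cA4_3_7_8 : List Nat := bA4_3_7_8 ++ cA4_3_7_9

lemma aA4_3_7_8 (hC : ∀ z φ, H z φ → Cf z φ) (hd : ∀ L D r, Pool.Agent.Helper66.Kiss.DlG.dlG L 0 D r = true → Good H P L 0) : AGX H P cA4_3_7_8 :=
  AGX_append (soundLP ctB_OKL hC hd tA4_3_7_8) (aA4_3_7_9 hC hd)

/-- boxes from number 7 -/
def cA4_3_7_7 : List Nat := bA4_3_7_7 ++ cA4_3_7_8

lemma aA4_3_7_7 (hC : ∀ z φ, H z φ → Cf z φ) (hd : ∀ L D r, Pool.Agent.Helper66.Kiss.DlG.dlG L 0 D r = true → Good H P L 0) : AGX H P cA4_3_7_7 :=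
  AGX_append (soundLP ctB_OKL hC hd tA4_3_7_7) (aA4_3_7_8 hC hd)

/-- boxes from number 6 -/
def cA4_3_7_6 : List Nat := bA4_3_7_6 ++ cA4_3_7_7

lemma aA4_3_7_6 (hC : ∀ z φ, H z φ → Cf z φ) (hd : ∀ L D r, Pool.Agent.Helper66.Kiss.DlG.dlG L 0 D r = true → Good H P L 0) : AGX H P cA4_3_7_6 :=
  AGX_append (soundLP ctB_OKL hC hd tA4_3_7_6) (aA4_3_7_7 hC hd)

/-- boxes from number 5 -/
def cA4_3_7_5 : List Nat := bA4_3_7_5 ++ cA4_3_7_6

lemma aA4_3_7_5 (hC : ∀ z φ, H z φ → Cf z φ) (hd : ∀ L D r, Pool.Agent.Helper66.Kiss.DlG.dlG L 0 D r = true → Good H P L 0) : AGX H P cA4_3_7_5 :=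
  AGX_append (soundLP ctB_OKL hC hd tA4_3_7_5) (aA4_3_7_6 hC hd)

/-- boxes from number 4 -/
def cA4_3_7_4 : List Nat := bA4_3_7_4 ++ cA4_3_7_5

lemma aA4_3_7_4 (hC : ∀ z φ, H z φ → Cf z φ) (hd : ∀ L D r, Pool.Agent.Helper66.Kiss.DlG.dlG L 0 D r = true → Good H P L 0) : AGX H P cA4_3_7_4 :=
  AGX_append (soundLP ctB_OKL hC hd tA4_3_7_4) (aA4_3_7_5 hC hd)

/-- boxes from number 3 -/
def cA4_3_7_3 : List Nat := bA4_3_7_3 ++ cA4_3_7_4

lemma aA4_3_7_3 (hC : ∀ z φ, H z φ → Cf z φ) (hd : ∀ L D r, Pool.Agent.Helper66.Kiss.DlG.dlG L 0 D r = true → Good H P L 0) : AGX H P cA4_3_7_3 :=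
  AGX_append (soundLP ctB_OKL hC hd tA4_3_7_3) (aA4_3_7_4 hC hd)

/-- boxes from number 2 -/
def cA4_3_7_2 : List Nat := bA4_3_7_2 ++ cA4_3_7_3

lemma aA4_3_7_2 (hC : ∀ z φ, H z φ → Cf z φ) (hd : ∀ L D r, Pool.Agent.Helper66.Kiss.DlG.dlG L 0 D r = true → Good H P L 0) : AGX H P cA4_3_7_2 :=
  AGX_append (soundLP ctB_OKL hC hd tA4_3_7_2) (aA4_3_7_3 hC hd)

/-- boxes from number 1 -/
def cA4_3_7_1 : List Nat := bA4_3_7_1 ++ cA4_3_7_2

lemma aA4_3_7_1 (hC : ∀ z φ, H z φ → Cf z φ) (hd : ∀ L D r, Pool.Agent.Helper66.Kiss.DlG.dlG L 0 D r = true → Good H P L 0) : AGX H P cA4_3_7_1 :=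
  AGX_append (soundL0 ctB_OKL hC tA4_3_7_1) (aA4_3_7_2 hC hd)

/-- boxes from number 0 -/
def cA4_3_7_0 : List Nat := bA4_3_7_0 ++ cA4_3_7_1

lemma aA4_3_7_0 (hC : ∀ z φ, H z φ → Cf z φ) (hd : ∀ L D r, Pool.Agent.Helper66.Kiss.DlG.dlG L 0 D r = true → Good H P L 0) : AGX H P cA4_3_7_0 :=
  AGX_append (soundL0 ctB_OKL hC tA4_3_7_0) (aA4_3_7_1 hC hd)

theorem topA4_3_7 : KL.runX KL.ctB (KL.dlX cA4_3_7_0) (KL.dec 4 0x22e002260021e002160020e00206001fe001f6001ee001e601c2001c30001de073a8001d6065c8001ce001c6001be001b6086a8001ae0810801c30001a60154001c200019e073c800196076080018e073a8026c000186065880017e001760016e01c2001c3000166076480015e073a800156065880014e065c8001460013e001360012e01bc004050001260760801c200011e0011601c2001c300010e065a800106065c8000fe06588026c0000f601090026900352003530000ee000e6000de026c0026b0000d6010d0000ce000c6000be01c30000b6073a8000ae0658803530000a6065c80009e01b50000960008e00086015400007e073a800076076080006e065c8026b000066065880005e01b50026c000056015500004e00046026c00003e01550000360151002690026a0026d004cd00002e04cc804cc004cb00002604ca804ca004c900001e0001604ca00000e0000604ca004c9004c880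 List.nil) 0x100000000000000800000000000080000000000000000000000000000000000000000000000000000000000000000180005b0180005b0180005b018001800180005b0180005b0180005b018001800180005b0180005b08166811e2278f0e8 [] 0 = true := by decide +kernel

/-- the root box -/
theorem rootA4_3_7 (hC : ∀ z φ, H z φ → Cf z φ) (hd : ∀ L D r, Pool.Agent.Helper66.Kiss.DlG.dlG L 0 D r = true → Good H P L 0) :
    GoodX H P 0x100000000000000800000000000080000000000000000000000000000000000000000000000000000000000000000180005b0180005b0180005b018001800180005b0180005b0180005b018001800180005b0180005b08166811e2278f0e8 :=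
  soundLT ctB_OKL hC (aA4_3_7_0 hC hd) topA4_3_7

/-- boxes from number 1 -/
def cA4_3_8_1 : List Nat := bA4_3_8_1

lemma aA4_3_8_1 (hC : ∀ z φ, H z φ → Cf z φ) (hd : ∀ L D r, Pool.Agent.Helper66.Kiss.DlG.dlG L 0 D r = true → Good H P L 0) : AGX H P cA4_3_8_1 :=
  (soundL0 ctB_OKL hC tA4_3_8_1)

/-- boxes from number 0 -/
def cA4_3_8_0 : List Nat := bA4_3_8_0 ++ cA4_3_8_1

lemma aA4_3_8_0 (hC : ∀ z φ, H z φ → Cf z φ) (hd : ∀ L D r, Pool.Agent.Helper66.Kiss.DlG.dlG L 0 D r = true → Good H P L 0) : AGX H P cA4_3_8_0 :=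
  AGX_append (soundL0 ctB_OKL hC tA4_3_8_0) (aA4_3_8_1 hC hd)

theorem topA4_3_8 : KL.runX KL.ctB (KL.dlX cA4_3_8_0) (KL.dec 0 0x2e000260001e0001604ca804ca004c900000e0000604c9004c880 List.nil) 0x1000000000000000001000000000000080000000000000000000000000000000000000000000000000000000000000000180005b0180005b018001800180005b0180005b0180005b0180005b018001800180005b0180005b08166811eb53993ed [] 0 = true := by decide +kernel

/-- the root box -/
theorem rootA4_3_8 (hC : ∀ z φ, H z φ → Cf z φ) (hd : ∀ L D r, Pool.Agent.Helper66.Kiss.DlG.dlG L 0 D r = true → Good H P L 0) :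
    GoodX H P 0x1000000000000000001000000000000080000000000000000000000000000000000000000000000000000000000000000180005b0180005b018001800180005b0180005b0180005b0180005b018001800180005b0180005b08166811eb53993ed :=
  soundLT ctB_OKL hC (aA4_3_8_0 hC hd) topA4_3_8

/-- boxes from number 0 -/
def cA4_4_4_0 : List Nat := bA4_4_4_0

lemma aA4_4_4_0 (hC : ∀ z φ, H z φ → Cf z φ) (hd : ∀ L D r, Pool.Agent.Helper66.Kiss.DlG.dlG L 0 D r = true → Good H P L 0) : AGX H P cA4_4_4_0 :=
  (soundL0 ctB_OKL hC tA4_4_4_0)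

theorem topA4_4_4 : KL.runX KL.ctB (KL.dlX cA4_4_4_0) (KL.dec 0 0xe0000604c880 List.nil) 0x1100000000000000100000000000000000000000000000000000000000000000000000000000000000180005b0180005b0180005b0180005b0180005b0180005b018001800180005b0180005b0180005b08166811e203b3e1e [] 0 = true := by decide +kernel

/-- the root box -/
theorem rootA4_4_4 (hC : ∀ z φ, H z φ → Cf z φ) (hd : ∀ L D r, Pool.Agent.Helper66.Kiss.DlG.dlG L 0 D r = true → Good H P L 0) :
    GoodX H P 0x1100000000000000100000000000000000000000000000000000000000000000000000000000000000180005b0180005b0180005b0180005b0180005b0180005b018001800180005b0180005b0180005b08166811e203b3e1e :=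
  soundLT ctB_OKL hC (aA4_4_4_0 hC hd) topA4_4_4

/-- boxes from number 0 -/
def cA4_4_5_0 : List Nat := bA4_4_5_0

lemma aA4_4_5_0 (hC : ∀ z φ, H z φ → Cf z φ) (hd : ∀ L D r, Pool.Agent.Helper66.Kiss.DlG.dlG L 0 D r = true → Good H P L 0) : AGX H P cA4_4_5_0 :=
  (soundL0 ctB_OKL hC tA4_4_5_0)

theorem topA4_4_5 : KL.runX KL.ctB (KL.dlX cA4_4_5_0) (KL.dec 0 0xe0000604c880 List.nil) 0x1002000000000000000100000000000000000000000000000000000000000000000000000000000000000180005b0180005b0180005b0180005b0180005b01800180018001800180005b0180005b0180005b08166811e526b1a6a [] 0 = true := by decide +kernel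

/-- the root box -/
theorem rootA4_4_5 (hC : ∀ z φ, H z φ → Cf z φ) (hd : ∀ L D r, Pool.Agent.Helper66.Kiss.DlG.dlG L 0 D r = true → Good H P L 0) :
    GoodX H P 0x1002000000000000000100000000000000000000000000000000000000000000000000000000000000000180005b0180005b0180005b0180005b0180005b01800180018001800180005b0180005b0180005b08166811e526b1a6a :=
  soundLT ctB_OKL hC (aA4_4_5_0 hC hd) topA4_4_5

/-- boxes from number 5 -/
def cA4_4_6_5 : List Nat := bA4_4_6_5

lemma aA4_4_6_5 (hC : ∀ z φ, H z φ → Cf z φ) (hd : ∀ L D r, Pool.Agent.Helper66.Kiss.DlG.dlG L 0 D r = true → Good H P L 0) : AGX H P cA4_4_6_5 :=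
  (soundL0 ctB_OKL hC tA4_4_6_5)

/-- boxes from number 4 -/
def cA4_4_6_4 : List Nat := bA4_4_6_4 ++ cA4_4_6_5

lemma aA4_4_6_4 (hC : ∀ z φ, H z φ → Cf z φ) (hd : ∀ L D r, Pool.Agent.Helper66.Kiss.DlG.dlG L 0 D r = true → Good H P L 0) : AGX H P cA4_4_6_4 :=
  AGX_append (soundLP ctB_OKL hC hd tA4_4_6_4) (aA4_4_6_5 hC hd)

/-- boxes from number 3 -/
def cA4_4_6_3 : List Nat := bA4_4_6_3 ++ cA4_4_6_4

lemma aA4_4_6_3 (hC : ∀ z φ, H z φ → Cf z φ) (hd : ∀ L D r, Pool.Agent.Helper66.Kiss.DlG.dlG L 0 D r = true → Good H P L 0) : AGX H P cA4_4_6_3 :=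
  AGX_append (soundLP ctB_OKL hC hd tA4_4_6_3) (aA4_4_6_4 hC hd)

/-- boxes from number 2 -/
def cA4_4_6_2 : List Nat := bA4_4_6_2 ++ cA4_4_6_3

lemma aA4_4_6_2 (hC : ∀ z φ, H z φ → Cf z φ) (hd : ∀ L D r, Pool.Agent.Helper66.Kiss.DlG.dlG L 0 D r = true → Good H P L 0) : AGX H P cA4_4_6_2 :=
  AGX_append (soundLP ctB_OKL hC hd tA4_4_6_2) (aA4_4_6_3 hC hd)

/-- boxes from number 1 -/
def cA4_4_6_1 : List Nat := bA4_4_6_1 ++ cA4_4_6_2

lemma aA4_4_6_1 (hC : ∀ z φ, H z φ → Cf z φ) (hd : ∀ L D r, Pool.Agent.Helper66.Kiss.DlG.dlG L 0 D r = true → Good H P L 0) : AGX H P cA4_4_6_1 :=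
  AGX_append (soundLP ctB_OKL hC hd tA4_4_6_1) (aA4_4_6_2 hC hd)

/-- boxes from number 0 -/
def cA4_4_6_0 : List Nat := bA4_4_6_0 ++ cA4_4_6_1

lemma aA4_4_6_0 (hC : ∀ z φ, H z φ → Cf z φ) (hd : ∀ L D r, Pool.Agent.Helper66.Kiss.DlG.dlG L 0 D r = true → Good H P L 0) : AGX H P cA4_4_6_0 :=
  AGX_append (soundLP ctB_OKL hC hd tA4_4_6_0) (aA4_4_6_1 hC hd)

theorem topA4_4_6 : KL.runX KL.ctB (KL.dlX cA4_4_6_0) (KL.dec 3 0x1460013e0013604c9804c900012e001260011e001160010e00106000fe000f6000ee000e6000de000d60151801bb80404804028000ce01f88000c6065c0000be07650000b606590000ae065d0000a6026a802698026b80009e0150803508000960008e026a8000860007e00076015380006e076500006606590026b80005e065d000056065c00004e010c800046026a8026980003e000360002e02698026b800026010c80001e0108802688026c80001604cd004cc80000e04cc004cb804ca804c980000604c9004c880 List.nil) 0x10000004000000000000000100000000000000000000000000000000000000000000000000000000000000000180005b0180005b0180005b0180005b018001800180005b018001800180005b0180005b0180005b08166811ee0b2f1b5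 [] 0 = true := by decide +kernel

/-- the root box -/
theorem rootA4_4_6 (hC : ∀ z φ, H z φ → Cf z φ) (hd : ∀ L D r, Pool.Agent.Helper66.Kiss.DlG.dlG L 0 D r = true → Good H P L 0) :
    GoodX H P 0x10000004000000000000000100000000000000000000000000000000000000000000000000000000000000000180005b0180005b0180005b0180005b018001800180005b018001800180005b0180005b0180005b08166811ee0b2f1b5 :=
  soundLT ctB_OKL hC (aA4_4_6_0 hC hd) topA4_4_6

/-- boxes from number 3 -/
def cA4_4_7_3 : List Nat := bA4_4_7_3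

lemma aA4_4_7_3 (hC : ∀ z φ, H z φ → Cf z φ) (hd : ∀ L D r, Pool.Agent.Helper66.Kiss.DlG.dlG L 0 D r = true → Good H P L 0) : AGX H P cA4_4_7_3 :=
  (soundL0 ctB_OKL hC tA4_4_7_3)

/-- boxes from number 2 -/
def cA4_4_7_2 : List Nat := bA4_4_7_2 ++ cA4_4_7_3

lemma aA4_4_7_2 (hC : ∀ z φ, H z φ → Cf z φ) (hd : ∀ L D r, Pool.Agent.Helper66.Kiss.DlG.dlG L 0 D r = true → Good H P L 0) : AGX H P cA4_4_7_2 :=
  AGX_append (soundLP ctB_OKL hC hd tA4_4_7_2) (aA4_4_7_3 hC hd)

/-- boxes from number 1 -/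
def cA4_4_7_1 : List Nat := bA4_4_7_1 ++ cA4_4_7_2

lemma aA4_4_7_1 (hC : ∀ z φ, H z φ → Cf z φ) (hd : ∀ L D r, Pool.Agent.Helper66.Kiss.DlG.dlG L 0 D r = true → Good H P L 0) : AGX H P cA4_4_7_1 :=
  AGX_append (soundL0 ctB_OKL hC tA4_4_7_1) (aA4_4_7_2 hC hd)

/-- boxes from number 0 -/
def cA4_4_7_0 : List Nat := bA4_4_7_0 ++ cA4_4_7_1

lemma aA4_4_7_0 (hC : ∀ z φ, H z φ → Cf z φ) (hd : ∀ L D r, Pool.Agent.Helper66.Kiss.DlG.dlG L 0 D r = true → Good H P L 0) : AGX H P cA4_4_7_0 :=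
  AGX_append (soundLP ctB_OKL hC hd tA4_4_7_0) (aA4_4_7_1 hC hd)

theorem topA4_4_7 : KL.runX KL.ctB (KL.dlX cA4_4_7_0) (KL.dec 1 0x460003e000360002e04ca804c9804c90000260001e000160000e04cb004ca804c980000604c9004c880 List.nil) 0x100000000008000000000000000100000000000000000000000000000000000000000000000000000000000000000180005b0180005b0180005b018001800180005b0180005b018001800180005b0180005b0180005b08166811e1150e7e2 [] 0 = true := by decide +kernel

/-- the root box -/
theorem rootA4_4_7 (hC : ∀ z φ, H z φ → Cf z φ) (hd : ∀ L D r, Pool.Agent.Helper66.Kiss.DlG.dlG L 0 D r = true → Good H P L 0) :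
    GoodX H P 0x100000000008000000000000000100000000000000000000000000000000000000000000000000000000000000000180005b0180005b0180005b018001800180005b0180005b018001800180005b0180005b0180005b08166811e1150e7e2 :=
  soundLT ctB_OKL hC (aA4_4_7_0 hC hd) topA4_4_7

/-- boxes from number 10 -/
def cA4_5_5_10 : List Nat := bA4_5_5_10

lemma aA4_5_5_10 (hC : ∀ z φ, H z φ → Cf z φ) (hd : ∀ L D r, Pool.Agent.Helper66.Kiss.DlG.dlG L 0 D r = true → Good H P L 0) : AGX H P cA4_5_5_10 :=
  (soundL0 ctB_OKL hC tA4_5_5_10)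

/-- boxes from number 9 -/
def cA4_5_5_9 : List Nat := bA4_5_5_9 ++ cA4_5_5_10

lemma aA4_5_5_9 (hC : ∀ z φ, H z φ → Cf z φ) (hd : ∀ L D r, Pool.Agent.Helper66.Kiss.DlG.dlG L 0 D r = true → Good H P L 0) : AGX H P cA4_5_5_9 :=
  AGX_append (soundLP ctB_OKL hC hd tA4_5_5_9) (aA4_5_5_10 hC hd)

/-- boxes from number 8 -/
def cA4_5_5_8 : List Nat := bA4_5_5_8 ++ cA4_5_5_9

lemma aA4_5_5_8 (hC : ∀ z φ, H z φ → Cf z φ) (hd : ∀ L D r, Pool.Agent.Helper66.Kiss.DlG.dlG L 0 D r = true → Good H P L 0) : AGX H P cA4_5_5_8 :=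
  AGX_append (soundLP ctB_OKL hC hd tA4_5_5_8) (aA4_5_5_9 hC hd)

/-- boxes from number 7 -/
def cA4_5_5_7 : List Nat := bA4_5_5_7 ++ cA4_5_5_8

lemma aA4_5_5_7 (hC : ∀ z φ, H z φ → Cf z φ) (hd : ∀ L D r, Pool.Agent.Helper66.Kiss.DlG.dlG L 0 D r = true → Good H P L 0) : AGX H P cA4_5_5_7 :=
  AGX_append (soundLP ctB_OKL hC hd tA4_5_5_7) (aA4_5_5_8 hC hd)

/-- boxes from number 6 -/
def cA4_5_5_6 : List Nat := bA4_5_5_6 ++ cA4_5_5_7

lemma aA4_5_5_6 (hC : ∀ z φ, H z φ → Cf z φ) (hd : ∀ L D r, Pool.Agent.Helper66.Kiss.DlG.dlG L 0 D r = true → Good H P L 0) : AGX H P cA4_5_5_6 :=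
  AGX_append (soundLP ctB_OKL hC hd tA4_5_5_6) (aA4_5_5_7 hC hd)

/-- boxes from number 5 -/
def cA4_5_5_5 : List Nat := bA4_5_5_5 ++ cA4_5_5_6

lemma aA4_5_5_5 (hC : ∀ z φ, H z φ → Cf z φ) (hd : ∀ L D r, Pool.Agent.Helper66.Kiss.DlG.dlG L 0 D r = true → Good H P L 0) : AGX H P cA4_5_5_5 :=
  AGX_append (soundLP ctB_OKL hC hd tA4_5_5_5) (aA4_5_5_6 hC hd)

/-- boxes from number 4 -/
def cA4_5_5_4 : List Nat := bA4_5_5_4 ++ cA4_5_5_5

lemma aA4_5_5_4 (hC : ∀ z φ, H z φ → Cf z φ) (hd : ∀ L D r, Pool.Agent.Helper66.Kiss.DlG.dlG L 0 D r = true → Good H P L 0) : AGX H P cA4_5_5_4 :=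
  AGX_append (soundLP ctB_OKL hC hd tA4_5_5_4) (aA4_5_5_5 hC hd)

/-- boxes from number 3 -/
def cA4_5_5_3 : List Nat := bA4_5_5_3 ++ cA4_5_5_4

lemma aA4_5_5_3 (hC : ∀ z φ, H z φ → Cf z φ) (hd : ∀ L D r, Pool.Agent.Helper66.Kiss.DlG.dlG L 0 D r = true → Good H P L 0) : AGX H P cA4_5_5_3 :=
  AGX_append (soundLP ctB_OKL hC hd tA4_5_5_3) (aA4_5_5_4 hC hd)

/-- boxes from number 2 -/
def cA4_5_5_2 : List Nat := bA4_5_5_2 ++ cA4_5_5_3

lemma aA4_5_5_2 (hC : ∀ z φ, H z φ → Cf z φ) (hd : ∀ L D r, Pool.Agent.Helper66.Kiss.DlG.dlG L 0 D r = true → Good H P L 0) : AGX H P cA4_5_5_2 :=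
  AGX_append (soundLP ctB_OKL hC hd tA4_5_5_2) (aA4_5_5_3 hC hd)

/-- boxes from number 1 -/
def cA4_5_5_1 : List Nat := bA4_5_5_1 ++ cA4_5_5_2

lemma aA4_5_5_1 (hC : ∀ z φ, H z φ → Cf z φ) (hd : ∀ L D r, Pool.Agent.Helper66.Kiss.DlG.dlG L 0 D r = true → Good H P L 0) : AGX H P cA4_5_5_1 :=
  AGX_append (soundLP ctB_OKL hC hd tA4_5_5_1) (aA4_5_5_2 hC hd)

/-- boxes from number 0 -/
def cA4_5_5_0 : List Nat := bA4_5_5_0 ++ cA4_5_5_1

lemma aA4_5_5_0 (hC : ∀ z φ, H z φ → Cf z φ) (hd : ∀ L D r, Pool.Agent.Helper66.Kiss.DlG.dlG L 0 D r = true → Good H P L 0) : AGX H P cA4_5_5_0 :=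
  AGX_append (soundL0 ctB_OKL hC tA4_5_5_0) (aA4_5_5_1 hC hd)

theorem topA4_5_5 : KL.runX KL.ctB (KL.dlX cA4_5_5_0) (KL.dec 4 0x2b6002ae002a60029e002960028e002860027e0027601c300026e065c80026601c400025e065980353000256065880024e002460023e0023601530015200022e00226015200021e00d4001c4000216073b80020e076080020606598026b0001fe065c8001f606588026a0001ee001e6001de001d6001ce001c601c20001be0658803520001b601090037b0001ae027d003d5004030001a6073b80019e073c800196015400018e001860017e001760016e00166086b8040200015e024d0034500015607608014300014e0761801bb000146076480013e06588001360012e0153000126065880011e00d4001c4000116073b80010e065980010601810000fe000f6000ee03450000e607608000de0181001520000d6000ce000c607fb8000be024d003450000b607608000ae01810000a601520015300009e0739800096076480008e00086015200007e0659800076076080006e018100006600d4001c400005e065b80005606588026a00004e065c80004601090026b002690035400003e01d5004cd00003604cc804cc00002e04cb804cb004ca00002604c9804c900001e000160000e04ca004c980000604c9004c880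 List.nil) 0x21000000000000000000200000000000000000000000000000000000000000000000000000000000000000180005b0180005b0180005b0180005b0180005b018001800180005b0180005b0180005b0180005b08166811ed5086347 [] 0 = true := by decide +kernel

/-- the root box -/
theorem rootA4_5_5 (hC : ∀ z φ, H z φ → Cf z φ) (hd : ∀ L D r, Pool.Agent.Helper66.Kiss.DlG.dlG L 0 D r = true → Good H P L 0) :
    GoodX H P 0x21000000000000000000200000000000000000000000000000000000000000000000000000000000000000180005b0180005b0180005b0180005b0180005b018001800180005b0180005b0180005b0180005b08166811ed5086347 :=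
  soundLT ctB_OKL hC (aA4_5_5_0 hC hd) topA4_5_5

/-- boxes from number 0 -/
def cA4_5_6_0 : List Nat := bA4_5_6_0

lemma aA4_5_6_0 (hC : ∀ z φ, H z φ → Cf z φ) (hd : ∀ L D r, Pool.Agent.Helper66.Kiss.DlG.dlG L 0 D r = true → Good H P L 0) : AGX H P cA4_5_6_0 :=
  (soundL0 ctB_OKL hC tA4_5_6_0)

theorem topA4_5_6 : KL.runX KL.ctB (KL.dlX cA4_5_6_0) (KL.dec 0 0xe0000604c880 List.nil) 0x10040000000000000000000200000000000000000000000000000000000000000000000000000000000000000180005b0180005b0180005b0180005b01800180018001800180005b0180005b0180005b0180005b08166811ea0eb43be [] 0 = true := by decide +kernel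

/-- the root box -/
theorem rootA4_5_6 (hC : ∀ z φ, H z φ → Cf z φ) (hd : ∀ L D r, Pool.Agent.Helper66.Kiss.DlG.dlG L 0 D r = true → Good H P L 0) :
    GoodX H P 0x10040000000000000000000200000000000000000000000000000000000000000000000000000000000000000180005b0180005b0180005b0180005b01800180018001800180005b0180005b0180005b0180005b08166811ea0eb43be :=
  soundLT ctB_OKL hC (aA4_5_6_0 hC hd) topA4_5_6

end Pool.Agent.Helper66.KD
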