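import Pool.Agent.Helper54.KA.LiteS
import Pool.Agent.Helper66.KD.A5_d1
import Pool.Agent.Helper66.KD.A5_d2
import Pool.Agent.Helper66.KD.A5_d3
import Pool.Agent.Helper66.KD.A5_d4
import Pool.Agent.Helper66.KD.A5_d5
import Pool.Agent.Helper66.KD.A5_d6

set_option autoImplicit false
set_option maxRecDepth 1000000

/-! # Assembly `A5` -/

namespace Pool.Agent.Helper66.KD

open Pool.Agent.Helper54 Pool.Agent.Helper54.KA

variable {H P : (ℕ → ℝ) → (ℕ → ℝ) → Prop}

/-- boxes from number 0 -/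
def cA5_1_1_0 : List Nat := bA5_1_1_0

lemma aA5_1_1_0 (hC : ∀ z φ, H z φ → Cf z φ) (hd : ∀ L D r, Pool.Agent.Helper66.Kiss.DlG.dlG L 0 D r = true → Good H P L 0) : AGX H P cA5_1_1_0 :=
  (soundL0 ctB_OKL hC tA5_1_1_0)

theorem topA5_1_1 : KL.runX KL.ctB (KL.dlX cA5_1_1_0) (KL.dec 0 0x60 List.nil) 0x3000200000000000000000000000000000000000000000000000000000000000000001800051018000510180005101800051018000510180005101800051018000510180005101800180081d08166c1cd2ae5 [] 0 = true := by decide +kernel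

/-- the root box -/
theorem rootA5_1_1 (hC : ∀ z φ, H z φ → Cf z φ) (hd : ∀ L D r, Pool.Agent.Helper66.Kiss.DlG.dlG L 0 D r = true → Good H P L 0) :
    GoodX H P 0x3000200000000000000000000000000000000000000000000000000000000000000001800051018000510180005101800051018000510180005101800051018000510180005101800180081d08166c1cd2ae5 :=
  soundLT ctB_OKL hC (aA5_1_1_0 hC hd) topA5_1_1

/-- boxes from number 0 -/
def cA5_1_2_0 : List Nat := bA5_1_2_0

lemma aA5_1_2_0 (hC : ∀ z φ, H z φ → Cf z φ) (hd : ∀ L D r, Pool.Agent.Helper66.Kiss.DlG.dlG L 0 D r = true → Good H P L 0) : AGX H P cA5_1_2_0 :=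
  (soundL0 ctB_OKL hC tA5_1_2_0)

theorem topA5_1_2 : KL.runX KL.ctB (KL.dlX cA5_1_2_0) (KL.dec 0 0x60 List.nil) 0x10004000200000000000000000000000000000000000000000000000000000000000000001800051018000510180005101800051018000510180005101800051018000510180018001800180081d081661fad021c [] 0 = true := by decide +kernel

/-- the root box -/
theorem rootA5_1_2 (hC : ∀ z φ, H z φ → Cf z φ) (hd : ∀ L D r, Pool.Agent.Helper66.Kiss.DlG.dlG L 0 D r = true → Good H P L 0) :
    GoodX H P 0x10004000200000000000000000000000000000000000000000000000000000000000000001800051018000510180005101800051018000510180005101800051018000510180018001800180081d081661fad021c :=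
  soundLT ctB_OKL hC (aA5_1_2_0 hC hd) topA5_1_2

/-- boxes from number 0 -/
def cA5_1_3_0 : List Nat := bA5_1_3_0

lemma aA5_1_3_0 (hC : ∀ z φ, H z φ → Cf z φ) (hd : ∀ L D r, Pool.Agent.Helper66.Kiss.DlG.dlG L 0 D r = true → Good H P L 0) : AGX H P cA5_1_3_0 :=
  (soundL0 ctB_OKL hC tA5_1_3_0)

theorem topA5_1_3 : KL.runX KL.ctB (KL.dlX cA5_1_3_0) (KL.dec 0 0x60 List.nil) 0x100000008000200000000000000000000000000000000000000000000000000000000000000001800051018000510180005101800051018000510180005101800051018001800180005101800180081d08166d1950502 [] 0 = true := by decide +kernel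

/-- the root box -/
theorem rootA5_1_3 (hC : ∀ z φ, H z φ → Cf z φ) (hd : ∀ L D r, Pool.Agent.Helper66.Kiss.DlG.dlG L 0 D r = true → Good H P L 0) :
    GoodX H P 0x100000008000200000000000000000000000000000000000000000000000000000000000000001800051018000510180005101800051018000510180005101800051018001800180005101800180081d08166d1950502 :=
  soundLT ctB_OKL hC (aA5_1_3_0 hC hd) topA5_1_3

/-- boxes from number 0 -/
def cA5_1_4_0 : List Nat := bA5_1_4_0

lemma aA5_1_4_0 (hC : ∀ z φ, H z φ → Cf z φ) (hd : ∀ L D r, Pool.Agent.Helper66.Kiss.DlG.dlG L 0 D r = true → Good H P L 0) : AGX H P cA5_1_4_0 :=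
  (soundL0 ctB_OKL hC tA5_1_4_0)

theorem topA5_1_4 : KL.runX KL.ctB (KL.dlX cA5_1_4_0) (KL.dec 0 0x60 List.nil) 0x1000000000010000200000000000000000000000000000000000000000000000000000000000000001800051018000510180005101800051018000510180005101800180018000510180005101800180081d08166d71d0acc [] 0 = true := by decide +kernel

/-- the root box -/
theorem rootA5_1_4 (hC : ∀ z φ, H z φ → Cf z φ) (hd : ∀ L D r, Pool.Agent.Helper66.Kiss.DlG.dlG L 0 D r = true → Good H P L 0) :
    GoodX H P 0x1000000000010000200000000000000000000000000000000000000000000000000000000000000001800051018000510180005101800051018000510180005101800180018000510180005101800180081d08166d71d0acc :=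
  soundLT ctB_OKL hC (aA5_1_4_0 hC hd) topA5_1_4

/-- boxes from number 6 -/
def cA5_1_5_6 : List Nat := bA5_1_5_6

lemma aA5_1_5_6 (hC : ∀ z φ, H z φ → Cf z φ) (hd : ∀ L D r, Pool.Agent.Helper66.Kiss.DlG.dlG L 0 D r = true → Good H P L 0) : AGX H P cA5_1_5_6 :=
  (soundL0 ctB_OKL hC tA5_1_5_6)

/-- boxes from number 5 -/
def cA5_1_5_5 : List Nat := bA5_1_5_5 ++ cA5_1_5_6

lemma aA5_1_5_5 (hC : ∀ z φ, H z φ → Cf z φ) (hd : ∀ L D r, Pool.Agent.Helper66.Kiss.DlG.dlG L 0 D r = true → Good H P L 0) : AGX H P cA5_1_5_5 :=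
  AGX_append (soundLP ctB_OKL hC hd tA5_1_5_5) (aA5_1_5_6 hC hd)

/-- boxes from number 4 -/
def cA5_1_5_4 : List Nat := bA5_1_5_4 ++ cA5_1_5_5

lemma aA5_1_5_4 (hC : ∀ z φ, H z φ → Cf z φ) (hd : ∀ L D r, Pool.Agent.Helper66.Kiss.DlG.dlG L 0 D r = true → Good H P L 0) : AGX H P cA5_1_5_4 :=
  AGX_append (soundLP ctB_OKL hC hd tA5_1_5_4) (aA5_1_5_5 hC hd)

/-- boxes from number 3 -/
def cA5_1_5_3 : List Nat := bA5_1_5_3 ++ cA5_1_5_4

lemma aA5_1_5_3 (hC : ∀ z φ, H z φ → Cf z φ) (hd : ∀ L D r, Pool.Agent.Helper66.Kiss.DlG.dlG L 0 D r = true → Good H P L 0) : AGX H P cA5_1_5_3 :=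
  AGX_append (soundLP ctB_OKL hC hd tA5_1_5_3) (aA5_1_5_4 hC hd)

/-- boxes from number 2 -/
def cA5_1_5_2 : List Nat := bA5_1_5_2 ++ cA5_1_5_3

lemma aA5_1_5_2 (hC : ∀ z φ, H z φ → Cf z φ) (hd : ∀ L D r, Pool.Agent.Helper66.Kiss.DlG.dlG L 0 D r = true → Good H P L 0) : AGX H P cA5_1_5_2 :=
  AGX_append (soundLP ctB_OKL hC hd tA5_1_5_2) (aA5_1_5_3 hC hd)

/-- boxes from number 1 -/
def cA5_1_5_1 : List Nat := bA5_1_5_1 ++ cA5_1_5_2

lemma aA5_1_5_1 (hC : ∀ z φ, H z φ → Cf z φ) (hd : ∀ L D r, Pool.Agent.Helper66.Kiss.DlG.dlG L 0 D r = true → Good H P L 0) : AGX H P cA5_1_5_1 :=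
  AGX_append (soundLP ctB_OKL hC hd tA5_1_5_1) (aA5_1_5_2 hC hd)

/-- boxes from number 0 -/
def cA5_1_5_0 : List Nat := bA5_1_5_0 ++ cA5_1_5_1

lemma aA5_1_5_0 (hC : ∀ z φ, H z φ → Cf z φ) (hd : ∀ L D r, Pool.Agent.Helper66.Kiss.DlG.dlG L 0 D r = true → Good H P L 0) : AGX H P cA5_1_5_0 :=
  AGX_append (soundLP ctB_OKL hC hd tA5_1_5_0) (aA5_1_5_1 hC hd)

theorem topA5_1_5 : KL.runX KL.ctB (KL.dlX cA5_1_5_0) (KL.dec 3 0x1160010e00106049a004998000fe000f6000ee000e6000de000d6000ce000c6000be000b602290022a0022b003ed0000ae07538000a6087480009e063b80009607ec8035c00008e028d000086072480007e000760006e00066021b00005e00b9002290000560004e02290000460003e02290017b0022a0031b000036063c80002e028d00002600bc0022c00001e018d0049d000016049c8049c00000e049b8049b0049a00000604998049900 List.nil) 0x10000000000000020000200000000000000000000000000000000000000000000000000000000000000001800051018000510180005101800051018000510180018001800051018000510180005101800180081d08166b15334ca [] 0 = true :=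 by decide +kernel

/-- the root box -/
theorem rootA5_1_5 (hC : ∀ z φ, H z φ → Cf z φ) (hd : ∀ L D r, Pool.Agent.Helper66.Kiss.DlG.dlG L 0 D r = true → Good H P L 0) :
    GoodX H P 0x10000000000000020000200000000000000000000000000000000000000000000000000000000000000001800051018000510180005101800051018000510180018001800051018000510180005101800180081d08166b15334ca :=
  soundLT ctB_OKL hC (aA5_1_5_0 hC hd) topA5_1_5

/-- boxes from number 1 -/
def cA5_1_6_1 : List Nat := bA5_1_6_1

lemma aA5_1_6_1 (hC : ∀ z φ, H z φ → Cf z φ) (hd : ∀ L D r, Pool.Agent.Helper66.Kiss.DlG.dlG L 0 D r = true → Good H P L 0) : AGX H P cA5_1_6_1 :=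
  (soundL0 ctB_OKL hC tA5_1_6_1)

/-- boxes from number 0 -/
def cA5_1_6_0 : List Nat := bA5_1_6_0 ++ cA5_1_6_1

lemma aA5_1_6_0 (hC : ∀ z φ, H z φ → Cf z φ) (hd : ∀ L D r, Pool.Agent.Helper66.Kiss.DlG.dlG L 0 D r = true → Good H P L 0) : AGX H P cA5_1_6_0 :=
  AGX_append (soundL0 ctB_OKL hC tA5_1_6_0) (aA5_1_6_1 hC hd)

theorem topA5_1_6 : KL.runX KL.ctB (KL.dlX cA5_1_6_0) (KL.dec 0 0x1e000160000e049a00000604998049900 List.nil) 0x100000000000000000040000200000000000000000000000000000000000000000000000000000000000000001800051018000510180005101800051018001800180005101800051018000510180005101800180081d0816690136199 [] 0 = true := by decide +kernel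

/-- the root box -/
theorem rootA5_1_6 (hC : ∀ z φ, H z φ → Cf z φ) (hd : ∀ L D r, Pool.Agent.Helper66.Kiss.DlG.dlG L 0 D r = true → Good H P L 0) :
    GoodX H P 0x100000000000000000040000200000000000000000000000000000000000000000000000000000000000000001800051018000510180005101800051018001800180005101800051018000510180005101800180081d0816690136199 :=
  soundLT ctB_OKL hC (aA5_1_6_0 hC hd) topA5_1_6

/-- boxes from number 0 -/
def cA5_1_7_0 : List Nat := bA5_1_7_0

lemma aA5_1_7_0 (hC : ∀ z φ, H z φ → Cf z φ) (hd : ∀ L D r, Pool.Agent.Helper66.Kiss.DlG.dlG L 0 D r = true → Good H P L 0) : AGX H P cA5_1_7_0 :=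
  (soundL0 ctB_OKL hC tA5_1_7_0)

theorem topA5_1_7 : KL.runX KL.ctB (KL.dlX cA5_1_7_0) (KL.dec 0 0x60 List.nil) 0x1000000000000000000000080000200000000000000000000000000000000000000000000000000000000000000001800051018000510180005101800180018000510180005101800051018000510180005101800180081d0816661fd9044 [] 0 = true := by decide +kernel

/-- the root box -/
theorem rootA5_1_7 (hC : ∀ z φ, H z φ → Cf z φ) (hd : ∀ L D r, Pool.Agent.Helper66.Kiss.DlG.dlG L 0 D r = true → Good H P L 0) :
    GoodX H P 0x1000000000000000000000080000200000000000000000000000000000000000000000000000000000000000000001800051018000510180005101800180018000510180005101800051018000510180005101800180081d0816661fd9044 :=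
  soundLT ctB_OKL hC (aA5_1_7_0 hC hd) topA5_1_7

/-- boxes from number 0 -/
def cA5_1_8_0 : List Nat := bA5_1_8_0

lemma aA5_1_8_0 (hC : ∀ z φ, H z φ → Cf z φ) (hd : ∀ L D r, Pool.Agent.Helper66.Kiss.DlG.dlG L 0 D r = true → Good H P L 0) : AGX H P cA5_1_8_0 :=
  (soundL0 ctB_OKL hC tA5_1_8_0)

theorem topA5_1_8 : KL.runX KL.ctB (KL.dlX cA5_1_8_0) (KL.dec 0 0x60 List.nil) 0x10000000000000000000000000100000200000000000000000000000000000000000000000000000000000000000000001800051018000510180018001800051018000510180005101800051018000510180005101800180081d0816604cd5abe [] 0 = true := by decide +kernel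

/-- the root box -/
theorem rootA5_1_8 (hC : ∀ z φ, H z φ → Cf z φ) (hd : ∀ L D r, Pool.Agent.Helper66.Kiss.DlG.dlG L 0 D r = true → Good H P L 0) :
    GoodX H P 0x10000000000000000000000000100000200000000000000000000000000000000000000000000000000000000000000001800051018000510180018001800051018000510180005101800051018000510180005101800180081d0816604cd5abe :=
  soundLT ctB_OKL hC (aA5_1_8_0 hC hd) topA5_1_8

/-- boxes from number 0 -/
def cA5_1_9_0 : List Nat := bA5_1_9_0

lemma aA5_1_9_0 (hC : ∀ z φ, H z φ → Cf z φ) (hd : ∀ L D r, Pool.Agent.Helper66.Kiss.DlG.dlG L 0 D r = true → Good H P L 0) : AGX H P cA5_1_9_0 :=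
  (soundL0 ctB_OKL hC tA5_1_9_0)

theorem topA5_1_9 : KL.runX KL.ctB (KL.dlX cA5_1_9_0) (KL.dec 0 0x60 List.nil) 0x100000000000000000000000000000200000200000000000000000000000000000000000000000000000000000000000000001800051018001800180005101800051018000510180005101800051018000510180005101800180081d0816689370df3 [] 0 = true := by decide +kernel

/-- the root box -/
theorem rootA5_1_9 (hC : ∀ z φ, H z φ → Cf z φ) (hd : ∀ L D r, Pool.Agent.Helper66.Kiss.DlG.dlG L 0 D r = true → Good H P L 0) :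
    GoodX H P 0x100000000000000000000000000000200000200000000000000000000000000000000000000000000000000000000000000001800051018001800180005101800051018000510180005101800051018000510180005101800180081d0816689370df3 :=
  soundLT ctB_OKL hC (aA5_1_9_0 hC hd) topA5_1_9

/-- boxes from number 0 -/
def cA5_1_10_0 : List Nat := bA5_1_10_0

lemma aA5_1_10_0 (hC : ∀ z φ, H z φ → Cf z φ) (hd : ∀ L D r, Pool.Agent.Helper66.Kiss.DlG.dlG L 0 D r = true → Good H P L 0) : AGX H P cA5_1_10_0 :=
  (soundL0 ctB_OKL hC tA5_1_10_0)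

theorem topA5_1_10 : KL.runX KL.ctB (KL.dlX cA5_1_10_0) (KL.dec 0 0x60 List.nil) 0x1000000000000000000000000000000000400000200000000000000000000000000000000000000000000000000000000000000001800180018000510180005101800051018000510180005101800051018000510180005101800180081d08166c8905f2a [] 0 = true := by decide +kernel

/-- the root box -/
theorem rootA5_1_10 (hC : ∀ z φ, H z φ → Cf z φ) (hd : ∀ L D r, Pool.Agent.Helper66.Kiss.DlG.dlG L 0 D r = true → Good H P L 0) :
    GoodX H P 0x1000000000000000000000000000000000400000200000000000000000000000000000000000000000000000000000000000000001800180018000510180005101800051018000510180005101800051018000510180005101800180081d08166c8905f2a :=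
  soundLT ctB_OKL hC (aA5_1_10_0 hC hd) topA5_1_10

/-- boxes from number 0 -/
def cA5_2_2_0 : List Nat := bA5_2_2_0

lemma aA5_2_2_0 (hC : ∀ z φ, H z φ → Cf z φ) (hd : ∀ L D r, Pool.Agent.Helper66.Kiss.DlG.dlG L 0 D r = true → Good H P L 0) : AGX H P cA5_2_2_0 :=
  (soundL0 ctB_OKL hC tA5_2_2_0)

theorem topA5_2_2 : KL.runX KL.ctB (KL.dlX cA5_2_2_0) (KL.dec 0 0x60 List.nil) 0x50000000400000000000000000000000000000000000000000000000000000000000000001800051018000510180005101800051018000510180005101800051018000510180018001800051081d08166201abb4a [] 0 = true := by decide +kernel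

/-- the root box -/
theorem rootA5_2_2 (hC : ∀ z φ, H z φ → Cf z φ) (hd : ∀ L D r, Pool.Agent.Helper66.Kiss.DlG.dlG L 0 D r = true → Good H P L 0) :
    GoodX H P 0x50000000400000000000000000000000000000000000000000000000000000000000000001800051018000510180005101800051018000510180005101800051018000510180018001800051081d08166201abb4a :=
  soundLT ctB_OKL hC (aA5_2_2_0 hC hd) topA5_2_2

/-- boxes from number 0 -/
def cA5_2_3_0 : List Nat := bA5_2_3_0

lemma aA5_2_3_0 (hC : ∀ z φ, H z φ → Cf z φ) (hd : ∀ L D r, Pool.Agent.Helper66.Kiss.DlG.dlG L 0 D r = true → Good H P L 0) : AGX H P cA5_2_3_0 :=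
  (soundL0 ctB_OKL hC tA5_2_3_0)

theorem topA5_2_3 : KL.runX KL.ctB (KL.dlX cA5_2_3_0) (KL.dec 0 0x60 List.nil) 0x100080000000400000000000000000000000000000000000000000000000000000000000000001800051018000510180005101800051018000510180005101800051018001800180018001800051081d0816609b0df8f [] 0 = true := by decide +kernel

/-- the root box -/
theorem rootA5_2_3 (hC : ∀ z φ, H z φ → Cf z φ) (hd : ∀ L D r, Pool.Agent.Helper66.Kiss.DlG.dlG L 0 D r = true → Good H P L 0) :
    GoodX H P 0x100080000000400000000000000000000000000000000000000000000000000000000000000001800051018000510180005101800051018000510180005101800051018001800180018001800051081d0816609b0df8f :=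
  soundLT ctB_OKL hC (aA5_2_3_0 hC hd) topA5_2_3

/-- boxes from number 0 -/
def cA5_2_4_0 : List Nat := bA5_2_4_0

lemma aA5_2_4_0 (hC : ∀ z φ, H z φ → Cf z φ) (hd : ∀ L D r, Pool.Agent.Helper66.Kiss.DlG.dlG L 0 D r = true → Good H P L 0) : AGX H P cA5_2_4_0 :=
  (soundL0 ctB_OKL hC tA5_2_4_0)

theorem topA5_2_4 : KL.runX KL.ctB (KL.dlX cA5_2_4_0) (KL.dec 0 0x60 List.nil) 0x1000000100000000400000000000000000000000000000000000000000000000000000000000000001800051018000510180005101800051018000510180005101800180018000510180018001800051081d081667e91752d [] 0 = true := by decide +kernel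

/-- the root box -/
theorem rootA5_2_4 (hC : ∀ z φ, H z φ → Cf z φ) (hd : ∀ L D r, Pool.Agent.Helper66.Kiss.DlG.dlG L 0 D r = true → Good H P L 0) :
    GoodX H P 0x1000000100000000400000000000000000000000000000000000000000000000000000000000000001800051018000510180005101800051018000510180005101800180018000510180018001800051081d081667e91752d :=
  soundLT ctB_OKL hC (aA5_2_4_0 hC hd) topA5_2_4

/-- boxes from number 1 -/
def cA5_2_5_1 : List Nat := bA5_2_5_1

lemma aA5_2_5_1 (hC : ∀ z φ, H z φ → Cf z φ) (hd : ∀ L D r, Pool.Agent.Helper66.Kiss.DlG.dlG L 0 D r = true → Good H P L 0) : AGX H P cA5_2_5_1 :=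
  (soundL0 ctB_OKL hC tA5_2_5_1)

/-- boxes from number 0 -/
def cA5_2_5_0 : List Nat := bA5_2_5_0 ++ cA5_2_5_1

lemma aA5_2_5_0 (hC : ∀ z φ, H z φ → Cf z φ) (hd : ∀ L D r, Pool.Agent.Helper66.Kiss.DlG.dlG L 0 D r = true → Good H P L 0) : AGX H P cA5_2_5_0 :=
  AGX_append (soundL0 ctB_OKL hC tA5_2_5_0) (aA5_2_5_1 hC hd)

theorem topA5_2_5 : KL.runX KL.ctB (KL.dlX cA5_2_5_0) (KL.dec 0 0x1e000160000e00006049a004998049880 List.nil) 0x10000000000200000000400000000000000000000000000000000000000000000000000000000000000001800051018000510180005101800051018000510180018001800051018000510180018001800051081d081663778bed8 [] 0 = true := by decide +kernel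

/-- the root box -/
theorem rootA5_2_5 (hC : ∀ z φ, H z φ → Cf z φ) (hd : ∀ L D r, Pool.Agent.Helper66.Kiss.DlG.dlG L 0 D r = true → Good H P L 0) :
    GoodX H P 0x10000000000200000000400000000000000000000000000000000000000000000000000000000000000001800051018000510180005101800051018000510180018001800051018000510180018001800051081d081663778bed8 :=
  soundLT ctB_OKL hC (aA5_2_5_0 hC hd) topA5_2_5

/-- boxes from number 14 -/
def cA5_2_6_14 : List Nat := bA5_2_6_14

lemma aA5_2_6_14 (hC : ∀ z φ, H z φ → Cf z φ) (hd : ∀ L D r, Pool.Agent.Helper66.Kiss.DlG.dlG L 0 D r = true → Good H P L 0) : AGX H P cA5_2_6_14 :=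
  (soundLP ctB_OKL hC hd tA5_2_6_14)

/-- boxes from number 13 -/
def cA5_2_6_13 : List Nat := bA5_2_6_13 ++ cA5_2_6_14

lemma aA5_2_6_13 (hC : ∀ z φ, H z φ → Cf z φ) (hd : ∀ L D r, Pool.Agent.Helper66.Kiss.DlG.dlG L 0 D r = true → Good H P L 0) : AGX H P cA5_2_6_13 :=
  AGX_append (soundL0 ctB_OKL hC tA5_2_6_13) (aA5_2_6_14 hC hd)

/-- boxes from number 12 -/
def cA5_2_6_12 : List Nat := bA5_2_6_12 ++ cA5_2_6_13

lemma aA5_2_6_12 (hC : ∀ z φ, H z φ → Cf z φ) (hd : ∀ L D r, Pool.Agent.Helper66.Kiss.DlG.dlG L 0 D r = true → Good H P L 0) : AGX H P cA5_2_6_12 :=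
  AGX_append (soundL0 ctB_OKL hC tA5_2_6_12) (aA5_2_6_13 hC hd)

/-- boxes from number 11 -/
def cA5_2_6_11 : List Nat := bA5_2_6_11 ++ cA5_2_6_12

lemma aA5_2_6_11 (hC : ∀ z φ, H z φ → Cf z φ) (hd : ∀ L D r, Pool.Agent.Helper66.Kiss.DlG.dlG L 0 D r = true → Good H P L 0) : AGX H P cA5_2_6_11 :=
  AGX_append (soundLP ctB_OKL hC hd tA5_2_6_11) (aA5_2_6_12 hC hd)

/-- boxes from number 10 -/
def cA5_2_6_10 : List Nat := bA5_2_6_10 ++ cA5_2_6_11

lemma aA5_2_6_10 (hC : ∀ z φ, H z φ → Cf z φ) (hd : ∀ L D r, Pool.Agent.Helper66.Kiss.DlG.dlG L 0 D r = true → Good H P L 0) : AGX H P cA5_2_6_10 :=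
  AGX_append (soundLP ctB_OKL hC hd tA5_2_6_10) (aA5_2_6_11 hC hd)

/-- boxes from number 9 -/
def cA5_2_6_9 : List Nat := bA5_2_6_9 ++ cA5_2_6_10

lemma aA5_2_6_9 (hC : ∀ z φ, H z φ → Cf z φ) (hd : ∀ L D r, Pool.Agent.Helper66.Kiss.DlG.dlG L 0 D r = true → Good H P L 0) : AGX H P cA5_2_6_9 :=
  AGX_append (soundLP ctB_OKL hC hd tA5_2_6_9) (aA5_2_6_10 hC hd)

/-- boxes from number 8 -/
def cA5_2_6_8 : List Nat := bA5_2_6_8 ++ cA5_2_6_9

lemma aA5_2_6_8 (hC : ∀ z φ, H z φ → Cf z φ) (hd : ∀ L D r, Pool.Agent.Helper66.Kiss.DlG.dlG L 0 D r = true → Good H P L 0) : AGX H P cA5_2_6_8 :=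
  AGX_append (soundLP ctB_OKL hC hd tA5_2_6_8) (aA5_2_6_9 hC hd)

/-- boxes from number 7 -/
def cA5_2_6_7 : List Nat := bA5_2_6_7 ++ cA5_2_6_8

lemma aA5_2_6_7 (hC : ∀ z φ, H z φ → Cf z φ) (hd : ∀ L D r, Pool.Agent.Helper66.Kiss.DlG.dlG L 0 D r = true → Good H P L 0) : AGX H P cA5_2_6_7 :=
  AGX_append (soundLP ctB_OKL hC hd tA5_2_6_7) (aA5_2_6_8 hC hd)

/-- boxes from number 6 -/
def cA5_2_6_6 : List Nat := bA5_2_6_6 ++ cA5_2_6_7

lemma aA5_2_6_6 (hC : ∀ z φ, H z φ → Cf z φ) (hd : ∀ L D r, Pool.Agent.Helper66.Kiss.DlG.dlG L 0 D r = true → Good H P L 0) : AGX H P cA5_2_6_6 :=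
  AGX_append (soundLP ctB_OKL hC hd tA5_2_6_6) (aA5_2_6_7 hC hd)

/-- boxes from number 5 -/
def cA5_2_6_5 : List Nat := bA5_2_6_5 ++ cA5_2_6_6

lemma aA5_2_6_5 (hC : ∀ z φ, H z φ → Cf z φ) (hd : ∀ L D r, Pool.Agent.Helper66.Kiss.DlG.dlG L 0 D r = true → Good H P L 0) : AGX H P cA5_2_6_5 :=
  AGX_append (soundLP ctB_OKL hC hd tA5_2_6_5) (aA5_2_6_6 hC hd)

/-- boxes from number 4 -/
def cA5_2_6_4 : List Nat := bA5_2_6_4 ++ cA5_2_6_5

lemma aA5_2_6_4 (hC : ∀ z φ, H z φ → Cf z φ) (hd : ∀ L D r, Pool.Agent.Helper66.Kiss.DlG.dlG L 0 D r = true → Good H P L 0) : AGX H P cA5_2_6_4 :=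
  AGX_append (soundLP ctB_OKL hC hd tA5_2_6_4) (aA5_2_6_5 hC hd)

/-- boxes from number 3 -/
def cA5_2_6_3 : List Nat := bA5_2_6_3 ++ cA5_2_6_4

lemma aA5_2_6_3 (hC : ∀ z φ, H z φ → Cf z φ) (hd : ∀ L D r, Pool.Agent.Helper66.Kiss.DlG.dlG L 0 D r = true → Good H P L 0) : AGX H P cA5_2_6_3 :=
  AGX_append (soundLP ctB_OKL hC hd tA5_2_6_3) (aA5_2_6_4 hC hd)

/-- boxes from number 2 -/
def cA5_2_6_2 : List Nat := bA5_2_6_2 ++ cA5_2_6_3

lemma aA5_2_6_2 (hC : ∀ z φ, H z φ → Cf z φ) (hd : ∀ L D r, Pool.Agent.Helper66.Kiss.DlG.dlG L 0 D r = true → Good H P L 0) : AGX H P cA5_2_6_2 :=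
  AGX_append (soundLP ctB_OKL hC hd tA5_2_6_2) (aA5_2_6_3 hC hd)

/-- boxes from number 1 -/
def cA5_2_6_1 : List Nat := bA5_2_6_1 ++ cA5_2_6_2

lemma aA5_2_6_1 (hC : ∀ z φ, H z φ → Cf z φ) (hd : ∀ L D r, Pool.Agent.Helper66.Kiss.DlG.dlG L 0 D r = true → Good H P L 0) : AGX H P cA5_2_6_1 :=
  AGX_append (soundLP ctB_OKL hC hd tA5_2_6_1) (aA5_2_6_2 hC hd)

/-- boxes from number 0 -/
def cA5_2_6_0 : List Nat := bA5_2_6_0 ++ cA5_2_6_1

lemma aA5_2_6_0 (hC : ∀ z φ, H z φ → Cf z φ) (hd : ∀ L D r, Pool.Agent.Helper66.Kiss.DlG.dlG L 0 D r = true → Good H P L 0) : AGX H P cA5_2_6_0 :=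
  AGX_append (soundLP ctB_OKL hC hd tA5_2_6_0) (aA5_2_6_1 hC hd)

theorem topA5_2_6 : KL.runX KL.ctB (KL.dlX cA5_2_6_0) (KL.dec 4 0x3560034e003460033e00336049c0049b8049a80032e049a004998003260031e00316049a8049a00030e00306002fe002f6002ee002e6002de0300801798002d6063d0002ce063c002298002c601888002be002b6002ae002a60029e0300800296075400028e075500303803c9800286063a003cc80027e063d000276063c00026e002660025e0300803cc80025600b980024e002460023e0109803cc8002360022e07ea0002260208803008030380021e063a000216075500020e0754000206063d0001fe063c002298001f601888018a8001ee001e6001de001d6001ce03008001c601098001be075500229803ca803cc8001b6063c0001ae063d0001a6063a00019e001960018e00186010a803cc803c980017e0755000176063c00016e063a000166063d00015e001560014e0300803cc800146072200013e063c0001360725002298022a80012e01888018b8001260011e00116017a8022a80010e063d000106000fe000f6000ee07220017a8000e6063d0000de00b98022a802298000d607540000ce016c8000c6063c0000be000b602298000ae063c0000a6075500009e0134800096063d00008e02888000860007e010a800076063c00006e0134800066028880005e063a0000560004e0722000046075500003e013480003601098022980002e063d0022a8022b80002600bc80001e01888022c800016049d0049c80000e049c0049b8049a800006049a004998049880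 List.nil) 0x100000000000000400000000400000000000000000000000000000000000000000000000000000000000000001800051018000510180005101800051018001800180005101800051018000510180018001800051081d08166d39b2afc [] 0 = true := by decide +kernel

/-- the root box -/
theorem rootA5_2_6 (hC : ∀ z φ, H z φ → Cf z φ) (hd : ∀ L D r, Pool.Agent.Helper66.Kiss.DlG.dlG L 0 D r = true → Good H P L 0) :
    GoodX H P 0x100000000000000400000000400000000000000000000000000000000000000000000000000000000000000001800051018000510180005101800051018001800180005101800051018000510180018001800051081d08166d39b2afc :=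
  soundLT ctB_OKL hC (aA5_2_6_0 hC hd) topA5_2_6

/-- boxes from number 1 -/
def cA5_2_7_1 : List Nat := bA5_2_7_1

lemma aA5_2_7_1 (hC : ∀ z φ, H z φ → Cf z φ) (hd : ∀ L D r, Pool.Agent.Helper66.Kiss.DlG.dlG L 0 D r = true → Good H P L 0) : AGX H P cA5_2_7_1 :=
  (soundL0 ctB_OKL hC tA5_2_7_1)

/-- boxes from number 0 -/
def cA5_2_7_0 : List Nat := bA5_2_7_0 ++ cA5_2_7_1

lemma aA5_2_7_0 (hC : ∀ z φ, H z φ → Cf z φ) (hd : ∀ L D r, Pool.Agent.Helper66.Kiss.DlG.dlG L 0 D r = true → Good H P L 0) : AGX H P cA5_2_7_0 :=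
  AGX_append (soundL0 ctB_OKL hC tA5_2_7_0) (aA5_2_7_1 hC hd)

theorem topA5_2_7 : KL.runX KL.ctB (KL.dlX cA5_2_7_0) (KL.dec 0 0x360002e00026049a0049980001e000160000e049a800006049a004998049880 List.nil) 0x1000000000000000000800000000400000000000000000000000000000000000000000000000000000000000000001800051018000510180005101800180018000510180005101800051018000510180018001800051081d081662049d85b [] 0 = true := by decide +kernel

/-- the root box -/
theorem rootA5_2_7 (hC : ∀ z φ, H z φ → Cf z φ) (hd : ∀ L D r, Pool.Agent.Helper66.Kiss.DlG.dlG L 0 D r = true → Good H P L 0) :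
    GoodX H P 0x1000000000000000000800000000400000000000000000000000000000000000000000000000000000000000000001800051018000510180005101800180018000510180005101800051018000510180018001800051081d081662049d85b :=
  soundLT ctB_OKL hC (aA5_2_7_0 hC hd) topA5_2_7

/-- boxes from number 0 -/
def cA5_2_8_0 : List Nat := bA5_2_8_0

lemma aA5_2_8_0 (hC : ∀ z φ, H z φ → Cf z φ) (hd : ∀ L D r, Pool.Agent.Helper66.Kiss.DlG.dlG L 0 D r = true → Good H P L 0) : AGX H P cA5_2_8_0 :=
  (soundL0 ctB_OKL hC tA5_2_8_0)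

theorem topA5_2_8 : KL.runX KL.ctB (KL.dlX cA5_2_8_0) (KL.dec 0 0x60 List.nil) 0x10000000000000000000001000000000400000000000000000000000000000000000000000000000000000000000000001800051018000510180018001800051018000510180005101800051018000510180018001800051081d08166b8a2a033 [] 0 = true := by decide +kernel

/-- the root box -/
theorem rootA5_2_8 (hC : ∀ z φ, H z φ → Cf z φ) (hd : ∀ L D r, Pool.Agent.Helper66.Kiss.DlG.dlG L 0 D r = true → Good H P L 0) :
    GoodX H P 0x10000000000000000000001000000000400000000000000000000000000000000000000000000000000000000000000001800051018000510180018001800051018000510180005101800051018000510180018001800051081d08166b8a2a033 :=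
  soundLT ctB_OKL hC (aA5_2_8_0 hC hd) topA5_2_8

/-- boxes from number 0 -/
def cA5_2_9_0 : List Nat := bA5_2_9_0

lemma aA5_2_9_0 (hC : ∀ z φ, H z φ → Cf z φ) (hd : ∀ L D r, Pool.Agent.Helper66.Kiss.DlG.dlG L 0 D r = true → Good H P L 0) : AGX H P cA5_2_9_0 :=
  (soundL0 ctB_OKL hC tA5_2_9_0)

theorem topA5_2_9 : KL.runX KL.ctB (KL.dlX cA5_2_9_0) (KL.dec 0 0x60 List.nil) 0x100000000000000000000000002000000000400000000000000000000000000000000000000000000000000000000000000001800051018001800180005101800051018000510180005101800051018000510180018001800051081d08166281e4e33 [] 0 = true := by decide +kernel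

/-- the root box -/
theorem rootA5_2_9 (hC : ∀ z φ, H z φ → Cf z φ) (hd : ∀ L D r, Pool.Agent.Helper66.Kiss.DlG.dlG L 0 D r = true → Good H P L 0) :
    GoodX H P 0x100000000000000000000000002000000000400000000000000000000000000000000000000000000000000000000000000001800051018001800180005101800051018000510180005101800051018000510180018001800051081d08166281e4e33 :=
  soundLT ctB_OKL hC (aA5_2_9_0 hC hd) topA5_2_9

/-- boxes from number 0 -/
def cA5_3_3_0 : List Nat := bA5_3_3_0

lemma aA5_3_3_0 (hC : ∀ z φ, H z φ → Cf z φ) (hd : ∀ L D r, Pool.Agent.Helper66.Kiss.DlG.dlG L 0 D r = true → Good H P L 0) : AGX H P cA5_3_3_0 :=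
  (soundL0 ctB_OKL hC tA5_3_3_0)

theorem topA5_3_3 : KL.runX KL.ctB (KL.dlX cA5_3_3_0) (KL.dec 0 0x60 List.nil) 0x900000000000800000000000000000000000000000000000000000000000000000000000000001800051018000510180005101800051018000510180005101800051018001800180005101800051081d081662b08d2bf [] 0 = true := by decide +kernel

/-- the root box -/
theorem rootA5_3_3 (hC : ∀ z φ, H z φ → Cf z φ) (hd : ∀ L D r, Pool.Agent.Helper66.Kiss.DlG.dlG L 0 D r = true → Good H P L 0) :
    GoodX H P 0x900000000000800000000000000000000000000000000000000000000000000000000000000001800051018000510180005101800051018000510180005101800051018001800180005101800051081d081662b08d2bf :=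
  soundLT ctB_OKL hC (aA5_3_3_0 hC hd) topA5_3_3

/-- boxes from number 0 -/
def cA5_3_4_0 : List Nat := bA5_3_4_0

lemma aA5_3_4_0 (hC : ∀ z φ, H z φ → Cf z φ) (hd : ∀ L D r, Pool.Agent.Helper66.Kiss.DlG.dlG L 0 D r = true → Good H P L 0) : AGX H P cA5_3_4_0 :=
  (soundL0 ctB_OKL hC tA5_3_4_0)

theorem topA5_3_4 : KL.runX KL.ctB (KL.dlX cA5_3_4_0) (KL.dec 0 0x60 List.nil) 0x1001000000000000800000000000000000000000000000000000000000000000000000000000000001800051018000510180005101800051018000510180005101800180018001800180005101800051081d081662fc8d44a [] 0 = true := by decide +kernel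

/-- the root box -/
theorem rootA5_3_4 (hC : ∀ z φ, H z φ → Cf z φ) (hd : ∀ L D r, Pool.Agent.Helper66.Kiss.DlG.dlG L 0 D r = true → Good H P L 0) :
    GoodX H P 0x1001000000000000800000000000000000000000000000000000000000000000000000000000000001800051018000510180005101800051018000510180005101800180018001800180005101800051081d081662fc8d44a :=
  soundLT ctB_OKL hC (aA5_3_4_0 hC hd) topA5_3_4

/-- boxes from number 3 -/
def cA5_3_5_3 : List Nat := bA5_3_5_3

lemma aA5_3_5_3 (hC : ∀ z φ, H z φ → Cf z φ) (hd : ∀ L D r, Pool.Agent.Helper66.Kiss.DlG.dlG L 0 D r = true → Good H P L 0) : AGX H P cA5_3_5_3 :=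
  (soundL0 ctB_OKL hC tA5_3_5_3)

/-- boxes from number 2 -/
def cA5_3_5_2 : List Nat := bA5_3_5_2 ++ cA5_3_5_3

lemma aA5_3_5_2 (hC : ∀ z φ, H z φ → Cf z φ) (hd : ∀ L D r, Pool.Agent.Helper66.Kiss.DlG.dlG L 0 D r = true → Good H P L 0) : AGX H P cA5_3_5_2 :=
  AGX_append (soundLP ctB_OKL hC hd tA5_3_5_2) (aA5_3_5_3 hC hd)

/-- boxes from number 1 -/
def cA5_3_5_1 : List Nat := bA5_3_5_1 ++ cA5_3_5_2

lemma aA5_3_5_1 (hC : ∀ z φ, H z φ → Cf z φ) (hd : ∀ L D r, Pool.Agent.Helper66.Kiss.DlG.dlG L 0 D r = true → Good H P L 0) : AGX H P cA5_3_5_1 :=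
  AGX_append (soundLP ctB_OKL hC hd tA5_3_5_1) (aA5_3_5_2 hC hd)

/-- boxes from number 0 -/
def cA5_3_5_0 : List Nat := bA5_3_5_0 ++ cA5_3_5_1

lemma aA5_3_5_0 (hC : ∀ z φ, H z φ → Cf z φ) (hd : ∀ L D r, Pool.Agent.Helper66.Kiss.DlG.dlG L 0 D r = true → Good H P L 0) : AGX H P cA5_3_5_0 :=
  AGX_append (soundLP ctB_OKL hC hd tA5_3_5_0) (aA5_3_5_1 hC hd)

theorem topA5_3_5 : KL.runX KL.ctB (KL.dlX cA5_3_5_0) (KL.dec 1 0x760006e000660005e000560004e00046022c00003e000360002e022c0018b00229000026018d0049d00001e049c8049c000016049b8049b0049a0049900000e0000604990049880 List.nil) 0x10000002000000000000800000000000000000000000000000000000000000000000000000000000000001800051018000510180005101800051018000510180018001800051018001800180005101800051081d08166085c776a [] 0 = true := by decide +kernel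

/-- the root box -/
theorem rootA5_3_5 (hC : ∀ z φ, H z φ → Cf z φ) (hd : ∀ L D r, Pool.Agent.Helper66.Kiss.DlG.dlG L 0 D r = true → Good H P L 0) :
    GoodX H P 0x10000002000000000000800000000000000000000000000000000000000000000000000000000000000001800051018000510180005101800051018000510180018001800051018001800180005101800051081d08166085c776a :=
  soundLT ctB_OKL hC (aA5_3_5_0 hC hd) topA5_3_5

/-- boxes from number 3 -/
def cA5_3_6_3 : List Nat := bA5_3_6_3

lemma aA5_3_6_3 (hC : ∀ z φ, H z φ → Cf z φ) (hd : ∀ L D r, Pool.Agent.Helper66.Kiss.DlG.dlG L 0 D r = true → Good H P L 0) : AGX H P cA5_3_6_3 :=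
  (soundL0 ctB_OKL hC tA5_3_6_3)

/-- boxes from number 2 -/
def cA5_3_6_2 : List Nat := bA5_3_6_2 ++ cA5_3_6_3

lemma aA5_3_6_2 (hC : ∀ z φ, H z φ → Cf z φ) (hd : ∀ L D r, Pool.Agent.Helper66.Kiss.DlG.dlG L 0 D r = true → Good H P L 0) : AGX H P cA5_3_6_2 :=
  AGX_append (soundLP ctB_OKL hC hd tA5_3_6_2) (aA5_3_6_3 hC hd)

/-- boxes from number 1 -/
def cA5_3_6_1 : List Nat := bA5_3_6_1 ++ cA5_3_6_2

lemma aA5_3_6_1 (hC : ∀ z φ, H z φ → Cf z φ) (hd : ∀ L D r, Pool.Agent.Helper66.Kiss.DlG.dlG L 0 D r = true → Good H P L 0) : AGX H P cA5_3_6_1 :=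
  AGX_append (soundL0 ctB_OKL hC tA5_3_6_1) (aA5_3_6_2 hC hd)

/-- boxes from number 0 -/
def cA5_3_6_0 : List Nat := bA5_3_6_0 ++ cA5_3_6_1

lemma aA5_3_6_0 (hC : ∀ z φ, H z φ → Cf z φ) (hd : ∀ L D r, Pool.Agent.Helper66.Kiss.DlG.dlG L 0 D r = true → Good H P L 0) : AGX H P cA5_3_6_0 :=
  AGX_append (soundLP ctB_OKL hC hd tA5_3_6_0) (aA5_3_6_1 hC hd)

theorem topA5_3_6 : KL.runX KL.ctB (KL.dlX cA5_3_6_0) (KL.dec 1 0x4e000460003e000360002e049c0049b800026049a8049a0049900001e000160000e049a800006049a004990049880 List.nil) 0x100000000004000000000000800000000000000000000000000000000000000000000000000000000000000001800051018000510180005101800051018001800180005101800051018001800180005101800051081d08166e3d79678 [] 0 = true := by decide +kernel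

/-- the root box -/
theorem rootA5_3_6 (hC : ∀ z φ, H z φ → Cf z φ) (hd : ∀ L D r, Pool.Agent.Helper66.Kiss.DlG.dlG L 0 D r = true → Good H P L 0) :
    GoodX H P 0x100000000004000000000000800000000000000000000000000000000000000000000000000000000000000001800051018000510180005101800051018001800180005101800051018001800180005101800051081d08166e3d79678 :=
  soundLT ctB_OKL hC (aA5_3_6_0 hC hd) topA5_3_6

/-- boxes from number 10 -/
def cA5_3_7_10 : List Nat := bA5_3_7_10

lemma aA5_3_7_10 (hC : ∀ z φ, H z φ → Cf z φ) (hd : ∀ L D r, Pool.Agent.Helper66.Kiss.DlG.dlG L 0 D r = true → Good H P L 0) : AGX H P cA5_3_7_10 :=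
  (soundLP ctB_OKL hC hd tA5_3_7_10)

/-- boxes from number 9 -/
def cA5_3_7_9 : List Nat := bA5_3_7_9 ++ cA5_3_7_10

lemma aA5_3_7_9 (hC : ∀ z φ, H z φ → Cf z φ) (hd : ∀ L D r, Pool.Agent.Helper66.Kiss.DlG.dlG L 0 D r = true → Good H P L 0) : AGX H P cA5_3_7_9 :=
  AGX_append (soundLP ctB_OKL hC hd tA5_3_7_9) (aA5_3_7_10 hC hd)

/-- boxes from number 8 -/
def cA5_3_7_8 : List Nat := bA5_3_7_8 ++ cA5_3_7_9

lemma aA5_3_7_8 (hC : ∀ z φ, H z φ → Cf z φ) (hd : ∀ L D r, Pool.Agent.Helper66.Kiss.DlG.dlG L 0 D r = true → Good H P L 0) : AGX H P cA5_3_7_8 :=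
  AGX_append (soundLP ctB_OKL hC hd tA5_3_7_8) (aA5_3_7_9 hC hd)

/-- boxes from number 7 -/
def cA5_3_7_7 : List Nat := bA5_3_7_7 ++ cA5_3_7_8

lemma aA5_3_7_7 (hC : ∀ z φ, H z φ → Cf z φ) (hd : ∀ L D r, Pool.Agent.Helper66.Kiss.DlG.dlG L 0 D r = true → Good H P L 0) : AGX H P cA5_3_7_7 :=
  AGX_append (soundLP ctB_OKL hC hd tA5_3_7_7) (aA5_3_7_8 hC hd)

/-- boxes from number 6 -/
def cA5_3_7_6 : List Nat := bA5_3_7_6 ++ cA5_3_7_7

lemma aA5_3_7_6 (hC : ∀ z φ, H z φ → Cf z φ) (hd : ∀ L D r, Pool.Agent.Helper66.Kiss.DlG.dlG L 0 D r = true → Good H P L 0) : AGX H P cA5_3_7_6 :=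
  AGX_append (soundLP ctB_OKL hC hd tA5_3_7_6) (aA5_3_7_7 hC hd)

/-- boxes from number 5 -/
def cA5_3_7_5 : List Nat := bA5_3_7_5 ++ cA5_3_7_6

lemma aA5_3_7_5 (hC : ∀ z φ, H z φ → Cf z φ) (hd : ∀ L D r, Pool.Agent.Helper66.Kiss.DlG.dlG L 0 D r = true → Good H P L 0) : AGX H P cA5_3_7_5 :=
  AGX_append (soundLP ctB_OKL hC hd tA5_3_7_5) (aA5_3_7_6 hC hd)

/-- boxes from number 4 -/
def cA5_3_7_4 : List Nat := bA5_3_7_4 ++ cA5_3_7_5

lemma aA5_3_7_4 (hC : ∀ z φ, H z φ → Cf z φ) (hd : ∀ L D r, Pool.Agent.Helper66.Kiss.DlG.dlG L 0 D r = true → Good H P L 0) : AGX H P cA5_3_7_4 :=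
  AGX_append (soundLP ctB_OKL hC hd tA5_3_7_4) (aA5_3_7_5 hC hd)

/-- boxes from number 3 -/
def cA5_3_7_3 : List Nat := bA5_3_7_3 ++ cA5_3_7_4

lemma aA5_3_7_3 (hC : ∀ z φ, H z φ → Cf z φ) (hd : ∀ L D r, Pool.Agent.Helper66.Kiss.DlG.dlG L 0 D r = true → Good H P L 0) : AGX H P cA5_3_7_3 :=
  AGX_append (soundLP ctB_OKL hC hd tA5_3_7_3) (aA5_3_7_4 hC hd)

/-- boxes from number 2 -/
def cA5_3_7_2 : List Nat := bA5_3_7_2 ++ cA5_3_7_3

lemma aA5_3_7_2 (hC : ∀ z φ, H z φ → Cf z φ) (hd : ∀ L D r, Pool.Agent.Helper66.Kiss.DlG.dlG L 0 D r = true → Good H P L 0) : AGX H P cA5_3_7_2 :=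
  AGX_append (soundLP ctB_OKL hC hd tA5_3_7_2) (aA5_3_7_3 hC hd)

/-- boxes from number 1 -/
def cA5_3_7_1 : List Nat := bA5_3_7_1 ++ cA5_3_7_2

lemma aA5_3_7_1 (hC : ∀ z φ, H z φ → Cf z φ) (hd : ∀ L D r, Pool.Agent.Helper66.Kiss.DlG.dlG L 0 D r = true → Good H P L 0) : AGX H P cA5_3_7_1 :=
  AGX_append (soundL0 ctB_OKL hC tA5_3_7_1) (aA5_3_7_2 hC hd)

/-- boxes from number 0 -/
def cA5_3_7_0 : List Nat := bA5_3_7_0 ++ cA5_3_7_1

lemma aA5_3_7_0 (hC : ∀ z φ, H z φ → Cf z φ) (hd : ∀ L D r, Pool.Agent.Helper66.Kiss.DlG.dlG L 0 D r = true → Good H P L 0) : AGX H P cA5_3_7_0 :=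
  AGX_append (soundL0 ctB_OKL hC tA5_3_7_0) (aA5_3_7_1 hC hd)

theorem topA5_3_7 : KL.runX KL.ctB (KL.dlX cA5_3_7_0) (KL.dec 3 0x1ce001c6001be001b6001ae001a60019e00196075080018e063a8022b000186063c80017e06388001760016e010a000166063a80015e063c800156063880014e001460013e010a0010b0001360012e001260011e010a0001160808803cd0010b00010e05728072280010607508000fe07548000f6063c8000ee06388022b0022a0000e6000de022a0000d6063c8000ce06388000c6000be000b6010a0000ae010c0000a6072280009e07208022a000096063c8022b0022c00008e000860007e00076010b00006e0722800066013100005e063880005607248022a0022b00004e00b90000460003e07228022c00229000036022d0049d00002e049c8049c0049b000026049a8049a0049900001e00016049a00000e00006049a004990049880 List.nil) 0x1000000000000008000000000000800000000000000000000000000000000000000000000000000000000000000001800051018000510180005101800180018000510180005101800051018001800180005101800051081d08166af37a9ab [] 0 = true := by decide +kernel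

/-- the root box -/
theorem rootA5_3_7 (hC : ∀ z φ, H z φ → Cf z φ) (hd : ∀ L D r, Pool.Agent.Helper66.Kiss.DlG.dlG L 0 D r = true → Good H P L 0) :
    GoodX H P 0x1000000000000008000000000000800000000000000000000000000000000000000000000000000000000000000001800051018000510180005101800180018000510180005101800051018001800180005101800051081d08166af37a9ab :=
  soundLT ctB_OKL hC (aA5_3_7_0 hC hd) topA5_3_7

/-- boxes from number 1 -/
def cA5_3_8_1 : List Nat := bA5_3_8_1

lemma aA5_3_8_1 (hC : ∀ z φ, H z φ → Cf z φ) (hd : ∀ L D r, Pool.Agent.Helper66.Kiss.DlG.dlG L 0 D r = true → Good H P L 0) : AGX H P cA5_3_8_1 :=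
  (soundL0 ctB_OKL hC tA5_3_8_1)

/-- boxes from number 0 -/
def cA5_3_8_0 : List Nat := bA5_3_8_0 ++ cA5_3_8_1

lemma aA5_3_8_0 (hC : ∀ z φ, H z φ → Cf z φ) (hd : ∀ L D r, Pool.Agent.Helper66.Kiss.DlG.dlG L 0 D r = true → Good H P L 0) : AGX H P cA5_3_8_0 :=
  AGX_append (soundL0 ctB_OKL hC tA5_3_8_0) (aA5_3_8_1 hC hd)

theorem topA5_3_8 : KL.runX KL.ctB (KL.dlX cA5_3_8_0) (KL.dec 0 0x2e000260001e00016049a8049a0049900000e0000604990049880 List.nil) 0x10000000000000000010000000000000800000000000000000000000000000000000000000000000000000000000000001800051018000510180018001800051018000510180005101800051018001800180005101800051081d0816644f33d35 [] 0 = true := by decide +kernel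

/-- the root box -/
theorem rootA5_3_8 (hC : ∀ z φ, H z φ → Cf z φ) (hd : ∀ L D r, Pool.Agent.Helper66.Kiss.DlG.dlG L 0 D r = true → Good H P L 0) :
    GoodX H P 0x10000000000000000010000000000000800000000000000000000000000000000000000000000000000000000000000001800051018000510180018001800051018000510180005101800051018001800180005101800051081d0816644f33d35 :=
  soundLT ctB_OKL hC (aA5_3_8_0 hC hd) topA5_3_8

/-- boxes from number 0 -/
def cA5_4_4_0 : List Nat := bA5_4_4_0

lemma aA5_4_4_0 (hC : ∀ z φ, H z φ → Cf z φ) (hd : ∀ L D r, Pool.Agent.Helper66.Kiss.DlG.dlG L 0 D r = true → Good H P L 0) : AGX H P cA5_4_4_0 :=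
  (soundL0 ctB_OKL hC tA5_4_4_0)

theorem topA5_4_4 : KL.runX KL.ctB (KL.dlX cA5_4_4_0) (KL.dec 0 0xe00006049880 List.nil) 0x11000000000000001000000000000000000000000000000000000000000000000000000000000000001800051018000510180005101800051018000510180005101800180018000510180005101800051081d08166ac3c7341 [] 0 = true := by decide +kernel

/-- the root box -/
theorem rootA5_4_4 (hC : ∀ z φ, H z φ → Cf z φ) (hd : ∀ L D r, Pool.Agent.Helper66.Kiss.DlG.dlG L 0 D r = true → Good H P L 0) :
    GoodX H P 0x11000000000000001000000000000000000000000000000000000000000000000000000000000000001800051018000510180005101800051018000510180005101800180018000510180005101800051081d08166ac3c7341 :=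
  soundLT ctB_OKL hC (aA5_4_4_0 hC hd) topA5_4_4

/-- boxes from number 0 -/
def cA5_4_5_0 : List Nat := bA5_4_5_0

lemma aA5_4_5_0 (hC : ∀ z φ, H z φ → Cf z φ) (hd : ∀ L D r, Pool.Agent.Helper66.Kiss.DlG.dlG L 0 D r = true → Good H P L 0) : AGX H P cA5_4_5_0 :=
  (soundL0 ctB_OKL hC tA5_4_5_0)

theorem topA5_4_5 : KL.runX KL.ctB (KL.dlX cA5_4_5_0) (KL.dec 0 0xe00006049880 List.nil) 0x10020000000000000001000000000000000000000000000000000000000000000000000000000000000001800051018000510180005101800051018000510180018001800180018000510180005101800051081d08166de73f0ad [] 0 = true := by decide +kernel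

/-- the root box -/
theorem rootA5_4_5 (hC : ∀ z φ, H z φ → Cf z φ) (hd : ∀ L D r, Pool.Agent.Helper66.Kiss.DlG.dlG L 0 D r = true → Good H P L 0) :
    GoodX H P 0x10020000000000000001000000000000000000000000000000000000000000000000000000000000000001800051018000510180005101800051018000510180018001800180018000510180005101800051081d08166de73f0ad :=
  soundLT ctB_OKL hC (aA5_4_5_0 hC hd) topA5_4_5

/-- boxes from number 5 -/
def cA5_4_6_5 : List Nat := bA5_4_6_5

lemma aA5_4_6_5 (hC : ∀ z φ, H z φ → Cf z φ) (hd : ∀ L D r, Pool.Agent.Helper66.Kiss.DlG.dlG L 0 D r = true → Good H P L 0) : AGX H P cA5_4_6_5 :=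
  (soundL0 ctB_OKL hC tA5_4_6_5)

/-- boxes from number 4 -/
def cA5_4_6_4 : List Nat := bA5_4_6_4 ++ cA5_4_6_5

lemma aA5_4_6_4 (hC : ∀ z φ, H z φ → Cf z φ) (hd : ∀ L D r, Pool.Agent.Helper66.Kiss.DlG.dlG L 0 D r = true → Good H P L 0) : AGX H P cA5_4_6_4 :=
  AGX_append (soundLP ctB_OKL hC hd tA5_4_6_4) (aA5_4_6_5 hC hd)

/-- boxes from number 3 -/
def cA5_4_6_3 : List Nat := bA5_4_6_3 ++ cA5_4_6_4

lemma aA5_4_6_3 (hC : ∀ z φ, H z φ → Cf z φ) (hd : ∀ L D r, Pool.Agent.Helper66.Kiss.DlG.dlG L 0 D r = true → Good H P L 0) : AGX H P cA5_4_6_3 :=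
  AGX_append (soundLP ctB_OKL hC hd tA5_4_6_3) (aA5_4_6_4 hC hd)

/-- boxes from number 2 -/
def cA5_4_6_2 : List Nat := bA5_4_6_2 ++ cA5_4_6_3

lemma aA5_4_6_2 (hC : ∀ z φ, H z φ → Cf z φ) (hd : ∀ L D r, Pool.Agent.Helper66.Kiss.DlG.dlG L 0 D r = true → Good H P L 0) : AGX H P cA5_4_6_2 :=
  AGX_append (soundLP ctB_OKL hC hd tA5_4_6_2) (aA5_4_6_3 hC hd)

/-- boxes from number 1 -/
def cA5_4_6_1 : List Nat := bA5_4_6_1 ++ cA5_4_6_2

lemma aA5_4_6_1 (hC : ∀ z φ, H z φ → Cf z φ) (hd : ∀ L D r, Pool.Agent.Helper66.Kiss.DlG.dlG L 0 D r = true → Good H P L 0) : AGX H P cA5_4_6_1 :=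
  AGX_append (soundLP ctB_OKL hC hd tA5_4_6_1) (aA5_4_6_2 hC hd)

/-- boxes from number 0 -/
def cA5_4_6_0 : List Nat := bA5_4_6_0 ++ cA5_4_6_1

lemma aA5_4_6_0 (hC : ∀ z φ, H z φ → Cf z φ) (hd : ∀ L D r, Pool.Agent.Helper66.Kiss.DlG.dlG L 0 D r = true → Good H P L 0) : AGX H P cA5_4_6_0 :=
  AGX_append (soundLP ctB_OKL hC hd tA5_4_6_0) (aA5_4_6_1 hC hd)

theorem topA5_4_6 : KL.runX KL.ctB (KL.dlX cA5_4_6_0) (KL.dec 3 0x10e00106000fe0499804990000f6000ee000e6000de000d6000ce000c6022a802298000be063d0000b6063c0000ae02288000a6018c80009e00096022c80008e063d000086018880007e000760006e00066010b80005e00818017980398800056063900004e063c000046075500003e063d000036022c80002e0188802298000260001e02298022a8022b800016049d0049c80000e049c0049b8049a8049980000604990049880 List.nil) 0x100000040000000000000001000000000000000000000000000000000000000000000000000000000000000001800051018000510180005101800051018001800180005101800180018000510180005101800051081d081666cda4c7d [] 0 = true := by decide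 +kernel

/-- the root box -/
theorem rootA5_4_6 (hC : ∀ z φ, H z φ → Cf z φ) (hd : ∀ L D r, Pool.Agent.Helper66.Kiss.DlG.dlG L 0 D r = true → Good H P L 0) :
    GoodX H P 0x100000040000000000000001000000000000000000000000000000000000000000000000000000000000000001800051018000510180005101800051018001800180005101800180018000510180005101800051081d081666cda4c7d :=
  soundLT ctB_OKL hC (aA5_4_6_0 hC hd) topA5_4_6

/-- boxes from number 3 -/
def cA5_4_7_3 : List Nat := bA5_4_7_3

lemma aA5_4_7_3 (hC : ∀ z φ, H z φ → Cf z φ) (hd : ∀ L D r, Pool.Agent.Helper66.Kiss.DlG.dlG L 0 D r = true → Good H P L 0) : AGX H P cA5_4_7_3 :=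
  (soundL0 ctB_OKL hC tA5_4_7_3)

/-- boxes from number 2 -/
def cA5_4_7_2 : List Nat := bA5_4_7_2 ++ cA5_4_7_3

lemma aA5_4_7_2 (hC : ∀ z φ, H z φ → Cf z φ) (hd : ∀ L D r, Pool.Agent.Helper66.Kiss.DlG.dlG L 0 D r = true → Good H P L 0) : AGX H P cA5_4_7_2 :=
  AGX_append (soundLP ctB_OKL hC hd tA5_4_7_2) (aA5_4_7_3 hC hd)

/-- boxes from number 1 -/
def cA5_4_7_1 : List Nat := bA5_4_7_1 ++ cA5_4_7_2

lemma aA5_4_7_1 (hC : ∀ z φ, H z φ → Cf z φ) (hd : ∀ L D r, Pool.Agent.Helper66.Kiss.DlG.dlG L 0 D r = true → Good H P L 0) : AGX H P cA5_4_7_1 :=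
  AGX_append (soundLP ctB_OKL hC hd tA5_4_7_1) (aA5_4_7_2 hC hd)

/-- boxes from number 0 -/
def cA5_4_7_0 : List Nat := bA5_4_7_0 ++ cA5_4_7_1

lemma aA5_4_7_0 (hC : ∀ z φ, H z φ → Cf z φ) (hd : ∀ L D r, Pool.Agent.Helper66.Kiss.DlG.dlG L 0 D r = true → Good H P L 0) : AGX H P cA5_4_7_0 :=
  AGX_append (soundL0 ctB_OKL hC tA5_4_7_0) (aA5_4_7_1 hC hd)

theorem topA5_4_7 : KL.runX KL.ctB (KL.dlX cA5_4_7_0) (KL.dec 1 0x4e000460003e00036049a804998049900002e000260001e00016049c00000e049b0049a8049980000604990049880 List.nil) 0x1000000000080000000000000001000000000000000000000000000000000000000000000000000000000000000001800051018000510180005101800180018000510180005101800180018000510180005101800051081d081669e10d925 [] 0 = true := by decide +kernel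

/-- the root box -/
theorem rootA5_4_7 (hC : ∀ z φ, H z φ → Cf z φ) (hd : ∀ L D r, Pool.Agent.Helper66.Kiss.DlG.dlG L 0 D r = true → Good H P L 0) :
    GoodX H P 0x1000000000080000000000000001000000000000000000000000000000000000000000000000000000000000000001800051018000510180005101800180018000510180005101800180018000510180005101800051081d081669e10d925 :=
  soundLT ctB_OKL hC (aA5_4_7_0 hC hd) topA5_4_7

/-- boxes from number 11 -/
def cA5_5_5_11 : List Nat := bA5_5_5_11

lemma aA5_5_5_11 (hC : ∀ z φ, H z φ → Cf z φ) (hd : ∀ L D r, Pool.Agent.Helper66.Kiss.DlG.dlG L 0 D r = true → Good H P L 0) : AGX H P cA5_5_5_11 :=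
  (soundL0 ctB_OKL hC tA5_5_5_11)

/-- boxes from number 10 -/
def cA5_5_5_10 : List Nat := bA5_5_5_10 ++ cA5_5_5_11

lemma aA5_5_5_10 (hC : ∀ z φ, H z φ → Cf z φ) (hd : ∀ L D r, Pool.Agent.Helper66.Kiss.DlG.dlG L 0 D r = true → Good H P L 0) : AGX H P cA5_5_5_10 :=
  AGX_append (soundLP ctB_OKL hC hd tA5_5_5_10) (aA5_5_5_11 hC hd)

/-- boxes from number 9 -/
def cA5_5_5_9 : List Nat := bA5_5_5_9 ++ cA5_5_5_10

lemma aA5_5_5_9 (hC : ∀ z φ, H z φ → Cf z φ) (hd : ∀ L D r, Pool.Agent.Helper66.Kiss.DlG.dlG L 0 D r = true → Good H P L 0) : AGX H P cA5_5_5_9 :=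
  AGX_append (soundLP ctB_OKL hC hd tA5_5_5_9) (aA5_5_5_10 hC hd)

/-- boxes from number 8 -/
def cA5_5_5_8 : List Nat := bA5_5_5_8 ++ cA5_5_5_9

lemma aA5_5_5_8 (hC : ∀ z φ, H z φ → Cf z φ) (hd : ∀ L D r, Pool.Agent.Helper66.Kiss.DlG.dlG L 0 D r = true → Good H P L 0) : AGX H P cA5_5_5_8 :=
  AGX_append (soundLP ctB_OKL hC hd tA5_5_5_8) (aA5_5_5_9 hC hd)

/-- boxes from number 7 -/
def cA5_5_5_7 : List Nat := bA5_5_5_7 ++ cA5_5_5_8

lemma aA5_5_5_7 (hC : ∀ z φ, H z φ → Cf z φ) (hd : ∀ L D r, Pool.Agent.Helper66.Kiss.DlG.dlG L 0 D r = true → Good H P L 0) : AGX H P cA5_5_5_7 :=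
  AGX_append (soundLP ctB_OKL hC hd tA5_5_5_7) (aA5_5_5_8 hC hd)

/-- boxes from number 6 -/
def cA5_5_5_6 : List Nat := bA5_5_5_6 ++ cA5_5_5_7

lemma aA5_5_5_6 (hC : ∀ z φ, H z φ → Cf z φ) (hd : ∀ L D r, Pool.Agent.Helper66.Kiss.DlG.dlG L 0 D r = true → Good H P L 0) : AGX H P cA5_5_5_6 :=
  AGX_append (soundLP ctB_OKL hC hd tA5_5_5_6) (aA5_5_5_7 hC hd)

/-- boxes from number 5 -/
def cA5_5_5_5 : List Nat := bA5_5_5_5 ++ cA5_5_5_6

lemma aA5_5_5_5 (hC : ∀ z φ, H z φ → Cf z φ) (hd : ∀ L D r, Pool.Agent.Helper66.Kiss.DlG.dlG L 0 D r = true → Good H P L 0) : AGX H P cA5_5_5_5 :=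
  AGX_append (soundLP ctB_OKL hC hd tA5_5_5_5) (aA5_5_5_6 hC hd)

/-- boxes from number 4 -/
def cA5_5_5_4 : List Nat := bA5_5_5_4 ++ cA5_5_5_5

lemma aA5_5_5_4 (hC : ∀ z φ, H z φ → Cf z φ) (hd : ∀ L D r, Pool.Agent.Helper66.Kiss.DlG.dlG L 0 D r = true → Good H P L 0) : AGX H P cA5_5_5_4 :=
  AGX_append (soundLP ctB_OKL hC hd tA5_5_5_4) (aA5_5_5_5 hC hd)

/-- boxes from number 3 -/
def cA5_5_5_3 : List Nat := bA5_5_5_3 ++ cA5_5_5_4

lemma aA5_5_5_3 (hC : ∀ z φ, H z φ → Cf z φ) (hd : ∀ L D r, Pool.Agent.Helper66.Kiss.DlG.dlG L 0 D r = true → Good H P L 0) : AGX H P cA5_5_5_3 :=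
  AGX_append (soundLP ctB_OKL hC hd tA5_5_5_3) (aA5_5_5_4 hC hd)

/-- boxes from number 2 -/
def cA5_5_5_2 : List Nat := bA5_5_5_2 ++ cA5_5_5_3

lemma aA5_5_5_2 (hC : ∀ z φ, H z φ → Cf z φ) (hd : ∀ L D r, Pool.Agent.Helper66.Kiss.DlG.dlG L 0 D r = true → Good H P L 0) : AGX H P cA5_5_5_2 :=
  AGX_append (soundLP ctB_OKL hC hd tA5_5_5_2) (aA5_5_5_3 hC hd)

/-- boxes from number 1 -/
def cA5_5_5_1 : List Nat := bA5_5_5_1 ++ cA5_5_5_2

lemma aA5_5_5_1 (hC : ∀ z φ, H z φ → Cf z φ) (hd : ∀ L D r, Pool.Agent.Helper66.Kiss.DlG.dlG L 0 D r = true → Good H P L 0) : AGX H P cA5_5_5_1 :=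
  AGX_append (soundLP ctB_OKL hC hd tA5_5_5_1) (aA5_5_5_2 hC hd)

/-- boxes from number 0 -/
def cA5_5_5_0 : List Nat := bA5_5_5_0 ++ cA5_5_5_1

lemma aA5_5_5_0 (hC : ∀ z φ, H z φ → Cf z φ) (hd : ∀ L D r, Pool.Agent.Helper66.Kiss.DlG.dlG L 0 D r = true → Good H P L 0) : AGX H P cA5_5_5_0 :=
  AGX_append (soundL0 ctB_OKL hC tA5_5_5_0) (aA5_5_5_1 hC hd)

theorem topA5_5_5 : KL.runX KL.ctB (KL.dlX cA5_5_5_0) (KL.dec 4 0x3a60039e04998003960038e003860037e003760036e003660035e003560034e003460033e07eb80103000336086c80032e07518039a003c9000326063b8017b00031e075080031606398022b0035c00030e07e480030606388002fe028d0002f6002ee002e6002de03020002d601340002ce07548010b0002c607508002be07238002b607518002ae06398002a6063c80029e06388022b000296028d00028e00bc0022c0002860027e002760026e002660025e0025607e98010a003ed00024e080c803c9000246075380023e06398035b0002360022e010a000226080880021e080c8002160020e010a000206080c8001fe08088010b0001f606398022b0001ee07508001e607548039c0001de063c8001d6063b800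1ce028d0001c6018c0001be06388018a0001b6018d0001ae001a60019e001960018e0018607eb80017e07508017b003ca0022b000176063b80016e07ec8035c000166063880015e028d000156072480014e001460013e017b000136063880012e063c8022b000126028d00011e00bc0022c000116075180010e016900010606398000fe000f6000ee000e607eb8000de06398000d601310000ce06388022b0000c608748000be063b8000b607ec8035c0000ae028d0000a6072480009e000960008e010a000086072380007e0639800076075080006e0754800066013100005e028d000056010c0022b00004e063c80004606388022c0022a00003e00b9000036018d002290049d00002e049c8049c000026049b8049b0049a00001e0499804990000160000e049980000604990049880 List.nil) 0x210000000000000000002000000000000000000000000000000000000000000000000000000000000000001800051018000510180005101800051018000510180018001800051018000510180005101800051081d08166610fb2ef [] 0 = true := by decide +kernel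

/-- the root box -/
theorem rootA5_5_5 (hC : ∀ z φ, H z φ → Cf z φ) (hd : ∀ L D r, Pool.Agent.Helper66.Kiss.DlG.dlG L 0 D r = true → Good H P L 0) :
    GoodX H P 0x210000000000000000002000000000000000000000000000000000000000000000000000000000000000001800051018000510180005101800051018000510180018001800051018000510180005101800051081d08166610fb2ef :=
  soundLT ctB_OKL hC (aA5_5_5_0 hC hd) topA5_5_5

/-- boxes from number 0 -/
def cA5_5_6_0 : List Nat := bA5_5_6_0

lemma aA5_5_6_0 (hC : ∀ z φ, H z φ → Cf z φ) (hd : ∀ L D r, Pool.Agent.Helper66.Kiss.DlG.dlG L 0 D r = true → Good H P L 0) : AGX H P cA5_5_6_0 :=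
  (soundL0 ctB_OKL hC tA5_5_6_0)

theorem topA5_5_6 : KL.runX KL.ctB (KL.dlX cA5_5_6_0) (KL.dec 0 0x160000e0499000006049880 List.nil) 0x100400000000000000000002000000000000000000000000000000000000000000000000000000000000000001800051018000510180005101800051018001800180018001800051018000510180005101800051081d081662d18b906 [] 0 = true := by decide +kernel

/-- the root box -/
theorem rootA5_5_6 (hC : ∀ z φ, H z φ → Cf z φ) (hd : ∀ L D r, Pool.Agent.Helper66.Kiss.DlG.dlG L 0 D r = true → Good H P L 0) :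
    GoodX H P 0x100400000000000000000002000000000000000000000000000000000000000000000000000000000000000001800051018000510180005101800051018001800180018001800051018000510180005101800051081d081662d18b906 :=
  soundLT ctB_OKL hC (aA5_5_6_0 hC hd) topA5_5_6

end Pool.Agent.Helper66.KD
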