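import Pool.Agent.Helper66.Kiss.TopX
import Pool.Agent.Helper66.Kiss.DlG3
import Pool.Agent.Helper54.KB.B1
import Pool.Agent.Helper54.KB.B2
import Pool.Agent.Helper54.KB.B3

set_option autoImplicit false
set_option maxRecDepth 10000

/-! # The tilts `k` in `[0, 36]` -/

namespace Pool.Agent.Helper66.Kiss.Dl

open Real Pool.Agent.Helper66.Kiss Pool.Agent.Helper54.KA Pool.Agent.Helper54.KB

lemma hCB : ∀ z φ, HSB z φ → Cf z φ := fun _ _ h => h.cf

lemma hDB : ∀ L D r, DlG.dlH L 0 D r = true → Helper54.KA.Good HSB PR L 0 :=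
  fun L D r h => DlG.dlH_root L 0 D r h

theorem covB1 : Cov 0 9 :=
  covBX (lo := 2032) (by norm_num) (by norm_num) (by norm_num) (by norm_num) (by norm_num)
    (by norm_num) (by decide +kernel : Nat.beq (rootB 0 9 2032) 0x180007f0180007f0180007f0180007f0180007f0180007f0180007f0180007f0180007f0180007f08009800056da447b = true) (rootB1 hCB hDB)

theorem covB2 : Cov 9 18 :=
  covBX (lo := 2016) (by norm_num) (by norm_num) (by norm_num) (by norm_num) (by norm_num)
    (by norm_num) (by decide +kernel : Nat.beq (rootB 9 18 2016) 0x180007e0180007e0180007e0180007e0180007e0180007e0180007e0180007e0180007e0180007e0801280094b3f0924 = true) (rootB2 hCB hDB)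

theorem covB3 : Cov 18 36 :=
  covBX (lo := 1984) (by norm_num) (by norm_num) (by norm_num) (by norm_num) (by norm_num)
    (by norm_num) (by decide +kernel : Nat.beq (rootB 18 36 1984) 0x180007c0180007c0180007c0180007c0180007c0180007c0180007c0180007c0180007c0180007c0802480123408926d = true) (rootB3 hCB hDB)

/-- **the tilts `k` in `[0, 36]`** -/
theorem covB036 : Cov 0 36 := (covB1.trans covB2).trans covB3

end Pool.Agent.Helper66.Kiss.Dl
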