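import Pool.Agent.Helper54.KA.TiltA
import Pool.Agent.Helper66.KD.SB
import Pool.Agent.Helper66.KD.SA1
import Pool.Agent.Helper66.KD.SA2
import Pool.Agent.Helper66.KD.SA3
import Pool.Agent.Helper66.KD.SA4
import Pool.Agent.Helper66.KD.SA5

set_option autoImplicit false

/-! # All tilts -/

namespace Pool.Agent.Helper66.Kiss.Dl

/-- **the tilts `k` in `[464, 855]`** -/
theorem covTilt : Cov 464 855 := fun _ _ h l1 _ => (Helper54.KA.no_tiltA h l1).elim

/-- **all tilts** -/
theorem cov_all : Cov 0 855 :=
  covB036.trans (covA1.trans (covA2.trans (covA3.trans (covA4.trans (covA5.trans covTilt)))))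

end Pool.Agent.Helper66.Kiss.Dl
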